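import Pool.Agent.H635.RF.Small0
import Pool.Graph.R_seed8.Y588.Gen

/-!
# An iteration with finite supports, stems and promises: the definitions
-/

set_option autoImplicit false
set_option linter.unreachableTactic false
set_option linter.unusedTactic false
set_option linter.unusedSectionVars false

namespace Pool.Agent.H635.RF

open Pool.Agent.W868 Pool.Agent.W868.GM Pool.Agent.Y588
open Pool.Agent.H635.RB (Fi dfn_fi fin_mem)
open ZFSet (pair)

/-- The parameters of the iteration: the set `E` of the entries of the stems, the relations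
`Vl` (the entry `e` is allowed at the place `m`), `Cn` (the entry agrees with the value of the
label), `Al` (the entry allows the value `v`), and the version `c`. -/
structure Par where
  E : ZFSet.{0}
  Vl : ZFSet.{0}
  Cn : ZFSet.{0}
  Al : ZFSet.{0}
  c : Prop

/-- A part of a stem. -/
noncomputable def sa (b t m e : ZFSet.{0}) : ZFSet.{0} := pair (pair b t) (pair ∅ (pair m e))

/-- A promise. -/
noncomputable def pa (b t s : ZFSet.{0}) : ZFSet.{0} := pair (pair b t) (pair {∅} s)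

/-- The block of an atom. -/
noncomputable def blk (z : ZFSet.{0}) : ZFSet.{0} := fs (fs z)

/-- The part of a condition below `β`. -/
noncomputable def rs (p β : ZFSet.{0}) : ZFSet.{0} := ZFSet.sep (fun z => blk z ∈ β) p

/-- `r` decides that the value of `s` at `m` is `v`. -/
def Dc (P L s r m v : ZFSet.{0}) : Prop := ∃ q ∈ P, pair (pair m v) q ∈ s ∧ pair r q ∈ L

/-- `r` forces that the value of `s` at `m` is in the relation `C` to `e`. -/
def Fo (P L C r s m e : ZFSet.{0}) : Prop :=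
  ∀ r₁ ∈ P, pair r₁ r ∈ L → ∃ r₂ ∈ P, pair r₂ r₁ ∈ L ∧
    ∃ v ∈ ZFSet.omega, pair e v ∈ C ∧ Dc P L s r₂ m v

/-- `s` is a name for a function. -/
def Nmp (P L s : ZFSet.{0}) : Prop :=
  (∀ m ∈ ZFSet.omega, ∀ r ∈ P, ∃ r₂ ∈ P, pair r₂ r ∈ L ∧ ∃ v ∈ ZFSet.omega, Dc P L s r₂ m v) ∧
  ∀ m ∈ ZFSet.omega, ∀ r ∈ P, ∀ v ∈ ZFSet.omega, ∀ v' ∈ ZFSet.omega,
    Dc P L s r m v → Dc P L s r m v' → v = v'

/-- The set of the names for functions. -/
noncomputable def Nms (M : Set ZFSet.{0}) (P L : ZFSet.{0}) : ZFSet.{0} :=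
  ZFSet.sep (fun s => Nmp P L s) (pwM M (ZFSet.prod (ZFSet.prod ZFSet.omega ZFSet.omega) P))

/-- The set of the labels. -/
noncomputable def Lb (π : Par) (N : ZFSet.{0}) : ZFSet.{0} :=
  ZFSet.sep (fun _ => π.c) N ∪ ZFSet.sep (fun _ => ¬ π.c) {∅}

/-- The atoms of the block `β`. -/
noncomputable def ats (M : Set ZFSet.{0}) (π : Par) (β P L : ZFSet.{0}) : ZFSet.{0} :=
  ZFSet.prod (ZFSet.prod {β} (Lb π (Nms M P L)))
    (ZFSet.prod {∅} (ZFSet.prod ZFSet.omega π.E) ∪ ZFSet.prod {{∅}} (Nms M P L))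

/-- The promises of `p` at the coordinate `i`. -/
noncomputable def Fs (p i : ZFSet.{0}) : ZFSet.{0} :=
  im (fun z => sn (sn z)) (ZFSet.sep (fun z => fs z = i ∧ fs (sn z) = {∅}) p)

/-- The domain of the stem of `p` at the coordinate `i`. -/
noncomputable def Ls (p i : ZFSet.{0}) : ZFSet.{0} :=
  im (fun z => fs (sn (sn z))) (ZFSet.sep (fun z => fs z = i ∧ fs (sn z) = ∅) p)

/-- The number of elements of `X` is at most the one of `Y`. -/
def Sz (X Y : ZFSet.{0}) : Prop := {x | x ∈ X}.ncard ≤ {y | y ∈ Y}.ncard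

/-- The conditions. -/
def Cd (π : Par) (g p : ZFSet.{0}) : Prop :=
  Fi p ∧
  (∀ z ∈ p, ∀ z' ∈ p, fs z = fs z' → fs (sn z) = ∅ → fs (sn z') = ∅ →
    fs (sn (sn z)) = fs (sn (sn z')) → z = z') ∧
  (∀ z ∈ p, fs (sn z) = ∅ → ∀ m ∈ fs (sn (sn z)), ∃ z' ∈ p, fs z' = fs z ∧ fs (sn z') = ∅ ∧
    fs (sn (sn z')) = m) ∧
  (∀ z ∈ p, fs (sn z) = ∅ → sn (sn z) ∈ π.Vl) ∧
  (π.c → ∀ z ∈ p, fs (sn z) = ∅ → Fo (fs (ap g (blk z))) (sn (ap g (blk z))) π.Cn
    (rs p (blk z)) (sn (fs z)) (fs (sn (sn z))) (sn (sn (sn z)))) ∧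
  (π.c → ∀ z ∈ p, Sz (Fs p (fs z)) (Ls p (fs z)))

/-- The order: `q` is stronger than `p`. -/
def Od (π : Par) (g q p : ZFSet.{0}) : Prop :=
  p ⊆ q ∧ ∀ z ∈ p, fs (sn z) = {∅} → ∀ z' ∈ q, z' ∉ p → fs z' = fs z → fs (sn z') = ∅ →
    Fo (fs (ap g (blk z))) (sn (ap g (blk z))) π.Al (rs q (blk z)) (sn (sn z))
      (fs (sn (sn z'))) (sn (sn (sn z')))

/-- The set of the conditions below `α`. -/
noncomputable def Pg (M : Set ZFSet.{0}) (π : Par) (α g : ZFSet.{0}) : ZFSet.{0} :=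
  ZFSet.sep (fun p => Cd π g p)
    (pwM M (ZFSet.sUnion (im (fun β => ats M π β (fs (ap g β)) (sn (ap g β))) α)))

/-- The step of the recursion. -/
noncomputable def Gop (M : Set ZFSet.{0}) (π : Par) (α g : ZFSet.{0}) : ZFSet.{0} :=
  pair (Pg M π α g)
    (ZFSet.sep (fun z => Od π g (fs z) (sn z)) (ZFSet.prod (Pg M π α g) (Pg M π α g)))

/-- The iteration. -/
noncomputable def Ph (M : Set ZFSet.{0}) (π : Par) : ZFSet.{0} → ZFSet.{0} :=
  wfF (fun z => z) ZFSet.mem_wf (Gop M π)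

/-- The conditions of the iteration of length `α`. -/
noncomputable def PP (M : Set ZFSet.{0}) (π : Par) (α : ZFSet.{0}) : ZFSet.{0} := fs (Ph M π α)

/-- The order of the iteration of length `α`. -/
noncomputable def LL (M : Set ZFSet.{0}) (π : Par) (α : ZFSet.{0}) : ZFSet.{0} := sn (Ph M π α)

/-! ### Definability -/

section dfn

variable {M : Set ZFSet.{0}} (hM : IsZF M) {n : ℕ}

include hM

theorem dfn_rs {F G : (Fin n → ZFSet.{0}) → ZFSet.{0}} (hF : DfnF M M F) (hG : DfnF M M G) :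
    DfnF M M fun v => rs (F v) (G v) := by
  have hB := hM.base
  refine hM.sep' (Q := fun z w => blk z ∈ G w) hF ?_
  exact Dfn.mem (hM.fs' (hM.fs' (DfnF.proj 0))) hG.tail

theorem dfn_blk {F : (Fin n → ZFSet.{0}) → ZFSet.{0}} (hF : DfnF M M F) :
    DfnF M M fun v => blk (F v) := hM.fs' (hM.fs' hF)

theorem omega_dfn : DfnF M M fun _ : Fin n → ZFSet.{0} => ZFSet.omega := DfnF.const hM.infinity

theorem dfn_Dc {P L s r m v : (Fin n → ZFSet.{0}) → ZFSet.{0}} (hP : DfnF M M P)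
    (hL : DfnF M M L) (hs : DfnF M M s) (hr : DfnF M M r) (hm : DfnF M M m) (hv : DfnF M M v) :
    Dfn M M fun w => Dc (P w) (L w) (s w) (r w) (m w) (v w) := by
  have hB := hM.base
  unfold Dc
  refine hB.bex (Q := fun q w => pair (pair (m w) (v w)) q ∈ s w ∧ pair (r w) q ∈ L w) hP ?_
  have h1 := hL.tail
  have h2 := hs.tail
  have h3 := hr.tail
  have h4 := hm.tail
  have h5 := hv.tail
  (repeat' first
      | assumption
      | exact DfnF.proj _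
      | apply Dfn.and | apply Dfn.mem | apply hB.pair')

theorem dfn_Fo {P L C r s m e : (Fin n → ZFSet.{0}) → ZFSet.{0}} (hP : DfnF M M P)
    (hL : DfnF M M L) (hC : DfnF M M C) (hr : DfnF M M r) (hs : DfnF M M s) (hm : DfnF M M m)
    (he : DfnF M M e) :
    Dfn M M fun w => Fo (P w) (L w) (C w) (r w) (s w) (m w) (e w) := by
  have hB := hM.base
  unfold Fo
  refine hB.ball (Q := fun r₁ w => pair r₁ (r w) ∈ L w → ∃ r₂ ∈ P w, pair r₂ r₁ ∈ L w ∧
    ∃ v ∈ ZFSet.omega, pair (e w) v ∈ C w ∧ Dc (P w) (L w) (s w) r₂ (m w) v) hP ?_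
  refine Dfn.imp (Dfn.mem (hB.pair' (DfnF.proj 0) hr.tail) hL.tail) ?_
  refine hB.bex (Q := fun r₂ w => pair r₂ (w 0) ∈ L (Fin.tail w) ∧
    ∃ v ∈ ZFSet.omega, pair (e (Fin.tail w)) v ∈ C (Fin.tail w) ∧
      Dc (P (Fin.tail w)) (L (Fin.tail w)) (s (Fin.tail w)) r₂ (m (Fin.tail w)) v) hP.tail ?_
  refine Dfn.and (Dfn.mem (hB.pair' (DfnF.proj 0) (DfnF.proj 1)) hL.tail.tail) ?_
  refine hB.bex (Q := fun v w => pair (e (Fin.tail (Fin.tail w))) v ∈ C (Fin.tail (Fin.tail w)) ∧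
      Dc (P (Fin.tail (Fin.tail w))) (L (Fin.tail (Fin.tail w))) (s (Fin.tail (Fin.tail w)))
        (w 0) (m (Fin.tail (Fin.tail w))) v) (omega_dfn hM) ?_
  refine Dfn.and (Dfn.mem (hB.pair' he.tail.tail.tail (DfnF.proj 0)) hC.tail.tail.tail) ?_
  exact dfn_Dc hM hP.tail.tail.tail hL.tail.tail.tail hs.tail.tail.tail (DfnF.proj 1)
    hm.tail.tail.tail (DfnF.proj 0)

theorem dfn_Nmp {P L s : (Fin n → ZFSet.{0}) → ZFSet.{0}} (hP : DfnF M M P)
    (hL : DfnF M M L) (hs : DfnF M M s) : Dfn M M fun w => Nmp (P w) (L w) (s w) := by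
  have hB := hM.base
  have h : Dfn M M fun w : Fin 3 → ZFSet.{0} => Nmp (w 0) (w 1) (w 2) := by
    unfold Nmp
    have ho : ∀ {k : ℕ}, DfnF M M fun _ : Fin k → ZFSet.{0} => ZFSet.omega := omega_dfn hM
    (repeat' first
      | exact ho
      | assumption
      | exact DfnF.proj _
      | apply Dfn.and | apply Dfn.imp | apply hB.bex | apply hB.ball | apply dfn_Dc hM
      | apply Dfn.mem | apply Dfn.eq | apply hB.pair')
  exact Dfn.comp3 h hP hL hs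

theorem dfn_Nms {P L : (Fin n → ZFSet.{0}) → ZFSet.{0}} (hP : DfnF M M P)
    (hL : DfnF M M L) : DfnF M M fun w => Nms M (P w) (L w) := by
  unfold Nms
  refine hM.sep' (Q := fun s w => Nmp (P w) (L w) s) (pwM' hM (hM.prod' (hM.prod' (omega_dfn hM)
    (omega_dfn hM)) hP)) ?_
  exact dfn_Nmp hM hP.tail hL.tail (DfnF.proj 0)

theorem dfn_Lb {π : Par} {N : (Fin n → ZFSet.{0}) → ZFSet.{0}} (hN : DfnF M M N) :
    DfnF M M fun w => Lb π (N w) := by
  have hB := hM.base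
  have h1 : ({∅} : ZFSet.{0}) ∈ M := hM.single_mem hM.empty_mem
  unfold Lb
  refine hB.union' (hM.sep' (Q := fun _ _ => π.c) hN (Dfn.prop _))
    (hM.sep' (Q := fun _ _ => ¬ π.c) (DfnF.const h1) (Dfn.prop _))

theorem dfn_ats {π : Par} (hE : π.E ∈ M) {β P L : (Fin n → ZFSet.{0}) → ZFSet.{0}}
    (hβ : DfnF M M β) (hP : DfnF M M P)
    (hL : DfnF M M L) : DfnF M M fun w => ats M π (β w) (P w) (L w) := by
  have hB := hM.base
  have h1 : ({∅} : ZFSet.{0}) ∈ M := hM.single_mem hM.empty_mem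
  have h2 : ({{∅}} : ZFSet.{0}) ∈ M := hM.single_mem h1
  unfold ats
  refine hM.prod' (hM.prod' (hB.single' hβ) (dfn_Lb hM (dfn_Nms hM hP hL))) ?_
  exact hB.union' (hM.prod' (DfnF.const h1) (hM.prod' (omega_dfn hM) (DfnF.const hE)))
    (hM.prod' (DfnF.const h2) (dfn_Nms hM hP hL))

theorem dfn_Fs {p i : (Fin n → ZFSet.{0}) → ZFSet.{0}} (hp : DfnF M M p) (hi : DfnF M M i) :
    DfnF M M fun w => Fs (p w) (i w) := by
  have hB := hM.base
  have h1 : ({∅} : ZFSet.{0}) ∈ M := hM.single_mem hM.empty_mem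
  unfold Fs
  refine hM.im' (h := fun z _ => sn (sn z)) (hM.sep' (Q := fun z w => fs z = i w ∧
    fs (sn z) = {∅}) hp ?_) (hM.sn' (hM.sn' (DfnF.proj 0)))
  exact (Dfn.eq (hM.fs' (DfnF.proj 0)) hi.tail).and
    (Dfn.eq (hM.fs' (hM.sn' (DfnF.proj 0))) (DfnF.const h1))

theorem dfn_Ls {p i : (Fin n → ZFSet.{0}) → ZFSet.{0}} (hp : DfnF M M p) (hi : DfnF M M i) :
    DfnF M M fun w => Ls (p w) (i w) := by
  have hB := hM.base
  unfold Ls
  refine hM.im' (h := fun z _ => fs (sn (sn z))) (hM.sep' (Q := fun z w => fs z = i w ∧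
    fs (sn z) = ∅) hp ?_) (hM.fs' (hM.sn' (hM.sn' (DfnF.proj 0))))
  exact (Dfn.eq (hM.fs' (DfnF.proj 0)) hi.tail).and
    (Dfn.eq (hM.fs' (hM.sn' (DfnF.proj 0))) (DfnF.const hM.empty_mem))

/-- Comparison of finite sets in the model. -/
theorem sz_iff {X Y : ZFSet.{0}} (hX : X ∈ M) (hY : Y ∈ M) (fX : Fi X) (fY : Fi Y) :
    Sz X Y ↔ ∃ f ∈ M, IsInj X Y f := by
  classical
  constructor
  · intro h
    have h1 : ∃ F : ZFSet.{0} → ZFSet.{0}, (∀ x ∈ X, F x ∈ Y) ∧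
        ∀ x ∈ X, ∀ y ∈ X, F x = F y → x = y := by
      have hfX : {x | x ∈ X}.Finite := fX
      have hfY : {x | x ∈ Y}.Finite := fY
      obtain ⟨F, h2⟩ := (Set.Finite.exists_injOn_of_encard_le (s := {x | x ∈ X})
        (t := {y | y ∈ Y}) hfX (by
          rw [← hfX.cast_ncard_eq, ← hfY.cast_ncard_eq]
          exact_mod_cast h))
      exact ⟨F, fun x hx => h2.1 hx, fun x hx y hy hxy => h2.2 hx hy hxy⟩
    obtain ⟨F, h2, h3⟩ := h1
    refine ⟨gr F X, ?_, ⟨?_, ?_⟩, ?_⟩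
    · refine fin_mem hM ?_ fun z hz => ?_
      · refine Set.Finite.subset (Set.Finite.image (fun u => pair u (F u)) fX) ?_
        intro z hz
        obtain ⟨u, hu, rfl⟩ := mem_gr.1 hz
        exact ⟨u, hu, rfl⟩
      · obtain ⟨u, hu, rfl⟩ := mem_gr.1 hz
        exact hM.pair_mem (hM.trans _ hX _ hu) (hM.trans _ hY _ (h2 u hu))
    · intro z hz
      obtain ⟨u, hu, rfl⟩ := mem_gr.1 hz
      exact ZFSet.pair_mem_prod.2 ⟨hu, h2 u hu⟩
    · intro u hu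
      exact ⟨F u, pair_mem_gr.2 ⟨hu, rfl⟩, fun y hy => (pair_mem_gr.1 hy).2⟩
    · intro a b y ha hb
      obtain ⟨h4, h5⟩ := pair_mem_gr.1 ha
      obtain ⟨h6, h7⟩ := pair_mem_gr.1 hb
      exact h3 a h4 b h6 (h5.symm.trans h7)
  · rintro ⟨f, -, hf⟩
    choose! F hF using fun x (hx : x ∈ X) => fun_exists hf.1 hx
    refine Set.ncard_le_ncard_of_injOn F (fun x hx => (hF x hx).1) ?_ fY
    intro x hx y hy hxy
    have h1 := (hF x hx).2
    have h2 := (hF y hy).2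
    have hxy' : F x = F y := hxy
    rw [hxy'] at h1
    exact hf.2 x y _ h1 h2

theorem dfn_sz {F G : (Fin n → ZFSet.{0}) → ZFSet.{0}} (hF : DfnF M M F) (hG : DfnF M M G) :
    Dfn M M fun w => Fi (F w) ∧ Fi (G w) ∧ Sz (F w) (G w) := by
  have hB := hM.base
  have h1 : Dfn M M fun w => Fi (F w) ∧ Fi (G w) ∧ ∃ f ∈ M, IsInj (F w) (G w) f := by
    refine (dfn_fi hM hF).and ((dfn_fi hM hG).and ?_)
    exact Dfn.ex (Q := fun f w => IsInj (F w) (G w) f) (hB.isInj' hF.tail hG.tail (DfnF.proj 0))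
  refine h1.congr fun w hw => ?_
  constructor
  · rintro ⟨h2, h3, h4⟩
    exact ⟨h2, h3, (sz_iff hM (hF.1 w hw) (hG.1 w hw) h2 h3).2 h4⟩
  · rintro ⟨h2, h3, h4⟩
    exact ⟨h2, h3, (sz_iff hM (hF.1 w hw) (hG.1 w hw) h2 h3).1 h4⟩

end dfn

theorem fi_Fs {p i : ZFSet.{0}} (h : Fi p) : Fi (Fs p i) := by
  refine Set.Finite.subset (Set.Finite.image (fun z => sn (sn z)) h) ?_
  intro x hx
  obtain ⟨z, hz, rfl⟩ := mem_im.1 hx
  exact ⟨z, (ZFSet.mem_sep.1 hz).1, rfl⟩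

theorem fi_Ls {p i : ZFSet.{0}} (h : Fi p) : Fi (Ls p i) := by
  refine Set.Finite.subset (Set.Finite.image (fun z => fs (sn (sn z))) h) ?_
  intro x hx
  obtain ⟨z, hz, rfl⟩ := mem_im.1 hx
  exact ⟨z, (ZFSet.mem_sep.1 hz).1, rfl⟩

/-- The parameters are in the model. -/
structure POk (M : Set ZFSet.{0}) (π : Par) : Prop where
  E : π.E ∈ M
  Vl : π.Vl ∈ M
  Cn : π.Cn ∈ M
  Al : π.Al ∈ M

section dfn2

variable {M : Set ZFSet.{0}} (hM : IsZF M) {π : Par} (hπ : POk M π) {n : ℕ}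

include hM hπ

theorem dfn_Cd {g p : (Fin n → ZFSet.{0}) → ZFSet.{0}} (hg : DfnF M M g) (hp : DfnF M M p) :
    Dfn M M fun w => Cd π (g w) (p w) := by
  have hB := hM.base
  have hCn := hπ.Cn
  have hVl := hπ.Vl
  have h0 := hM.empty_mem
  have h1 : ({∅} : ZFSet.{0}) ∈ M := hM.single_mem hM.empty_mem
  refine Dfn.comp2 (Q := Cd π) ?_ hg hp
  have h2 : Dfn M M fun w : Fin 2 → ZFSet.{0} =>
    Fi (w 1) ∧
    (∀ z ∈ w 1, ∀ z' ∈ w 1, fs z = fs z' → fs (sn z) = ∅ → fs (sn z') = ∅ →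
      fs (sn (sn z)) = fs (sn (sn z')) → z = z') ∧
    (∀ z ∈ w 1, fs (sn z) = ∅ → ∀ m ∈ fs (sn (sn z)), ∃ z' ∈ w 1, fs z' = fs z ∧
      fs (sn z') = ∅ ∧ fs (sn (sn z')) = m) ∧
    (∀ z ∈ w 1, fs (sn z) = ∅ → sn (sn z) ∈ π.Vl) ∧
    (π.c → ∀ z ∈ w 1, fs (sn z) = ∅ → Fo (fs (ap (w 0) (blk z))) (sn (ap (w 0) (blk z))) π.Cn
      (rs (w 1) (blk z)) (sn (fs z)) (fs (sn (sn z))) (sn (sn (sn z)))) ∧
    (π.c → ∀ z ∈ w 1, Fi (Fs (w 1) (fs z)) ∧ Fi (Ls (w 1) (fs z)) ∧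
      Sz (Fs (w 1) (fs z)) (Ls (w 1) (fs z))) := by
    (repeat' first
      | exact Dfn.prop _
      | assumption
      | exact DfnF.proj _
      | exact omega_dfn hM
      | exact DfnF.const (by assumption)
      | apply dfn_fi hM
      | apply dfn_sz hM
      | apply Dfn.and | apply Dfn.imp | apply hB.bex | apply hB.ball | apply dfn_Fo hM
      | apply Dfn.mem | apply Dfn.eq | apply hB.pair' | apply dfn_rs hM | apply dfn_blk hM
      | apply dfn_Fs hM | apply dfn_Ls hM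
      | apply hM.ap' | apply hM.fs' | apply hM.sn')
  refine h2.congr fun w hw => ?_
  unfold Cd
  constructor
  · rintro ⟨a1, a2, a3, a4, a5, a6⟩
    exact ⟨a1, a2, a3, a4, a5, fun hc z hz => (a6 hc z hz).2.2⟩
  · rintro ⟨a1, a2, a3, a4, a5, a6⟩
    exact ⟨a1, a2, a3, a4, a5, fun hc z hz => ⟨fi_Fs a1, fi_Ls a1, a6 hc z hz⟩⟩

theorem dfn_Od {g q p : (Fin n → ZFSet.{0}) → ZFSet.{0}} (hg : DfnF M M g) (hq : DfnF M M q)
    (hp : DfnF M M p) : Dfn M M fun w => Od π (g w) (q w) (p w) := by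
  have hB := hM.base
  have hAl := hπ.Al
  have h0 := hM.empty_mem
  have h1 : ({∅} : ZFSet.{0}) ∈ M := hM.single_mem hM.empty_mem
  refine Dfn.comp3 (Q := Od π) ?_ hg hq hp
  unfold Od
  (repeat' first
      | exact Dfn.prop _
      | assumption
      | exact DfnF.proj _
      | exact omega_dfn hM
      | exact DfnF.const (by assumption)
      | apply Dfn.not
      | apply hB.subset'
      | apply Dfn.and | apply Dfn.imp | apply hB.bex | apply hB.ball | apply dfn_Fo hM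
      | apply Dfn.mem | apply Dfn.eq | apply hB.pair' | apply dfn_rs hM | apply dfn_blk hM
      | apply hM.ap' | apply hM.fs' | apply hM.sn')

theorem dfn_Pg {α g : (Fin n → ZFSet.{0}) → ZFSet.{0}} (hα : DfnF M M α) (hg : DfnF M M g) :
    DfnF M M fun w => Pg M π (α w) (g w) := by
  have hB := hM.base
  unfold Pg
  refine hM.sep' (Q := fun p w => Cd π (g w) p) (pwM' hM (hB.sUnion' (hM.im' (h := fun β w =>
    ats M π β (fs (ap (g w) β)) (sn (ap (g w) β))) hα ?_))) ?_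
  · exact dfn_ats hM hπ.E (DfnF.proj 0) (hM.fs' (hM.ap' hg.tail (DfnF.proj 0)))
      (hM.sn' (hM.ap' hg.tail (DfnF.proj 0)))
  · exact dfn_Cd hM hπ hg.tail (DfnF.proj 0)

theorem dfn_Gop : DfnF M M fun w : Fin 2 → ZFSet.{0} => Gop M π (w 0) (w 1) := by
  have hB := hM.base
  unfold Gop
  refine hB.pair' (dfn_Pg hM hπ (DfnF.proj 0) (DfnF.proj 1)) (hM.sep' (Q := fun z w =>
    Od π (w 1) (fs z) (sn z)) (hM.prod' (dfn_Pg hM hπ (DfnF.proj 0) (DfnF.proj 1))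
      (dfn_Pg hM hπ (DfnF.proj 0) (DfnF.proj 1))) ?_)
  exact dfn_Od hM hπ (DfnF.proj 2) (hM.fs' (DfnF.proj 0)) (hM.sn' (DfnF.proj 0))

theorem dfn_Ph : DfnF M M fun w : Fin 1 → ZFSet.{0} => Ph M π (w 0) :=
  hM.memrec (dfn_Gop hM hπ) fun z => wfF_eq _ _ _ z

theorem dfn_PP {F : (Fin n → ZFSet.{0}) → ZFSet.{0}} (hF : DfnF M M F) :
    DfnF M M fun w => PP M π (F w) := hM.fs' (DfnF.comp1 (f := Ph M π) (dfn_Ph hM hπ) hF)

theorem dfn_LL {F : (Fin n → ZFSet.{0}) → ZFSet.{0}} (hF : DfnF M M F) :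
    DfnF M M fun w => LL M π (F w) := hM.sn' (DfnF.comp1 (f := Ph M π) (dfn_Ph hM hπ) hF)

theorem PP_mem {α : ZFSet.{0}} (hα : α ∈ M) : PP M π α ∈ M :=
  (dfn_PP hM hπ (DfnF.proj 0)).1 (fun _ : Fin 1 => α) fun _ => hα

theorem LL_mem {α : ZFSet.{0}} (hα : α ∈ M) : LL M π α ∈ M :=
  (dfn_LL hM hπ (DfnF.proj 0)).1 (fun _ : Fin 1 => α) fun _ => hα

end dfn2

end Pool.Agent.H635.RF
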