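import Pool.Agent.H635.RF.Ct

/-!
# The countable chain condition, and bounds for names
-/

set_option autoImplicit false
set_option linter.unreachableTactic false
set_option linter.unusedTactic false
set_option linter.unusedSectionVars false
set_option linter.unusedVariables false

namespace Pool.Agent.H635.RF

open Pool.Agent.W868 Pool.Agent.W868.GM Pool.Agent.Y588
open Pool.Agent.H635.RB (Fi dfn_fi fin_mem nat_mem_iff mem_nat)
open ZFSet (pair)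

theorem fi_nat (n : ℕ) : Fi (nat n) := by
  have h1 : {x | x ∈ nat n} ⊆ nat '' (Finset.range n) := by
    intro x hx
    obtain ⟨i, hi, rfl⟩ := mem_nat.1 hx
    exact ⟨i, by simpa using hi, rfl⟩
  exact Set.Finite.subset (Set.Finite.image _ (Finset.finite_toSet _)) h1

theorem set_prod (A B : ZFSet.{0}) : {x | x ∈ ZFSet.prod A B} =
    (fun p : ZFSet.{0} × ZFSet.{0} => pair p.1 p.2) '' ({x | x ∈ A} ×ˢ {x | x ∈ B}) := by
  ext x
  simp only [Set.mem_ofPred_eq, Set.mem_image, Set.mem_prod, Prod.exists]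
  rw [ZFSet.mem_prod]
  constructor
  · rintro ⟨a, ha, b, hb, rfl⟩
    exact ⟨a, b, ⟨ha, hb⟩, rfl⟩
  · rintro ⟨a, b, ⟨ha, hb⟩, rfl⟩
    exact ⟨a, ha, b, hb, rfl⟩

theorem fi_prod {A B : ZFSet.{0}} (hA : Fi A) (hB : Fi B) : Fi (ZFSet.prod A B) := by
  unfold Fi
  rw [set_prod]
  exact Set.Finite.image _ (Set.Finite.prod hA hB)

theorem ncard_prod (A B : ZFSet.{0}) : {x | x ∈ ZFSet.prod A B}.ncard =
    {x | x ∈ A}.ncard * {x | x ∈ B}.ncard := by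
  rw [set_prod, Set.ncard_image_of_injective, Set.ncard_prod]
  rintro ⟨a, b⟩ ⟨c, d⟩ h
  obtain ⟨h1, h2⟩ := ZFSet.pair_inj.1 h
  exact Prod.ext h1 h2

theorem nF_union (p q β t : ZFSet.{0}) : nF (p ∪ q) β t ≤ nF p β t + nF q β t := by
  have : {s | pa β t s ∈ p ∪ q} = {s | pa β t s ∈ p} ∪ {s | pa β t s ∈ q} :=
    Set.ext fun s => ZFSet.mem_union
  rw [nF, this]
  exact Set.ncard_union_le _ _

section

variable {M : Set ZFSet.{0}} (hM : IsZF M) {π : Par} (hπ : POk M π) (hE : Ct M π.E)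
  {e : ZFSet.{0} → ZFSet.{0}} (hg : GC M e) (hx : PAx π) {κ : ZFSet.{0}} (hκM : κ ∈ M)
  (hκ : κ.IsOrdinal)

include hM hπ hE hg hx hκM hκ

theorem ccc {A₀ : ZFSet.{0}} (hA₀ : A₀ ∈ M) (hunc : ¬ Ct M A₀)
    {F : ZFSet.{0} → ZFSet.{0}} (hF : DfnF M M fun w : Fin 1 → ZFSet.{0} => F (w 0))
    (hFP : ∀ ξ ∈ A₀, F ξ ∈ PP M π κ) :
    ∃ ξ ∈ A₀, ∃ η ∈ A₀, ξ ≠ η ∧ ∃ r ∈ PP M π κ, Le M π r (F ξ) ∧ Le M π r (F η) := by
  classical
  have hB := hM.base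
  have ho := hM.infinity
  have hPM := PP_mem hM hπ hκM
  have hLM := LL_mem hM hπ hκM
  have h2M := hM.nat_mem 2
  have h0M := hM.empty_mem
  have hF' : ∀ {n : ℕ} {G : (Fin n → ZFSet.{0}) → ZFSet.{0}}, DfnF M M G →
      DfnF M M fun w => F (G w) := fun hG => DfnF.comp1 (f := F) hF hG
  -- conditions with room
  set Q : ZFSet.{0} → ZFSet.{0} → Prop := fun q ξ => q ∈ PP M π κ ∧ pair q (F ξ) ∈ LL M π κ ∧
    ∀ z ∈ q, Fi (ZFSet.prod (nat 2) (Fs q (fs z))) ∧ Fi (Ls q (fs z)) ∧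
      Sz (ZFSet.prod (nat 2) (Fs q (fs z))) (Ls q (fs z)) with hQ
  have hQe : ∀ ξ ∈ A₀, ∃ q ∈ M, Q q ξ := by
    intro ξ hξ
    obtain ⟨q, h1, h2, h3⟩ := exists_rm hM hπ hx hκM hκ _ (hFP ξ hξ)
    have h1' := mem_PP.1 h1
    refine ⟨q, h1'.mem, h1, mem_LL.2 ⟨h1, hFP ξ hξ, h2⟩, fun z hz => ?_⟩
    refine ⟨fi_prod (fi_nat 2) (fi_Fs h1'.fin), fi_Ls h1'.fin, ?_⟩
    obtain ⟨β, t, hβt⟩ : ∃ β t, fs z = pair β t := by
      rcases h1'.ats.cases hz with ⟨β', t', m', e', _, _, _, _, rfl⟩ | ⟨β', t', s', _, _, _, rfl⟩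
      · exact ⟨_, _, fs_sa _ _ _ _⟩
      · exact ⟨_, _, fs_pa _ _ _⟩
    rw [hβt, Sz, ncard_prod, ncard_nat]
    have h4 : {x | x ∈ Fs q (pair β t)} = {s | pa β t s ∈ q} := Set.ext fun s => h1'.ats.mem_Fs
    have h5 : {x | x ∈ Ls q (pair β t)} = {m | ∃ e, sa β t m e ∈ q} :=
      Set.ext fun s => h1'.ats.mem_Ls
    rw [h4, h5]
    exact h3 β t
  set F₁ : ZFSet.{0} → ZFSet.{0} := fun ξ => chs M e fun q => Q q ξ with hF₁
  have hF₁s : ∀ ξ ∈ A₀, F₁ ξ ∈ M ∧ Q (F₁ ξ) ξ := fun ξ hξ => chs_spec (hQe ξ hξ)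
  have hF₁d : DfnF M M fun w : Fin 1 → ZFSet.{0} => F₁ (w 0) := by
    refine hM.chs' hg (Q := fun q w => Q q (w 0)) ?_
    have h3 := hF' (DfnF.proj (S := M) (M := M) (1 : Fin 2))
    have h4 : DfnF M M fun w : Fin 2 → ZFSet.{0} => F (Fin.tail w 0) := h3
    simp only [hQ]
    (repeat' first
      | assumption
      | exact DfnF.proj _
      | exact h4
      | exact DfnF.const (by assumption)
      | apply dfn_sz hM | apply dfn_fi hM | apply Dfn.and | apply Dfn.imp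
      | apply hB.ball
      | apply dfn_Fs hM | apply dfn_Ls hM
      | apply Dfn.mem | apply Dfn.eq | apply hB.pair' | apply hM.prod'
      | apply hM.fs' | apply hM.sn' | exact (hF' (DfnF.proj 1)))
  have hF₁rm : ∀ ξ ∈ A₀, Rm (F₁ ξ) := by
    intro ξ hξ β t
    obtain ⟨h1, h2, h3, h4⟩ := hF₁s ξ hξ
    have h2' := mem_PP.1 h2
    by_cases hs : ∃ s, pa β t s ∈ F₁ ξ
    · obtain ⟨s, hs⟩ := hs
      have h5 := (h4 _ hs).2.2
      rw [fs_pa, Sz, ncard_prod, ncard_nat] at h5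
      have h6 : {x | x ∈ Fs (F₁ ξ) (pair β t)} = {s | pa β t s ∈ F₁ ξ} :=
        Set.ext fun s => h2'.ats.mem_Fs
      have h7 : {x | x ∈ Ls (F₁ ξ) (pair β t)} = {m | ∃ e, sa β t m e ∈ F₁ ξ} :=
        Set.ext fun s => h2'.ats.mem_Ls
      rwa [h6, h7] at h5
    · have : {s | pa β t s ∈ F₁ ξ} = ∅ := Set.eq_empty_iff_forall_notMem.2 fun s h => hs ⟨s, h⟩
      rw [nF, this, Set.ncard_empty]
      omega
  obtain ⟨A, hAs, R, hR⟩ := exists_root hM hπ hE hg hA₀ hunc hF₁d (κ := κ)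
    fun ξ hξ => (hF₁s ξ hξ).2.1
  have hAM := hR.memA
  obtain ⟨ξ, hξ⟩ : ∃ ξ, ξ ∈ A := by
    by_contra hc
    push Not at hc
    exact hR.unc (Ct.sub hM hAM hM.empty_mem (fun x hx => absurd hx (hc x)) (ct_nat hM 0))
  have hF₁' : ∀ {n : ℕ} {G : (Fin n → ZFSet.{0}) → ZFSet.{0}}, DfnF M M G →
      DfnF M M fun w => F₁ (G w) := fun hG => DfnF.comp1 (f := F₁) hF₁d hG
  have hpξ := (hF₁s ξ (hAs hξ)).2.1
  have hpξ' := mem_PP.1 hpξ
  have hRM := hR.mem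
  have hEM := hπ.E
  -- the bad indices
  set W : ZFSet.{0} → ZFSet.{0} := fun z => ZFSet.sep (fun η => (∀ w ∈ R, fs w ≠ fs z) ∧
    ∃ m ∈ ZFSet.omega, ∃ e' ∈ π.E, pair (fs z) (pair ∅ (pair m e')) ∈ F₁ η) A with hW
  have hWd : DfnF M M fun w : Fin 1 → ZFSet.{0} => W (w 0) := by
    refine hM.sep' (Q := fun η w => (∀ u ∈ R, fs u ≠ fs (w 0)) ∧
      ∃ m ∈ ZFSet.omega, ∃ e' ∈ π.E, pair (fs (w 0)) (pair ∅ (pair m e')) ∈ F₁ η)
      (DfnF.const hAM) ?_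
    (repeat' first
      | assumption
      | exact DfnF.proj _
      | exact DfnF.const (by assumption)
      | exact hF₁' (DfnF.proj _)
      | apply Dfn.and | apply Dfn.not | apply hB.ball | apply hB.bex
      | apply Dfn.mem | apply Dfn.eq | apply hB.pair'
      | apply hM.fs' | apply hM.sn')
  have hWc : ∀ z ∈ F₁ ξ, Ct M (W z) := by
    intro z hz
    have hzM := hM.trans _ hpξ'.mem _ hz
    have hWM : W z ∈ M := hWd.1 (fun _ => z) fun _ => hzM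
    obtain ⟨β, t, hβt⟩ : ∃ β t, fs z = pair β t := by
      rcases hpξ'.ats.cases hz with ⟨β', t', m', e', _, _, _, _, rfl⟩ | ⟨β', t', s', _, _, _, rfl⟩
      · exact ⟨_, _, fs_sa _ _ _ _⟩
      · exact ⟨_, _, fs_pa _ _ _⟩
    have hbt := hM.fs_mem hzM
    rw [hβt] at hbt
    obtain ⟨hβ, ht⟩ := hM.of_pair_mem hbt
    by_cases h1 : ∀ m e, sa β t m e ∉ R
    · have hMs : ZFSet.sep (fun ξ => ∃ m ∈ ZFSet.omega, ∃ e' ∈ π.E, sa β t m e' ∈ F₁ ξ) A ∈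
          M := by
        refine hM.sep_mem (Q := fun ξ => ∃ m ∈ ZFSet.omega, ∃ e' ∈ π.E, sa β t m e' ∈ F₁ ξ) ?_
          hAM
        refine hB.bex (Q := fun m w => ∃ e' ∈ π.E, sa β t m e' ∈ F₁ (w 0)) (DfnF.const ho) ?_
        refine hB.bex (Q := fun e' w => sa β t (w 0) e' ∈ F₁ (w 1)) (DfnF.const hπ.E) ?_
        exact Dfn.mem (hB.pair' (DfnF.const (hM.pair_mem hβ ht)) (hB.pair'
          (DfnF.const hM.empty_mem) (hB.pair' (DfnF.proj 1) (DfnF.proj 0))))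
          (hF₁' (DfnF.proj 2))
      refine Ct.sub hM hWM hMs (fun η hη => ?_) (hR.cnt β hβ t ht h1)
      obtain ⟨h2, h3, h4⟩ := ZFSet.mem_sep.1 hη
      rw [hβt] at h4
      exact ZFSet.mem_sep.2 ⟨h2, h4⟩
    · refine Ct.sub hM hWM hM.empty_mem (fun η hη => ?_) (ct_nat hM 0)
      exfalso
      push Not at h1
      obtain ⟨m, e', h1⟩ := h1
      obtain ⟨h2, h3, h4⟩ := ZFSet.mem_sep.1 hη
      exact h3 _ h1 (by rw [fs_sa, hβt])
  obtain ⟨η, hηA, hne, hηW⟩ : ∃ η ∈ A, ξ ≠ η ∧ ∀ z ∈ F₁ ξ, η ∉ W z := by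
    by_contra hc
    push Not at hc
    have hsM : ({ξ} : ZFSet.{0}) ∈ M := hM.single_mem (hM.trans _ hAM _ hξ)
    have hUM : ZFSet.sUnion (im W (F₁ ξ)) ∈ M := hM.union _ (hM.im_mem hpξ'.mem hWd)
    have hUc : Ct M (ZFSet.sUnion (im W (F₁ ξ))) :=
      ct_iUnion hM hg hpξ'.mem (ct_fin hM hpξ'.mem hpξ'.fin) hWd hWc
    have hsc : Ct M ({ξ} : ZFSet.{0}) := by
      refine ct_fin hM hsM (Set.Finite.subset (Set.finite_singleton ξ) fun x hx => ?_)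
      exact ZFSet.mem_singleton.1 hx
    refine hR.unc (Ct.sub hM hAM (hM.union_mem hsM hUM) (fun η hη => ?_)
      (ct_union hM hg hsM hUM hsc hUc))
    by_cases h1 : ξ = η
    · exact ZFSet.mem_union.2 (Or.inl (ZFSet.mem_singleton.2 h1.symm))
    · obtain ⟨z, hz, h2⟩ := hc η hη h1
      exact ZFSet.mem_union.2 (Or.inr (ZFSet.mem_sUnion.2 ⟨_, mem_im.2 ⟨z, hz, rfl⟩, h2⟩))
  have hpη := (hF₁s η (hAs hηA)).2.1
  have hpη' := mem_PP.1 hpη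
  -- common coordinates are in the root
  have key : ∀ β t z m e', z ∈ F₁ ξ → fs z = pair β t → sa β t m e' ∈ F₁ η →
      ∃ m e, sa β t m e ∈ R := by
    intro β t z m e' hz hzf hs
    by_contra hc
    push Not at hc
    have h1 := hpη'.ats.sa hs
    refine hηW z hz (ZFSet.mem_sep.2 ⟨hηA, fun w hw h2 => ?_, m, h1.2.2.1, e', h1.2.2.2, ?_⟩)
    · obtain ⟨β', t', m', e'', rfl⟩ := hR.sta w hw
      rw [fs_sa, hzf] at h2
      obtain ⟨rfl, rfl⟩ := ZFSet.pair_inj.1 h2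
      exact hc _ _ hw
    · rw [hzf]
      exact hs
  have kξ : ∀ β t m e m' e', sa β t m e ∈ R → sa β t m' e' ∈ F₁ ξ → sa β t m' e' ∈ R :=
    hR.stem ξ hξ
  have kη : ∀ β t m e m' e', sa β t m e ∈ R → sa β t m' e' ∈ F₁ η → sa β t m' e' ∈ R :=
    hR.stem η hηA
  have rξ := hR.sub ξ hξ
  have rη := hR.sub η hηA
  have hpos : ∀ {p : ZFSet.{0}}, IsCond M π κ p → Rm p → ∀ β t s, pa β t s ∈ p →
      ∃ m e, sa β t m e ∈ p := by
    intro p hp hr β t s hs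
    have h1 := hr β t
    have h2 : 0 < nF p β t := by
      rw [nF, Set.ncard_pos (fin_prom hp.fin β t)]
      exact ⟨s, hs⟩
    obtain ⟨e', he'⟩ := (len_iff hp (β := β) (t := t) (m := nat 0)).2
      (nat_mem_iff.2 (by omega))
    exact ⟨_, e', he'⟩
  have rmξ := hF₁rm ξ (hAs hξ)
  have rmη := hF₁rm η (hAs hηA)
  obtain ⟨h1, h2, h3⟩ := amal (π := π) hM hκ hpξ hpη (by
    intro β t m e₁ e₂ h1 h2
    obtain ⟨m', e', h3⟩ := key β t _ _ _ h1 (fs_sa _ _ _ _) h2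
    exact hpη'.fn _ _ _ _ _ (rη (kξ _ _ _ _ _ _ h3 h1)) h2) (by
    intro hc β t
    have hs1 := rmξ β t
    have hs2 := rmη β t
    have hu1 : Len (F₁ ξ) β t ≤ Len (F₁ ξ ∪ F₁ η) β t := by
      refine Set.ncard_le_ncard ?_ (fin_stem (Fi.union hpξ'.fin hpη'.fin) β t)
      rintro m ⟨e, he⟩
      exact ⟨e, ZFSet.mem_union.2 (Or.inl he)⟩
    have hu2 : Len (F₁ η) β t ≤ Len (F₁ ξ ∪ F₁ η) β t := by
      refine Set.ncard_le_ncard ?_ (fin_stem (Fi.union hpξ'.fin hpη'.fin) β t)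
      rintro m ⟨e, he⟩
      exact ⟨e, ZFSet.mem_union.2 (Or.inr he)⟩
    have hu := nF_union (F₁ ξ) (F₁ η) β t
    omega) (by
    intro β t s m e' h1 h2 h3 _
    obtain ⟨m', e'', h4⟩ := key β t _ _ _ h1 (fs_pa _ _ _) h2
    exact absurd (rξ (kη _ _ _ _ _ _ h4 h2)) h3) (by
    intro β t s m e' h1 h2 h3 _
    obtain ⟨m₀, e₀, h0⟩ := hpos hpη' rmη _ _ _ h1
    obtain ⟨m', e'', h4⟩ := key β t _ _ _ h2 (fs_sa _ _ _ _) h0
    exact absurd (rη (kξ _ _ _ _ _ _ h4 h2)) h3)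
  exact ⟨ξ, hAs hξ, η, hAs hηA, hne, _, h1,
    le_trans hM hκ _ (hFP ξ (hAs hξ)) _ hpξ _ h1 h2 (mem_LL.1 (hF₁s ξ (hAs hξ)).2.2.1).2.2,
    le_trans hM hκ _ (hFP η (hAs hηA)) _ hpη _ h1 h3 (mem_LL.1 (hF₁s η (hAs hηA)).2.2.1).2.2⟩

end

end Pool.Agent.H635.RF
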