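import Pool.Agent.H635.RF.Ra

/-!
# Compactness in a model
-/

set_option autoImplicit false
set_option linter.unreachableTactic false
set_option linter.unusedTactic false
set_option linter.unusedSectionVars false
set_option linter.unusedVariables false

namespace Pool.Agent.H635.RF

open Pool.Agent.W868 Pool.Agent.W868.GM Pool.Agent.Y588
open Pool.Agent.H635.RB (Fi dfn_fi fin_mem nat_mem_iff mem_nat nat_sub ap_unique)
open ZFSet (pair)

/-- The enumeration of a small finite set. -/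
theorem exists_enum' {W : Set ZFSet.{0}} (hW : IsZF W) {X : Set ZFSet.{0}} (hX : X.Finite)
    (hXo : ∀ x ∈ X, x ∈ ZFSet.omega) {L : ℕ} (hL : X.ncard ≤ L) :
    ∃ g ∈ W, (∀ l ∈ nat L, ap g l ∈ ZFSet.omega) ∧ ∀ x ∈ X, ∃ l ∈ nat L, ap g l = x := by
  classical
  set s := hX.toFinset with hs
  have hcard : s.card ≤ L := by
    rw [Set.ncard_eq_toFinset_card _ hX] at hL
    exact hL
  have hlen : s.toList.length = s.card := Finset.length_toList s
  set h : ℕ → ZFSet.{0} := fun l => s.toList.getD l ∅ with hh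
  have hho : ∀ l, h l ∈ ZFSet.omega := by
    intro l
    by_cases hl : l < s.toList.length
    · have h1 : h l = s.toList[l] := by
        rw [hh]
        exact List.getD_eq_getElem _ _ hl
      rw [h1]
      have h2 : s.toList[l] ∈ s.toList := List.getElem_mem hl
      exact hXo _ (hX.mem_toFinset.1 (Finset.mem_toList.1 h2))
    · have h1 : h l = ∅ := by
        rw [hh]
        exact List.getD_eq_default _ _ (by omega)
      rw [h1]
      exact nat_mem_omega 0
  set g : ZFSet.{0} := ZFSet.range fun l : Fin L => pair (nat l) (h l) with hg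
  have mg : ∀ z, z ∈ g ↔ ∃ l < L, z = pair (nat l) (h l) := by
    intro z
    rw [hg, ZFSet.mem_range]
    constructor
    · rintro ⟨l, rfl⟩
      exact ⟨l, l.2, rfl⟩
    · rintro ⟨l, hl, rfl⟩
      exact ⟨⟨l, hl⟩, rfl⟩
  have hap : ∀ l < L, ap g (nat l) = h l := by
    intro l hl
    refine ap_unique fun q => ?_
    constructor
    · rintro ⟨h1, h2⟩
      obtain ⟨l', hl', rfl⟩ := (mg q).1 h1
      rw [fs_pair] at h2
      rw [nat_injective h2]
    · rintro rfl
      exact ⟨(mg _).2 ⟨l, hl, rfl⟩, fs_pair _ _⟩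
  refine ⟨g, ?_, ?_, ?_⟩
  · refine fin_mem hW ?_ fun z hz => ?_
    · refine Set.Finite.subset (Set.finite_range fun l : Fin L => pair (nat l) (h l)) ?_
      intro z hz
      obtain ⟨l, hl, rfl⟩ := (mg z).1 hz
      exact ⟨⟨l, hl⟩, rfl⟩
    · obtain ⟨l, hl, rfl⟩ := (mg z).1 hz
      exact hW.pair_mem (hW.nat_mem l) (hW.trans _ hW.infinity _ (hho l))
  · intro l hl
    obtain ⟨l', hl', rfl⟩ := mem_nat.1 hl
    rw [hap l' hl']
    exact hho l'
  · intro x hx
    have h1 : x ∈ s.toList := by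
      rw [Finset.mem_toList, hs, hX.mem_toFinset]
      exact hx
    obtain ⟨l, hl, h2⟩ := List.getElem_of_mem h1
    have h3 : l < L := by omega
    refine ⟨nat l, nat_mem_iff.2 h3, ?_⟩
    rw [hap l h3, hh, ← h2]
    exact List.getD_eq_getElem _ _ hl

/-- Infinitely many elements of `J` have the property. -/
def Infm (J : ZFSet.{0}) (Q : ZFSet.{0} → Prop) : Prop :=
  ∀ j₀ ∈ ZFSet.omega, ∃ j ∈ J, j₀ ∈ j ∧ Q j

theorem infm_iff {J : ZFSet.{0}} (hJ : J ⊆ ZFSet.omega) {Q : ZFSet.{0} → Prop} :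
    Infm J Q ↔ {j : ℕ | nat j ∈ J ∧ Q (nat j)}.Infinite := by
  constructor
  · intro h hf
    obtain ⟨b, hb⟩ := hf.bddAbove
    obtain ⟨j, hj, h1, h2⟩ := h (nat b) (nat_mem_omega b)
    obtain ⟨k, rfl⟩ := mem_omega_iff.1 (hJ hj)
    rw [nat_mem_iff] at h1
    have := hb (show k ∈ {j : ℕ | nat j ∈ J ∧ Q (nat j)} from ⟨hj, h2⟩)
    omega
  · intro h j₀ hj₀
    obtain ⟨b, rfl⟩ := mem_omega_iff.1 hj₀
    obtain ⟨k, hk, h1⟩ := h.exists_gt b
    exact ⟨nat k, hk.1, nat_mem_iff.2 h1, hk.2⟩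

section

variable {W : Set ZFSet.{0}} (hW : IsZF W) {e : ZFSet.{0} → ZFSet.{0}} (hg : GC W e)
  {J : ZFSet.{0}} (hJW : J ∈ W) (hJ : J ⊆ ZFSet.omega)
  {y : ZFSet.{0} → ZFSet.{0} → ZFSet.{0}}
  (hy : DfnF W W fun w : Fin 2 → ZFSet.{0} => y (w 0) (w 1))

include hW hg hJW hJ hy

/-- A limit point of a sequence of functions with finitely many values at each place. -/
theorem exists_limit (hinf : Infm J fun _ => True)
    (hfin : ∀ m : ℕ, {v | ∃ j ∈ J, v = y j (nat m)}.Finite) :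
    ∃ F : ZFSet.{0} → ZFSet.{0}, (DfnF W W fun w : Fin 1 → ZFSet.{0} => F (w 0)) ∧
      ∀ n : ℕ, Infm J fun j => ∀ k ∈ nat n, y j k = F k := by
  classical
  have hB := hW.base
  have ho := hW.infinity
  set Gs : ZFSet.{0} → ZFSet.{0} → ZFSet.{0} := fun m g => chs W e fun v =>
    ∀ j₀ ∈ ZFSet.omega, ∃ j ∈ J, j₀ ∈ j ∧ y j m = v ∧ ∀ k ∈ m, y j k = ap g k with hGs
  have hGd : DfnF W W fun w : Fin 2 → ZFSet.{0} => Gs (w 0) (w 1) := by
    refine hW.chs' hg (Q := fun v w => ∀ j₀ ∈ ZFSet.omega, ∃ j ∈ J, j₀ ∈ j ∧ y j (w 0) = v ∧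
      ∀ k ∈ w 0, y j k = ap (w 1) k) ?_
    have hy' : ∀ {n : ℕ} {G H : (Fin n → ZFSet.{0}) → ZFSet.{0}}, DfnF W W G → DfnF W W H →
        DfnF W W fun w => y (G w) (H w) := fun hG hH => DfnF.comp2 (f := y) hy hG hH
    (repeat' first
      | assumption
      | exact DfnF.proj _
      | exact DfnF.const (by assumption)
      | apply Dfn.and | apply hB.bex | apply hB.ball
      | apply Dfn.mem | apply Dfn.eq | apply hW.ap' | apply hy')
  set F : ZFSet.{0} → ZFSet.{0} := wfF (fun z => z) ZFSet.mem_wf Gs with hF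
  have hFe : ∀ z, F z = Gs z (gr F z) := fun z => wfF_eq _ _ _ z
  have hFd : DfnF W W fun w : Fin 1 → ZFSet.{0} => F (w 0) := hW.memrec hGd hFe
  refine ⟨F, hFd, fun n => ?_⟩
  induction n with
  | zero =>
    intro j₀ hj₀
    obtain ⟨j, hj, h1, -⟩ := hinf j₀ hj₀
    exact ⟨j, hj, h1, fun k hk => absurd hk (ZFSet.notMem_empty _)⟩
  | succ n ih =>
    -- some value occurs infinitely often
    have h1 : ∃ v ∈ W, ∀ j₀ ∈ ZFSet.omega, ∃ j ∈ J, j₀ ∈ j ∧ y j (nat n) = v ∧
        ∀ k ∈ nat n, y j k = ap (gr F (nat n)) k := by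
      rw [infm_iff hJ] at ih
      by_contra hc
      push Not at hc
      refine ih ?_
      have h2 : {j : ℕ | nat j ∈ J ∧ ∀ k ∈ nat n, y (nat j) k = F k} ⊆
          ⋃ v ∈ {v | ∃ j ∈ J, v = y j (nat n)},
            {j : ℕ | nat j ∈ J ∧ y (nat j) (nat n) = v ∧ ∀ k ∈ nat n, y (nat j) k = F k} := by
        rintro j ⟨h3, h4⟩
        rw [Set.mem_iUnion₂]
        exact ⟨y (nat j) (nat n), ⟨nat j, h3, rfl⟩, h3, rfl, h4⟩
      refine Set.Finite.subset (Set.Finite.biUnion (hfin n) fun v hv => ?_) h2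
      obtain ⟨j, hj, rfl⟩ := hv
      have hvW : y j (nat n) ∈ W := by
        have := hy.1 (fun i => if i = 0 then j else nat n) (by
          intro i
          by_cases hi : i = 0
          · simp only [hi, if_true]
            exact hW.trans _ hJW _ hj
          · simp only [hi, if_false]
            exact hW.nat_mem n)
        simpa using this
      obtain ⟨j₀, hj₀, h3⟩ := hc _ hvW
      obtain ⟨b, rfl⟩ := mem_omega_iff.1 hj₀
      refine Set.Finite.subset (Set.finite_Iic b) ?_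
      rintro i ⟨h4, h5, h6⟩
      by_contra h7
      have h7' : b < i := by
        simpa using h7
      obtain ⟨k, hk, h8⟩ := h3 (nat i) h4 (nat_mem_iff.2 h7') h5
      rw [ap_gr hk] at h8
      exact h8 (h6 k hk)
    have h2 := (chs_spec (C := W) (e := e) h1).2
    intro j₀ hj₀
    obtain ⟨j, hj, h3, h4, h5⟩ := h2 j₀ hj₀
    refine ⟨j, hj, h3, fun k hk => ?_⟩
    rcases mem_nat_succ.1 hk with rfl | hk
    · rw [h4, hFe]
    · rw [h5 k hk, ap_gr hk]

end

end Pool.Agent.H635.RF
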