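import Pool.Agent.H635.RF.Nl

/-!
# Countability in the model, and roots
-/

set_option autoImplicit false
set_option linter.unreachableTactic false
set_option linter.unusedTactic false
set_option linter.unusedSectionVars false
set_option linter.unusedVariables false

namespace Pool.Agent.H635.RF

open Pool.Agent.W868 Pool.Agent.W868.GM Pool.Agent.Y588
open Pool.Agent.H635.RB (Fi dfn_fi fin_mem nat_mem_iff mem_nat)
open ZFSet (pair)

/-- In `M`, the set `X` is countable. -/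
def Ct (M : Set ZFSet.{0}) (X : ZFSet.{0}) : Prop := Inj M X ZFSet.omega

section

variable {M : Set ZFSet.{0}} (hM : IsZF M)

include hM

theorem Ct.sub {X Y : ZFSet.{0}} (hX : X ∈ M) (hY : Y ∈ M) (h : X ⊆ Y) (h1 : Ct M Y) :
    Ct M X :=
  Inj.trans hM hX hM.infinity (Inj.of_subset hM hX hY h) h1

theorem ct_nat (n : ℕ) : Ct M (nat n) :=
  Inj.of_subset hM (hM.nat_mem n) hM.infinity nat_subset_omega

theorem ct_fin {X : ZFSet.{0}} (hX : X ∈ M) (h : Fi X) : Ct M X := by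
  have hf : Fi (nat ({x | x ∈ X}.ncard)) := by
    have h1 : {x | x ∈ nat ({x | x ∈ X}.ncard)} ⊆ nat '' (Finset.range ({x | x ∈ X}.ncard)) := by
      intro x hx
      obtain ⟨i, hi, rfl⟩ := mem_nat.1 hx
      exact ⟨i, by simpa using hi, rfl⟩
    exact Set.Finite.subset (Set.Finite.image _ (Finset.finite_toSet _)) h1
  obtain ⟨f, hf1, hf2⟩ := (sz_iff hM hX (hM.nat_mem ({x | x ∈ X}.ncard)) h hf).1 (by
    rw [Sz, ncard_nat])
  exact Inj.trans hM hX hM.infinity ⟨f, hf1, hf2⟩ (ct_nat hM _)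

theorem ct_omega : Ct M ZFSet.omega := Inj.of_subset hM hM.infinity hM.infinity fun _ h => h

theorem ct_prod {X Y : ZFSet.{0}} (hX : X ∈ M) (hY : Y ∈ M) (h1 : Ct M X) (h2 : Ct M Y) :
    Ct M (ZFSet.prod X Y) :=
  Inj.trans hM (hM.prod_mem hX hY) hM.infinity
    (Inj.prod hM hX hY hM.infinity hM.infinity h1 h2)
    (sq_inj hM hM.infinity isOrdinal_omega fun _ h => h)

variable {e : ZFSet.{0} → ZFSet.{0}} (hg : GC M e)

include hg

theorem ct_iUnion {x : ZFSet.{0}} (hx : x ∈ M) (h : Ct M x) {F : ZFSet.{0} → ZFSet.{0}}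
    (hF : DfnF M M fun w : Fin 1 → ZFSet.{0} => F (w 0)) (hF' : ∀ u ∈ x, Ct M (F u)) :
    Ct M (ZFSet.sUnion (im F x)) :=
  Inj.iUnion hM hg hM.infinity isOrdinal_omega (fun _ h => h) hx h hF hF'

theorem ct_union {X Y : ZFSet.{0}} (hX : X ∈ M) (hY : Y ∈ M) (h1 : Ct M X) (h2 : Ct M Y) :
    Ct M (X ∪ Y) :=
  Inj.union hM hg hM.infinity isOrdinal_omega (fun _ h => h) hX hY h1 h2

/-- A set covered by countably many countable sets. -/
theorem ct_cover {X x : ZFSet.{0}} (hX : X ∈ M) (hx : x ∈ M) (h : Ct M x)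
    {F : ZFSet.{0} → ZFSet.{0}} (hF : DfnF M M fun w : Fin 1 → ZFSet.{0} => F (w 0))
    (hF' : ∀ u ∈ x, Ct M (F u)) (hc : ∀ y ∈ X, ∃ u ∈ x, y ∈ F u) : Ct M X := by
  refine Ct.sub hM hX (hM.union _ (hM.im_mem hx hF)) ?_ (ct_iUnion hM hg hx h hF hF')
  intro y hy
  obtain ⟨u, hu, h1⟩ := hc y hy
  exact ZFSet.mem_sUnion.2 ⟨_, mem_im.2 ⟨u, hu, rfl⟩, h1⟩

end

/-- The set of the atoms `R` is a root of the family `F` on the uncountable set `A`. -/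
structure Root (M : Set ZFSet.{0}) (π : Par) (F : ZFSet.{0} → ZFSet.{0}) (A R : ZFSet.{0}) :
    Prop where
  fin : Fi R
  mem : R ∈ M
  sta : ∀ z ∈ R, ∃ β t m e, z = sa β t m e
  unc : ¬ Ct M A
  memA : A ∈ M
  sub : ∀ ξ ∈ A, R ⊆ F ξ
  stem : ∀ ξ ∈ A, ∀ β t m e m' e', sa β t m e ∈ R → sa β t m' e' ∈ F ξ → sa β t m' e' ∈ R
  cnt : ∀ β ∈ M, ∀ t ∈ M, (∀ m e, sa β t m e ∉ R) →
    Ct M (ZFSet.sep (fun ξ => ∃ m ∈ ZFSet.omega, ∃ e' ∈ π.E, sa β t m e' ∈ F ξ) A)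

section

variable {M : Set ZFSet.{0}} (hM : IsZF M) {π : Par} (hπ : POk M π) (hE : Ct M π.E)
  {e : ZFSet.{0} → ZFSet.{0}} (hg : GC M e)

include hM hπ hE hg

theorem exists_root {A₀ : ZFSet.{0}} (hA₀ : A₀ ∈ M) (hunc : ¬ Ct M A₀)
    {F : ZFSet.{0} → ZFSet.{0}} (hF : DfnF M M fun w : Fin 1 → ZFSet.{0} => F (w 0))
    {κ : ZFSet.{0}} (hFP : ∀ ξ ∈ A₀, F ξ ∈ PP M π κ) :
    ∃ A ⊆ A₀, ∃ R, Root M π F A R := by
  classical
  have hB := hM.base
  have ho := hM.infinity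
  have hF' : ∀ {n : ℕ} {G : (Fin n → ZFSet.{0}) → ZFSet.{0}}, DfnF M M G →
      DfnF M M fun w => F (G w) := fun hG => DfnF.comp1 (f := F) hF hG
  -- conditions of bounded size
  obtain ⟨n, hn⟩ : ∃ n : ℕ, ¬ Ct M (ZFSet.sep (fun ξ => Fi (F ξ) ∧ Fi (nat n) ∧
      Sz (F ξ) (nat n)) A₀) := by
    by_contra hc
    push Not at hc
    refine hunc (ct_cover hM hg hA₀ ho (ct_omega hM)
      (F := fun m => ZFSet.sep (fun ξ => Fi (F ξ) ∧ Fi m ∧ Sz (F ξ) m) A₀) ?_ ?_ ?_)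
    · refine hM.sep' (Q := fun ξ w => Fi (F ξ) ∧ Fi (w 0) ∧ Sz (F ξ) (w 0)) (DfnF.const hA₀) ?_
      exact dfn_sz hM (hF' (DfnF.proj 0)) (DfnF.proj 1)
    · intro u hu
      obtain ⟨k, rfl⟩ := mem_omega_iff.1 hu
      exact hc k
    · intro ξ hξ
      have hfi := (mem_PP.1 (hFP ξ hξ)).fin
      refine ⟨nat ({x | x ∈ F ξ}.ncard), nat_mem_omega _, ZFSet.mem_sep.2 ⟨hξ, hfi, ?_, ?_⟩⟩
      · have h1 : {x | x ∈ nat ({x | x ∈ F ξ}.ncard)} ⊆
            nat '' (Finset.range ({x | x ∈ F ξ}.ncard)) := by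
          intro x hx
          obtain ⟨i, hi, rfl⟩ := mem_nat.1 hx
          exact ⟨i, by simpa using hi, rfl⟩
        exact Set.Finite.subset (Set.Finite.image _ (Finset.finite_toSet _)) h1
      · rw [Sz, ncard_nat]
  set B := ZFSet.sep (fun ξ => Fi (F ξ) ∧ Fi (nat n) ∧ Sz (F ξ) (nat n)) A₀ with hBdef
  have hBM : B ∈ M := by
    refine hM.sep_mem (Q := fun ξ => Fi (F ξ) ∧ Fi (nat n) ∧ Sz (F ξ) (nat n)) ?_ hA₀
    exact dfn_sz hM (hF' (DfnF.proj 0)) (DfnF.const (hM.nat_mem n))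
  have hBA : B ⊆ A₀ := fun ξ h => (ZFSet.mem_sep.1 h).1
  set AR : ZFSet.{0} → ZFSet.{0} := fun R => ZFSet.sep (fun ξ => R ⊆ F ξ) B with hAR
  have hARM : ∀ R ∈ M, AR R ∈ M := by
    intro R hR
    refine hM.sep_mem (Q := fun ξ => R ⊆ F ξ) ?_ hBM
    exact hB.subset' (DfnF.const hR) (hF' (DfnF.proj 0))
  have hct0 : Ct M ∅ := ct_nat hM 0
  -- a root of maximal size
  set Q : ℕ → Prop := fun k => ∃ R ∈ M, Fi R ∧ (∀ z ∈ R, ∃ β t m e, z = sa β t m e) ∧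
    {z | z ∈ R}.ncard = k ∧ ¬ Ct M (AR R) with hQ
  have hQ0 : Q 0 := by
    refine ⟨∅, hM.empty_mem, fi_empty, fun z hz => absurd hz (ZFSet.notMem_empty _), ?_, ?_⟩
    · have : {z : ZFSet.{0} | z ∈ (∅ : ZFSet.{0})} = ∅ :=
        Set.eq_empty_iff_forall_notMem.2 fun x hx => ZFSet.notMem_empty x hx
      rw [this, Set.ncard_empty]
    · have : AR ∅ = B := by
        ext ξ
        rw [hAR, ZFSet.mem_sep]
        exact ⟨fun h => h.1, fun h => ⟨h, fun z hz => absurd hz (ZFSet.notMem_empty _)⟩⟩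
      rwa [this]
  have hQn : ∀ k, Q k → k ≤ n := by
    rintro k ⟨R, hR, h1, h2, h3, h4⟩
    by_contra h5
    push Not at h5
    refine h4 (Ct.sub hM (hARM R hR) hM.empty_mem (fun ξ hξ => ?_) hct0)
    exfalso
    obtain ⟨h6, h7⟩ := ZFSet.mem_sep.1 hξ
    obtain ⟨h8, h9, h10, h11⟩ := ZFSet.mem_sep.1 h6
    rw [Sz, ncard_nat] at h11
    have h12 := Set.ncard_le_ncard (show {z | z ∈ R} ⊆ {z | z ∈ F ξ} from fun z hz => h7 hz) h9
    omega
  obtain ⟨k, hk, hkmax⟩ : ∃ k, Q k ∧ ¬ Q (k + 1) := by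
    by_contra hc
    push Not at hc
    have : ∀ k, Q k := by
      intro k
      induction k with
      | zero => exact hQ0
      | succ k ih => exact hc k ih
    have := hQn _ (this (n + 1))
    omega
  obtain ⟨R, hR, h1, h2, h3, h4⟩ := hk
  have hARR := hARM R hR
  have hmax : ∀ β ∈ M, ∀ t ∈ M, ∀ m ∈ M, ∀ e' ∈ M, sa β t m e' ∉ R →
      Ct M (ZFSet.sep (fun ξ => sa β t m e' ∈ F ξ) (AR R)) := by
    intro β hβ t ht m hm e' he' hnot
    by_contra hc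
    refine hkmax ⟨insert (sa β t m e') R, ?_, Fi.insert h1, ?_, ?_, ?_⟩
    · refine fin_mem hM (Fi.insert h1) fun x hx => ?_
      rcases ZFSet.mem_insert_iff.1 hx with rfl | hx
      · exact sa_mem_M hM hβ ht hm he'
      · exact hM.trans _ hR _ hx
    · intro z hz
      rcases ZFSet.mem_insert_iff.1 hz with rfl | hz
      · exact ⟨_, _, _, _, rfl⟩
      · exact h2 z hz
    · have : {z | z ∈ insert (sa β t m e') R} = insert (sa β t m e') {z | z ∈ R} := by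
        ext z
        exact ZFSet.mem_insert_iff
      have h1' : {z | z ∈ R}.Finite := h1
      rw [this, Set.ncard_insert_of_notMem (s := {z | z ∈ R}) hnot h1', h3]
    · have : AR (insert (sa β t m e') R) = ZFSet.sep (fun ξ => sa β t m e' ∈ F ξ) (AR R) := by
        ext ξ
        simp only [hAR, ZFSet.mem_sep]
        constructor
        · rintro ⟨h5, h6⟩
          exact ⟨⟨h5, fun z hz => h6 (ZFSet.mem_insert_iff.2 (Or.inr hz))⟩,
            h6 (ZFSet.mem_insert_iff.2 (Or.inl rfl))⟩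
        · rintro ⟨⟨h5, h6⟩, h7⟩
          refine ⟨h5, fun z hz => ?_⟩
          rcases ZFSet.mem_insert_iff.1 hz with rfl | hz
          · exact h7
          · exact h6 hz
      rwa [this]
  -- the indices with a new atom at a coordinate
  have dV : ∀ {n : ℕ} {G H : (Fin n → ZFSet.{0}) → ZFSet.{0}}, DfnF M M G → DfnF M M H →
      Dfn M M fun w => ∃ m ∈ ZFSet.omega, ∃ e' ∈ π.E,
        pair (G w) (pair ∅ (pair m e')) ∈ F (H w) ∧ pair (G w) (pair ∅ (pair m e')) ∉ R := by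
    intro n G H hG hH
    refine hB.bex (Q := fun m w => ∃ e' ∈ π.E, pair (G w) (pair ∅ (pair m e')) ∈ F (H w) ∧
      pair (G w) (pair ∅ (pair m e')) ∉ R) (DfnF.const ho) ?_
    refine hB.bex (Q := fun e' w => pair (G (Fin.tail w)) (pair ∅ (pair (w 0) e')) ∈
      F (H (Fin.tail w)) ∧ pair (G (Fin.tail w)) (pair ∅ (pair (w 0) e')) ∉ R)
      (DfnF.const hπ.E) ?_
    have ha : DfnF M M fun w : Fin (n + 2) → ZFSet.{0} =>
        pair (G (Fin.tail (Fin.tail w))) (pair ∅ (pair (w 1) (w 0))) :=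
      hB.pair' hG.tail.tail (hB.pair' (DfnF.const hM.empty_mem)
        (hB.pair' (DfnF.proj 1) (DfnF.proj 0)))
    exact (Dfn.mem ha (hF' hH.tail.tail)).and (Dfn.mem ha (DfnF.const hR)).not
  set V : ZFSet.{0} → ZFSet.{0} := fun i => ZFSet.sep (fun ξ => ∃ m ∈ ZFSet.omega, ∃ e' ∈ π.E,
    pair i (pair ∅ (pair m e')) ∈ F ξ ∧ pair i (pair ∅ (pair m e')) ∉ R) (AR R) with hV
  have hVd : DfnF M M fun w : Fin 1 → ZFSet.{0} => V (w 0) := by
    refine hM.sep' (Q := fun ξ w => ∃ m ∈ ZFSet.omega, ∃ e' ∈ π.E,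
      pair (w 0) (pair ∅ (pair m e')) ∈ F ξ ∧ pair (w 0) (pair ∅ (pair m e')) ∉ R)
      (DfnF.const hARR) ?_
    exact dV (G := fun w : Fin 2 → ZFSet.{0} => w 1) (H := fun w => w 0) (DfnF.proj 1)
      (DfnF.proj 0)
  have hVM : ∀ i ∈ M, V i ∈ M := fun i hi => hVd.1 (fun _ => i) fun _ => hi
  have hVc : ∀ β ∈ M, ∀ t ∈ M, Ct M (V (pair β t)) := by
    intro β hβ t ht
    have hbt := hM.pair_mem hβ ht
    refine ct_cover hM hg (hVM _ hbt) (hM.prod_mem ho hπ.E) (ct_prod hM ho hπ.E (ct_omega hM) hE)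
      (F := fun u => ZFSet.sep (fun ξ => pair (pair β t) (pair ∅ u) ∈ F ξ ∧
        pair (pair β t) (pair ∅ u) ∉ R) (AR R)) ?_ ?_ ?_
    · refine hM.sep' (Q := fun ξ w => pair (pair β t) (pair ∅ (w 0)) ∈ F ξ ∧
        pair (pair β t) (pair ∅ (w 0)) ∉ R) (DfnF.const hARR) ?_
      have ha : DfnF M M fun w : Fin 2 → ZFSet.{0} => pair (pair β t) (pair ∅ (w 1)) :=
        hB.pair' (DfnF.const hbt) (hB.pair' (DfnF.const hM.empty_mem) (DfnF.proj 1))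
      exact (Dfn.mem ha (hF' (DfnF.proj 0))).and (Dfn.mem ha (DfnF.const hR)).not
    · intro u hu
      obtain ⟨m, hm, e', he', rfl⟩ := ZFSet.mem_prod.1 hu
      have hmM := hM.trans _ ho _ hm
      have heM := hM.trans _ hπ.E _ he'
      have hMs : ZFSet.sep (fun ξ => pair (pair β t) (pair ∅ (pair m e')) ∈ F ξ ∧
          pair (pair β t) (pair ∅ (pair m e')) ∉ R) (AR R) ∈ M := by
        refine hM.sep_mem (Q := fun ξ => pair (pair β t) (pair ∅ (pair m e')) ∈ F ξ ∧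
          pair (pair β t) (pair ∅ (pair m e')) ∉ R) ?_ hARR
        have ha : DfnF M M fun w : Fin 1 → ZFSet.{0} => pair (pair β t) (pair ∅ (pair m e')) :=
          DfnF.const (sa_mem_M hM hβ ht hmM heM)
        exact (Dfn.mem ha (hF' (DfnF.proj 0))).and (Dfn.mem ha (DfnF.const hR)).not
      by_cases hin : sa β t m e' ∈ R
      · refine Ct.sub hM hMs hM.empty_mem (fun ξ hξ => ?_) hct0
        exact absurd hin (ZFSet.mem_sep.1 hξ).2.2
      · refine Ct.sub hM hMs ?_ (fun ξ hξ => ?_) (hmax β hβ t ht m hmM e' heM hin)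
        · refine hM.sep_mem (Q := fun ξ => sa β t m e' ∈ F ξ) ?_ hARR
          exact Dfn.mem (DfnF.const (sa_mem_M hM hβ ht hmM heM)) (hF' (DfnF.proj 0))
        · obtain ⟨h5, h6, h7⟩ := ZFSet.mem_sep.1 hξ
          exact ZFSet.mem_sep.2 ⟨h5, h6⟩
    · intro ξ hξ
      obtain ⟨h5, m, hm, e', he', h6⟩ := ZFSet.mem_sep.1 hξ
      exact ⟨pair m e', ZFSet.pair_mem_prod.2 ⟨hm, he'⟩, ZFSet.mem_sep.2 ⟨h5, h6⟩⟩
  -- the bad indices
  set U : ZFSet.{0} := ZFSet.sep (fun ξ => ∃ z ∈ R, ∃ m ∈ ZFSet.omega, ∃ e' ∈ π.E,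
    pair (fs z) (pair ∅ (pair m e')) ∈ F ξ ∧ pair (fs z) (pair ∅ (pair m e')) ∉ R) (AR R)
    with hU
  have hdU : Dfn M M fun w : Fin 1 → ZFSet.{0} => ∃ z ∈ R, ∃ m ∈ ZFSet.omega, ∃ e' ∈ π.E,
      pair (fs z) (pair ∅ (pair m e')) ∈ F (w 0) ∧
      pair (fs z) (pair ∅ (pair m e')) ∉ R := by
    refine hB.bex (Q := fun z w => ∃ m ∈ ZFSet.omega, ∃ e' ∈ π.E,
      pair (fs z) (pair ∅ (pair m e')) ∈ F (w 0) ∧
      pair (fs z) (pair ∅ (pair m e')) ∉ R) (DfnF.const hR) ?_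
    exact dV (hM.fs' (DfnF.proj 0)) (DfnF.proj 1)
  have hUM : U ∈ M := hM.sep_mem hdU hARR
  have hUc : Ct M U := by
    refine ct_cover hM hg hUM hR (ct_fin hM hR h1) (F := fun z => V (fs z)) ?_ ?_ ?_
    · exact DfnF.comp1 (f := V) hVd (hM.fs' (DfnF.proj 0))
    · intro z hz
      obtain ⟨β, t, m, e', rfl⟩ := h2 z hz
      rw [fs_sa]
      have h5 := hM.trans _ hR _ hz
      have h6 := hM.of_pair_mem h5
      have h7 := hM.of_pair_mem h6.1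
      exact hVc β h7.1 t h7.2
    · intro ξ hξ
      obtain ⟨h5, z, hz, h6⟩ := ZFSet.mem_sep.1 hξ
      exact ⟨z, hz, ZFSet.mem_sep.2 ⟨h5, h6⟩⟩
  set A : ZFSet.{0} := ZFSet.sep (fun ξ => ξ ∉ U) (AR R) with hA
  have hAM : A ∈ M := hM.sep_mem (Q := fun ξ => ξ ∉ U)
    (Dfn.mem (DfnF.proj 0) (DfnF.const hUM)).not hARR
  have hAs : A ⊆ AR R := fun ξ h => (ZFSet.mem_sep.1 h).1
  refine ⟨A, fun ξ hξ => hBA (ZFSet.mem_sep.1 (hAs hξ)).1, R, h1, hR, h2, ?_, hAM, ?_, ?_, ?_⟩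
  · intro hc
    refine h4 (Ct.sub hM hARR (hM.union_mem hAM hUM) (fun ξ hξ => ?_)
      (ct_union hM hg hAM hUM hc hUc))
    by_cases h5 : ξ ∈ U
    · exact ZFSet.mem_union.2 (Or.inr h5)
    · exact ZFSet.mem_union.2 (Or.inl (ZFSet.mem_sep.2 ⟨hξ, h5⟩))
  · intro ξ hξ
    exact (ZFSet.mem_sep.1 (hAs hξ)).2
  · intro ξ hξ β t m e₁ m' e' h5 h6
    by_contra h7
    obtain ⟨h8, h9⟩ := ZFSet.mem_sep.1 hξ
    have h10 := (mem_PP.1 (hFP ξ (hBA (ZFSet.mem_sep.1 h8).1))).ats.sa h6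
    exact h9 (ZFSet.mem_sep.2 ⟨h8, _, h5, m', h10.2.2.1, e', h10.2.2.2, by
      rw [fs_sa]; exact h6, by rw [fs_sa]; exact h7⟩)
  · intro β hβ t ht hnot
    have hMs : ZFSet.sep (fun ξ => ∃ m ∈ ZFSet.omega, ∃ e' ∈ π.E, sa β t m e' ∈ F ξ) A ∈ M := by
      refine hM.sep_mem (Q := fun ξ => ∃ m ∈ ZFSet.omega, ∃ e' ∈ π.E, sa β t m e' ∈ F ξ) ?_ hAM
      refine hB.bex (Q := fun m w => ∃ e' ∈ π.E, sa β t m e' ∈ F (w 0)) (DfnF.const ho) ?_
      refine hB.bex (Q := fun e' w => sa β t (w 0) e' ∈ F (w 1)) (DfnF.const hπ.E) ?_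
      exact Dfn.mem (hB.pair' (DfnF.const (hM.pair_mem hβ ht)) (hB.pair'
        (DfnF.const hM.empty_mem) (hB.pair' (DfnF.proj 1) (DfnF.proj 0)))) (hF' (DfnF.proj 2))
    refine Ct.sub hM hMs (hVM _ (hM.pair_mem hβ ht)) (fun ξ hξ => ?_) (hVc β hβ t ht)
    obtain ⟨h5, m, hm, e', he', h6⟩ := ZFSet.mem_sep.1 hξ
    exact ZFSet.mem_sep.2 ⟨hAs h5, m, hm, e', he', h6, hnot _ _⟩

end

end Pool.Agent.H635.RF
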