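import Pool.Graph.R_seed8.W868.Defs

/-!
# Raisonnier filters and dominating reals in a transitive model: the definitions

`M`, `N` are transitive classes of sets (subsets of `ZFSet`), `IsZF` and `IsZFC` say that they are
transitive models of ZF and of ZFC, and `nat n` is the natural number `n` as a set.
-/

set_option autoImplicit false

namespace Pool.Agent.H635.RF

open Pool.Agent.W868
open ZFSet (pair)

/-- The function `x` as a set, the set of the pairs `(i, x i)`. -/
noncomputable def fnc (x : ℕ → ℕ) : ZFSet.{0} :=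
  ZFSet.range fun i : ℕ => pair (nat i) (nat (x i))

/-- The set `b` of natural numbers (a point of `2^ω`) as a set. -/
noncomputable def stc (b : Set ℕ) : ZFSet.{0} :=
  ZFSet.range fun i : {i : ℕ // i ∈ b} => nat i.1

/-- The sequence `Y` of subsets of `2^ω` as a set, the set of the pairs `(k, x)` with
`x ∈ Y k`. -/
noncomputable def sqc (Y : ℕ → Set (Set ℕ)) : ZFSet.{0} :=
  ZFSet.range fun p : {p : ℕ × Set ℕ // p.2 ∈ Y p.1} => pair (nat p.1.1) (stc p.1.2)

/-- The class `L[a]` of the transitive model `N` of ZF: the intersection of all transitive models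
of ZF that are contained in `N`, have the same ordinals as `N`, and contain the real `a`. -/
def Lr (N : Set ZFSet.{0}) (a : ℕ → ℕ) : Set ZFSet.{0} :=
  {z | ∀ W ⊆ N, IsZF W → (∀ x ∈ N, x.IsOrdinal → x ∈ W) → fnc a ∈ W → z ∈ W}

/-- The set of the splitting points of `X`. -/
def spl (X : Set (Set ℕ)) : Set ℕ :=
  {n | ∃ x ∈ X, ∃ y ∈ X, (∀ i < n, (i ∈ x ↔ i ∈ y)) ∧ ¬ (n ∈ x ↔ n ∈ y)}

/-- The Raisonnier filter of `X`, in the model `N`. -/
def Rai (N : Set ZFSet.{0}) (X : Set (Set ℕ)) : Set (Set ℕ) :=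
  {A | stc A ∈ N ∧ ∃ Y : ℕ → Set (Set ℕ), sqc Y ∈ N ∧ X = ⋃ k, Y k ∧ ∀ k, spl (Y k) ⊆ A}

/-- The filter `F` is rapid, in the model `N`. -/
def Rapid (N : Set ZFSet.{0}) (F : Set (Set ℕ)) : Prop :=
  ∀ f : ℕ → ℕ, Monotone f → fnc f ∈ N → ∃ A ∈ F, ∀ n, (A ∩ {i | i < f n}).ncard ≤ n

/-- The statement (R) holds in the model `N`: for every real `a`, the Raisonnier filter of
`2^ω ∩ L[a]` is rapid. -/
def StR (N : Set ZFSet.{0}) : Prop :=
  ∀ a : ℕ → ℕ, fnc a ∈ N → Rapid N (Rai N {x | stc x ∈ Lr N a})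

/-- The statement (D) holds in the model `N`: for every real `a` there is a real that dominates
the reals of `L[a]`. -/
def StD (N : Set ZFSet.{0}) : Prop :=
  ∀ a : ℕ → ℕ, fnc a ∈ N → ∃ d : ℕ → ℕ, fnc d ∈ N ∧
    ∀ f : ℕ → ℕ, fnc f ∈ Lr N a → ∃ n₀, ∀ n ≥ n₀, f n ≤ d n

end Pool.Agent.H635.RF
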