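import Pool.Agent.H635.RF.Ra

/-!
# The statement (R) in the extension
-/

set_option autoImplicit false
set_option linter.unreachableTactic false
set_option linter.unusedTactic false
set_option linter.unusedSectionVars false
set_option linter.unusedVariables false

namespace Pool.Agent.H635.RF

open Pool.Agent.W868 Pool.Agent.W868.GM Pool.Agent.Y588
open Pool.Agent.H635.RB (Fi dfn_fi fin_mem nat_mem_iff mem_nat nat_sub ap_unique)
open ZFSet (pair)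

theorem fnc_mem_LC {N : Set ZFSet.{0}} (hN : IsZF N) {a : ℕ → ℕ} (ha : fnc a ∈ N) :
    fnc a ∈ LC N (fnc a) := by
  have hW := isZF_LC hN ha
  obtain ⟨δ, h1, h2, h3⟩ := exists_level hN ha ha (Q := fun w z => w = z)
    (Dfn.eq (DfnF.proj 0) (DfnF.proj 1))
  refine LC_of_subset hN h1 h2 fun z hz => ?_
  have h5 : z ∈ LC N (fnc a) := by
    obtain ⟨i, rfl⟩ := mem_fnc.1 hz
    exact hW.pair_mem (hW.nat_mem _) (hW.nat_mem _)
  obtain ⟨w, hw, h4⟩ := h3 z hz ⟨z, h5, rfl⟩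
  rwa [← h4]

/-- The two definitions of `L[a]` agree. -/
theorem Lr_eq {N : Set ZFSet.{0}} (hN : IsZF N) {a : ℕ → ℕ} (ha : fnc a ∈ N) :
    Lr N a = LC N (fnc a) := by
  ext z
  constructor
  · intro h
    exact h (LC N (fnc a)) (LC_subset hN ha) (isZF_LC hN ha) (fun x hx hxo => ord_LC hN ha hx hxo)
      (fnc_mem_LC hN ha)
  · rintro ⟨ξ, h1, h2, h3⟩ W hW hWz hWo haW
    exact hWz.trans _ (Lv_mem_M hWz haW (hWo ξ h1 h2)) _ h3

theorem mem_Tb_of {M : Set ZFSet.{0}} {π : Par} (hc : π.c) {β t : ZFSet.{0}}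
    (h : t ∈ Nm M π β) : t ∈ Tb M π β :=
  ZFSet.mem_union.2 (Or.inl (ZFSet.mem_sep.2 ⟨h, hc⟩))

section

variable {M : Set ZFSet.{0}} (hL : IsLA ∅ M) {κ : ZFSet.{0}} (hk : IsAleph1 M κ)
  {G : ZFSet.{0}} (hG : IsGeneric M (PP M (loc M) κ) (LL M (loc M) κ) G)

include hL hk hG

theorem loc_slalom {γ : ZFSet.{0}} (hγ : γ ∈ κ) (b : ℕ → ℕ)
    (hb : fnc b ∈ ext M (Gb M (loc M) G γ)) : ∃ S : ℕ → Finset ℕ, slc S ∈ ext M G ∧
      (∀ m, (S m).card ≤ m) ∧ ∀ y : ℕ → ℕ, fnc y ∈ ext M (Gb M (loc M) G γ) →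
        (∀ m, y m < b m) → ∃ m₀, ∀ m ≥ m₀, y m ∈ S m := by
  have hM := hL.zf
  have hg := hL.gc
  have hπ := pOk_loc hM
  have hx := pAx_loc hM
  have hκM := hk.1
  have hκ := hk.2.1
  have hγM := hM.trans _ hκM _ hγ
  have hγo := hκ.mem hγ
  have hγκ := hκ.subset_of_mem hγ
  obtain ⟨t, ht, htb⟩ := exists_Nm hM hπ hκM hκ hG hγM hγo hγκ hb
  have htT : t ∈ Tb M (loc M) γ := mem_Tb_of trivial ht
  have hE : ∀ m, ge G γ t m ∈ locE M := fun m => ge_E hM hπ hκM hκ hG hx hγ htT m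
  have hfin : ∀ m, {v : ℕ | nat v ∈ sn (ge G γ t m)}.Finite := by
    intro m
    obtain ⟨c, B, ⟨n, hn⟩, h1⟩ := (mem_locE hM).1 (hE m)
    refine Set.Finite.subset (Set.finite_Iio n) fun v hv => ?_
    rw [Set.mem_ofPred_eq, h1, sn_pair] at hv
    exact nat_mem_iff.1 (hn hv)
  set S : ℕ → Finset ℕ := fun m => (hfin m).toFinset with hS
  have memS : ∀ m v, v ∈ S m ↔ nat v ∈ sn (ge G γ t m) := by
    intro m v
    rw [hS]
    exact (hfin m).mem_toFinset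
  have hW := zf_G hM hπ hg hκM hκ hG
  have hMW := M_sub_G hM hπ hκM hκ hG
  have hGW := G_mem_G hM hπ hκM hκ hG
  have hB := hW.base
  refine ⟨S, ?_, ?_, ?_⟩
  · have h1 : slc S = ZFSet.sep (fun z => ∃ p ∈ G, ∃ e ∈ (loc M).E, sa γ t (fs z) e ∈ p ∧
        sn z ∈ sn e) (ZFSet.prod ZFSet.omega ZFSet.omega) := by
      ext z
      rw [mem_slc, ZFSet.mem_sep]
      constructor
      · rintro ⟨m, v, h1, rfl⟩
        refine ⟨ZFSet.pair_mem_prod.2 ⟨nat_mem_omega _, nat_mem_omega _⟩, ?_⟩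
        rw [fs_pair, sn_pair]
        obtain ⟨p, hp, h2⟩ := ge_spec hM hπ hκM hκ hG hx hγ htT m
        exact ⟨p, hp, _, hE m, h2, (memS m v).1 h1⟩
      · rintro ⟨h1, p, hp, e, he, h2, h3⟩
        obtain ⟨a, ha, c, hc, rfl⟩ := ZFSet.mem_prod.1 h1
        obtain ⟨m, rfl⟩ := mem_omega_iff.1 ha
        obtain ⟨v, rfl⟩ := mem_omega_iff.1 hc
        rw [fs_pair] at h2
        rw [sn_pair] at h3
        have h4 := ge_eq hM hπ hκM hκ hG hx hγ htT hp h2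
        exact ⟨m, v, (memS m v).2 (by rw [h4]; exact h3), rfl⟩
    rw [h1]
    have htM := hMW (mem_Nm.1 ht).1
    have hγW := hMW hγM
    have hEW := hMW hπ.E
    have h0 := hW.empty_mem
    refine hW.sep_mem ?_ (hW.prod_mem hW.infinity hW.infinity)
    unfold sa
    (repeat' first
      | assumption
      | exact DfnF.proj _
      | exact DfnF.const (by assumption)
      | apply Dfn.and | apply hB.bex
      | apply Dfn.mem | apply hB.pair' | apply hW.fs' | apply hW.sn')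
  · intro m
    have h1 := ge_Vl hM hπ hκM hκ hG hx hγ htT m
    obtain ⟨-, -, -, -, h2⟩ := loc_Vl.1 h1
    rw [Sz, ncard_nat] at h2
    have h3 : (S m).card = {v : ℕ | nat v ∈ sn (ge G γ t m)}.ncard :=
      (Set.ncard_eq_toFinset_card _ (hfin m)).symm
    rw [h3]
    refine le_trans' h2 ?_
    obtain ⟨c, B, ⟨n, hn⟩, h4⟩ := (mem_locE hM).1 (hE m)
    have h5 : Fi (sn (ge G γ t m)) := by
      rw [h4, sn_pair]
      exact fi_of_sub hn
    exact Set.ncard_le_ncard_of_injOn nat (fun v hv => hv) (fun v _ w _ h => nat_injective h) h5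
  · intro y hy hyb
    obtain ⟨s, hs, hsy⟩ := exists_Nm hM hπ hκM hκ hG hγM hγo hγκ hy
    obtain ⟨n₀, hn₀⟩ := ge_Al hM hπ hκM hκ hG hx hγ htT hs
    refine ⟨n₀, fun m hm => ?_⟩
    have h1 := hn₀ m hm
    rw [hsy] at h1
    have h2 := ge_Cn hM hπ hκM hκ hG hx hγ htT trivial m
    rw [htb] at h2
    obtain ⟨-, -, h3⟩ := loc_Al.1 h1
    obtain ⟨-, -, h4⟩ := loc_Cn.1 h2
    rw [memS]
    rcases h3 with h3 | h3
    · exact h3
    · exfalso
      rw [h4, nat_sub] at h3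
      have := hyb m
      omega

/-- The statement (R) holds in the extension. -/
theorem stR : StR (ext M G) := by
  intro a ha f hf hfN
  have hM := hL.zf
  have hg := hL.gc
  have hπ := pOk_loc hM
  have hx := pAx_loc hM
  have hE : Ct M (loc M).E := ct_locE hM hg
  have hκM := hk.1
  have hκ := hk.2.1
  obtain ⟨γ, hγ, haγ, hfγ⟩ : ∃ γ ∈ κ, fnc a ∈ ext M (Gb M (loc M) G γ) ∧
      fnc f ∈ ext M (Gb M (loc M) G γ) := by
    obtain ⟨γ₁, h1, h2⟩ := exists_stage hM hg hk hπ hE hx hG ha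
    obtain ⟨γ₂, h3, h4⟩ := exists_stage hM hg hk hπ hE hx hG hfN
    have m1 := hM.trans _ hκM _ h1
    have m2 := hM.trans _ hκM _ h3
    rcases (hκ.mem h1).subset_total (hκ.mem h3) with h5 | h5
    · exact ⟨γ₂, h3, ext_Gb_mono hM hπ hg hκM hκ hG m1 m2 (hκ.mem h3) h5
        (hκ.subset_of_mem h3) h2, h4⟩
    · exact ⟨γ₁, h1, h2, ext_Gb_mono hM hπ hg hκM hκ hG m2 m1 (hκ.mem h1) h5
        (hκ.subset_of_mem h1) h4⟩
  have hγM := hM.trans _ hκM _ hγ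
  have hγo := hκ.mem hγ
  have hγκ := hκ.subset_of_mem hγ
  have hN := zf_G hM hπ hg hκM hκ hG
  have hMN := M_sub_G hM hπ hκM hκ hG
  have hN₀ := zf_Gb hM hπ hg hκM hκ hG hγM hγo hγκ
  have hMN₀ := M_sub_Gb hM hπ hκM hκ hG hγM hγo hγκ
  have hN₀N : ext M (Gb M (loc M) G γ) ⊆ ext M G := ext_Gb_sub hM hπ hg hκM hκ hG hγM
  have hFwM := Fw_mem hM
  obtain ⟨j₀, hj₀M, hj₀⟩ : Ct M (Fw M) := ct_Fw hM hg
  obtain ⟨j₁, hj₁M, hj₁⟩ : Ct M (ZFSet.prod ZFSet.omega (Fw M)) :=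
    ct_prod hM hM.infinity hFwM (ct_omega hM) (ct_Fw hM hg)
  have hX : ∀ x ∈ {x : Set ℕ | stc x ∈ Lr (ext M G) a}, stc x ∈ ext M (Gb M (loc M) G γ) := by
    intro x hx
    exact hx _ hN₀N hN₀ (fun z hz hzo => hMN₀ (ord_of_ext hM hz hzo)) haγ
  have hXXm : ZFSet.sep (fun z => z ∈ Lr (ext M G) a) (pwM (ext M G) ZFSet.omega) ∈
      ext M G := by
    refine hN.sep_mem ?_ (pwM_mem hN hN.infinity)
    rw [Lr_eq hN ha]
    exact dfn_LC hN ha
  refine rai_of_loc hM hN hN₀ hMN₀ hN₀N hj₀M hj₀ hj₁M hj₁ hX hXXm ?_ hf hfγ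
    fun b hb => loc_slalom hL hk hG hγ b hb
  intro z
  rw [ZFSet.mem_sep, mem_pwM]
  constructor
  · rintro ⟨⟨h1, h2⟩, h3⟩
    refine ⟨ust z, ?_, (stc_ust h2).symm⟩
    rw [Set.mem_ofPred_eq, stc_ust h2]
    exact h3
  · rintro ⟨x, hx, rfl⟩
    exact ⟨⟨hN₀N (hX x hx), stc_sub⟩, hx⟩

end

end Pool.Agent.H635.RF
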