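import Pool.Agent.H635.RF.Nd
import Pool.Agent.H635.RF.Rb
import Pool.Graph.R_seed8.R597.GBP

/-!
# A model with rapid Raisonnier filters and without dominating reals
-/

set_option autoImplicit false
set_option linter.unreachableTactic false
set_option linter.unusedTactic false
set_option linter.unusedSectionVars false
set_option linter.unusedVariables false

namespace Pool.Agent.H635.RF

open Pool.Agent.W868 Pool.Agent.W868.GM Pool.Agent.Y588
open Pool.Agent.H635.RB (Fi dfn_fi fin_mem nat_mem_iff mem_nat nat_sub ap_unique)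
open ZFSet (pair)

theorem pLim_loc (M : Set ZFSet.{0}) : PLim (loc M) where
  c := trivial
  lim e b v h1 h2 := by
    obtain ⟨h3, -, h4⟩ := loc_Cn.1 h1
    obtain ⟨-, -, h5⟩ := loc_Al.1 h2
    refine loc_Al.2 ⟨h3, nat_mem_omega v, ?_⟩
    rcases lt_or_ge v b with h | h
    · rwa [min_eq_left h.le] at h5
    · right
      rw [h4, nat_sub]
      exact h

/-- The first uncountable ordinal of a model. -/
theorem exists_aleph1 {M : Set ZFSet.{0}} (hM : IsZF M) : ∃ κ, IsAleph1 M κ := by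
  obtain ⟨κ, h1, h2, h3⟩ := exists_next hM hM.infinity isOrdinal_omega
  exact ⟨κ, h1.1, h1.2.1, h1.2.2 _ h2, h3⟩

/-- There is a countable transitive model of ZFC in which (R) holds and (D) fails. -/
theorem exists_model : ∃ N : Set ZFSet.{0}, N.Countable ∧ IsZFC N ∧ StR N ∧ ¬ StD N := by
  obtain ⟨M, hc, hL⟩ := Pool.Agent.R597.exists_ctm_L
  have hM := hL.zf
  have hg := hL.gc
  obtain ⟨κ, hk⟩ := exists_aleph1 hM
  have hπ := pOk_loc hM
  have hE : Ct M (loc M).E := ct_locE hM hg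
  have hx := pAx_loc hM
  have hP := isForcing_PP hM hπ hk.1 hk.2.1
  obtain ⟨G, hG, -⟩ := exists_gen hc hP (empty_mem_PP hM κ)
  refine ⟨ext M G, ?_, zfc_ext hL hP hG, stR hL hk hG, fun hD => ?_⟩
  · exact hc.image _
  have hMG : M ⊆ ext M G := M_sub_G hM hπ hk.1 hk.2.1 hG
  have h0 : fnc (fun _ => 0) ∈ M := by
    refine fnc_mem_of hM (Q := fun _ j => j = nat 0)
      (Dfn.eq (DfnF.proj 1) (DfnF.const (hM.nat_mem 0))) fun i j => ?_
    constructor
    · exact fun h => nat_injective h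
    · rintro rfl
      rfl
  obtain ⟨d, hd, h1⟩ := hD _ (hMG h0)
  have hself := Gb_self hM hπ hk.1 hk.2.1 hG
  obtain ⟨σ, hσ, h2⟩ := exists_Nm hM hπ hk.1 hk.2.1 hG hk.1 hk.2.1 (fun _ h => h) (x := d)
    (by rwa [hself])
  refine not_dom hc hL hπ hE hx (pLim_loc M) hk hG hσ fun g hgM => ?_
  rw [h2]
  refine h1 g fun W hW hWz hWo _ => ?_
  obtain ⟨ξ, h3, h4, h5⟩ := hL.lev _ hgM
  have h6 : ξ ∈ W := hWo ξ (hMG h3) h4
  exact hWz.trans _ (Lv_mem_M hWz hWz.empty_mem h6) _ h5

end Pool.Agent.H635.RF
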