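import Pool.Agent.H635.RF.Dfs

/-!
# Goldstern's principle in a transitive model: the definitions

`N` is a transitive class of sets. The points of `ω^ω` are functions `x : ℕ → ℕ` with `fnc x ∈ N`
and the points of `2^ω` are sets `y : Set ℕ` with `stc y ∈ N`.
-/

set_option autoImplicit false

namespace Pool.Agent.H635.RF

open Pool.Agent.W868
open ZFSet (pair)

/-- The set `S` of pairs `(l, t)` of a natural number and a finite set of natural numbers, as a
set. -/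
noncomputable def cyc (S : Set (ℕ × Finset ℕ)) : ZFSet.{0} :=
  ZFSet.range fun c : {c : ℕ × Finset ℕ // c ∈ S} => pair (nat c.1.1) (stc {i | i ∈ c.1.2})

/-- The basic open set of the pair `(l, t)`: the set of all points of `2^ω` that agree with `t`
below `l`. Its measure is `2 ^ (-l)`. -/
def cyl (c : ℕ × Finset ℕ) : Set (Set ℕ) := {y | ∀ i < c.1, (i ∈ y ↔ i ∈ c.2)}

/-- In `N`, the subset `Z` of `2^ω` has measure zero for the product measure: for every `k` it is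
covered by a set in `N` of basic open sets whose measures have a sum of at most `2 ^ (-k)`. -/
def NullIn (N : Set ZFSet.{0}) (Z : Set (Set ℕ)) : Prop :=
  ∀ k : ℕ, ∃ S : Set (ℕ × Finset ℕ), cyc S ∈ N ∧
    ∑' c : S, (2⁻¹ : ENNReal) ^ c.1.1 ≤ 2⁻¹ ^ k ∧ ∀ y ∈ Z, stc y ∈ N → ∃ c ∈ S, y ∈ cyl c

/-- The point `(x, y)` of `ω^ω × 2^ω` as a set. -/
noncomputable def ptc (x : ℕ → ℕ) (y : Set ℕ) : ZFSet.{0} := pair (fnc x) (stc y)

/-- In `N`, the subset `A` of `ω^ω × 2^ω` is `Σ¹₂` (boldface): there are a formula `φ` and a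
parameter `p` such that `A` is the set of the points that are elements of a countable transitive
set which contains `p` and satisfies `φ` at the point and `p`. -/
def Sig (N : Set ZFSet.{0}) (A : Set ((ℕ → ℕ) × Set ℕ)) : Prop :=
  ∃ φ : Fml Empty 2, ∃ p ∈ N, ∀ x : ℕ → ℕ, ∀ y : Set ℕ, fnc x ∈ N → stc y ∈ N →
    ((x, y) ∈ A ↔ ∃ t ∈ N, (∀ z ∈ t, z ⊆ t) ∧ (∃ f ∈ N, IsInj t ZFSet.omega f) ∧
      ptc x y ∈ t ∧ p ∈ t ∧ Sat {z | z ∈ t} Empty.elim φ ![ptc x y, p])

/-- Goldstern's principle for `Δ¹₂` subsets of `ω^ω × 2^ω` and the product measure on `2^ω` holds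
in `N`. -/
def StGP (N : Set ZFSet.{0}) : Prop :=
  ∀ A : Set ((ℕ → ℕ) × Set ℕ), Sig N A → Sig N Aᶜ →
    (∀ x, fnc x ∈ N → NullIn N {y | (x, y) ∈ A}) →
    (∀ x x' y, fnc x ∈ N → fnc x' ∈ N → stc y ∈ N → (∀ n, x n ≤ x' n) → (x, y) ∈ A →
      (x', y) ∈ A) →
    NullIn N {y | ∃ x, fnc x ∈ N ∧ (x, y) ∈ A}

end Pool.Agent.H635.RF
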