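import Pool.Agent.H635.RF.Rb

/-!
# The iteration of Hechler forcing: dominating functions
-/

set_option autoImplicit false
set_option linter.unreachableTactic false
set_option linter.unusedTactic false
set_option linter.unusedSectionVars false
set_option linter.unusedVariables false

namespace Pool.Agent.H635.RF

open Pool.Agent.W868 Pool.Agent.W868.GM Pool.Agent.Y588
open Pool.Agent.H635.RB (Fi dfn_fi fin_mem nat_mem_iff mem_nat nat_sub ap_unique)
open ZFSet (pair)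

/-- The parameters of Hechler forcing: the entries are the natural numbers. -/
noncomputable def hec : Par where
  E := ZFSet.omega
  Vl := ZFSet.prod ZFSet.omega ZFSet.omega
  Cn := ZFSet.prod ZFSet.omega ZFSet.omega
  Al := ZFSet.sep (fun z => sn z ⊆ fs z) (ZFSet.prod ZFSet.omega ZFSet.omega)
  c := False

theorem hec_Al {e v : ℕ} : pair (nat e) (nat v) ∈ hec.Al ↔ v ≤ e := by
  simp only [hec, ZFSet.mem_sep, ZFSet.pair_mem_prod, fs_pair, sn_pair, nat_sub]
  exact ⟨fun h => h.2, fun h => ⟨⟨nat_mem_omega _, nat_mem_omega _⟩, h⟩⟩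

section

variable {M : Set ZFSet.{0}} (hM : IsZF M)

include hM

theorem pOk_hec : POk M hec where
  E := hM.infinity
  Vl := hM.prod_mem hM.infinity hM.infinity
  Cn := hM.prod_mem hM.infinity hM.infinity
  Al := by
    have hB := hM.base
    refine hM.sep_mem (Q := fun z => sn z ⊆ fs z) ?_ (hM.prod_mem hM.infinity hM.infinity)
    exact hB.subset' (hM.sn' (DfnF.proj 0)) (hM.fs' (DfnF.proj 0))

end

theorem pAx_hec : PAx hec where
  ent n b V _ := by
    refine ⟨nat (V.sup id), nat_mem_omega _, ZFSet.pair_mem_prod.2 ⟨nat_mem_omega _,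
      nat_mem_omega _⟩, ZFSet.pair_mem_prod.2 ⟨nat_mem_omega _, nat_mem_omega _⟩, fun v hv => ?_⟩
    exact hec_Al.2 (Finset.le_sup (f := id) hv)

theorem ct_hec {M : Set ZFSet.{0}} (hM : IsZF M) : Ct M hec.E := ct_omega hM

theorem hec_Tb {M : Set ZFSet.{0}} {β t : ZFSet.{0}} : t ∈ Tb M hec β ↔ t = ∅ := by
  unfold Tb Lb
  rw [ZFSet.mem_union, ZFSet.mem_sep, ZFSet.mem_sep, ZFSet.mem_singleton]
  constructor
  · rintro (⟨-, h⟩ | ⟨h, -⟩)
    · exact absurd h (fun h => h)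
    · exact h
  · rintro rfl
    exact Or.inr ⟨rfl, fun h => h⟩

section

variable {M : Set ZFSet.{0}} (hL : IsLA ∅ M) {κ : ZFSet.{0}} (hk : IsAleph1 M κ)
  {G : ZFSet.{0}} (hG : IsGeneric M (PP M hec κ) (LL M hec κ) G)

include hL hk hG

/-- The generic functions are in the extension. -/
theorem exists_hec {γ : ZFSet.{0}} (hγ : γ ∈ κ) : ∃ d : ℕ → ℕ, fnc d ∈ ext M G ∧
    ∀ n, ge G γ ∅ n = nat (d n) := by
  have hM := hL.zf
  have hg := hL.gc
  have hπ := pOk_hec hM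
  have hκM := hk.1
  have hκ := hk.2.1
  have htT : (∅ : ZFSet.{0}) ∈ Tb M hec γ := hec_Tb.2 rfl
  have hE : ∀ m, ge G γ ∅ m ∈ ZFSet.omega := fun m =>
    ge_E hM hπ hκM hκ hG pAx_hec hγ htT m
  have hd : ∀ m, ∃ k : ℕ, ge G γ ∅ m = nat k := fun m => mem_omega_iff.1 (hE m)
  choose d hd using hd
  refine ⟨d, ?_, hd⟩
  have hW := zf_G hM hπ hg hκM hκ hG
  have hMW := M_sub_G hM hπ hκM hκ hG
  have hGW := G_mem_G hM hπ hκM hκ hG
  have hB := hW.base
  have hγM := hMW (hM.trans _ hκM _ hγ)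
  have h0 := hW.empty_mem
  refine fnc_mem_of hW (Q := fun n k => ∃ p ∈ G, sa γ ∅ n k ∈ p) ?_ fun i j => ?_
  · unfold sa
    (repeat' first
      | assumption
      | exact DfnF.proj _
      | exact DfnF.const (by assumption)
      | apply hB.bex | apply Dfn.mem | apply hB.pair')
  · constructor
    · rintro ⟨p, hp, h⟩
      have h1 := ge_eq hM hπ hκM hκ hG pAx_hec hγ htT hp h
      rw [hd] at h1
      exact (nat_injective h1).symm
    · rintro rfl
      obtain ⟨p, hp, h⟩ := ge_spec hM hπ hκM hκ hG pAx_hec hγ htT i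
      rw [hd] at h
      exact ⟨p, hp, h⟩

/-- The statement (D) holds in the extension. -/
theorem stD : StD (ext M G) := by
  intro a ha
  have hM := hL.zf
  have hg := hL.gc
  have hπ := pOk_hec hM
  have hx := pAx_hec
  have hE : Ct M hec.E := ct_hec hM
  have hκM := hk.1
  have hκ := hk.2.1
  obtain ⟨γ, hγ, haγ⟩ := exists_stage hM hg hk hπ hE hx hG ha
  have hγM := hM.trans _ hκM _ hγ
  have hγo := hκ.mem hγ
  have hγκ := hκ.subset_of_mem hγ
  obtain ⟨d, hd, hde⟩ := exists_hec hL hk hG hγ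
  refine ⟨d, hd, fun f hf => ?_⟩
  have hN₀ := zf_Gb hM hπ hg hκM hκ hG hγM hγo hγκ
  have hMN₀ := M_sub_Gb hM hπ hκM hκ hG hγM hγo hγκ
  have hN₀N : ext M (Gb M hec G γ) ⊆ ext M G := ext_Gb_sub hM hπ hg hκM hκ hG hγM
  have hf1 : fnc f ∈ ext M (Gb M hec G γ) :=
    hf _ hN₀N hN₀ (fun z hz hzo => hMN₀ (ord_of_ext hM hz hzo)) haγ
  obtain ⟨s, hs, hsf⟩ := exists_Nm hM hπ hκM hκ hG hγM hγo hγκ hf1
  obtain ⟨n₀, hn₀⟩ := ge_Al hM hπ hκM hκ hG hx hγ (hec_Tb.2 rfl) hs
  refine ⟨n₀, fun n hn => ?_⟩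
  have h1 := hn₀ n hn
  rw [hsf, hde] at h1
  exact hec_Al.1 h1

end

end Pool.Agent.H635.RF
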