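import Pool.Agent.H635.RF.Hk
import Pool.Agent.H635.RF.Cp

/-!
# The iteration of Hechler forcing: the conditions with the same stems
-/

set_option autoImplicit false
set_option linter.unreachableTactic false
set_option linter.unusedTactic false
set_option linter.unusedSectionVars false
set_option linter.unusedVariables false

namespace Pool.Agent.H635.RF

open Pool.Agent.W868 Pool.Agent.W868.GM Pool.Agent.Y588
open Pool.Agent.H635.RB (Fi dfn_fi fin_mem nat_mem_iff mem_nat nat_sub ap_unique)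
open ZFSet (pair)

/-- The stems of a condition. -/
noncomputable def stm (p : ZFSet.{0}) : ZFSet.{0} := ZFSet.sep (fun z => fs (sn z) = ∅) p

theorem sa_mem_stm {p β t m e : ZFSet.{0}} : sa β t m e ∈ stm p ↔ sa β t m e ∈ p := by
  rw [stm, ZFSet.mem_sep]
  unfold sa
  rw [sn_pair, fs_pair]
  exact ⟨fun h => h.1, fun h => ⟨h, rfl⟩⟩

section

variable {M : Set ZFSet.{0}} (hM : IsZF M)

include hM

theorem same_stem {α p q : ZFSet.{0}} (hα : α.IsOrdinal) (hp : p ∈ PP M hec α)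
    (hq : q ∈ PP M hec α) (h : stm p = stm q) : p ∪ q ∈ PP M hec α ∧ Le M hec (p ∪ q) p ∧
      Le M hec (p ∪ q) q ∧ stm (p ∪ q) = stm p := by
  have h1 : ∀ β t m e, sa β t m e ∈ p ↔ sa β t m e ∈ q := by
    intro β t m e
    rw [← sa_mem_stm, h, sa_mem_stm]
  obtain ⟨h2, h3, h4⟩ := amal hM hα hp hq (fun β t m e e' h2 h3 => (mem_PP.1 hp).fn β t m e e' h2
    ((h1 _ _ _ _).2 h3)) (fun hc => absurd hc fun h => h)
    (fun β t s m e _ h3 h4 => absurd ((h1 _ _ _ _).2 h3) h4)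
    (fun β t s m e _ h3 h4 => absurd ((h1 _ _ _ _).1 h3) h4)
  refine ⟨h2, h3, h4, ?_⟩
  ext z
  have h5 : z ∈ stm p ↔ z ∈ stm q := by rw [h]
  rw [stm, stm, ZFSet.mem_sep, ZFSet.mem_sep] at h5
  rw [stm, stm, ZFSet.mem_sep, ZFSet.mem_sep, ZFSet.mem_union]
  tauto

/-- Finitely many conditions with the same stems have a common extension. -/
theorem same_stems {α σ : ZFSet.{0}} (hα : α.IsOrdinal) {X : Set ZFSet.{0}} (hX : X.Finite)
    (hne : X.Nonempty) (h : ∀ p ∈ X, p ∈ PP M hec α ∧ stm p = σ) :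
    ∃ p ∈ PP M hec α, stm p = σ ∧ ∀ q ∈ X, Le M hec p q := by
  induction X, hX using Set.Finite.induction_on with
  | empty => exact absurd hne Set.not_nonempty_empty
  | @insert a X' ha hX' ih =>
    obtain ⟨ha1, ha2⟩ := h a (Set.mem_insert _ _)
    rcases X'.eq_empty_or_nonempty with rfl | hne'
    · refine ⟨a, ha1, ha2, fun q hq => ?_⟩
      rcases hq with rfl | hq
      · exact le_refl _
      · exact absurd hq (Set.notMem_empty _)
    · obtain ⟨p, h1, h2, h3⟩ := ih hne' fun p hp => h p (Set.mem_insert_of_mem _ hp)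
      obtain ⟨h4, h5, h6, h7⟩ := same_stem hM hα ha1 h1 (by rw [ha2, h2])
      refine ⟨a ∪ p, h4, by rw [h7, ha2], fun q hq => ?_⟩
      rcases hq with rfl | hq
      · exact h5
      · exact le_trans hM hα _ (h q (Set.mem_insert_of_mem _ hq)).1 _ h1 _ h4 h6 (h3 q hq)

/-- Deciding the values of a name below `n`. -/
theorem decs_below {π : Par} {α s : ZFSet.{0}} (hα : α.IsOrdinal) (hs : s ∈ Nm M π α) (n : ℕ) :
    ∀ p ∈ PP M π α, ∃ r ∈ PP M π α, Le M π r p ∧ ∀ j < n, ∃ v ∈ ZFSet.omega,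
      Db M π α s r (nat j) v := by
  intro p hp
  induction n with
  | zero => exact ⟨p, hp, le_refl p, fun j hj => absurd hj (Nat.not_lt_zero _)⟩
  | succ n ih =>
    obtain ⟨r, h1, h2, h3⟩ := ih
    obtain ⟨r', h4, h5, v, hv, h6⟩ := exists_dec hs h1 (nat_mem_omega n)
    refine ⟨r', h4, le_trans hM hα _ hp _ h1 _ h4 h5 h2, fun j hj => ?_⟩
    rcases (Nat.lt_succ_iff.1 hj).lt_or_eq with h7 | rfl
    · obtain ⟨v', hv', h8⟩ := h3 j h7
      exact ⟨v', hv', Db.mono hM hα h1 h4 h5 h8⟩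
    · exact ⟨v, hv, h6⟩

end

/-- The condition `q` decides that the name `s` agrees with the characteristic function of `w`
below `n`. -/
def Agr (M : Set ZFSet.{0}) (π : Par) (γ s q n w : ZFSet.{0}) : Prop :=
  ∀ j ∈ n, ∃ v ∈ ZFSet.omega, Db M π γ s q j v ∧ (v = nat 1 ↔ j ∈ w)

section

variable {M : Set ZFSet.{0}} (hM : IsZF M) {e : ZFSet.{0} → ZFSet.{0}} (hg : GC M e)
  {κ : ZFSet.{0}} (hk : IsAleph1 M κ) {γ : ZFSet.{0}} (hγ : γ ∈ κ)

include hM hg hk hγ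

/-- The countably many classes of conditions with the same stems. -/
theorem exists_idx : ∃ idx : ZFSet.{0} → ZFSet.{0},
    (DfnF M M fun w : Fin 1 → ZFSet.{0} => idx (w 0)) ∧
    (∀ p ∈ PP M hec γ, idx p ∈ ZFSet.omega) ∧
    ∀ p ∈ PP M hec γ, ∀ q ∈ PP M hec γ, idx p = idx q → stm p = stm q := by
  have hB := hM.base
  have ho := hM.infinity
  have h0 := hM.empty_mem
  have hγM := hM.trans _ hk.1 _ hγ
  have h1M : ({∅} : ZFSet.{0}) ∈ M := hM.single_mem h0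
  have hct1 : Ct M ({∅} : ZFSet.{0}) := ct_fin hM h1M (by
    refine Set.Finite.subset (Set.finite_singleton (∅ : ZFSet.{0})) fun x hx => ?_
    exact ZFSet.mem_singleton.1 hx)
  set At : ZFSet.{0} := ZFSet.prod (ZFSet.prod γ {∅}) (ZFSet.prod {∅}
    (ZFSet.prod ZFSet.omega ZFSet.omega)) with hAt
  have hm1 := hM.prod_mem hγM h1M
  have hm2 := hM.prod_mem ho ho
  have hm3 := hM.prod_mem h1M hm2
  have hAtM : At ∈ M := hM.prod_mem hm1 hm3
  obtain ⟨J, hJM, hJ⟩ : Ct M At := ct_prod hM hm1 hm3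
    (ct_prod hM hγM h1M (ct_below hM hg hk hγ) hct1)
    (ct_prod hM h1M hm2 hct1 (ct_prod hM ho ho (ct_omega hM) (ct_omega hM)))
  obtain ⟨j, hjM, hj⟩ : Ct M (Fw M) := ct_Fw hM hg
  have hst : ∀ p ∈ PP M hec γ, ∀ z ∈ stm p, z ∈ At := by
    intro p hp z hz
    obtain ⟨h1, h2⟩ := ZFSet.mem_sep.1 hz
    have h3 := (mem_PP.1 hp).ats
    obtain ⟨β, t, m, e', rfl⟩ := h3.eq_sa h1 h2
    obtain ⟨h4, h5, h6, h7⟩ := h3.sa h1
    rw [hec_Tb.1 h5]
    exact ZFSet.pair_mem_prod.2 ⟨ZFSet.pair_mem_prod.2 ⟨h4, ZFSet.mem_singleton.2 rfl⟩,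
      ZFSet.pair_mem_prod.2 ⟨ZFSet.mem_singleton.2 rfl, ZFSet.pair_mem_prod.2 ⟨h6, h7⟩⟩⟩
  have hJu : ∀ u ∈ At, ap J u ∈ ZFSet.omega ∧ pair u (ap J u) ∈ J := by
    intro u hu
    obtain ⟨b, hb, h1⟩ := fun_exists hJ.1 hu
    rw [ap_func hJ.1 h1]
    exact ⟨hb, h1⟩
  set cd : ZFSet.{0} → ZFSet.{0} := fun p => im (fun z => ap J z) (stm p) with hcd
  have hcF : ∀ p ∈ PP M hec γ, cd p ∈ Fw M := by
    intro p hp
    have hf : (nat ⁻¹' {x | x ∈ cd p}).Finite := by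
      refine Set.Finite.preimage (fun a _ b _ h => nat_injective h) ?_
      have h1 : {x | x ∈ cd p} = (fun z => ap J z) '' {z | z ∈ stm p} := by
        ext x
        constructor
        · intro hx
          obtain ⟨z, hz, rfl⟩ := mem_im.1 hx
          exact ⟨z, hz, rfl⟩
        · rintro ⟨z, hz, rfl⟩
          exact mem_im.2 ⟨z, hz, rfl⟩
      rw [h1]
      exact Set.Finite.image _ (Fi.mono (mem_PP.1 hp).fin fun z hz => (ZFSet.mem_sep.1 hz).1)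
    obtain ⟨b, hb⟩ := hf.bddAbove
    refine (mem_Fw hM).2 ⟨b + 1, fun x hx => ?_⟩
    obtain ⟨z, hz, rfl⟩ := mem_im.1 hx
    obtain ⟨k, hk⟩ := mem_omega_iff.1 (hJu z (hst p hp z hz)).1
    rw [hk, nat_mem_iff]
    refine Nat.lt_succ_of_le (hb ?_)
    show nat k ∈ cd p
    rw [← hk]
    exact hx
  have hju : ∀ u ∈ Fw M, ap j u ∈ ZFSet.omega ∧ pair u (ap j u) ∈ j := by
    intro u hu
    obtain ⟨b, hb, h1⟩ := fun_exists hj.1 hu
    rw [ap_func hj.1 h1]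
    exact ⟨hb, h1⟩
  refine ⟨fun p => ap j (cd p), ?_, fun p hp => (hju _ (hcF p hp)).1, fun p hp q hq h => ?_⟩
  · refine hM.ap' (DfnF.const hjM) ?_
    refine hM.im' (h := fun z _ => ap J z) ?_ (hM.ap' (DfnF.const hJM) (DfnF.proj 0))
    refine hM.sep' (Q := fun z _ => fs (sn z) = ∅) (DfnF.proj 0) ?_
    exact Dfn.eq (hM.fs' (hM.sn' (DfnF.proj 0))) (DfnF.const h0)
  · have h1 := (hju _ (hcF p hp)).2
    have h2 := (hju _ (hcF q hq)).2
    have h : ap j (cd p) = ap j (cd q) := h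
    rw [h] at h1
    have h3 : cd p = cd q := hj.2 _ _ _ h1 h2
    have key : ∀ p ∈ PP M hec γ, ∀ q ∈ PP M hec γ, cd p = cd q → stm p ⊆ stm q := by
      intro p hp q hq h z hz
      have h4 : ap J z ∈ cd p := mem_im.2 ⟨z, hz, rfl⟩
      rw [h] at h4
      obtain ⟨z', hz', h5⟩ := mem_im.1 h4
      have h6 := (hJu z (hst p hp z hz)).2
      have h7 := (hJu z' (hst q hq z' hz')).2
      rw [← h5] at h7
      rwa [hJ.2 _ _ _ h6 h7]
    ext z
    exact ⟨fun hz => key p hp q hq h3 hz, fun hz => key q hq p hp h3.symm hz⟩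

end

section

variable {M : Set ZFSet.{0}} (hM : IsZF M) {e : ZFSet.{0} → ZFSet.{0}} (hg : GC M e)
  {γ : ZFSet.{0}} (hγM : γ ∈ M) (hγ : γ.IsOrdinal) {s : ZFSet.{0}} (hs : s ∈ Nm M hec γ)

include hM hγM hγ hs

theorem dfn_Agr {n : ℕ} {q m w : (Fin n → ZFSet.{0}) → ZFSet.{0}} (hq : DfnF M M q)
    (hm : DfnF M M m) (hw : DfnF M M w) :
    Dfn M M fun v => Agr M hec γ s (q v) (m v) (w v) := by
  have hB := hM.base
  have hπ := pOk_hec hM
  have hsM := (mem_Nm.1 hs).1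
  refine hB.ball (Q := fun j v => ∃ v' ∈ ZFSet.omega, Db M hec γ s (q v) j v' ∧
    (v' = nat 1 ↔ j ∈ w v)) hm ?_
  refine hB.bex (Q := fun v' v => Db M hec γ s (q (Fin.tail v)) (v 0) v' ∧
    (v' = nat 1 ↔ v 0 ∈ w (Fin.tail v))) (DfnF.const hM.infinity) ?_
  exact Dfn.and (dfn_Db hM hπ hγM hγ hγM (DfnF.const hsM) hq.tail.tail (DfnF.proj 1)
    (DfnF.proj 0)) (Dfn.iff (Dfn.eq (DfnF.proj 0) (DfnF.const (hM.nat_mem 1)))
    (Dfn.mem (DfnF.proj 1) hw.tail.tail))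

/-- A finite approximation that is compatible with all conditions of a class. -/
theorem agr_fin {idx : ZFSet.{0} → ZFSet.{0}}
    (hidx : ∀ p ∈ PP M hec γ, ∀ q ∈ PP M hec γ, idx p = idx q → stm p = stm q)
    (i : ZFSet.{0}) (n : ℕ) : ∃ t ⊆ nat n, ∀ p ∈ PP M hec γ, idx p = i →
      ∃ q ∈ PP M hec γ, pair q p ∈ LL M hec γ ∧ Agr M hec γ s q (nat n) t := by
  classical
  by_contra hcon
  push Not at hcon
  choose! P hP using hcon
  set X : Set ZFSet.{0} := P '' {u | u ⊆ nat n} with hX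
  have hXf : X.Finite := Set.Finite.image _ (fin_subsets n)
  have h0 : (∅ : ZFSet.{0}) ⊆ nat n := ZFSet.empty_subset _
  obtain ⟨p, hp, -, hpX⟩ := same_stems hM hγ (σ := stm (P ∅)) hXf ⟨_, ⟨∅, h0, rfl⟩⟩ (by
    rintro _ ⟨u, hu, rfl⟩
    exact ⟨(hP u hu).1, hidx _ (hP u hu).1 _ (hP ∅ h0).1 (by
      rw [(hP u hu).2.1, (hP ∅ h0).2.1])⟩)
  obtain ⟨r, hr, hrp, hdec⟩ := decs_below hM hγ hs n p hp
  set t : ZFSet.{0} := ZFSet.sep (fun j => Db M hec γ s r j (nat 1)) (nat n) with ht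
  have htn : t ⊆ nat n := fun z hz => (ZFSet.mem_sep.1 hz).1
  have h1 := hP t htn
  have h2 : Le M hec r (P t) := le_trans hM hγ _ h1.1 _ hp _ hr hrp (hpX _ ⟨t, htn, rfl⟩)
  refine h1.2.2 r hr (mem_LL.2 ⟨hr, h1.1, h2⟩) fun j hj => ?_
  obtain ⟨j', hj', rfl⟩ := mem_nat.1 hj
  obtain ⟨v, hv, h3⟩ := hdec j' hj'
  refine ⟨v, hv, h3, ?_⟩
  constructor
  · rintro rfl
    exact ZFSet.mem_sep.2 ⟨hj, h3⟩
  · intro h4
    exact Db.uniq hs hr (nat_mem_omega _) hv (nat_mem_omega 1) h3 (ZFSet.mem_sep.1 h4).2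

include hg

/-- A real that is compatible with all conditions of a class. -/
theorem agr_real {idx : ZFSet.{0} → ZFSet.{0}}
    (hd : DfnF M M fun w : Fin 1 → ZFSet.{0} => idx (w 0))
    (hidx : ∀ p ∈ PP M hec γ, ∀ q ∈ PP M hec γ, idx p = idx q → stm p = stm q)
    {i : ZFSet.{0}} (hi : i ∈ M) : ∃ w ∈ M, w ⊆ ZFSet.omega ∧ ∀ n ∈ ZFSet.omega,
      ∀ p ∈ PP M hec γ, idx p = i →
      ∃ q ∈ PP M hec γ, pair q p ∈ LL M hec γ ∧ Agr M hec γ s q n w := by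
  classical
  have hB := hM.base
  have ho := hM.infinity
  have h0 := hM.empty_mem
  have hπ := pOk_hec hM
  have hPM := PP_mem hM hπ hγM
  have hLM := LL_mem hM hπ hγM
  have h1M : ({∅} : ZFSet.{0}) ∈ M := hM.single_mem h0
  set Q : ZFSet.{0} → ZFSet.{0} → Prop := fun t n => t ⊆ n ∧ ∀ p ∈ PP M hec γ, idx p = i →
    ∃ q ∈ PP M hec γ, pair q p ∈ LL M hec γ ∧ Agr M hec γ s q n t with hQ
  have hQd : Dfn M M fun w : Fin 2 → ZFSet.{0} => Q (w 0) (w 1) := by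
    refine Dfn.and (hB.subset' (DfnF.proj 0) (DfnF.proj 1)) ?_
    refine hB.ball (Q := fun p w => idx p = i → ∃ q ∈ PP M hec γ, pair q p ∈ LL M hec γ ∧
      Agr M hec γ s q (w 1) (w 0)) (DfnF.const hPM) ?_
    refine Dfn.imp (Dfn.eq (DfnF.comp1 (f := idx) hd (DfnF.proj 0)) (DfnF.const hi)) ?_
    refine hB.bex (Q := fun q w => pair q (w 0) ∈ LL M hec γ ∧ Agr M hec γ s q (w 2) (w 1))
      (DfnF.const hPM) ?_
    exact Dfn.and (Dfn.mem (hB.pair' (DfnF.proj 0) (DfnF.proj 1)) (DfnF.const hLM))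
      (dfn_Agr hM hγM hγ hs (DfnF.proj 0) (DfnF.proj 3) (DfnF.proj 2))
  set t : ZFSet.{0} → ZFSet.{0} := fun n => chs M e fun t => Q t n with ht
  have htd : DfnF M M fun w : Fin 1 → ZFSet.{0} => t (w 0) :=
    hM.chs' hg (Q := fun t w => Q t (w 0)) (Dfn.comp2 hQd (DfnF.proj 0) (DfnF.proj 1))
  have hts : ∀ n : ℕ, Q (t (nat n)) (nat n) := by
    intro n
    obtain ⟨t₀, h1, h2⟩ := agr_fin hM hγM hγ hs hidx i n
    exact (chs_spec (C := M) (e := e) (P := fun t => Q t (nat n))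
      ⟨t₀, sub_nat_mem hM h1, h1, h2⟩).2
  -- the limit
  set y : ZFSet.{0} → ZFSet.{0} → ZFSet.{0} := fun j m => ZFSet.sep (fun _ => m ∈ t j) {∅} with hy
  have hyd : DfnF M M fun w : Fin 2 → ZFSet.{0} => y (w 0) (w 1) := by
    refine hM.sep' (Q := fun _ w => w 1 ∈ t (w 0)) (DfnF.const h1M) ?_
    exact Dfn.mem (DfnF.proj 2) (DfnF.comp1 (f := t) htd (DfnF.proj 1))
  have hy1 : ∀ j m, m ∈ t j → y j m = {∅} := by
    intro j m h
    ext z
    rw [hy, ZFSet.mem_sep]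
    exact ⟨fun h => h.1, fun h' => ⟨h', h⟩⟩
  have hy2 : ∀ j m, m ∉ t j → y j m = ∅ := by
    intro j m h
    rw [ZFSet.eq_empty]
    intro z hz
    exact h (ZFSet.mem_sep.1 hz).2
  obtain ⟨F, hFd, hF⟩ := exists_limit hM hg ho (fun _ h => h) hyd (by
      intro j₀ hj₀
      obtain ⟨j, rfl⟩ := mem_omega_iff.1 hj₀
      exact ⟨nat (j + 1), nat_mem_omega _, nat_mem_iff.2 (Nat.lt_succ_self j), trivial⟩) (by
      intro m
      refine Set.Finite.subset (Set.toFinite ({∅, {∅}} : Set ZFSet.{0})) ?_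
      rintro v ⟨j, hj, rfl⟩
      by_cases h : nat m ∈ t j
      · rw [hy1 j _ h]
        exact Or.inr rfl
      · rw [hy2 j _ h]
        exact Or.inl rfl)
  have hwM : ZFSet.sep (fun m => F m = {∅}) ZFSet.omega ∈ M :=
    hM.sep_mem (Q := fun m => F m = {∅}) (Dfn.eq hFd (DfnF.const h1M)) ho
  refine ⟨_, hwM, fun z hz => (ZFSet.mem_sep.1 hz).1, fun n hn p hp hpi => ?_⟩
  obtain ⟨n, rfl⟩ := mem_omega_iff.1 hn
  obtain ⟨j, hj, hnj, hag⟩ := hF n (nat n) (nat_mem_omega n)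
  obtain ⟨j, rfl⟩ := mem_omega_iff.1 hj
  rw [nat_mem_iff] at hnj
  obtain ⟨q, hq, hqp, h3⟩ := (hts j).2 p hp hpi
  refine ⟨q, hq, hqp, fun k hk => ?_⟩
  obtain ⟨k', hk', rfl⟩ := mem_nat.1 hk
  obtain ⟨v, hv, h4, h5⟩ := h3 (nat k') (nat_mem_iff.2 (by omega))
  refine ⟨v, hv, h4, h5.trans ?_⟩
  have h6 := hag (nat k') hk
  rw [ZFSet.mem_sep, ← h6]
  constructor
  · intro h7
    exact ⟨nat_mem_omega k', hy1 _ _ h7⟩
  · rintro ⟨-, h7⟩
    by_contra h8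
    rw [hy2 _ _ h8] at h7
    exact single_ne h7.symm

end

end Pool.Agent.H635.RF
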