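import Pool.Agent.H635.RF.Bd

/-!
# The intermediate extensions
-/

set_option autoImplicit false
set_option linter.unreachableTactic false
set_option linter.unusedTactic false
set_option linter.unusedSectionVars false
set_option linter.unusedVariables false

namespace Pool.Agent.H635.RF

open Pool.Agent.W868 Pool.Agent.W868.GM Pool.Agent.Y588
open Pool.Agent.H635.RB (Fi dfn_fi fin_mem nat_mem_iff mem_nat)
open ZFSet (pair)

section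

variable {M : Set ZFSet.{0}} {π : Par} (hM : IsZF M) (hπ : POk M π)
  {e : ZFSet.{0} → ZFSet.{0}} (hg : GC M e) {κ G : ZFSet.{0}}
  (hκM : κ ∈ M) (hκ : κ.IsOrdinal) (hG : IsGeneric M (PP M π κ) (LL M π κ) G)

include hM hπ hκM hκ hG

include hg in
theorem zf_G : IsZF (ext M G) := isZF_ext hM (isForcing_PP hM hπ hκM hκ) hG hg

theorem M_sub_G : M ⊆ ext M G := sub_ext hM (isForcing_PP hM hπ hκM hκ) hG

theorem G_mem_G : G ∈ ext M G := gen_mem_ext hM (isForcing_PP hM hπ hκM hκ) hG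

include hg in
theorem Gb_mem_ext {β : ZFSet.{0}} (hβM : β ∈ M) : Gb M π G β ∈ ext M G := by
  have hW := zf_G hM hπ hg hκM hκ hG
  refine hW.sep_mem (Q := fun p => p ∈ PP M π β) ?_ (G_mem_G hM hπ hκM hκ hG)
  exact Dfn.mem (DfnF.proj 0) (DfnF.const (M_sub_G hM hπ hκM hκ hG (PP_mem hM hπ hβM)))

include hg in
theorem ext_Gb_sub {β : ZFSet.{0}} (hβM : β ∈ M) : ext M (Gb M π G β) ⊆ ext M G :=
  ext_sub (zf_G hM hπ hg hκM hκ hG) (M_sub_G hM hπ hκM hκ hG)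
    (Gb_mem_ext hM hπ hg hκM hκ hG hβM)

omit hM hπ hκM hκ hG in
theorem Gb_Gb {β γ : ZFSet.{0}} (h : β ⊆ γ) : Gb M π (Gb M π G γ) β = Gb M π G β := by
  ext p
  rw [mem_Gb, mem_Gb, mem_Gb]
  exact ⟨fun h1 => ⟨h1.1.1, h1.2⟩, fun h1 => ⟨⟨h1.1, PP_mono h h1.2⟩, h1.2⟩⟩

include hg in
theorem zf_Gb {β : ZFSet.{0}} (hβM : β ∈ M) (hβ : β.IsOrdinal) (hβκ : β ⊆ κ) :
    IsZF (ext M (Gb M π G β)) :=
  zf_G hM hπ hg hβM hβ (isGeneric_Gb hM hπ hκM hκ hG hβM hβ hβκ)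

theorem M_sub_Gb {β : ZFSet.{0}} (hβM : β ∈ M) (hβ : β.IsOrdinal) (hβκ : β ⊆ κ) :
    M ⊆ ext M (Gb M π G β) :=
  M_sub_G hM hπ hβM hβ (isGeneric_Gb hM hπ hκM hκ hG hβM hβ hβκ)

theorem Gb_mem_Gb {β : ZFSet.{0}} (hβM : β ∈ M) (hβ : β.IsOrdinal) (hβκ : β ⊆ κ) :
    Gb M π G β ∈ ext M (Gb M π G β) :=
  G_mem_G hM hπ hβM hβ (isGeneric_Gb hM hπ hκM hκ hG hβM hβ hβκ)

include hg in
theorem ext_Gb_mono {β γ : ZFSet.{0}} (hβM : β ∈ M) (hγM : γ ∈ M)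
    (hγ : γ.IsOrdinal) (hβγ : β ⊆ γ) (hγκ : γ ⊆ κ) :
    ext M (Gb M π G β) ⊆ ext M (Gb M π G γ) := by
  have h := ext_Gb_sub hM hπ hg hγM hγ (isGeneric_Gb hM hπ hκM hκ hG hγM hγ hγκ) hβM
  rwa [Gb_Gb hβγ] at h

/-- The values of the names are in the extension. -/
theorem fnc_fv_mem {W : Set ZFSet.{0}} (hW : IsZF W) (hMW : M ⊆ W) {β s : ZFSet.{0}}
    (hβM : β ∈ M) (hβ : β.IsOrdinal) (hβκ : β ⊆ κ) (hGW : Gb M π G β ∈ W)
    (hs : s ∈ Nm M π β) : fnc (fv M π G β s) ∈ W := by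
  have hB := hW.base
  have hsW := hMW (mem_Nm.1 hs).1
  have h1 : fnc (fv M π G β s) = ZFSet.sep (fun z => ∃ r ∈ Gb M π G β,
      Dc (PP M π β) (LL M π β) s r (fs z) (sn z)) (ZFSet.prod ZFSet.omega ZFSet.omega) := by
    ext z
    rw [mem_fnc, ZFSet.mem_sep]
    constructor
    · rintro ⟨i, rfl⟩
      refine ⟨ZFSet.pair_mem_prod.2 ⟨nat_mem_omega _, nat_mem_omega _⟩, ?_⟩
      rw [fs_pair, sn_pair]
      exact fv_spec hM hπ hκM hκ hG hβM hβ hβκ hs i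
    · rintro ⟨h2, r, hr, h3⟩
      obtain ⟨a, ha, b, hb, rfl⟩ := ZFSet.mem_prod.1 h2
      obtain ⟨i, rfl⟩ := mem_omega_iff.1 ha
      obtain ⟨j, rfl⟩ := mem_omega_iff.1 hb
      rw [fs_pair, sn_pair] at h3
      exact ⟨i, by rw [fv_eq hM hπ hκM hκ hG hβM hβ hβκ hs hr h3]⟩
  rw [h1]
  refine hW.sep_mem ?_ (hW.prod_mem hW.infinity hW.infinity)
  refine hB.bex (Q := fun r w => Dc (PP M π β) (LL M π β) s r (fs (w 0)) (sn (w 0)))
    (DfnF.const hGW) ?_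
  exact dfn_Dc hW (DfnF.const (hMW (PP_mem hM hπ hβM))) (DfnF.const (hMW (LL_mem hM hπ hβM)))
    (DfnF.const hsW) (DfnF.proj 0) (hW.fs' (DfnF.proj 1)) (hW.sn' (DfnF.proj 1))

end

section

variable {M : Set ZFSet.{0}} (hM : IsZF M) {e : ZFSet.{0} → ZFSet.{0}} (hg : GC M e)
  {κ : ZFSet.{0}} (hk : IsAleph1 M κ) {π : Par} (hπ : POk M π) (hE : Ct M π.E) (hx : PAx π)
  {G : ZFSet.{0}} (hG : IsGeneric M (PP M π κ) (LL M π κ) G)

include hM hg hk hπ hE hx hG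

/-- Every function in the extension is in an intermediate extension. -/
theorem exists_stage {x : ℕ → ℕ} (hx' : fnc x ∈ ext M G) :
    ∃ γ ∈ κ, fnc x ∈ ext M (Gb M π G γ) := by
  have hκM := hk.1
  have hκ := hk.2.1
  obtain ⟨s, hs, h1⟩ := exists_Nm hM hπ hκM hκ hG hκM hκ (fun _ h => h) (x := x) (by
    rwa [Gb_self hM hπ hκM hκ hG])
  obtain ⟨γ, hγ, h2⟩ := bounded_name hM hg hk hπ hE hx hG hs
  refine ⟨γ, hγ, ?_⟩
  have hγM := hM.trans _ hκM _ hγ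
  have hγo := hκ.mem hγ
  have hγκ := hκ.subset_of_mem hγ
  have hW := zf_Gb hM hπ hg hκM hκ hG hγM hγo hγκ
  have hMW := M_sub_Gb hM hπ hκM hκ hG hγM hγo hγκ
  have hGW := Gb_mem_Gb hM hπ hκM hκ hG hγM hγo hγκ
  have hB := hW.base
  have hsW := hMW (mem_Nm.1 hs).1
  have h3 : fnc x = ZFSet.sep (fun z => ∃ r ∈ Gb M π G γ,
      Dc (PP M π κ) (LL M π κ) s r (fs z) (sn z)) (ZFSet.prod ZFSet.omega ZFSet.omega) := by
    ext z
    rw [mem_fnc, ZFSet.mem_sep]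
    constructor
    · rintro ⟨i, rfl⟩
      refine ⟨ZFSet.pair_mem_prod.2 ⟨nat_mem_omega _, nat_mem_omega _⟩, ?_⟩
      rw [fs_pair, sn_pair]
      obtain ⟨r, h4, h5, h6⟩ := h2 i
      rw [h1] at h6
      exact ⟨r, mem_Gb.2 ⟨h4, h5⟩, h6⟩
    · rintro ⟨h4, r, hr, h5⟩
      obtain ⟨a, ha, b, hb, rfl⟩ := ZFSet.mem_prod.1 h4
      obtain ⟨i, rfl⟩ := mem_omega_iff.1 ha
      obtain ⟨j, rfl⟩ := mem_omega_iff.1 hb
      rw [fs_pair, sn_pair] at h5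
      have hrG := (mem_Gb.1 hr).1
      have h6 := fv_eq hM hπ hκM hκ hG hκM hκ (fun _ h => h) hs
        (mem_Gb.2 ⟨hrG, hG.sub hrG⟩) h5
      rw [h1] at h6
      exact ⟨i, by rw [h6]⟩
  rw [h3]
  refine hW.sep_mem ?_ (hW.prod_mem hW.infinity hW.infinity)
  refine hB.bex (Q := fun r w => Dc (PP M π κ) (LL M π κ) s r (fs (w 0)) (sn (w 0)))
    (DfnF.const hGW) ?_
  exact dfn_Dc hW (DfnF.const (hMW (PP_mem hM hπ hκM))) (DfnF.const (hMW (LL_mem hM hπ hκM)))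
    (DfnF.const hsW) (DfnF.proj 0) (hW.fs' (DfnF.proj 1)) (hW.sn' (DfnF.proj 1))

end

end Pool.Agent.H635.RF
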