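import Pool.Agent.H635.RF.Cp

/-!
# Names for limits
-/

set_option autoImplicit false
set_option linter.unreachableTactic false
set_option linter.unusedTactic false
set_option linter.unusedSectionVars false
set_option linter.unusedVariables false

namespace Pool.Agent.H635.RF

open Pool.Agent.W868 Pool.Agent.W868.GM Pool.Agent.Y588
open Pool.Agent.H635.RB (Fi dfn_fi fin_mem nat_mem_iff mem_nat nat_sub ap_unique)
open ZFSet (pair)

/-- The coordinate `(β, t)` is in the root. -/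
def InR (R β t : ZFSet.{0}) : Prop := ∃ m e, sa β t m e ∈ R

/-- A sequence of conditions with a root and disjoint domains otherwise. -/
structure Fam (M : Set ZFSet.{0}) (π : Par) (κ p R : ZFSet.{0}) : Prop where
  mem : p ∈ M
  cond : ∀ j : ℕ, ap p (nat j) ∈ PP M π κ
  fin : Fi R
  Rm : R ∈ M
  sta : ∀ z ∈ R, ∃ β t m e, z = sa β t m e
  sub : ∀ j : ℕ, R ⊆ ap p (nat j)
  stem : ∀ j : ℕ, ∀ β t m' e', InR R β t → sa β t m' e' ∈ ap p (nat j) → sa β t m' e' ∈ R
  disj : ∀ i j : ℕ, i ≠ j → ∀ z ∈ ap p (nat i), ∀ z' ∈ ap p (nat j), fs z = fs z' →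
    ∃ w ∈ R, fs w = fs z

theorem Fam.inR {M : Set ZFSet.{0}} {π : Par} {κ p R : ZFSet.{0}} (h : Fam M π κ p R)
    {β t : ZFSet.{0}} : (∃ w ∈ R, fs w = pair β t) ↔ InR R β t := by
  constructor
  · rintro ⟨w, hw, h1⟩
    obtain ⟨β', t', m, e, rfl⟩ := h.sta w hw
    rw [fs_sa] at h1
    obtain ⟨rfl, rfl⟩ := ZFSet.pair_inj.1 h1
    exact ⟨m, e, hw⟩
  · rintro ⟨m, e, h1⟩
    exact ⟨_, h1, fs_sa _ _ _ _⟩

/-- The property of the parameters that is used for the limits. -/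
structure PLim (π : Par) : Prop where
  c : π.c
  lim : ∀ (e : ZFSet.{0}) (b v : ℕ), pair e (nat b) ∈ π.Cn → pair e (nat (min v b)) ∈ π.Al →
    pair e (nat v) ∈ π.Al

/-- The condition `q` forces that infinitely many members of the sequence are in the filter. -/
def Lim (M : Set ZFSet.{0}) (π : Par) (p γ q : ZFSet.{0}) : Prop :=
  ∀ r ∈ PP M π γ, Le M π r q → ∀ j₀ : ℕ, ∃ j ≥ j₀, ∃ r' ∈ PP M π γ, Le M π r' r ∧
    Le M π r' (rs (ap p (nat j)) γ)

/-- The condition `r` is stronger than the condition number `j`, and decides that the promises of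
this condition at the coordinates in the root agree with promises in `Q` below `k`. -/
def Good (M : Set ZFSet.{0}) (π : Par) (p R β Q r k j : ZFSet.{0}) : Prop :=
  pair r (rs (ap p j) β) ∈ LL M π β ∧ ∀ m ∈ k, ∀ z ∈ ap p j, fs (sn z) = {∅} → blk z = β →
    (∃ w ∈ R, fs w = fs z) → ∃ z' ∈ Q, fs z' = fs z ∧ ∃ v ∈ ZFSet.omega, ∃ v' ∈ ZFSet.omega,
      ∃ b ∈ ZFSet.omega, Db M π β (sn (sn z)) r m v ∧ Db M π β (sn (sn z')) r m v' ∧
        Db M π β (sn (fs z)) r m b ∧ v' = tr b v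

theorem tr_nat (b v : ℕ) : tr (nat b) (nat v) = nat (min v b) := by
  ext z
  rw [mem_tr, mem_nat, mem_nat, mem_nat]
  constructor
  · rintro ⟨⟨i, hi, rfl⟩, ⟨j, hj, h⟩⟩
    have h' := nat_injective h
    exact ⟨i, by omega, rfl⟩
  · rintro ⟨i, hi, rfl⟩
    exact ⟨⟨i, by omega, rfl⟩, ⟨i, by omega, rfl⟩⟩

theorem exists_set {M : Set ZFSet.{0}} (hM : IsZF M) {S : Set ZFSet.{0}} (hS : S.Finite)
    (h : ∀ x ∈ S, x ∈ M) : ∃ X ∈ M, Fi X ∧ ∀ z, z ∈ X ↔ z ∈ S := by
  induction S, hS using Set.Finite.induction_on with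
  | empty => exact ⟨∅, hM.empty_mem, fi_empty, fun z => ⟨fun h => absurd h (ZFSet.notMem_empty _),
      fun h => absurd h (Set.notMem_empty _)⟩⟩
  | @insert a S' ha hS' ih =>
    obtain ⟨X, h1, h2, h3⟩ := ih fun x hx => h x (Set.mem_insert_of_mem _ hx)
    refine ⟨insert a X, hM.insert_mem (h a (Set.mem_insert _ _)) h1, Fi.insert h2, fun z => ?_⟩
    rw [ZFSet.mem_insert_iff, Set.mem_insert_iff, h3]

section

variable {M : Set ZFSet.{0}} (hM : IsZF M) {π : Par} (hπ : POk M π) {β : ZFSet.{0}}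
  (hβM : β ∈ M) (hβ : β.IsOrdinal)

include hM hπ hβM hβ

theorem dfn_Good {p R Q : ZFSet.{0}} (hp : p ∈ M) (hR : R ∈ M) (hQ : Q ∈ M) {n : ℕ}
    {r k j : (Fin n → ZFSet.{0}) → ZFSet.{0}} (hr : DfnF M M r) (hk : DfnF M M k)
    (hj : DfnF M M j) : Dfn M M fun w => Good M π p R β Q (r w) (k w) (j w) := by
  have hB := hM.base
  have hLM := LL_mem hM hπ hβM
  have ho := hM.infinity
  have h1 : ({∅} : ZFSet.{0}) ∈ M := hM.single_mem hM.empty_mem
  refine Dfn.comp3 (Q := Good M π p R β Q) ?_ hr hk hj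
  have hD : ∀ {k : ℕ} {s r m v : (Fin k → ZFSet.{0}) → ZFSet.{0}}, DfnF M M s → DfnF M M r →
      DfnF M M m → DfnF M M v → Dfn M M fun w => Db M π β (s w) (r w) (m w) (v w) :=
    fun hs hr hm hv => dfn_Db hM hπ hβM hβ hβM hs hr hm hv
  unfold Good
  (repeat' first
      | assumption
      | exact DfnF.proj _
      | exact DfnF.const (by assumption)
      | apply hD
      | apply Dfn.and | apply Dfn.imp | apply hB.bex | apply hB.ball
      | apply Dfn.mem | apply Dfn.eq | apply hB.pair' | apply dfn_rs hM | apply dfn_blk hM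
      | apply dfn_tr hM | apply hM.ap' | apply hM.fs' | apply hM.sn')

variable {G : ZFSet.{0}} (hG : IsGeneric M (PP M π β) (LL M π β) G)

include hG

/-- Deciding finitely many values. -/
theorem decide_all {S : Set ZFSet.{0}} (hS : S.Finite) (hSN : ∀ s ∈ S, s ∈ Nm M π β) (k : ℕ) :
    ∀ r ∈ G, ∃ r' ∈ G, Le M π r' r ∧ ∀ s ∈ S, ∀ m < k,
      Db M π β s r' (nat m) (nat (fv M π G β s m)) := by
  have hself := Gb_self hM hπ hβM hβ hG
  induction S, hS using Set.Finite.induction_on with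
  | empty => exact fun r hr => ⟨r, hr, le_refl r, fun s hs => absurd hs (Set.notMem_empty _)⟩
  | @insert a S' ha hS' ih =>
    intro r hr
    obtain ⟨r₁, h1, h2, h3⟩ := ih (fun s hs => hSN s (Set.mem_insert_of_mem _ hs)) r hr
    have haN := hSN a (Set.mem_insert _ _)
    have h4 : ∀ k : ℕ, ∃ r' ∈ G, Le M π r' r₁ ∧ ∀ m < k,
        Db M π β a r' (nat m) (nat (fv M π G β a m)) := by
      intro k
      induction k with
      | zero => exact ⟨r₁, h1, le_refl _, fun m hm => absurd hm (Nat.not_lt_zero _)⟩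
      | succ k ihk =>
        obtain ⟨r₂, h5, h6, h7⟩ := ihk
        obtain ⟨r₃, h8, h9, h10⟩ := fv_below hM hπ hβM hβ hG hβM hβ (fun _ h => h) haN k
          (r := r₂) (by rwa [hself])
        rw [hself] at h8
        refine ⟨r₃, h8, le_trans hM hβ _ (hG.sub h1) _ (hG.sub h5) _ (hG.sub h8) h9 h6,
          fun m hm => ?_⟩
        rcases (Nat.lt_succ_iff.1 hm).lt_or_eq with h11 | h11
        · exact Db.mono hM hβ (hG.sub h5) (hG.sub h8) h9 (h7 m h11)
        · rw [h11]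
          exact h10
    obtain ⟨r₂, h5, h6, h7⟩ := h4 k
    refine ⟨r₂, h5, le_trans hM hβ _ (hG.sub hr) _ (hG.sub h1) _ (hG.sub h5) h6 h2,
      fun s hs m hm => ?_⟩
    rcases hs with rfl | hs
    · exact h7 m hm
    · exact Db.mono hM hβ (hG.sub h1) (hG.sub h5) h6 (h3 s hs m hm)

end

/-- The value of a name, as a definable function. -/
noncomputable def vz (P L G s m : ZFSet.{0}) : ZFSet.{0} :=
  ZFSet.sUnion (ZFSet.sep (fun v => ∃ r ∈ G, Dc P L s r m v) ZFSet.omega)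

/-- The truncated values of the promises at the coordinates in the root. -/
noncomputable def yv (P L G p R β j m : ZFSet.{0}) : ZFSet.{0} :=
  im (fun z => pair (sn (fs z)) (tr (vz P L G (sn (fs z)) m) (vz P L G (sn (sn z)) m)))
    (ZFSet.sep (fun z => fs (sn z) = {∅} ∧ blk z = β ∧ ∃ w ∈ R, fs w = fs z) (ap p j))

theorem dfn_vz {W : Set ZFSet.{0}} (hW : IsZF W) {P L G : ZFSet.{0}} (hP : P ∈ W) (hL : L ∈ W)
    (hG : G ∈ W) {n : ℕ} {s m : (Fin n → ZFSet.{0}) → ZFSet.{0}} (hs : DfnF W W s)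
    (hm : DfnF W W m) : DfnF W W fun w => vz P L G (s w) (m w) := by
  have hB := hW.base
  refine hB.sUnion' (hW.sep' (Q := fun v w => ∃ r ∈ G, Dc P L (s w) r (m w) v) (omega_dfn hW) ?_)
  refine hB.bex (Q := fun r w => Dc P L (s (Fin.tail w)) r (m (Fin.tail w)) (w 0))
    (DfnF.const hG) ?_
  exact dfn_Dc hW (DfnF.const hP) (DfnF.const hL) hs.tail.tail (DfnF.proj 0) hm.tail.tail
    (DfnF.proj 1)

theorem dfn_yv {W : Set ZFSet.{0}} (hW : IsZF W) {P L G p R β : ZFSet.{0}} (hP : P ∈ W)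
    (hL : L ∈ W) (hG : G ∈ W) (hp : p ∈ W) (hR : R ∈ W) (hβ : β ∈ W) :
    DfnF W W fun w : Fin 2 → ZFSet.{0} => yv P L G p R β (w 0) (w 1) := by
  have hB := hW.base
  have h1 : ({∅} : ZFSet.{0}) ∈ W := hW.single_mem hW.empty_mem
  refine hW.im' (h := fun z w => pair (sn (fs z)) (tr (vz P L G (sn (fs z)) (w 1))
    (vz P L G (sn (sn z)) (w 1)))) (hW.sep' (Q := fun z w => fs (sn z) = {∅} ∧ blk z = β ∧
    ∃ w ∈ R, fs w = fs z) (hW.ap' (DfnF.const hp) (DfnF.proj 0)) ?_) ?_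
  · (repeat' first
      | assumption
      | exact DfnF.proj _
      | exact DfnF.const (by assumption)
      | apply Dfn.and | apply hB.bex
      | apply Dfn.mem | apply Dfn.eq | apply dfn_blk hW
      | apply hW.fs' | apply hW.sn')
  · have h2 : DfnF W W fun w : Fin 3 → ZFSet.{0} => sn (fs (w 0)) :=
      hW.sn' (hW.fs' (DfnF.proj 0))
    exact hB.pair' h2 (dfn_tr hW (dfn_vz hW hP hL hG h2 (DfnF.proj 2))
      (dfn_vz hW hP hL hG (hW.sn' (hW.sn' (DfnF.proj 0))) (DfnF.proj 2)))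

end Pool.Agent.H635.RF
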