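import Pool.Agent.H635.RF.Lm

/-!
# Names for limits: the existence
-/

set_option autoImplicit false
set_option linter.unreachableTactic false
set_option linter.unusedTactic false
set_option linter.unusedSectionVars false
set_option linter.unusedVariables false

namespace Pool.Agent.H635.RF

open Pool.Agent.W868 Pool.Agent.W868.GM Pool.Agent.Y588
open Pool.Agent.H635.RB (Fi dfn_fi fin_mem nat_mem_iff mem_nat nat_sub ap_unique)
open ZFSet (pair)

/-- The number of the atoms of the root at a coordinate. -/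
noncomputable def LR (R β t : ZFSet.{0}) : ℕ := {m | ∃ e, sa β t m e ∈ R}.ncard

section

variable {M : Set ZFSet.{0}} (hc : M.Countable) (hL : IsLA ∅ M) {π : Par} (hπ : POk M π)
  (hl : PLim π) {κ : ZFSet.{0}} (hκM : κ ∈ M) (hκ : κ.IsOrdinal) {p R : ZFSet.{0}}
  (hF : Fam M π κ p R) {β : ZFSet.{0}} (hβκ : β ∈ κ)

include hc hL hπ hl hκM hκ hF hβκ

theorem limit_names {q : ZFSet.{0}} (hq : q ∈ PP M π β) (hlim : Lim M π p β q) :
    ∃ r ∈ PP M π β, Le M π r q ∧ ∃ Q ∈ M, Fi Q ∧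
      (∀ z ∈ Q, ∃ t s, z = pa β t s ∧ s ∈ Nm M π β ∧ InR R β t) ∧
      (∀ t, {s | pa β t s ∈ Q}.ncard ≤ LR R β t) ∧
      ∀ r₂ ∈ PP M π β, Le M π r₂ r → ∀ k j₀ : ℕ, ∃ j ≥ j₀, ∃ r₃ ∈ PP M π β, Le M π r₃ r₂ ∧
        Good M π p R β Q r₃ (nat k) (nat j) := by
  classical
  have hM := hL.zf
  have hB := hM.base
  have hβM : β ∈ M := hM.trans _ hκM _ hβκ
  have hβ : β.IsOrdinal := hκ.mem hβκ
  have hfo := isForcing_PP hM hπ hβM hβ
  obtain ⟨G, hG, hqG⟩ := exists_gen hc hfo hq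
  have hself := Gb_self hM hπ hβM hβ hG
  set W := ext M G with hWd
  have hW : IsZF W := zf_ext hL hfo hG
  have hgW : GC W (ee M G (eo M ∅ hL.zf.trans)) := gc_ext hL hfo hG hL.gc
  have hMW : M ⊆ W := sub_ext hM hfo hG
  have hGW : G ∈ W := gen_mem_ext hM hfo hG
  have hBW := hW.base
  have hPM := PP_mem hM hπ hβM
  have hLM := LL_mem hM hπ hβM
  have ho := hM.infinity
  have hpM := hF.mem
  have hRM := hF.Rm
  have hPW := hMW hPM
  have hLW := hMW hLM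
  have hpW := hMW hpM
  have hRW := hMW hRM
  have hβW := hMW hβM
  have hoW := hW.infinity
  -- the members of the sequence in the filter
  set J : ZFSet.{0} := ZFSet.sep (fun j => rs (ap p j) β ∈ G) ZFSet.omega with hJd
  have hJW : J ∈ W := by
    refine hW.sep_mem (Q := fun j => rs (ap p j) β ∈ G) ?_ hoW
    exact Dfn.mem (dfn_rs hW (hW.ap' (DfnF.const hpW) (DfnF.proj 0)) (DfnF.const hβW))
      (DfnF.const hGW)
  have hJo : J ⊆ ZFSet.omega := fun j hj => (ZFSet.mem_sep.1 hj).1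
  have hinf : Infm J fun _ => True := by
    intro j₀ hj₀
    obtain ⟨n, rfl⟩ := mem_omega_iff.1 hj₀
    have hnM := hM.nat_mem n
    have hd : Dfn M M fun w : Fin 1 → ZFSet.{0} => ∃ j ∈ ZFSet.omega, nat n ∈ j ∧
        pair (w 0) (rs (ap p j) β) ∈ LL M π β := by
      refine hB.bex (Q := fun j w => nat n ∈ j ∧ pair (w 0) (rs (ap p j) β) ∈ LL M π β)
        (DfnF.const ho) ?_
      refine (Dfn.mem (DfnF.const hnM) (DfnF.proj 0)).and (Dfn.mem (hB.pair' (DfnF.proj 1) ?_)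
        (DfnF.const hLM))
      exact dfn_rs hM (hM.ap' (DfnF.const hpM) (DfnF.proj 0)) (DfnF.const hβM)
    obtain ⟨r, h1, h2, j, h3, h4, h5⟩ := below_gen hM hπ hβM hβ hG
      (Q := fun r => ∃ j ∈ ZFSet.omega, nat n ∈ j ∧ pair r (rs (ap p j) β) ∈ LL M π β) hd hqG (by
      intro r hr hrq
      obtain ⟨j, h1, r', h2, h3, h4⟩ := hlim r hr hrq (n + 1)
      refine ⟨r', h2, h3, nat j, nat_mem_omega j, nat_mem_iff.2 (by omega), mem_LL.2 ⟨h2, ?_,
        h4⟩⟩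
      exact rs_mem hM hβ (hF.cond j))
    exact ⟨j, ZFSet.mem_sep.2 ⟨h3, gen_up hM hπ hβM hβ hG h1 (mem_LL.1 h5).2.1
      (mem_LL.1 h5).2.2⟩, h4, trivial⟩
  -- the values
  have hvz : ∀ s ∈ Nm M π β, ∀ m : ℕ, vz (PP M π β) (LL M π β) G s (nat m) =
      nat (fv M π G β s m) := by
    intro s hs m
    have h1 : ZFSet.sep (fun v => ∃ r ∈ G, Dc (PP M π β) (LL M π β) s r (nat m) v)
        ZFSet.omega = {nat (fv M π G β s m)} := by
      ext v
      rw [ZFSet.mem_sep, ZFSet.mem_singleton]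
      constructor
      · rintro ⟨hv, r, hr, h2⟩
        obtain ⟨k, rfl⟩ := mem_omega_iff.1 hv
        rw [fv_eq hM hπ hβM hβ hG hβM hβ (fun _ h => h) hs (by rwa [hself]) h2]
      · rintro rfl
        obtain ⟨r, h2, h3⟩ := fv_spec hM hπ hβM hβ hG hβM hβ (fun _ h => h) hs m
        rw [hself] at h2
        exact ⟨nat_mem_omega _, r, h2, h3⟩
    rw [vz, h1, ZFSet.sUnion_singleton]
  have hNm : ∀ (j : ℕ) t s, pa β t s ∈ ap p (nat j) → t ∈ Nm M π β ∧ s ∈ Nm M π β := by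
    intro j t s h
    have h1 := (mem_PP.1 (hF.cond j)).ats.pa h
    exact ⟨(Tb_mem hM h1.2.1).2 hl.c, h1.2.2⟩
  have memy : ∀ (j m : ℕ) (x : ZFSet.{0}), x ∈ yv (PP M π β) (LL M π β) G p R β (nat j) (nat m) ↔
      ∃ t s, pa β t s ∈ ap p (nat j) ∧ InR R β t ∧
        x = pair t (nat (min (fv M π G β s m) (fv M π G β t m))) := by
    intro j m x
    unfold yv
    rw [mem_im]
    constructor
    · rintro ⟨z, hz, rfl⟩
      obtain ⟨h1, h2, h3, h4⟩ := ZFSet.mem_sep.1 hz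
      obtain ⟨β', t, s, rfl⟩ := (mem_PP.1 (hF.cond j)).ats.eq_pa h1 h2
      rw [blk_pa] at h3
      subst h3
      rw [fs_pa] at h4
      obtain ⟨h5, h6⟩ := hNm j t s h1
      refine ⟨t, s, h1, hF.inR.1 h4, ?_⟩
      rw [fs_pa, sn_pair, snn_pa, hvz t h5, hvz s h6, tr_nat]
    · rintro ⟨t, s, h1, h2, rfl⟩
      obtain ⟨h5, h6⟩ := hNm j t s h1
      refine ⟨_, ZFSet.mem_sep.2 ⟨h1, fsn_pa _ _ _, blk_pa _ _ _, ?_⟩, ?_⟩
      · rw [fs_pa]
        exact hF.inR.2 h2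
      · rw [fs_pa, sn_pair, snn_pa, hvz t h5, hvz s h6, tr_nat]
  -- the labels in the root
  set T : Set ZFSet.{0} := {t | InR R β t} with hT
  have hTf : T.Finite := by
    refine Set.Finite.subset (Set.Finite.image (fun z => sn (fs z)) hF.fin) ?_
    rintro t ⟨m, e, h⟩
    exact ⟨_, h, by simp only [fs_sa, sn_pair]⟩
  have hTN : ∀ t ∈ T, t ∈ Nm M π β := by
    rintro t ⟨m, e, h⟩
    exact (Tb_mem hM ((mem_PP.1 (hF.cond 0)).ats.sa (hF.sub 0 h)).2.1).2 hl.c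
  have hfin : ∀ m : ℕ, {v | ∃ j ∈ J, v = yv (PP M π β) (LL M π β) G p R β j (nat m)}.Finite := by
    intro m
    have h1 : (⋃ t ∈ T, (fun v : ℕ => pair t (nat v)) '' Set.Iic (fv M π G β t m)).Finite :=
      Set.Finite.biUnion hTf fun t _ => Set.Finite.image _ (Set.finite_Iic _)
    refine Set.Finite.of_finite_image (f := fun X : ZFSet.{0} => {x | x ∈ X}) ?_ ?_
    · refine Set.Finite.subset h1.finite_subsets ?_
      rintro _ ⟨_, ⟨j, hj, rfl⟩, rfl⟩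
      obtain ⟨k, rfl⟩ := mem_omega_iff.1 (hJo hj)
      intro x hx
      obtain ⟨t, s, h2, h3, rfl⟩ := (memy k m x).1 hx
      rw [Set.mem_iUnion₂]
      exact ⟨t, h3, _, Set.mem_Iic.2 (min_le_right _ _), rfl⟩
    · intro X _ Y _ h
      ext x
      exact Set.ext_iff.1 h x
  obtain ⟨F, hFd, hFl⟩ := exists_limit hW hgW hJW hJo
    (dfn_yv hW hPW hLW hGW hpW hRW hβW) hinf hfin
  -- the limit set
  have hone : ∀ m : ℕ, ∃ j : ℕ, F (nat m) = yv (PP M π β) (LL M π β) G p R β (nat j) (nat m) := by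
    intro m
    obtain ⟨j, hj, h1, h2⟩ := hFl (m + 1) (nat 0) (nat_mem_omega 0)
    obtain ⟨k, rfl⟩ := mem_omega_iff.1 (hJo hj)
    exact ⟨k, (h2 (nat m) (nat_mem_iff.2 (by omega))).symm⟩
  have hLR : ∀ (j : ℕ) t, InR R β t → {s | pa β t s ∈ ap p (nat j)}.ncard ≤ LR R β t := by
    intro j t ht
    have h1 := mem_PP.1 (hF.cond j)
    have h2 := h1.sz hl.c β t
    rw [sz_iff' h1.ats] at h2
    have h3 : {m | ∃ e, sa β t m e ∈ ap p (nat j)} = {m | ∃ e, sa β t m e ∈ R} :=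
      Set.ext fun m => exists_congr fun e => ⟨hF.stem j _ _ _ _ ht, fun h => hF.sub j h⟩
    rw [nF, Len, h3] at h2
    exact h2
  have hgex : ∀ t, InR R β t → ∀ m : ℕ, ∃ g ∈ W, (∀ l ∈ nat (LR R β t), ap g l ∈ ZFSet.omega) ∧
      ∀ x ∈ ZFSet.omega, pair t x ∈ F (nat m) → ∃ l ∈ nat (LR R β t), ap g l = x := by
    intro t ht m
    obtain ⟨j, hj⟩ := hone m
    have h1 : {x | x ∈ ZFSet.omega ∧ pair t x ∈ F (nat m)} ⊆ (fun s =>
        nat (min (fv M π G β s m) (fv M π G β t m))) '' {s | pa β t s ∈ ap p (nat j)} := by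
      rintro x ⟨-, hx⟩
      rw [hj] at hx
      obtain ⟨t', s, h2, h3, h4⟩ := (memy j m _).1 hx
      obtain ⟨rfl, rfl⟩ := ZFSet.pair_inj.1 h4
      exact ⟨s, h2, rfl⟩
    have h2 := fin_prom (mem_PP.1 (hF.cond j)).fin β t
    have h3 : {x | x ∈ ZFSet.omega ∧ pair t x ∈ F (nat m)}.ncard ≤ LR R β t :=
      (Set.ncard_le_ncard h1 (h2.image _)).trans ((Set.ncard_image_le h2).trans (hLR j t ht))
    obtain ⟨g, hg, h4, h5⟩ := exists_enum' hW ((h2.image _).subset h1) (fun x hx => hx.1) h3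
    exact ⟨g, hg, h4, fun x hx hx' => h5 x ⟨hx, hx'⟩⟩
  -- the limit functions
  have hxex : ∀ t, InR R β t → ∃ x : ℕ → ℕ → ℕ, (∀ l < LR R β t, fnc (x l) ∈ W) ∧
      ∀ m v : ℕ, pair t (nat v) ∈ F (nat m) → ∃ l < LR R β t, x l m = v := by
    intro t ht
    have htM : t ∈ M := (mem_Nm.1 (hTN t ht)).1
    have htW := hMW htM
    have hLRW := hW.nat_mem (LR R β t)
    set g : ZFSet.{0} → ZFSet.{0} := fun m => chs W (ee M G (eo M ∅ hL.zf.trans)) fun g =>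
      (∀ l ∈ nat (LR R β t), ap g l ∈ ZFSet.omega) ∧
      ∀ x ∈ ZFSet.omega, pair t x ∈ F m → ∃ l ∈ nat (LR R β t), ap g l = x with hgd
    have hgD : DfnF W W fun w : Fin 1 → ZFSet.{0} => g (w 0) := by
      refine hW.chs' hgW (Q := fun g w => (∀ l ∈ nat (LR R β t), ap g l ∈ ZFSet.omega) ∧
        ∀ x ∈ ZFSet.omega, pair t x ∈ F (w 0) → ∃ l ∈ nat (LR R β t), ap g l = x) ?_
      have hF' : ∀ {n : ℕ} {G : (Fin n → ZFSet.{0}) → ZFSet.{0}}, DfnF W W G →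
          DfnF W W fun w => F (G w) := fun hG => DfnF.comp1 (f := F) hFd hG
      (repeat' first
        | assumption
        | exact DfnF.proj _
        | exact DfnF.const (by assumption)
        | apply Dfn.and | apply Dfn.imp | apply hBW.bex | apply hBW.ball
        | apply Dfn.mem | apply Dfn.eq | apply hBW.pair' | apply hW.ap' | apply hF')
    have hgs : ∀ m : ℕ, (∀ l ∈ nat (LR R β t), ap (g (nat m)) l ∈ ZFSet.omega) ∧
        ∀ x ∈ ZFSet.omega, pair t x ∈ F (nat m) → ∃ l ∈ nat (LR R β t), ap (g (nat m)) l = x :=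
      fun m => (chs_spec (C := W) (hgex t ht m)).2
    have hex : ∀ l < LR R β t, ∀ m : ℕ, ∃ v : ℕ, ap (g (nat m)) (nat l) = nat v := by
      intro l hl m
      exact mem_omega_iff.1 ((hgs m).1 (nat l) (nat_mem_iff.2 hl))
    choose! x hx using hex
    refine ⟨x, fun l hl => ?_, fun m v hv => ?_⟩
    · refine fnc_mem_of hW (Q := fun m k => k = ap (g m) (nat l)) ?_ fun i j => ?_
      · exact Dfn.eq (DfnF.proj 1) (hW.ap' (DfnF.comp1 (f := g) hgD (DfnF.proj 0))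
          (DfnF.const (hW.nat_mem l)))
      · rw [hx l hl i]
        exact ⟨fun h => nat_injective h, fun h => by rw [h]⟩
    · obtain ⟨l, hl, h1⟩ := (hgs m).2 (nat v) (nat_mem_omega v) hv
      obtain ⟨l', hl', rfl⟩ := mem_nat.1 hl
      refine ⟨l', hl', ?_⟩
      rw [hx l' hl' m] at h1
      exact nat_injective h1
  choose! x hxW hxv using hxex
  have hσex : ∀ t, InR R β t → ∀ l < LR R β t, ∃ σ ∈ Nm M π β, fv M π G β σ = x t l := by
    intro t ht l hl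
    exact exists_Nm hM hπ hβM hβ hG hβM hβ (fun _ h => h) (by rw [hself]; exact hxW t ht l hl)
  choose! σ hσN hσv using hσex
  -- the set of the new promises
  set S : Set ZFSet.{0} := ⋃ t ∈ T, (fun l : ℕ => pa β t (σ t l)) '' Set.Iio (LR R β t) with hS
  have hSf : S.Finite := Set.Finite.biUnion hTf fun t _ => Set.Finite.image _ (Set.finite_Iio _)
  obtain ⟨Q, hQM, hQf, hQ⟩ := exists_set hM hSf (by
    intro z hz
    rw [hS, Set.mem_iUnion₂] at hz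
    obtain ⟨t, ht, l, hl, rfl⟩ := hz
    exact pa_mem_M hM hβM (mem_Nm.1 (hTN t ht)).1 (mem_Nm.1 (hσN t ht l hl)).1)
  have hQ' : ∀ z, z ∈ Q ↔ ∃ t, InR R β t ∧ ∃ l < LR R β t, z = pa β t (σ t l) := by
    intro z
    rw [hQ, hS, Set.mem_iUnion₂]
    constructor
    · rintro ⟨t, ht, l, hl, rfl⟩
      exact ⟨t, ht, l, hl, rfl⟩
    · rintro ⟨t, ht, l, hl, rfl⟩
      exact ⟨t, ht, l, hl, rfl⟩
  -- the property in the extension
  have hprop : ∀ k j₀ : ℕ, ∀ r₂ ∈ G, ∃ j ≥ j₀, ∃ r₃ ∈ G, Le M π r₃ r₂ ∧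
      Good M π p R β Q r₃ (nat k) (nat j) := by
    intro k j₀ r₂ hr₂
    obtain ⟨j', hj', h1, h2⟩ := hFl k (nat j₀) (nat_mem_omega j₀)
    obtain ⟨j, rfl⟩ := mem_omega_iff.1 (hJo hj')
    have hjG : rs (ap p (nat j)) β ∈ G := (ZFSet.mem_sep.1 hj').2
    obtain ⟨r₀, h3, h4, h5⟩ := gen_dir hM hπ hβM hβ hG hr₂ hjG
    set S' : Set ZFSet.{0} := ((fun z => sn (sn z)) '' {z | ∃ t s, z = pa β t s ∧
      z ∈ ap p (nat j)}) ∪ (T ∪ (fun z => sn (sn z)) '' {z | z ∈ Q}) with hS'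
    have hS'f : S'.Finite := by
      refine Set.Finite.union (Set.Finite.image _ ?_) (Set.Finite.union hTf
        (Set.Finite.image _ hQf))
      refine Set.Finite.subset (mem_PP.1 (hF.cond j)).fin ?_
      rintro z ⟨t, s, -, hz⟩
      exact hz
    obtain ⟨r₃, h6, h7, h8⟩ := decide_all hM hπ hβM hβ hG hS'f (by
      rintro s (⟨z, ⟨t, s', rfl, hz⟩, rfl⟩ | ht | ⟨z, hz, rfl⟩)
      · simp only [snn_pa]
        exact (hNm j _ _ hz).2
      · exact hTN s ht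
      · obtain ⟨t, ht, l, hl, rfl⟩ := (hQ' z).1 hz
        simp only [snn_pa]
        exact hσN t ht l hl) k r₀ h3
    rw [nat_mem_iff] at h1
    refine ⟨j, h1.le, r₃, h6, le_trans hM hβ _ (hG.sub hr₂) _ (hG.sub h3) _ (hG.sub h6) h7 h4,
      mem_LL.2 ⟨hG.sub h6, hG.sub hjG, le_trans hM hβ _ (hG.sub hjG) _ (hG.sub h3) _
        (hG.sub h6) h7 h5⟩, ?_⟩
    intro m hm z hz hz1 hz2 hz3
    obtain ⟨m, hmk, rfl⟩ := mem_nat.1 hm
    obtain ⟨β', t, s, rfl⟩ := (mem_PP.1 (hF.cond j)).ats.eq_pa hz hz1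
    rw [blk_pa] at hz2
    subst hz2
    rw [fs_pa] at hz3
    have ht := hF.inR.1 hz3
    have h9 : pair t (nat (min (fv M π G β' s m) (fv M π G β' t m))) ∈ F (nat m) := by
      rw [← h2 (nat m) (nat_mem_iff.2 hmk)]
      exact (memy j m _).2 ⟨t, s, hz, ht, rfl⟩
    obtain ⟨l, hl, h10⟩ := hxv t ht m _ h9
    refine ⟨pa β' t (σ t l), (hQ' _).2 ⟨t, ht, l, hl, rfl⟩, by rw [fs_pa, fs_pa],
      nat (fv M π G β' s m), nat_mem_omega _, nat (fv M π G β' (σ t l) m), nat_mem_omega _,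
      nat (fv M π G β' t m), nat_mem_omega _, ?_, ?_, ?_, ?_⟩
    · rw [snn_pa]
      exact h8 s (Or.inl ⟨_, ⟨t, s, rfl, hz⟩, snn_pa _ _ _⟩) m hmk
    · rw [snn_pa]
      exact h8 (σ t l) (Or.inr (Or.inr ⟨_, (hQ' _).2 ⟨t, ht, l, hl, rfl⟩, snn_pa _ _ _⟩)) m hmk
    · rw [fs_pa, sn_pair]
      exact h8 t (Or.inr (Or.inl ht)) m hmk
    · rw [tr_nat, hσv t ht l hl, h10]
  -- genericity
  have dG : ∀ {n : ℕ} {r k j : (Fin n → ZFSet.{0}) → ZFSet.{0}}, DfnF M M r → DfnF M M k →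
      DfnF M M j → Dfn M M fun w => Good M π p R β Q (r w) (k w) (j w) :=
    fun hr hk hj => dfn_Good hM hπ hβM hβ hpM hRM hQM hr hk hj
  set Qr : ZFSet.{0} → Prop := fun r => ∀ r₂ ∈ PP M π β, pair r₂ r ∈ LL M π β →
    ∀ k ∈ ZFSet.omega, ∀ j₀ ∈ ZFSet.omega, ∃ j ∈ ZFSet.omega, j₀ ⊆ j ∧ ∃ r₃ ∈ PP M π β,
      pair r₃ r₂ ∈ LL M π β ∧ Good M π p R β Q r₃ k j with hQr
  set Bad : ZFSet.{0} → Prop := fun r => ∃ k ∈ ZFSet.omega, ∃ j₀ ∈ ZFSet.omega,
    ∀ j ∈ ZFSet.omega, j₀ ⊆ j → ∀ r₃ ∈ PP M π β, pair r₃ r ∈ LL M π β →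
      ¬ Good M π p R β Q r₃ k j with hBad
  have hd : Dfn M M fun w : Fin 1 → ZFSet.{0} => Qr (w 0) ∨ Bad (w 0) := by
    simp only [hQr, hBad]
    (repeat' first
        | assumption
        | exact DfnF.proj _
        | exact DfnF.const (by assumption)
        | apply dG
        | apply Dfn.and | apply Dfn.or | apply Dfn.not | apply Dfn.imp | apply hB.bex
        | apply hB.ball | apply hB.subset'
        | apply Dfn.mem | apply Dfn.eq | apply hB.pair')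
  obtain ⟨r, hrG, hrq, hr⟩ := below_gen hM hπ hβM hβ hG (Q := fun r => Qr r ∨ Bad r) hd hqG (by
    intro r hr hrq
    by_cases h1 : Qr r
    · exact ⟨r, hr, le_refl r, Or.inl h1⟩
    · rw [hQr] at h1
      push Not at h1
      obtain ⟨r₂, hr₂, h2, k, hk, j₀, hj₀, h3⟩ := h1
      exact ⟨r₂, hr₂, (mem_LL.1 h2).2.2, Or.inr ⟨k, hk, j₀, hj₀, h3⟩⟩)
  rcases hr with hr | hr
  · refine ⟨r, hG.sub hrG, hrq, Q, hQM, hQf, ?_, ?_, ?_⟩
    · intro z hz
      obtain ⟨t, ht, l, hl, rfl⟩ := (hQ' z).1 hz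
      exact ⟨t, _, rfl, hσN t ht l hl, ht⟩
    · intro t
      by_cases ht : InR R β t
      · have h1 : {s | pa β t s ∈ Q} ⊆ (fun l : ℕ => σ t l) '' (Finset.range (LR R β t) : Set ℕ) := by
          intro s hs
          obtain ⟨t', ht', l, hl, h2⟩ := (hQ' _).1 hs
          obtain ⟨-, rfl, rfl⟩ := pa_inj.1 h2
          exact ⟨l, by simpa using hl, rfl⟩
        refine (Set.ncard_le_ncard h1 (Set.Finite.image _ (Finset.finite_toSet _))).trans ?_
        refine (Set.ncard_image_le (Finset.finite_toSet _)).trans ?_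
        rw [Set.ncard_coe_finset, Finset.card_range]
      · have h1 : {s | pa β t s ∈ Q} = ∅ := by
          refine Set.eq_empty_iff_forall_notMem.2 fun s hs => ?_
          obtain ⟨t', ht', l, hl, h2⟩ := (hQ' _).1 hs
          obtain ⟨-, rfl, rfl⟩ := pa_inj.1 h2
          exact ht ht'
        rw [h1, Set.ncard_empty]
        exact Nat.zero_le _
    · intro r₂ hr₂ h1 k j₀
      obtain ⟨j, hj, h2, r₃, h3, h4, h5⟩ := hr r₂ hr₂ (mem_LL.2 ⟨hr₂, hG.sub hrG, h1⟩) (nat k)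
        (nat_mem_omega k) (nat j₀) (nat_mem_omega j₀)
      obtain ⟨j, rfl⟩ := mem_omega_iff.1 hj
      exact ⟨j, nat_sub.1 h2, r₃, h3, (mem_LL.1 h4).2.2, h5⟩
  · exfalso
    obtain ⟨k, hk, j₀, hj₀, h1⟩ := hr
    obtain ⟨k, rfl⟩ := mem_omega_iff.1 hk
    obtain ⟨j₀, rfl⟩ := mem_omega_iff.1 hj₀
    obtain ⟨j, h2, r₃, h3, h4, h5⟩ := hprop k j₀ r hrG
    exact h1 (nat j) (nat_mem_omega j) (nat_sub.2 h2) r₃ (hG.sub h3)
      (mem_LL.2 ⟨hG.sub h3, hG.sub hrG, h4⟩) h5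

end

end Pool.Agent.H635.RF
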