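import Pool.Agent.H635.RF.In

/-!
# The parameters for localization
-/

set_option autoImplicit false
set_option linter.unreachableTactic false
set_option linter.unusedTactic false
set_option linter.unusedSectionVars false
set_option linter.unusedVariables false

namespace Pool.Agent.H635.RF

open Pool.Agent.W868 Pool.Agent.W868.GM Pool.Agent.Y588
open Pool.Agent.H635.RB (Fi dfn_fi fin_mem nat_mem_iff mem_nat nat_sub)
open ZFSet (pair)

theorem mem_stc {b : Set ℕ} {z : ZFSet.{0}} : z ∈ stc b ↔ ∃ i ∈ b, z = nat i := by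
  unfold stc
  rw [ZFSet.mem_range]
  constructor
  · rintro ⟨⟨i, hi⟩, rfl⟩
    exact ⟨i, hi, rfl⟩
  · rintro ⟨i, hi, rfl⟩
    exact ⟨⟨i, hi⟩, rfl⟩

theorem nat_mem_stc {b : Set ℕ} {i : ℕ} : nat i ∈ stc b ↔ i ∈ b := by
  rw [mem_stc]
  constructor
  · rintro ⟨j, hj, h⟩
    rwa [nat_injective h]
  · intro h
    exact ⟨i, h, rfl⟩

theorem stc_sub {b : Set ℕ} : stc b ⊆ ZFSet.omega := by
  intro z hz
  obtain ⟨i, -, rfl⟩ := mem_stc.1 hz
  exact nat_mem_omega i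

theorem stc_inj {b c : Set ℕ} (h : stc b = stc c) : b = c := by
  ext i
  rw [← nat_mem_stc, h, nat_mem_stc]

theorem mem_sqc {Y : ℕ → Set (Set ℕ)} {z : ZFSet.{0}} :
    z ∈ sqc Y ↔ ∃ k, ∃ x ∈ Y k, z = pair (nat k) (stc x) := by
  unfold sqc
  rw [ZFSet.mem_range]
  constructor
  · rintro ⟨⟨⟨k, x⟩, h⟩, rfl⟩
    exact ⟨k, x, h, rfl⟩
  · rintro ⟨k, x, h, rfl⟩
    exact ⟨⟨⟨k, x⟩, h⟩, rfl⟩

/-- The subset of `ω` given by a set. -/
def ust (u : ZFSet.{0}) : Set ℕ := {i | nat i ∈ u}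

theorem stc_ust {u : ZFSet.{0}} (hu : u ⊆ ZFSet.omega) : stc (ust u) = u := by
  ext z
  rw [mem_stc]
  constructor
  · rintro ⟨i, hi, rfl⟩
    exact hi
  · intro hz
    obtain ⟨i, rfl⟩ := mem_omega_iff.1 (hu hz)
    exact ⟨i, hz, rfl⟩

theorem ust_stc (b : Set ℕ) : ust (stc b) = b := by
  ext i
  exact nat_mem_stc

theorem fin_subsets (n : ℕ) : {u : ZFSet.{0} | u ⊆ nat n}.Finite := by
  refine Set.Finite.of_finite_image (f := ust) ?_ ?_
  · refine Set.Finite.subset (Set.finite_Iio n).finite_subsets ?_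
    rintro _ ⟨u, hu, rfl⟩
    intro i hi
    exact nat_mem_iff.1 (hu hi)
  · intro u hu v hv h
    rw [← stc_ust (fun z hz => nat_subset_omega (hu hz) : u ⊆ ZFSet.omega),
      ← stc_ust (fun z hz => nat_subset_omega (hv hz) : v ⊆ ZFSet.omega), h]

theorem fi_of_sub {u : ZFSet.{0}} {n : ℕ} (h : u ⊆ nat n) : Fi u := Fi.mono (fi_nat n) h

/-- The set of the finite subsets of `ω`. -/
noncomputable def Fw (M : Set ZFSet.{0}) : ZFSet.{0} := ZFSet.sUnion (im (pwM M) ZFSet.omega)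

section

variable {M : Set ZFSet.{0}} (hM : IsZF M)

include hM

theorem sub_nat_mem {u : ZFSet.{0}} {n : ℕ} (h : u ⊆ nat n) : u ∈ M :=
  fin_mem hM (fi_of_sub h) fun x hx => hM.trans _ (hM.nat_mem n) _ (h hx)

theorem mem_Fw {u : ZFSet.{0}} : u ∈ Fw M ↔ ∃ n : ℕ, u ⊆ nat n := by
  unfold Fw
  constructor
  · intro h
    obtain ⟨y, hy, h1⟩ := ZFSet.mem_sUnion.1 h
    obtain ⟨m, hm, rfl⟩ := mem_im.1 hy
    obtain ⟨n, rfl⟩ := mem_omega_iff.1 hm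
    exact ⟨n, (mem_pwM.1 h1).2⟩
  · rintro ⟨n, h⟩
    exact ZFSet.mem_sUnion.2 ⟨_, mem_im.2 ⟨nat n, nat_mem_omega n, rfl⟩,
      mem_pwM.2 ⟨sub_nat_mem hM h, h⟩⟩

theorem pwM_dfn : DfnF M M fun w : Fin 1 → ZFSet.{0} => pwM M (w 0) := pwM' hM (DfnF.proj 0)

theorem Fw_mem : Fw M ∈ M := hM.union _ (hM.im_mem hM.infinity (pwM_dfn hM))

theorem ct_Fw {e : ZFSet.{0} → ZFSet.{0}} (hg : GC M e) : Ct M (Fw M) := by
  refine ct_iUnion hM hg hM.infinity (ct_omega hM) (pwM_dfn hM) fun u hu => ?_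
  obtain ⟨n, rfl⟩ := mem_omega_iff.1 hu
  refine ct_fin hM (pwM_mem hM (hM.nat_mem n)) (Set.Finite.subset (fin_subsets n) fun x hx => ?_)
  exact (mem_pwM.1 hx).2

end

/-- The entries. -/
noncomputable def locE (M : Set ZFSet.{0}) : ZFSet.{0} := ZFSet.prod ZFSet.omega (Fw M)

/-- The parameters of the localization forcing: the entries are the pairs `(b, B)` of a natural
number and a finite set of natural numbers. -/
noncomputable def loc (M : Set ZFSet.{0}) : Par where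
  E := locE M
  Vl := ZFSet.sep (fun z => Fi (sn (sn z)) ∧ Fi (fs z) ∧ Sz (sn (sn z)) (fs z))
    (ZFSet.prod ZFSet.omega (locE M))
  Cn := ZFSet.sep (fun z => fs (fs z) = sn z) (ZFSet.prod (locE M) ZFSet.omega)
  Al := ZFSet.sep (fun z => sn z ∈ sn (fs z) ∨ fs (fs z) ⊆ sn z)
    (ZFSet.prod (locE M) ZFSet.omega)
  c := True

/-- The finite set `V` as a set. -/
noncomputable def fsc (V : Finset ℕ) : ZFSet.{0} :=
  ZFSet.range fun i : {i : ℕ // i ∈ V} => nat i.1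

theorem mem_fsc {V : Finset ℕ} {z : ZFSet.{0}} : z ∈ fsc V ↔ ∃ i ∈ V, z = nat i := by
  unfold fsc
  rw [ZFSet.mem_range]
  constructor
  · rintro ⟨⟨i, hi⟩, rfl⟩
    exact ⟨i, hi, rfl⟩
  · rintro ⟨i, hi, rfl⟩
    exact ⟨⟨i, hi⟩, rfl⟩

theorem nat_mem_fsc {V : Finset ℕ} {i : ℕ} : nat i ∈ fsc V ↔ i ∈ V := by
  rw [mem_fsc]
  constructor
  · rintro ⟨j, hj, h⟩
    rwa [nat_injective h]
  · intro h
    exact ⟨i, h, rfl⟩

theorem ncard_fsc (V : Finset ℕ) : {x | x ∈ fsc V}.ncard = V.card := by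
  have h : {x | x ∈ fsc V} = nat '' (V : Set ℕ) := by
    ext x
    constructor
    · intro hx
      obtain ⟨i, hi, rfl⟩ := mem_fsc.1 hx
      exact ⟨i, hi, rfl⟩
    · rintro ⟨i, hi, rfl⟩
      exact mem_fsc.2 ⟨i, hi, rfl⟩
  rw [h, Set.ncard_image_of_injective _ nat_injective, Set.ncard_coe_finset]

theorem fsc_sub (V : Finset ℕ) : ∃ n : ℕ, fsc V ⊆ nat n := by
  refine ⟨V.sup id + 1, fun z hz => ?_⟩
  obtain ⟨i, hi, rfl⟩ := mem_fsc.1 hz
  rw [nat_mem_iff]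
  exact Nat.lt_succ_of_le (Finset.le_sup (f := id) hi)

section

variable {M : Set ZFSet.{0}} (hM : IsZF M)

include hM

theorem locE_mem : locE M ∈ M := hM.prod_mem hM.infinity (Fw_mem hM)

theorem ct_locE {e : ZFSet.{0} → ZFSet.{0}} (hg : GC M e) : Ct M (locE M) :=
  ct_prod hM hM.infinity (Fw_mem hM) (ct_omega hM) (ct_Fw hM hg)

theorem pOk_loc : POk M (loc M) where
  E := locE_mem hM
  Vl := by
    have hB := hM.base
    refine hM.sep_mem (Q := fun z => Fi (sn (sn z)) ∧ Fi (fs z) ∧ Sz (sn (sn z)) (fs z)) ?_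
      (hM.prod_mem hM.infinity (locE_mem hM))
    exact dfn_sz hM (hM.sn' (hM.sn' (DfnF.proj 0))) (hM.fs' (DfnF.proj 0))
  Cn := by
    have hB := hM.base
    refine hM.sep_mem (Q := fun z => fs (fs z) = sn z) ?_
      (hM.prod_mem (locE_mem hM) hM.infinity)
    exact Dfn.eq (hM.fs' (hM.fs' (DfnF.proj 0))) (hM.sn' (DfnF.proj 0))
  Al := by
    have hB := hM.base
    refine hM.sep_mem (Q := fun z => sn z ∈ sn (fs z) ∨ fs (fs z) ⊆ sn z) ?_
      (hM.prod_mem (locE_mem hM) hM.infinity)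
    exact (Dfn.mem (hM.sn' (DfnF.proj 0)) (hM.sn' (hM.fs' (DfnF.proj 0)))).or
      (hB.subset' (hM.fs' (hM.fs' (DfnF.proj 0))) (hM.sn' (DfnF.proj 0)))

theorem mem_locE {e : ZFSet.{0}} : e ∈ locE M ↔ ∃ b : ℕ, ∃ B, (∃ n : ℕ, B ⊆ nat n) ∧
    e = pair (nat b) B := by
  unfold locE
  rw [ZFSet.mem_prod]
  constructor
  · rintro ⟨b, hb, B, hB, rfl⟩
    obtain ⟨k, rfl⟩ := mem_omega_iff.1 hb
    exact ⟨k, B, (mem_Fw hM).1 hB, rfl⟩
  · rintro ⟨b, B, hB, rfl⟩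
    exact ⟨_, nat_mem_omega b, _, (mem_Fw hM).2 hB, rfl⟩

omit hM in
theorem loc_Vl {m e : ZFSet.{0}} : pair m e ∈ (loc M).Vl ↔ m ∈ ZFSet.omega ∧ e ∈ locE M ∧
    Fi (sn e) ∧ Fi m ∧ Sz (sn e) m := by
  simp only [loc, ZFSet.mem_sep, ZFSet.pair_mem_prod, fs_pair, sn_pair, and_assoc]

omit hM in
theorem loc_Cn {e w : ZFSet.{0}} : pair e w ∈ (loc M).Cn ↔ e ∈ locE M ∧ w ∈ ZFSet.omega ∧
    fs e = w := by
  simp only [loc, ZFSet.mem_sep, ZFSet.pair_mem_prod, fs_pair, sn_pair, and_assoc]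

omit hM in
theorem loc_Al {e v : ZFSet.{0}} : pair e v ∈ (loc M).Al ↔ e ∈ locE M ∧ v ∈ ZFSet.omega ∧
    (v ∈ sn e ∨ fs e ⊆ v) := by
  simp only [loc, ZFSet.mem_sep, ZFSet.pair_mem_prod, fs_pair, sn_pair, and_assoc]

theorem pAx_loc : PAx (loc M) where
  ent n b V hV := by
    have hV' := hV trivial
    obtain ⟨k, hk⟩ := fsc_sub V
    have hE : pair (nat b) (fsc V) ∈ locE M := (mem_locE hM).2 ⟨b, _, ⟨k, hk⟩, rfl⟩
    refine ⟨pair (nat b) (fsc V), hE, ?_, ?_, fun v hv => ?_⟩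
    · refine loc_Vl.2 ⟨nat_mem_omega n, hE, ?_, fi_nat n, ?_⟩
      · rw [sn_pair]
        exact fi_of_sub hk
      · rw [sn_pair, Sz, ncard_fsc, ncard_nat]
        exact hV'
    · exact loc_Cn.2 ⟨hE, nat_mem_omega b, fs_pair _ _⟩
    · refine loc_Al.2 ⟨hE, nat_mem_omega v, Or.inl ?_⟩
      rw [sn_pair]
      exact nat_mem_fsc.2 hv

end

end Pool.Agent.H635.RF
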