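import Pool.Agent.H635.RF.Ln

/-!
# The limit theorem
-/

set_option autoImplicit false
set_option linter.unreachableTactic false
set_option linter.unusedTactic false
set_option linter.unusedSectionVars false
set_option linter.unusedVariables false

namespace Pool.Agent.H635.RF

open Pool.Agent.W868 Pool.Agent.W868.GM Pool.Agent.Y588
open Pool.Agent.H635.RB (Fi dfn_fi fin_mem nat_mem_iff mem_nat nat_sub ap_unique)
open ZFSet (pair)

section

variable {M : Set ZFSet.{0}} {π : Par} {κ p R : ZFSet.{0}} (hF : Fam M π κ p R)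

include hF

/-- Almost all members of the sequence avoid the coordinates of a finite set. -/
theorem avoid {r : ZFSet.{0}} (hr : Fi r) : ∃ j₁ : ℕ, ∀ j ≥ j₁, ∀ z ∈ r,
    ∀ z' ∈ ap p (nat j), fs z = fs z' → ∃ w ∈ R, fs w = fs z := by
  have h1 : (⋃ z ∈ {z | z ∈ r}, {j : ℕ | (∃ z' ∈ ap p (nat j), fs z = fs z') ∧
      ¬ ∃ w ∈ R, fs w = fs z}).Finite := by
    refine Set.Finite.biUnion hr fun z _ => Set.Subsingleton.finite ?_
    rintro i ⟨⟨u, hu, h1⟩, h2⟩ j ⟨⟨v, hv, h3⟩, -⟩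
    by_contra hne
    obtain ⟨w, hw, h4⟩ := hF.disj i j hne u hu v hv (by rw [← h1, ← h3])
    exact h2 ⟨w, hw, by rw [h4, ← h1]⟩
  obtain ⟨b, hb⟩ := h1.bddAbove
  refine ⟨b + 1, fun j hj z hz z' hz' h2 => ?_⟩
  by_contra h3
  have h4 : j ∈ ⋃ z ∈ {z | z ∈ r}, {j : ℕ | (∃ z' ∈ ap p (nat j), fs z = fs z') ∧
      ¬ ∃ w ∈ R, fs w = fs z} := by
    rw [Set.mem_iUnion₂]
    exact ⟨z, hz, ⟨z', hz', h2⟩, h3⟩
  have := hb h4
  omega

end

theorem len_le_card {r β t : ZFSet.{0}} (hr : Fi r) : Len r β t ≤ {z | z ∈ r}.ncard := by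
  have h1 : {m | ∃ e, sa β t m e ∈ r} ⊆ (fun z => fs (sn (sn z))) '' {z | z ∈ r} := by
    rintro m ⟨e, he⟩
    exact ⟨_, he, by simp only [snn_sa, fs_pair]⟩
  exact (Set.ncard_le_ncard h1 (Set.Finite.image _ hr)).trans (Set.ncard_image_le hr)

theorem nF_le_card {r β t : ZFSet.{0}} (hr : Fi r) : nF r β t ≤ {z | z ∈ r}.ncard := by
  have h1 : {s | pa β t s ∈ r} ⊆ (fun z => sn (sn z)) '' {z | z ∈ r} := by
    intro s hs
    exact ⟨_, hs, snn_pa _ _ _⟩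
  exact (Set.ncard_le_ncard h1 (Set.Finite.image _ hr)).trans (Set.ncard_image_le hr)

theorem LR_le_card {R β t : ZFSet.{0}} (hR : Fi R) : LR R β t ≤ {z | z ∈ R}.ncard :=
  len_le_card hR

theorem nF_mono_fin {r r' β t : ZFSet.{0}} (hr' : Fi r')
    (h : ∀ s, pa β t s ∈ r → pa β t s ∈ r') : nF r β t ≤ nF r' β t :=
  Set.ncard_le_ncard h (fin_prom hr' β t)

theorem Len_mono_fin {r r' β t : ZFSet.{0}} (hr' : Fi r')
    (h : ∀ m e, sa β t m e ∈ r → sa β t m e ∈ r') : Len r β t ≤ Len r' β t := by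
  refine Set.ncard_le_ncard ?_ (fin_stem hr' β t)
  rintro m ⟨e, he⟩
  exact ⟨e, h _ _ he⟩

section

variable {M : Set ZFSet.{0}} (hM : IsZF M) {π : Par} (hπ : POk M π) (hx : PAx π)
  (hl : PLim π) {κ : ZFSet.{0}} (hκM : κ ∈ M) (hκ : κ.IsOrdinal) {p R : ZFSet.{0}}
  (hF : Fam M π κ p R)

include hM hπ hx hl hκM hκ hF

theorem fam_Nm {β t : ZFSet.{0}} (h : InR R β t) : t ∈ Nm M π β ∧ t ∈ Tb M π β := by
  obtain ⟨m, e, h⟩ := h
  have h1 := ((mem_PP.1 (hF.cond 0)).ats.sa (hF.sub 0 h)).2.1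
  exact ⟨(Tb_mem hM h1).2 hl.c, h1⟩

theorem fam_fin (β : ZFSet.{0}) : {t | InR R β t}.Finite := by
  refine Set.Finite.subset (Set.Finite.image (fun z => sn (fs z)) hF.fin) ?_
  rintro t ⟨m, e, h⟩
  exact ⟨_, h, by simp only [fs_sa, sn_pair]⟩

/-- The main step. -/
theorem lim_step {γ β : ZFSet.{0}} (hγM : γ ∈ M) (hγ : γ.IsOrdinal) (hγκ : γ ⊆ κ) (hβγ : β ∈ γ)
    (hmax : ∀ δ t, InR R δ t → δ ∈ γ → δ ∈ β ∨ δ = β) {Q q r₀ : ZFSet.{0}}
    (hq : q ∈ PP M π γ) (hqβ : rs q β = r₀) (hr₀ : r₀ ∈ PP M π β)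
    (hqR : ∀ t m e, sa β t m e ∈ R → sa β t m e ∈ q) (hqQ : Q ⊆ q)
    (hqs : ∀ t m e, sa β t m e ∈ q → sa β t m e ∈ R)
    (hQ : ∀ z ∈ Q, ∃ t s, z = pa β t s ∧ s ∈ Nm M π β ∧ InR R β t)
    (hgood : ∀ r₂ ∈ PP M π β, Le M π r₂ r₀ → ∀ k j₀ : ℕ, ∃ j ≥ j₀, ∃ r₃ ∈ PP M π β,
      Le M π r₃ r₂ ∧ Good M π p R β Q r₃ (nat k) (nat j)) : Lim M π p γ q := by
  classical
  intro r hr hrq j₀
  have hβ : β.IsOrdinal := hγ.mem hβγ
  have hβM : β ∈ M := hM.trans _ hγM _ hβγ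
  have hβsub : β ⊆ γ := hγ.subset_of_mem hβγ
  have hr' := mem_PP.1 hr
  -- room
  set N : ℕ := {z | z ∈ r}.ncard + {z | z ∈ R}.ncard with hN
  obtain ⟨r₁, h1, h2, h3, h4⟩ := ext_rooms hM hπ hx hγM hγ hβγ
    (fam_fin hM hπ hx hl hκM hκ hF β)
    (fun t ht => (fam_Nm hM hπ hx hl hκM hκ hF ht).2) N r hr
  have h1' := mem_PP.1 h1
  have hr₁q : Le M π r₁ q := le_trans hM hγ _ hq _ hr _ h1 h2 hrq
  obtain ⟨j₁, hj₁⟩ := avoid hF h1'.fin
  set k := {z | z ∈ r₁}.ncard with hk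
  have h5 : Le M π (rs r₁ β) r₀ := by
    have := le_rs hβ hr₁q
    rwa [hqβ] at this
  obtain ⟨j, hj, r₃, h6, h7, h8, h9⟩ := hgood _ (rs_mem hM hβ h1) h5 k (max j₀ j₁)
  have h6' := mem_PP.1 h6
  have hjj₀ : j₀ ≤ j := (le_max_left _ _).trans hj
  have hjj₁ : j₁ ≤ j := (le_max_right _ _).trans hj
  obtain ⟨ha1, ha2, ha3⟩ := glue hM hγ hβ hβsub h1 h6 h7
  have hpj := mem_PP.1 (hF.cond j)
  have hpjγ : rs (ap p (nat j)) γ ∈ PP M π γ := rs_mem hM hγ (hF.cond j)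
  have hrr : rs (rs (ap p (nat j)) γ) β = rs (ap p (nat j)) β := rs_rs hβsub
  obtain ⟨hb1, hb2, hb3⟩ := glue hM hγ hβ hβsub hpjγ h6 (by
    rw [hrr]
    exact (mem_LL.1 h8).2.2)
  set a := r₁ ∪ r₃ with had
  set b := rs (ap p (nat j)) γ ∪ r₃ with hbd
  have ha1' := mem_PP.1 ha1
  have hb1' := mem_PP.1 hb1
  -- the parts above `β`
  have ka : ∀ z ∈ a, blk z ∉ β → z ∈ r₁ := by
    intro z hz hzβ
    rcases ZFSet.mem_union.1 hz with h | h
    · exact h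
    · exact absurd (h6'.ats.blk h) hzβ
  have kb : ∀ z ∈ b, blk z ∉ β → z ∈ ap p (nat j) ∧ blk z ∈ γ := by
    intro z hz hzβ
    rcases ZFSet.mem_union.1 hz with h | h
    · exact mem_rs.1 h
    · exact absurd (h6'.ats.blk h) hzβ
  have la : ∀ z ∈ a, blk z ∈ β → z ∈ r₃ := by
    intro z hz hzβ
    rw [← ha3]
    exact mem_rs.2 ⟨hz, hzβ⟩
  have lb : ∀ z ∈ b, blk z ∈ β → z ∈ r₃ := by
    intro z hz hzβ
    rw [← hb3]
    exact mem_rs.2 ⟨hz, hzβ⟩
  have ra : r₃ ⊆ a := fun z hz => ZFSet.mem_union.2 (Or.inr hz)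
  have rb : r₃ ⊆ b := fun z hz => ZFSet.mem_union.2 (Or.inr hz)
  have com : ∀ δ t, (∃ z ∈ a, fs z = pair δ t) → (∃ z ∈ b, fs z = pair δ t) → δ ∉ β →
      δ = β ∧ InR R β t := by
    rintro δ t ⟨z, hz, h10⟩ ⟨z', hz', h11⟩ hδ
    have hbz : blk z = δ := by rw [blk, h10, fs_pair]
    have hbz' : blk z' = δ := by rw [blk, h11, fs_pair]
    have h12 := ka z hz (by rwa [hbz])
    obtain ⟨h13, h14⟩ := kb z' hz' (by rwa [hbz'])
    obtain ⟨w, hw, h15⟩ := hj₁ j hjj₁ z h12 z' h13 (by rw [h10, h11])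
    have h16 : InR R δ t := hF.inR.1 ⟨w, hw, by rw [h15, h10]⟩
    rw [hbz'] at h14
    have h17 := (hmax δ t h16 h14).resolve_left hδ
    subst h17
    exact ⟨rfl, h16⟩
  have hRr₁ : ∀ t m e, sa β t m e ∈ R → sa β t m e ∈ r₁ := fun t m e h =>
    hr₁q.1 (hqR t m e h)
  have hββ : β ∉ β := ZFSet.mem_irrefl β
  have hab : Ats M π γ (a ∪ b) := ha1'.ats.union hb1'.ats
  have habf : Fi (a ∪ b) := Fi.union ha1'.fin hb1'.fin
  obtain ⟨hc1, hc2, hc3⟩ := amal (π := π) hM hγ ha1 hb1 (by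
    intro δ t m e e' h10 h11
    by_cases hδ : δ ∈ β
    · exact h6'.fn _ _ _ _ _ (la _ h10 (by rwa [blk_sa])) (lb _ h11 (by rwa [blk_sa]))
    · obtain ⟨rfl, h12⟩ := com δ t ⟨_, h10, fs_sa _ _ _ _⟩ ⟨_, h11, fs_sa _ _ _ _⟩ hδ
      have h13 := ka _ h10 (by rwa [blk_sa])
      have h14 := (kb _ h11 (by rwa [blk_sa])).1
      exact h1'.fn _ _ _ _ _ h13 (hRr₁ _ _ _ (hF.stem j _ _ _ _ h12 h14))) (by
    intro hc δ t
    have hLa : Len a δ t ≤ Len (a ∪ b) δ t :=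
      Len_mono_fin habf fun m e h => ZFSet.mem_union.2 (Or.inl h)
    have hLb : Len b δ t ≤ Len (a ∪ b) δ t :=
      Len_mono_fin habf fun m e h => ZFSet.mem_union.2 (Or.inr h)
    have hsa : nF a δ t ≤ Len a δ t := by
      have := ha1'.sz hc δ t
      rwa [sz_iff' ha1'.ats] at this
    have hsb : nF b δ t ≤ Len b δ t := by
      have := hb1'.sz hc δ t
      rwa [sz_iff' hb1'.ats] at this
    by_cases hδ : δ ∈ β
    · have h10 : nF (a ∪ b) δ t ≤ nF a δ t := by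
        refine nF_mono_fin ha1'.fin fun s hs => ?_
        rcases ZFSet.mem_union.1 hs with h | h
        · exact h
        · exact ra (lb _ h (by rwa [blk_pa]))
      omega
    · by_cases hpa : ∃ s, pa δ t s ∈ a
      · by_cases hpb : ∃ s, pa δ t s ∈ b
        · obtain ⟨s, hs⟩ := hpa
          obtain ⟨s', hs'⟩ := hpb
          obtain ⟨rfl, h12⟩ := com δ t ⟨_, hs, fs_pa _ _ _⟩ ⟨_, hs', fs_pa _ _ _⟩ hδ
          have h13 : nF a δ t ≤ {z | z ∈ r}.ncard := by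
            refine (nF_mono_fin hr'.fin fun s hs => ?_).trans (nF_le_card hr'.fin)
            exact h4.pa (ka _ hs (by rwa [blk_pa])) hδ
          have h14 : nF b δ t ≤ {z | z ∈ R}.ncard := by
            refine (nF_mono_fin hpj.fin fun s hs => (kb _ hs (by rwa [blk_pa])).1).trans ?_
            have h15 := hpj.sz hc δ t
            rw [sz_iff' hpj.ats] at h15
            refine h15.trans ((Len_mono_fin hF.fin fun m e h => ?_).trans (len_le_card hF.fin))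
            exact hF.stem j _ _ _ _ h12 h
          have h15 := h3 t h12
          have h16 : Len r₁ δ t ≤ Len a δ t :=
            Len_mono_fin ha1'.fin fun m e h => ha2.1 h
          have h17 := nF_union a b δ t
          omega
        · have h10 : nF (a ∪ b) δ t ≤ nF a δ t := by
            refine nF_mono_fin ha1'.fin fun s hs => ?_
            rcases ZFSet.mem_union.1 hs with h | h
            · exact h
            · exact absurd ⟨s, h⟩ hpb
          omega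
      · have h10 : nF (a ∪ b) δ t ≤ nF b δ t := by
          refine nF_mono_fin hb1'.fin fun s hs => ?_
          rcases ZFSet.mem_union.1 hs with h | h
          · exact absurd ⟨s, h⟩ hpa
          · exact h
        omega) (by
    intro δ t s m e h10 h11 h12 _
    by_cases hδ : δ ∈ β
    · exact absurd (ra (lb _ h11 (by rwa [blk_sa]))) h12
    · obtain ⟨rfl, h13⟩ := com δ t ⟨_, h10, fs_pa _ _ _⟩ ⟨_, h11, fs_sa _ _ _ _⟩ hδ
      have h14 := (kb _ h11 (by rwa [blk_sa])).1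
      exact absurd (ha2.1 (hRr₁ _ _ _ (hF.stem j _ _ _ _ h13 h14))) h12) (by
    intro δ t s m e h10 h11 h12 h13
    by_cases hδ : δ ∈ β
    · exact absurd (rb (la _ h11 (by rwa [blk_sa]))) h12
    · obtain ⟨rfl, h14⟩ := com δ t ⟨_, h11, fs_sa _ _ _ _⟩ ⟨_, h10, fs_pa _ _ _⟩ hδ
      have h15 := ka _ h11 (by rwa [blk_sa])
      have h16 := (kb _ h10 (by rwa [blk_pa])).1
      have h17 : rs (a ∪ b) δ = r₃ := by
        rw [rs_union, ha3, hb3]
        ext z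
        rw [ZFSet.mem_union, or_self]
      rw [h17]
      obtain ⟨-, -, hmo, -⟩ := h1'.ats.sa h15
      obtain ⟨m', rfl⟩ := mem_omega_iff.1 hmo
      have h18 : m' < k := by
        have h19 := (len_iff h1').1 ⟨e, h15⟩
        rw [nat_mem_iff] at h19
        exact lt_of_lt_of_le h19 (len_le_card h1'.fin)
      obtain ⟨z', hz', h19, v, hv, v', hv', w, hw, h20, h21, h22, h23⟩ :=
        h9 (nat m') (nat_mem_iff.2 h18) _ h16 (fsn_pa _ _ _) (blk_pa _ _ _)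
          (by rw [fs_pa]; exact hF.inR.2 h14)
      obtain ⟨t', s', rfl, hs', -⟩ := hQ z' hz'
      rw [fs_pa, fs_pa] at h19
      obtain ⟨-, rfl⟩ := ZFSet.pair_inj.1 h19
      rw [snn_pa] at h20 h21
      rw [fs_pa, sn_pair] at h22
      obtain ⟨v, rfl⟩ := mem_omega_iff.1 hv
      obtain ⟨w, rfl⟩ := mem_omega_iff.1 hw
      rw [tr_nat] at h23
      subst h23
      have htN := (fam_Nm hM hπ hx hl hκM hκ hF h14).1
      have h24 : sa δ t' (nat m') e ∉ q := by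
        intro h
        have h25 := hqs _ _ _ h
        exact h12 (hb2.1 (sa_mem_rs.2 ⟨hF.sub j h25, hβγ⟩))
      have h25 := hr₁q.2 _ _ _ _ _ (hqQ hz') h15 h24
      have h26 := Fb.mono hM hβ (rs_mem hM hβ h1) h6 h7 h25
      have h27 := Fb.dec hM hβ hs' h6 (nat_mem_omega m') hv' h26 h21
      have h28 := Fb.mono hM hβ (rs_mem hM hβ h1) h6 h7 (h1'.cn hl.c _ _ _ _ h15)
      have h29 := Fb.dec hM hβ htN h6 (nat_mem_omega m') (nat_mem_omega w) h28 h22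
      exact Fb_of_Db hM hβ h6 h20 (nat_mem_omega v) (hl.lim e w v h29 h27))
  exact ⟨j, hjj₀, a ∪ b, hc1, le_trans hM hγ _ hr _ ha1 _ hc1 hc2
    (le_trans hM hγ _ hr _ h1 _ ha1 ha2 h2), le_trans hM hγ _ hpjγ _ hb1 _ hc1 hc3 hb2⟩

end

end Pool.Agent.H635.RF
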