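import Pool.Agent.H635.RF.Lt

/-!
# The limit theorem: the induction
-/

set_option autoImplicit false
set_option linter.unreachableTactic false
set_option linter.unusedTactic false
set_option linter.unusedSectionVars false
set_option linter.unusedVariables false

namespace Pool.Agent.H635.RF

open Pool.Agent.W868 Pool.Agent.W868.GM Pool.Agent.Y588
open Pool.Agent.H635.RB (Fi dfn_fi fin_mem nat_mem_iff mem_nat nat_sub ap_unique)
open ZFSet (pair)

section

variable {M : Set ZFSet.{0}} (hc : M.Countable) (hL : IsLA ∅ M) {π : Par} (hπ : POk M π)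
  (hx : PAx π) (hl : PLim π) {κ : ZFSet.{0}} (hκM : κ ∈ M) (hκ : κ.IsOrdinal)
  {p R : ZFSet.{0}} (hF : Fam M π κ p R)

include hc hL hπ hx hl hκM hκ hF

theorem exists_lim (γ : ZFSet.{0}) : γ.IsOrdinal → γ ⊆ κ → ∃ q ∈ PP M π γ, Lim M π p γ q := by
  classical
  have hM := hL.zf
  have hB := hM.base
  induction γ using ZFSet.inductionOn with
  | _ γ ih =>
    intro hγ hγκ
    have hγM : γ ∈ M := by
      rcases (hγ.subset_iff_eq_or_mem hκ).1 hγκ with h | h
      · rw [h]
        exact hκM
      · exact hM.trans _ hκM _ h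
    by_cases hne : ∃ z ∈ R, blk z ∈ γ
    · -- the largest block of the root
      have hSf : (blk '' {z | z ∈ R ∧ blk z ∈ γ}).Finite :=
        Set.Finite.image _ (Set.Finite.subset hF.fin fun z hz => hz.1)
      obtain ⟨β, hβS, hmax'⟩ := exists_max hSf (by
        rintro _ ⟨z, ⟨-, hz⟩, rfl⟩
        exact hγ.mem hz) (by
        obtain ⟨z, hz, hz'⟩ := hne
        exact ⟨_, z, ⟨hz, hz'⟩, rfl⟩)
      have hβγ : β ∈ γ := by
        obtain ⟨z, ⟨-, hz⟩, rfl⟩ := hβS
        exact hz
      have hmax : ∀ δ t, InR R δ t → δ ∈ γ → δ ∈ β ∨ δ = β := by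
        rintro δ t ⟨m, e, h⟩ hδ
        exact hmax' δ ⟨_, ⟨h, by rwa [blk_sa]⟩, blk_sa _ _ _ _⟩
      have hβκ : β ∈ κ := hγκ hβγ
      have hβ := hκ.mem hβκ
      have hβM := hM.trans _ hκM _ hβκ
      have hβsub := hγ.subset_of_mem hβγ
      obtain ⟨q₀, hq₀, hlim⟩ := ih β hβγ hβ (hκ.subset_of_mem hβκ)
      obtain ⟨r₀, hr₀, hr₀q, Q, hQM, hQf, hQ, hQn, hgood⟩ :=
        limit_names hc hL hπ hl hκM hκ hF hβκ hq₀ hlim
      have hr₀' := mem_PP.1 hr₀
      have hββ : β ∉ β := ZFSet.mem_irrefl β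
      -- the new condition
      set Rβ : ZFSet.{0} := ZFSet.sep (fun z => blk z = β) R with hRβ
      have mR : ∀ z, z ∈ Rβ ↔ z ∈ R ∧ blk z = β := fun z => ZFSet.mem_sep
      set q : ZFSet.{0} := (r₀ ∪ Rβ) ∪ Q with hq
      have mq : ∀ z, z ∈ q ↔ z ∈ r₀ ∨ z ∈ Rβ ∨ z ∈ Q := by
        intro z
        rw [hq, ZFSet.mem_union, ZFSet.mem_union, or_assoc]
      have hRβf : Fi Rβ := Fi.mono hF.fin fun z hz => ((mR z).1 hz).1
      have hRβM : Rβ ∈ M := fin_mem hM hRβf fun z hz => hM.trans _ hF.Rm _ ((mR z).1 hz).1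
      have hqM : q ∈ M := hM.union_mem (hM.union_mem hr₀'.mem hRβM) hQM
      have hqf : Fi q := Fi.union (Fi.union hr₀'.fin hRβf) hQf
      have hp0 := mem_PP.1 (hF.cond 0)
      have hat : Ats M π γ q := by
        intro z hz
        rcases (mq z).1 hz with h | h | h
        · obtain ⟨δ, h1, h2⟩ := hr₀'.ats z h
          exact ⟨δ, hβsub h1, h2⟩
        · obtain ⟨h1, h2⟩ := (mR z).1 h
          obtain ⟨δ, h3, h4⟩ := hp0.ats z (hF.sub 0 h1)
          rw [isAt_blk h4] at h2
          subst h2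
          exact ⟨δ, hβγ, h4⟩
        · obtain ⟨t, s, rfl, h1, h2⟩ := hQ z h
          exact ⟨β, hβγ, Or.inr ⟨t, (fam_Nm hM hπ hx hl hκM hκ hF h2).2, s, h1, rfl⟩⟩
      -- stems and promises of the new condition
      have qsa : ∀ δ t m e, sa δ t m e ∈ q ↔ sa δ t m e ∈ r₀ ∨ (sa δ t m e ∈ R ∧ δ = β) := by
        intro δ t m e
        rw [mq, mR, blk_sa]
        constructor
        · rintro (h | h | h)
          · exact Or.inl h
          · exact Or.inr h
          · obtain ⟨t', s, h1, -⟩ := hQ _ h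
            exact absurd h1 sa_ne_pa
        · rintro (h | h)
          · exact Or.inl h
          · exact Or.inr (Or.inl h)
      have qpa : ∀ δ t s, pa δ t s ∈ q ↔ pa δ t s ∈ r₀ ∨ pa δ t s ∈ Q := by
        intro δ t s
        rw [mq, mR]
        constructor
        · rintro (h | h | h)
          · exact Or.inl h
          · obtain ⟨β', t', m, e, h1⟩ := hF.sta _ h.1
            exact absurd h1.symm sa_ne_pa
          · exact Or.inr h
        · rintro (h | h)
          · exact Or.inl h
          · exact Or.inr (Or.inr h)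
      have hQβ : ∀ δ t s, pa δ t s ∈ Q → δ = β := by
        intro δ t s h
        obtain ⟨t', s', h1, -⟩ := hQ _ h
        exact (pa_inj.1 h1).1
      have rsa : ∀ t m e, sa β t m e ∉ r₀ := fun t m e h => hββ (hr₀'.ats.sa h).1
      have rpa : ∀ t s, pa β t s ∉ r₀ := fun t s h => hββ (hr₀'.ats.pa h).1
      have hqβ : rs q β = r₀ := by
        ext z
        rw [mem_rs, mq]
        constructor
        · rintro ⟨h | h | h, h'⟩
          · exact h
          · rw [((mR z).1 h).2] at h'
            exact absurd h' hββ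
          · obtain ⟨t, s, rfl, -⟩ := hQ z h
            rw [blk_pa] at h'
            exact absurd h' hββ
        · intro h
          exact ⟨Or.inl h, hr₀'.ats.blk h⟩
      have hqδ : ∀ δ ∈ β, rs q δ = rs r₀ δ := by
        intro δ hδ
        rw [← rs_rs (hβ.subset_of_mem hδ), hqβ]
      have hqP : q ∈ PP M π γ := by
        refine mk_PP hM hγ hqM hqf hat ?_ ?_ ?_ ?_ ?_
        · intro δ t m e e' h h'
          rcases (qsa _ _ _ _).1 h with g | ⟨g, g1⟩
          · rcases (qsa _ _ _ _).1 h' with g' | ⟨g', g2⟩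
            · exact hr₀'.fn _ _ _ _ _ g g'
            · rw [g2] at g
              exact absurd g (rsa _ _ _)
          · rcases (qsa _ _ _ _).1 h' with g' | ⟨g', -⟩
            · rw [g1] at g'
              exact absurd g' (rsa _ _ _)
            · exact hp0.fn _ _ _ _ _ (hF.sub 0 g) (hF.sub 0 g')
        · intro δ t m e m' h hm
          rcases (qsa _ _ _ _).1 h with g | ⟨g, g1⟩
          · obtain ⟨e', he'⟩ := hr₀'.seg _ _ _ _ _ g hm
            exact ⟨e', (qsa _ _ _ _).2 (Or.inl he')⟩
          · obtain ⟨e', he'⟩ := hp0.seg _ _ _ _ _ (hF.sub 0 g) hm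
            exact ⟨e', (qsa _ _ _ _).2 (Or.inr ⟨hF.stem 0 _ _ _ _ ⟨_, _, g⟩ he', g1⟩)⟩
        · intro δ t m e h
          rcases (qsa _ _ _ _).1 h with g | ⟨g, g1⟩
          · exact hr₀'.vl _ _ _ _ g
          · exact hp0.vl _ _ _ _ (hF.sub 0 g)
        · intro hc' δ t m e h _
          rcases (qsa _ _ _ _).1 h with g | ⟨g, g1⟩
          · rw [hqδ δ (hr₀'.ats.sa g).1]
            exact hr₀'.cn hc' _ _ _ _ g
          · rw [g1] at g ⊢
            rw [hqβ, Fb_iff hr₀]
            intro r₁ hr₁ h1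
            obtain ⟨j, -, r', h2, h3, h4⟩ := hlim r₁ hr₁
              (le_trans hM hβ _ hq₀ _ hr₀ _ hr₁ h1 hr₀q) 0
            have h5 := (mem_PP.1 (hF.cond j)).cn hc' _ _ _ _ (hF.sub j g)
            rw [Fb_iff (rs_mem hM hβ (hF.cond j))] at h5
            obtain ⟨r₂, h6, h7, h8⟩ := h5 r' h2 h4
            exact ⟨r₂, h6, le_trans hM hβ _ hr₁ _ h2 _ h6 h7 h3, h8⟩
        · intro hc' δ t
          rw [sz_iff' hat]
          by_cases hδ : δ = β
          · subst hδ
            have h1 : nF q δ t ≤ LR R δ t := by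
              refine le_trans' (hQn t) (Set.ncard_le_ncard ?_ (fin_prom hQf δ t))
              intro s hs
              exact ((qpa _ _ _).1 hs).resolve_left (rpa _ _)
            refine h1.trans (Len_mono_fin hqf fun m e h => (qsa _ _ _ _).2 (Or.inr ⟨h, rfl⟩))
          · have h1 := hr₀'.sz hc' δ t
            rw [sz_iff' hr₀'.ats] at h1
            refine (nF_mono_fin hr₀'.fin fun s hs => ?_).trans (h1.trans
              (Len_mono_fin hqf fun m e h => (qsa _ _ _ _).2 (Or.inl h)))
            exact ((qpa _ _ _).1 hs).resolve_right fun h => hδ (hQβ _ _ _ h)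
      refine ⟨q, hqP, lim_step hM hπ hx hl hκM hκ hF hγM hγ hγκ hβγ hmax hqP hqβ hr₀ ?_ ?_ ?_
        hQ hgood⟩
      · intro t m e h
        exact (qsa _ _ _ _).2 (Or.inr ⟨h, rfl⟩)
      · intro z hz
        exact (mq z).2 (Or.inr (Or.inr hz))
      · intro t m e h
        exact (((qsa _ _ _ _).1 h).resolve_left (rsa _ _ _)).1
    · -- no coordinate of the root
      refine ⟨∅, empty_mem_PP hM γ, fun r hr _ j₀ => ?_⟩
      have hr' := mem_PP.1 hr
      obtain ⟨j₁, hj₁⟩ := avoid hF hr'.fin
      set j := max j₀ j₁ with hj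
      have hpj := rs_mem (π := π) hM hγ (hF.cond j)
      have hpj' := mem_PP.1 hpj
      have com : ∀ z ∈ r, ∀ z' ∈ rs (ap p (nat j)) γ, fs z = fs z' → False := by
        intro z hz z' hz' h
        obtain ⟨h1, h2⟩ := mem_rs.1 hz'
        obtain ⟨w, hw, h3⟩ := hj₁ j (le_max_right _ _) z hz z' h1 h
        refine hne ⟨w, hw, ?_⟩
        rw [blk, h3, h]
        exact h2
      have hab : Ats M π γ (r ∪ rs (ap p (nat j)) γ) := hr'.ats.union hpj'.ats
      have habf : Fi (r ∪ rs (ap p (nat j)) γ) := Fi.union hr'.fin hpj'.fin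
      obtain ⟨h1, h2, h3⟩ := amal (π := π) hM hγ hr hpj (by
        intro δ t m e e' h10 h11
        exact (com _ h10 _ h11 (by rw [fs_sa, fs_sa])).elim) (by
        intro hc' δ t
        have hLa : Len r δ t ≤ Len (r ∪ rs (ap p (nat j)) γ) δ t :=
          Len_mono_fin habf fun m e h => ZFSet.mem_union.2 (Or.inl h)
        have hLb : Len (rs (ap p (nat j)) γ) δ t ≤ Len (r ∪ rs (ap p (nat j)) γ) δ t :=
          Len_mono_fin habf fun m e h => ZFSet.mem_union.2 (Or.inr h)
        have hsa : nF r δ t ≤ Len r δ t := by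
          have := hr'.sz hc' δ t
          rwa [sz_iff' hr'.ats] at this
        have hsb : nF (rs (ap p (nat j)) γ) δ t ≤ Len (rs (ap p (nat j)) γ) δ t := by
          have := hpj'.sz hc' δ t
          rwa [sz_iff' hpj'.ats] at this
        by_cases hpa : ∃ s, pa δ t s ∈ r
        · have h10 : nF (r ∪ rs (ap p (nat j)) γ) δ t ≤ nF r δ t := by
            refine nF_mono_fin hr'.fin fun s hs => ?_
            rcases ZFSet.mem_union.1 hs with h | h
            · exact h
            · obtain ⟨s', hs'⟩ := hpa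
              exact (com _ hs' _ h (by rw [fs_pa, fs_pa])).elim
          omega
        · have h10 : nF (r ∪ rs (ap p (nat j)) γ) δ t ≤ nF (rs (ap p (nat j)) γ) δ t := by
            refine nF_mono_fin hpj'.fin fun s hs => ?_
            rcases ZFSet.mem_union.1 hs with h | h
            · exact absurd ⟨s, h⟩ hpa
            · exact h
          omega) (by
        intro δ t s m e h10 h11 h12 _
        exact (com _ h10 _ h11 (by rw [fs_pa, fs_sa])).elim) (by
        intro δ t s m e h10 h11 h12 _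
        exact (com _ h11 _ h10 (by rw [fs_pa, fs_sa])).elim)
      exact ⟨j, le_max_left _ _, _, h1, h2, h3⟩

end

end Pool.Agent.H635.RF
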