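import Pool.Agent.H635.RF.Nr

/-!
# The iteration of Hechler forcing: the covering of closed null sets
-/

set_option autoImplicit false
set_option linter.unreachableTactic false
set_option linter.unusedTactic false
set_option linter.unusedSectionVars false
set_option linter.unusedVariables false

namespace Pool.Agent.H635.RF

open Pool.Agent.W868 Pool.Agent.W868.GM Pool.Agent.Y588
open Pool.Agent.H635.RB (Fi dfn_fi fin_mem nat_mem_iff mem_nat nat_sub ap_unique)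
open ZFSet (pair)

/-- The finite set `w` agrees with `u` at the pairs of numbers `(i, j)` with `i < m` and
`j < 2 * m` for all `m ≤ v`. -/
def Apx (J u v w : ZFSet.{0}) : Prop :=
  ∀ m ∈ ZFSet.omega, m ⊆ v → ∀ i ∈ m, ∀ j ∈ ap dbl m, (ap J (pair i j) ∈ w ↔ ap J (pair i j) ∈ u)

/-- The number `e` is a code for the finite set `w`. -/
def Cod (I w e : ZFSet.{0}) : Prop := ∃ a ∈ ZFSet.omega, pair (pair a w) e ∈ I

theorem fsc_eq (V : Finset ℕ) : stc {i | i ∈ V} = fsc V := by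
  ext z
  rw [mem_stc, mem_fsc]
  rfl

section

variable {M : Set ZFSet.{0}} (hM : IsZF M) {J : ZFSet.{0}} (hJM : J ∈ M)
  (hJ : IsInj (ZFSet.prod ZFSet.omega ZFSet.omega) ZFSet.omega J)

include hM hJM

theorem dfn_Apx {n : ℕ} {u v w : (Fin n → ZFSet.{0}) → ZFSet.{0}} (hu : DfnF M M u)
    (hv : DfnF M M v) (hw : DfnF M M w) : Dfn M M fun x => Apx J (u x) (v x) (w x) := by
  have hB := hM.base
  have ho := hM.infinity
  have hd := dbl_mem hM
  refine Dfn.comp3 (Q := Apx J) ?_ hu hv hw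
  unfold Apx
  (repeat' first
      | assumption
      | exact DfnF.proj _
      | exact DfnF.const (by assumption)
      | apply hB.subset' | apply hB.ball | apply Dfn.imp | apply Dfn.iff
      | apply Dfn.mem | apply hB.pair' | apply hM.ap')

include hJ

/-- Finite approximations. -/
theorem exists_apx {u : ZFSet.{0}} (hu : u ∈ M) (v : ℕ) : ∃ w ∈ Fw M, Apx J u (nat v) w := by
  have hB := hM.base
  have ho := hM.infinity
  have hJu : ∀ i j : ℕ, ∃ k : ℕ, ap J (pair (nat i) (nat j)) = nat k := by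
    intro i j
    obtain ⟨b, hb, h1⟩ := fun_exists hJ.1 (ZFSet.pair_mem_prod.2 ⟨nat_mem_omega i, nat_mem_omega j⟩)
    rw [ap_func hJ.1 h1]
    exact mem_omega_iff.1 hb
  choose c hc using hJu
  have hf : ((fun p : ℕ × ℕ => c p.1 p.2) '' (Set.Iio v ×ˢ Set.Iio (2 * v))).Finite :=
    Set.Finite.image _ ((Set.finite_Iio v).prod (Set.finite_Iio (2 * v)))
  obtain ⟨b, hb⟩ := hf.bddAbove
  have h1 : tr u (nat (b + 1)) ⊆ nat (b + 1) := tr_sub
  refine ⟨_, (mem_Fw hM).2 ⟨b + 1, h1⟩, fun m hm hmv i hi j hj => ?_⟩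
  obtain ⟨m, rfl⟩ := mem_omega_iff.1 hm
  rw [nat_sub] at hmv
  rw [ap_dbl] at hj
  obtain ⟨i, hi, rfl⟩ := mem_nat.1 hi
  obtain ⟨j, hj, rfl⟩ := mem_nat.1 hj
  rw [mem_tr, hc, nat_mem_iff]
  have h2 : c i j ≤ b := hb ⟨(i, j), ⟨by simp only [Set.mem_Iio]; omega,
    by simp only [Set.mem_Iio]; omega⟩, rfl⟩
  exact ⟨fun h => h.2, fun h => ⟨by omega, h⟩⟩

end

section

variable {M : Set ZFSet.{0}} (hL : IsLA ∅ M) {κ : ZFSet.{0}} (hk : IsAleph1 M κ)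
  {G : ZFSet.{0}} (hG : IsGeneric M (PP M hec κ) (LL M hec κ) G)
  {J : ZFSet.{0}} (hJM : J ∈ M) (hJ : IsInj (ZFSet.prod ZFSet.omega ZFSet.omega) ZFSet.omega J)
  {I : ZFSet.{0}} (hIM : I ∈ M) (hI : IsInj (ZFSet.prod ZFSet.omega (Fw M)) ZFSet.omega I)

include hL hk hG hJM hJ hIM hI

/-- The generic function codes approximations of the reals of the ground model. -/
theorem exists_code {γ s : ZFSet.{0}} (hγ : γ ∈ κ) (hs : s ∈ Nm M hec γ) {d : ℕ → ℕ}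
    (hd : ∀ n, ge G γ ∅ n = nat (d n)) {u : ZFSet.{0}} (hu : u ∈ M) (K : ℕ) :
    ∃ n ≥ K, ∃ w ∈ Fw M, Cod I w (nat (d n)) ∧ Apx J u (nat (fv M hec G γ s n)) w := by
  classical
  have hM := hL.zf
  have hg := hL.gc
  have hB := hM.base
  have ho := hM.infinity
  have hπ := pOk_hec hM
  have hx := pAx_hec
  have hκM := hk.1
  have hκ := hk.2.1
  have hγM := hM.trans _ hκM _ hγ
  have hγo := hκ.mem hγ
  have hγκ := hκ.subset_of_mem hγ
  have htT : (∅ : ZFSet.{0}) ∈ Tb M hec γ := hec_Tb.2 rfl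
  have hsM := (mem_Nm.1 hs).1
  have hKM := hM.nat_mem K
  have hFM := Fw_mem hM
  have h0 := hM.empty_mem
  obtain ⟨r, hr, n, hn, hKn, e, he, h1, v, hv, h2, w, hw, h3, h4⟩ := dense_gen hM hπ hκM hκ hG
    (Q := fun q => ∃ n ∈ ZFSet.omega, nat K ⊆ n ∧ ∃ e ∈ ZFSet.omega, sa γ ∅ n e ∈ q ∧
      ∃ v ∈ ZFSet.omega, Db M hec γ s (rs q γ) n v ∧ ∃ w ∈ Fw M, Cod I w e ∧ Apx J u v w) (by
    have hD : ∀ {k : ℕ} {r m v : (Fin k → ZFSet.{0}) → ZFSet.{0}}, DfnF M M r →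
        DfnF M M m → DfnF M M v → Dfn M M fun w => Db M hec γ s (r w) (m w) (v w) :=
      fun hr hm hv => dfn_Db hM hπ hγM hγo hγM (DfnF.const hsM) hr hm hv
    unfold Cod sa
    (repeat' first
      | assumption
      | exact DfnF.proj _
      | exact DfnF.const (by assumption)
      | apply hD | apply dfn_Apx hM hJM | apply hB.subset' | apply Dfn.and | apply hB.bex
      | apply Dfn.mem | apply hB.pair' | apply dfn_rs hM)) (by
    intro p hp
    obtain ⟨q₁, hq₁, h1, h2, -⟩ := ext_room hM hπ hx hκM hκ hγ htT K p hp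
    set n := Len q₁ γ ∅ with hn
    have hr₁ := rs_mem hM hγo hq₁
    obtain ⟨r₂, hr₂, h3, v, hv, h4⟩ := exists_dec hs hr₁ (nat_mem_omega n)
    obtain ⟨r₃, hr₃, h5, h6⟩ := exists_decs hM hγo (nat_mem_omega n)
      (fin_prom (mem_PP.1 hq₁).fin γ ∅) (fun s' hs' => ((mem_PP.1 hq₁).ats.pa hs').2.2) r₂ hr₂
    obtain ⟨v, rfl⟩ := mem_omega_iff.1 hv
    obtain ⟨w, hw, h7⟩ := exists_apx hM hJM hJ hu v
    -- the bound for the promises
    have h8 : ∀ s' ∈ {s' | pa γ ∅ s' ∈ q₁}, ∃ k : ℕ, Db M hec γ s' r₃ (nat n) (nat k) := by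
      intro s' hs'
      obtain ⟨v', hv', h9⟩ := h6 s' hs'
      obtain ⟨k, rfl⟩ := mem_omega_iff.1 hv'
      exact ⟨k, h9⟩
    choose! c hc using h8
    obtain ⟨b, hb⟩ := ((fin_prom (mem_PP.1 hq₁).fin γ ∅).image c).bddAbove
    -- a large code
    have hIa : ∀ a : ℕ, ∃ e : ℕ, pair (pair (nat a) w) (nat e) ∈ I := by
      intro a
      obtain ⟨b, hb, h1⟩ := fun_exists hI.1 (ZFSet.pair_mem_prod.2 ⟨nat_mem_omega a, hw⟩)
      obtain ⟨e, rfl⟩ := mem_omega_iff.1 hb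
      exact ⟨e, h1⟩
    choose f hf using hIa
    have hfi : Function.Injective f := by
      intro a a' h
      have h9 := hf a'
      rw [← h] at h9
      exact nat_injective (ZFSet.pair_inj.1 (hI.2 _ _ _ (hf a) h9)).1
    obtain ⟨a, ha⟩ : ∃ a, b < f a := by
      by_contra hcon
      push Not at hcon
      refine Set.infinite_univ (α := ℕ) (Set.Finite.of_finite_image (f := f) ?_ hfi.injOn)
      refine Set.Finite.subset (Set.finite_Iic b) ?_
      rintro _ ⟨a, -, rfl⟩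
      exact hcon a
    have h10 : Le M hec r₃ (rs q₁ γ) := le_trans hM hγo _ hr₁ _ hr₂ _ hr₃ h5 h3
    obtain ⟨h11, h12, h13⟩ := stem_ext hM hπ hκM hκ hγ hq₁ htT hr₃ h10 (nat_mem_omega (f a))
      (ZFSet.pair_mem_prod.2 ⟨nat_mem_omega _, nat_mem_omega _⟩) (fun hcc => absurd hcc fun h => h)
      (fun s' hs' => Fb_of_Db hM hγo hr₃ (hc s' hs') (nat_mem_omega _) (hec_Al.2
        (le_trans' ha.le (hb ⟨s', hs', rfl⟩))))
    refine ⟨_, h11, le_trans hM hκ _ hp _ hq₁ _ h11 h12 h1, nat n, nat_mem_omega n,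
      nat_sub.2 h2, nat (f a), nat_mem_omega _, ZFSet.mem_insert _ _, nat v, nat_mem_omega v, ?_,
      w, hw, ⟨nat a, nat_mem_omega a, hf a⟩, h7⟩
    rw [h13]
    exact Db.mono hM hγo hr₂ hr₃ h5 h4)
  obtain ⟨n, rfl⟩ := mem_omega_iff.1 hn
  rw [nat_sub] at hKn
  have h5 := ge_eq hM hπ hκM hκ hG hx hγ htT hr h1
  rw [hd] at h5
  rw [← h5] at h3
  obtain ⟨v, rfl⟩ := mem_omega_iff.1 hv
  have h6 := fv_eq hM hπ hκM hκ hG hγM hγo hγκ hs
    (rs_gen hM hπ hκM hκ hG hγo hγκ hr) h2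
  rw [← h6] at h4
  exact ⟨n, hKn, w, hw, h3, h4⟩

end

/-! ### The sum of the measures -/

theorem mul_pow_le (m : ℕ) : (m : ENNReal) * (2⁻¹) ^ (2 * m) ≤ (2⁻¹) ^ m := by
  have h20 : (2 : ENNReal) ≠ 0 := two_ne_zero
  have h21 : (2 : ENNReal) ≠ ⊤ := ENNReal.ofNat_ne_top
  have h1 : (m : ENNReal) ≤ 2 ^ m := by
    exact_mod_cast (Nat.lt_two_pow_self (n := m)).le
  calc (m : ENNReal) * (2⁻¹) ^ (2 * m) ≤ 2 ^ m * (2⁻¹) ^ (2 * m) := by gcongr
    _ = (2 ^ m * (2⁻¹) ^ m) * (2⁻¹) ^ m := by rw [two_mul, pow_add, mul_assoc]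
    _ = (2⁻¹) ^ m := by rw [← mul_pow, ENNReal.mul_inv_cancel h20 h21, one_pow, one_mul]

theorem geo (k : ℕ) : ∑' a : ℕ, (2⁻¹ : ENNReal) ^ (k + 1 + a) = 2⁻¹ ^ k := by
  have h20 : (2 : ENNReal) ≠ 0 := two_ne_zero
  have h21 : (2 : ENNReal) ≠ ⊤ := ENNReal.ofNat_ne_top
  have h1 : ∀ a : ℕ, (2⁻¹ : ENNReal) ^ (k + 1 + a) = 2⁻¹ ^ (k + 1) * 2⁻¹ ^ a := fun a => pow_add _ _ _
  simp_rw [h1]
  rw [ENNReal.tsum_mul_left, ENNReal.tsum_geometric, ENNReal.one_sub_inv_two, inv_inv, pow_succ,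
    mul_assoc, ENNReal.inv_mul_cancel h20 h21, mul_one]

/-- The sum of the measures of the basic open sets. -/
theorem sum_le (k : ℕ) (f : ℕ → ℕ → ℕ → Finset ℕ) {S : Set (ℕ × Finset ℕ)}
    (hS : ∀ c ∈ S, ∃ n ≥ k + 2, ∃ m ≥ n, ∃ i < m, c = (2 * m, f n m i)) :
    ∑' c : S, (2⁻¹ : ENNReal) ^ c.1.1 ≤ 2⁻¹ ^ k := by
  let F : (Σ a : ℕ, Σ b : ℕ, Fin (k + 2 + a + b)) → ℕ × Finset ℕ := fun x =>
    (2 * (k + 2 + x.1 + x.2.1), f (k + 2 + x.1) (k + 2 + x.1 + x.2.1) x.2.2.1)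
  have h1 : S ⊆ Set.range F := by
    intro c hc
    obtain ⟨n, hn, m, hm, i, hi, rfl⟩ := hS c hc
    obtain ⟨a, rfl⟩ := Nat.exists_eq_add_of_le hn
    obtain ⟨b, rfl⟩ := Nat.exists_eq_add_of_le hm
    exact ⟨⟨a, b, ⟨i, hi⟩⟩, rfl⟩
  calc ∑' c : S, (2⁻¹ : ENNReal) ^ c.1.1
      ≤ ∑' c : Set.range F, (2⁻¹ : ENNReal) ^ c.1.1 :=
        ENNReal.tsum_mono_subtype (fun c : ℕ × Finset ℕ => (2⁻¹ : ENNReal) ^ c.1) h1
    _ ≤ ∑' x : (Σ a : ℕ, Σ b : ℕ, Fin (k + 2 + a + b)),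
        (2⁻¹ : ENNReal) ^ (2 * (k + 2 + x.1 + x.2.1)) := by
        exact ENNReal.tsum_le_tsum_comp_of_surjective (Set.rangeFactorization_surjective (f := F))
          fun c : Set.range F => (2⁻¹ : ENNReal) ^ c.1.1
    _ = ∑' a : ℕ, ∑' b : ℕ, ∑' i : Fin (k + 2 + a + b),
        (2⁻¹ : ENNReal) ^ (2 * (k + 2 + a + b)) := by
        rw [ENNReal.tsum_sigma']
        refine tsum_congr fun a => ?_
        rw [ENNReal.tsum_sigma']
    _ ≤ ∑' a : ℕ, ∑' b : ℕ, (2⁻¹ : ENNReal) ^ (k + 2 + a + b) := by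
        refine ENNReal.tsum_le_tsum fun a => ENNReal.tsum_le_tsum fun b => ?_
        rw [tsum_fintype, Finset.sum_const, Finset.card_univ, Fintype.card_fin, nsmul_eq_mul]
        exact mul_pow_le _
    _ = ∑' a : ℕ, (2⁻¹ : ENNReal) ^ (k + 1 + a) := by
        refine tsum_congr fun a => ?_
        have h2 : ∀ b : ℕ, k + 2 + a + b = (k + 1 + a) + 1 + b := fun b => by omega
        simp_rw [h2]
        exact geo _
    _ = 2⁻¹ ^ k := geo k

section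

variable {M : Set ZFSet.{0}} (hL : IsLA ∅ M) {κ : ZFSet.{0}} (hk : IsAleph1 M κ)
  {G : ZFSet.{0}} (hG : IsGeneric M (PP M hec κ) (LL M hec κ) G)
  {J : ZFSet.{0}} (hJM : J ∈ M) (hJ : IsInj (ZFSet.prod ZFSet.omega ZFSet.omega) ZFSet.omega J)

include hL hk hG hJM hJ

/-- The closed null sets that are given by a bound `x` and a real of the ground model have a union
of measure zero. -/
theorem exists_cov {x : ℕ → ℕ} (hx : fnc x ∈ ext M G) :
    NullIn (ext M G) {y | ∃ u ∈ M, Bdc dbl J (fnc x) (stc y) u} := by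
  classical
  have hM := hL.zf
  have hg := hL.gc
  have ho := hM.infinity
  have hπ := pOk_hec hM
  have hE : Ct M hec.E := ct_hec hM
  have hκM := hk.1
  have hκ := hk.2.1
  have hW := zf_G hM hπ hg hκM hκ hG
  have hMW := M_sub_G hM hπ hκM hκ hG
  obtain ⟨γ, hγ, hxγ⟩ := exists_stage hM hg hk hπ hE pAx_hec hG hx
  have hγM := hM.trans _ hκM _ hγ
  have hγo := hκ.mem hγ
  have hγκ := hκ.subset_of_mem hγ
  obtain ⟨s, hs, hsx⟩ := exists_Nm hM hπ hκM hκ hG hγM hγo hγκ hxγ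
  obtain ⟨d, hdN, hd⟩ := exists_hec hL hk hG hγ
  obtain ⟨I, hIM, hI⟩ : Ct M (ZFSet.prod ZFSet.omega (Fw M)) :=
    ct_prod hM ho (Fw_mem hM) (ct_omega hM) (ct_Fw hM hg)
  -- the sets
  set w : ℕ → ZFSet.{0} := fun n => if h : ∃ w ∈ Fw M, Cod I w (nat (d n)) then h.choose else ∅
    with hwdef
  have hwu : ∀ n, ∀ w' ∈ Fw M, Cod I w' (nat (d n)) → w n = w' := by
    intro n w' hw' h
    have h1 : ∃ w ∈ Fw M, Cod I w (nat (d n)) := ⟨w', hw', h⟩
    have h2 : w n = h1.choose := by rw [hwdef]; exact dif_pos h1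
    rw [h2]
    obtain ⟨h3, a, ha, h4⟩ := h1.choose_spec
    obtain ⟨b, hb, h5⟩ := h
    exact (ZFSet.pair_inj.1 (hI.2 _ _ _ h4 h5)).2
  set f : ℕ → ℕ → ℕ → Finset ℕ := fun n m i =>
    (Finset.range (2 * m)).filter fun j => ap J (pair (nat i) (nat j)) ∈ w n with hf
  intro k
  set S : Set (ℕ × Finset ℕ) := {c | ∃ n ≥ k + 2, (∃ w ∈ Fw M, Cod I w (nat (d n))) ∧
    ∃ m ≥ n, ∃ i < m, c = (2 * m, f n m i)} with hS
  have hfs : ∀ n m i, stc {j | j ∈ f n m i} =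
      ZFSet.sep (fun j => ap J (pair (nat i) j) ∈ w n) (ap dbl (nat m)) := by
    intro n m i
    ext z
    rw [mem_stc, ZFSet.mem_sep, ap_dbl]
    constructor
    · rintro ⟨j, hj, rfl⟩
      have hj' : j ∈ f n m i := hj
      obtain ⟨h1, h2⟩ := Finset.mem_filter.1 hj'
      exact ⟨nat_mem_iff.2 (Finset.mem_range.1 h1), h2⟩
    · rintro ⟨h1, h2⟩
      obtain ⟨j, hj, rfl⟩ := mem_nat.1 h1
      exact ⟨j, Finset.mem_filter.2 ⟨Finset.mem_range.2 hj, h2⟩, rfl⟩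
  refine ⟨S, ?_, sum_le k f ?_, ?_⟩
  · -- the code is in the extension
    have h1 : cyc S = ZFSet.sep (fun z => ∃ n ∈ ZFSet.omega, nat (k + 2) ⊆ n ∧ ∃ w' ∈ Fw M,
        Cod I w' (ap (fnc d) n) ∧ ∃ m ∈ ZFSet.omega, n ⊆ m ∧ ∃ i ∈ m, fs z = ap dbl m ∧
          sn z = ZFSet.sep (fun j => ap J (pair i j) ∈ w') (ap dbl m))
        (ZFSet.prod ZFSet.omega (Fw M)) := by
      ext z
      rw [mem_cyc, ZFSet.mem_sep]
      constructor
      · rintro ⟨c, ⟨n, hn, ⟨w', hw', h2⟩, m, hm, i, hi, rfl⟩, rfl⟩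
        refine ⟨ZFSet.pair_mem_prod.2 ⟨nat_mem_omega _, ?_⟩, nat n, nat_mem_omega n,
          nat_sub.2 hn, w', hw', by rwa [ap_fnc], nat m, nat_mem_omega m, nat_sub.2 hm, nat i,
          nat_mem_iff.2 hi, ?_, ?_⟩
        · show stc {j | j ∈ f n m i} ∈ Fw M
          rw [hfs]
          refine (mem_Fw hM).2 ⟨2 * m, fun z hz => ?_⟩
          have h3 := (ZFSet.mem_sep.1 hz).1
          rwa [ap_dbl] at h3
        · rw [fs_pair, ap_dbl]
        · rw [sn_pair]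
          show stc {j | j ∈ f n m i} = _
          rw [hfs, hwu n w' hw' h2]
      · rintro ⟨h2, n, hn, h3, w', hw', h4, m, hm, h5, i, hi, h6, h7⟩
        obtain ⟨l, hl, t, ht, rfl⟩ := ZFSet.mem_prod.1 h2
        obtain ⟨n, rfl⟩ := mem_omega_iff.1 hn
        obtain ⟨m, rfl⟩ := mem_omega_iff.1 hm
        obtain ⟨i, hi', rfl⟩ := mem_nat.1 hi
        rw [fs_pair, ap_dbl] at h6
        rw [sn_pair] at h7
        rw [ap_fnc] at h4
        refine ⟨(2 * m, f n m i), ⟨n, nat_sub.1 h3, ⟨w', hw', h4⟩, m, nat_sub.1 h5, i, hi', rfl⟩, ?_⟩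
        rw [h6, h7]
        show _ = pair (nat (2 * m)) (stc {j | j ∈ f n m i})
        rw [hfs, hwu n w' hw' h4]
    rw [h1]
    have hB := hW.base
    have hoW := hW.infinity
    have hFW := hMW (Fw_mem hM)
    have hdW := dbl_mem hW
    have hJW := hMW hJM
    have hIW := hMW hIM
    have hKW := hW.nat_mem (k + 2)
    refine hW.sep_mem ?_ (hW.prod_mem hoW hFW)
    unfold Cod
    have hsep : ∀ {r : ℕ} {i w' m : (Fin r → ZFSet.{0}) → ZFSet.{0}}, DfnF (ext M G) (ext M G) i →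
        DfnF (ext M G) (ext M G) w' → DfnF (ext M G) (ext M G) m →
        DfnF (ext M G) (ext M G) fun v => ZFSet.sep (fun j => ap J (pair (i v) j) ∈ w' v)
          (ap dbl (m v)) := by
      intro r i w' m hi hw' hm
      refine hW.sep' (Q := fun j v => ap J (pair (i v) j) ∈ w' v)
        (hW.ap' (DfnF.const hdW) hm) ?_
      exact Dfn.mem (hW.ap' (DfnF.const hJW) (hB.pair' hi.tail (DfnF.proj 0))) hw'.tail
    (repeat' first
      | assumption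
      | exact DfnF.proj _
      | exact DfnF.const (by assumption)
      | apply hsep | apply hB.subset' | apply Dfn.and | apply hB.bex
      | apply Dfn.mem | apply Dfn.eq | apply hB.pair' | apply hW.ap' | apply hW.fs'
      | apply hW.sn')
  · rintro c ⟨n, hn, -, m, hm, i, hi, rfl⟩
    exact ⟨n, hn, m, hm, i, hi, rfl⟩
  · rintro y ⟨u, huM, hyu⟩ hyN
    obtain ⟨n, hn, w', hw', h1, h2⟩ := exists_code hL hk hG hJM hJ hIM hI hγ hs hd huM (k + 2)
    rw [hsx] at h2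
    obtain ⟨m, hm, h3, h4, i, hi, h5⟩ := hyu (nat n) (nat_mem_omega n)
    rw [ap_fnc] at h4
    obtain ⟨m, rfl⟩ := mem_omega_iff.1 hm
    obtain ⟨i, hi', rfl⟩ := mem_nat.1 hi
    refine ⟨(2 * m, f n m i), ⟨n, hn, ⟨w', hw', h1⟩, m, nat_sub.1 h3, i, hi', rfl⟩, fun j hj => ?_⟩
    have h6 := h5 (nat j) (by rw [ap_dbl]; exact nat_mem_iff.2 hj)
    have h7 := h2 (nat m) (nat_mem_omega m) h4 (nat i) hi (nat j)
      (by rw [ap_dbl]; exact nat_mem_iff.2 hj)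
    rw [nat_mem_stc, ← h7] at h6
    rw [h6]
    show _ ↔ j ∈ f n m i
    rw [hf]
    simp only [Finset.mem_filter, Finset.mem_range]
    rw [hwu n w' hw' h1]
    exact ⟨fun h => ⟨hj, h⟩, fun h => h.2⟩

end

end Pool.Agent.H635.RF
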