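import Pool.Agent.H635.RF.Lu
import Pool.Graph.R_seed8.W868.Gch
import Pool.Graph.R_seed8.Y588.Asg

/-!
# A scale in the ground model
-/

set_option autoImplicit false
set_option linter.unreachableTactic false
set_option linter.unusedTactic false
set_option linter.unusedSectionVars false
set_option linter.unusedVariables false

namespace Pool.Agent.H635.RF

open Pool.Agent.W868 Pool.Agent.W868.GM Pool.Agent.Y588
open Pool.Agent.H635.RB (Fi dfn_fi fin_mem nat_mem_iff mem_nat nat_sub ap_unique)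
open ZFSet (pair)

theorem fnX_fnc {M : Set ZFSet.{0}} {s : ZFSet.{0}} (h : s ∈ fnX M ZFSet.omega) :
    ∃ x : ℕ → ℕ, s = fnc x := by
  obtain ⟨-, hs⟩ := mem_fnX.1 h
  have h1 : ∀ i : ℕ, ∃ k : ℕ, pair (nat i) (nat k) ∈ s := by
    intro i
    obtain ⟨b, hb, h2⟩ := fun_exists hs (nat_mem_omega i)
    obtain ⟨k, rfl⟩ := mem_omega_iff.1 hb
    exact ⟨k, h2⟩
  choose x hx using h1
  refine ⟨x, ?_⟩
  ext z
  rw [mem_fnc]
  constructor
  · intro hz
    obtain ⟨a, ha, b, hb, rfl⟩ := ZFSet.mem_prod.1 (hs.1 hz)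
    obtain ⟨i, rfl⟩ := mem_omega_iff.1 ha
    exact ⟨i, by rw [fun_unique hs hz (hx i)]⟩
  · rintro ⟨i, rfl⟩
    exact hx i

theorem fnc_fnX {M : Set ZFSet.{0}} {x : ℕ → ℕ} (h : fnc x ∈ M) : fnc x ∈ fnX M ZFSet.omega := by
  refine mem_fnX.2 ⟨h, fun z hz => ?_, fun z hz => ?_⟩
  · obtain ⟨i, rfl⟩ := mem_fnc.1 hz
    exact ZFSet.pair_mem_prod.2 ⟨nat_mem_omega _, nat_mem_omega _⟩
  · obtain ⟨i, rfl⟩ := mem_omega_iff.1 hz
    exact ⟨nat (x i), pair_mem_fnc'.2 rfl, fun y hy => pair_mem_fnc'.1 hy⟩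

/-- The function `h` is almost everywhere at most `g`. -/
def Dl (h g : ZFSet.{0}) : Prop :=
  ∃ n₀ ∈ ZFSet.omega, ∀ n ∈ ZFSet.omega, n₀ ⊆ n → ap h n ⊆ ap g n

theorem dfn_Dl {M : Set ZFSet.{0}} (hM : IsZF M) {n : ℕ}
    {F G : (Fin n → ZFSet.{0}) → ZFSet.{0}} (hF : DfnF M M F) (hG : DfnF M M G) :
    Dfn M M fun w => Dl (F w) (G w) := by
  have hB := hM.base
  have ho := hM.infinity
  refine Dfn.comp2 (Q := Dl) ?_ hF hG
  unfold Dl
  (repeat' first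
      | assumption
      | exact DfnF.proj _
      | exact DfnF.const (by assumption)
      | apply hB.subset' | apply Dfn.and | apply hB.bex | apply hB.ball | apply Dfn.imp
      | apply hM.ap')

section

variable {M : Set ZFSet.{0}} (hM : IsZF M)

include hM

/-- A countable set of functions is dominated. -/
theorem exists_dom {D : ZFSet.{0}} (hD : D ∈ M) (hDf : ∀ g ∈ D, g ∈ fnX M ZFSet.omega)
    (hc : Ct M D) : ∃ f ∈ fnX M ZFSet.omega, ∀ g ∈ D, ∃ n₀ ∈ ZFSet.omega,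
      ∀ n ∈ ZFSet.omega, n₀ ⊆ n → ap g n ∈ ap f n := by
  classical
  have hB := hM.base
  have ho := hM.infinity
  obtain ⟨j, hjM, hj⟩ := hc
  have hjn : ∀ g ∈ D, ∃ k : ℕ, pair g (nat k) ∈ j := by
    intro g hg
    obtain ⟨b, hb, h⟩ := fun_exists hj.1 hg
    obtain ⟨k, rfl⟩ := mem_omega_iff.1 hb
    exact ⟨k, h⟩
  choose! c hc using hjn
  have hxn : ∀ g ∈ D, ∃ x : ℕ → ℕ, g = fnc x := fun g hg => fnX_fnc (hDf g hg)
  choose! x hx using hxn
  have hcinj : ∀ g ∈ D, ∀ g' ∈ D, c g = c g' → g = g' := by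
    intro g hg g' hg' h
    have h2 := hc g' hg'
    rw [← h] at h2
    exact hj.2 _ _ _ (hc g hg) h2
  have hbd : ∀ m : ℕ, ∃ k : ℕ, ∀ g ∈ D, c g < m → x g m < k := by
    intro m
    have h1 : {g | g ∈ D ∧ c g < m}.Finite := by
      refine Set.Finite.of_finite_image (f := c) ?_ ?_
      · refine Set.Finite.subset (Set.finite_Iio m) ?_
        rintro _ ⟨g, ⟨-, h⟩, rfl⟩
        exact h
      · rintro g ⟨hg, -⟩ g' ⟨hg', -⟩ h
        exact hcinj g hg g' hg' h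
    obtain ⟨b, hb⟩ := (h1.image fun g => x g m).bddAbove
    exact ⟨b + 1, fun g hg h => Nat.lt_succ_of_le (hb ⟨g, ⟨hg, h⟩, rfl⟩)⟩
  set y : ℕ → ℕ := fun m => Nat.find (hbd m) with hy
  have hyM : fnc y ∈ M := by
    refine fnc_mem_of hM (Q := fun m k => (∀ g ∈ D, ap j g ∈ m → ap g m ∈ k) ∧
      ∀ l ∈ k, ∃ g ∈ D, ap j g ∈ m ∧ ap g m ∉ l) ?_ ?_
    · (repeat' first
        | assumption
        | exact DfnF.proj _
        | exact DfnF.const (by assumption)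
        | apply hB.subset' | apply Dfn.and | apply Dfn.not | apply hB.bex | apply hB.ball
        | apply Dfn.imp | apply Dfn.mem | apply hM.ap')
    · intro m k
      have e1 : ∀ g ∈ D, ap j g = nat (c g) := fun g hg => ap_func hj.1 (hc g hg)
      have e2 : ∀ g ∈ D, ap g (nat m) = nat (x g m) := by
        intro g hg
        have h1 : ap (fnc (x g)) (nat m) = nat (x g m) := ap_fnc _ _
        rwa [← hx g hg] at h1
      constructor
      · rintro ⟨h1, h2⟩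
        symm
        refine (Nat.find_eq_iff (hbd m)).2 ⟨fun g hg h3 => ?_, fun l hl h3 => ?_⟩
        · have h4 := h1 g hg (by rw [e1 g hg]; exact nat_mem_iff.2 h3)
          rwa [e2 g hg, nat_mem_iff] at h4
        · obtain ⟨g, hg, h4, h5⟩ := h2 (nat l) (nat_mem_iff.2 hl)
          rw [e1 g hg, nat_mem_iff] at h4
          rw [e2 g hg, nat_mem_iff] at h5
          exact h5 (h3 g hg h4)
      · rintro rfl
        refine ⟨fun g hg h3 => ?_, fun l hl => ?_⟩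
        · rw [e1 g hg, nat_mem_iff] at h3
          rw [e2 g hg, nat_mem_iff]
          exact Nat.find_spec (hbd m) g hg h3
        · obtain ⟨l', hl', rfl⟩ := mem_nat.1 hl
          have h4 := Nat.find_min (hbd m) hl'
          push Not at h4
          obtain ⟨g, hg, h5, h6⟩ := h4
          refine ⟨g, hg, ?_, ?_⟩
          · rw [e1 g hg, nat_mem_iff]
            exact h5
          · rw [e2 g hg, nat_mem_iff]
            omega
  refine ⟨fnc y, fnc_fnX hyM, fun g hg => ⟨nat (c g + 1), nat_mem_omega _, fun n hn h => ?_⟩⟩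
  obtain ⟨n, rfl⟩ := mem_omega_iff.1 hn
  rw [nat_sub] at h
  have h1 : ap (fnc (x g)) (nat n) = nat (x g n) := ap_fnc _ _
  rw [← hx g hg] at h1
  rw [h1, ap_fnc, nat_mem_iff]
  exact Nat.find_spec (hbd n) g hg (by omega)

end

section

variable {M : Set ZFSet.{0}} (hL : IsLA ∅ M) {κ : ZFSet.{0}} (hk : IsAleph1 M κ)

include hL hk

/-- A scale. -/
theorem exists_scale : ∃ f : ZFSet.{0} → ZFSet.{0},
    (DfnF M M fun w : Fin 1 → ZFSet.{0} => f (w 0)) ∧ (∀ ξ ∈ κ, f ξ ∈ fnX M ZFSet.omega) ∧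
    ∀ g ∈ fnX M ZFSet.omega, Ct M (ZFSet.sep (fun ξ => Dl (f ξ) g) κ) := by
  classical
  have hM := hL.zf
  have hg := hL.gc
  have hB := hM.base
  have ho := hM.infinity
  have hκM := hk.1
  have hκ := hk.2.1
  have hX := fnX_mem hM ho
  obtain ⟨j, hjM, hj⟩ : Ct M (ZFSet.prod ZFSet.omega ZFSet.omega) :=
    ct_prod hM ho ho (ct_omega hM) (ct_omega hM)
  have hooM : ZFSet.prod ZFSet.omega ZFSet.omega ∈ M := hM.prod_mem ho ho
  -- decoding
  set dc : ZFSet.{0} → ZFSet.{0} := fun y =>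
    ZFSet.sep (fun u => ap j u ∈ y) (ZFSet.prod ZFSet.omega ZFSet.omega) with hdc
  have hdcd : ∀ {n : ℕ} {F : (Fin n → ZFSet.{0}) → ZFSet.{0}}, DfnF M M F →
      DfnF M M fun w => dc (F w) := by
    intro n F hF
    refine hM.sep' (Q := fun u w => ap j u ∈ F w) (DfnF.const hooM) ?_
    exact Dfn.mem (hM.ap' (DfnF.const hjM) (DfnF.proj 0)) hF.tail
  have hLv : ∀ {n : ℕ} {F : (Fin n → ZFSet.{0}) → ZFSet.{0}}, DfnF M M F →
      DfnF M M fun w => Lv ∅ (F w) := fun hF =>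
    DfnF.comp1 (f := Lv ∅) (dfn_Lv hM hM.empty_mem) hF
  -- the functions in the level
  set D : ZFSet.{0} → ZFSet.{0} := fun ξ =>
    ZFSet.sep (fun g => g ∈ fnX M ZFSet.omega) (im dc (Lv ∅ ξ)) with hD
  have hDd : ∀ {n : ℕ} {F : (Fin n → ZFSet.{0}) → ZFSet.{0}}, DfnF M M F →
      DfnF M M fun w => D (F w) := by
    intro n F hF
    refine hM.sep' (Q := fun g w => g ∈ fnX M ZFSet.omega) (hM.im' (h := fun y _ => dc y)
      (hLv hF) (hdcd (DfnF.proj 0))) ?_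
    exact Dfn.mem (DfnF.proj 0) (DfnF.const hX)
  have hDM : ∀ ξ ∈ M, D ξ ∈ M := fun ξ hξ =>
    (hDd (DfnF.proj (0 : Fin 1))).1 (fun _ => ξ) fun _ => hξ
  have hDc : ∀ ξ ∈ κ, Ct M (D ξ) := by
    intro ξ hξ
    have hξM := hM.trans _ hκM _ hξ
    have h1 : Inj M (Lv ∅ ξ) ZFSet.omega := Lv_small hL ho isOrdinal_omega (fun _ h => h) hξM
      (hκ.mem hξ) (hk.2.2.2 ξ hξ)
    have hLM : Lv ∅ ξ ∈ M := Lv_mem_M hM hM.empty_mem hξM
    have h2 : Ct M (im dc (Lv ∅ ξ)) :=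
      Inj.image hM hLM ho isOrdinal_omega h1 (hdcd (DfnF.proj 0))
    exact Ct.sub hM (hDM ξ hξM) (hM.im_mem hLM (hdcd (DfnF.proj 0)))
      (fun y hy => (ZFSet.mem_sep.1 hy).1) h2
  set f : ZFSet.{0} → ZFSet.{0} := fun ξ => chs M (eo M ∅ hL.zf.trans) fun f =>
    f ∈ fnX M ZFSet.omega ∧ ∀ g ∈ D ξ, ∃ n₀ ∈ ZFSet.omega,
      ∀ n ∈ ZFSet.omega, n₀ ⊆ n → ap g n ∈ ap f n with hf
  have hfs : ∀ ξ ∈ κ, f ξ ∈ fnX M ZFSet.omega ∧ ∀ g ∈ D ξ, ∃ n₀ ∈ ZFSet.omega,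
      ∀ n ∈ ZFSet.omega, n₀ ⊆ n → ap g n ∈ ap (f ξ) n := by
    intro ξ hξ
    have hξM := hM.trans _ hκM _ hξ
    obtain ⟨f₀, h1, h2⟩ := exists_dom hM (hDM ξ hξM) (fun g hg => (ZFSet.mem_sep.1 hg).2)
      (hDc ξ hξ)
    exact (chs_spec (C := M) (e := eo M ∅ hL.zf.trans) (P := fun f => f ∈ fnX M ZFSet.omega ∧
      ∀ g ∈ D ξ, ∃ n₀ ∈ ZFSet.omega, ∀ n ∈ ZFSet.omega, n₀ ⊆ n → ap g n ∈ ap f n)
      ⟨f₀, (mem_fnX.1 h1).1, h1, h2⟩).2
  refine ⟨f, ?_, fun ξ hξ => (hfs ξ hξ).1, fun g hg' => ?_⟩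
  · refine hM.chs' hg (Q := fun f w => f ∈ fnX M ZFSet.omega ∧ ∀ g ∈ D (w 0),
      ∃ n₀ ∈ ZFSet.omega, ∀ n ∈ ZFSet.omega, n₀ ⊆ n → ap g n ∈ ap f n) ?_
    (repeat' first
        | assumption
        | exact DfnF.proj _
        | exact DfnF.const (by assumption)
        | apply hB.subset' | apply Dfn.and | apply hB.bex | apply hB.ball | apply Dfn.imp
        | apply Dfn.mem | apply hM.ap' | apply hDd)
  · -- the level of the code of `g`
    obtain ⟨x, rfl⟩ := fnX_fnc hg'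
    have hgM := (mem_fnX.1 hg').1
    set y : ZFSet.{0} := im (fun u => ap j u) (fnc x) with hy
    have hyM : y ∈ M := hM.im_mem hgM (hM.ap' (DfnF.const hjM) (DfnF.proj 0))
    have hju : ∀ u ∈ ZFSet.prod ZFSet.omega ZFSet.omega, ap j u ∈ ZFSet.omega ∧
        pair u (ap j u) ∈ j := by
      intro u hu
      obtain ⟨b, hb, h1⟩ := fun_exists hj.1 hu
      rw [ap_func hj.1 h1]
      exact ⟨hb, h1⟩
    have hxs : ∀ u ∈ fnc x, u ∈ ZFSet.prod ZFSet.omega ZFSet.omega := by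
      intro u hu
      obtain ⟨i, rfl⟩ := mem_fnc.1 hu
      exact ZFSet.pair_mem_prod.2 ⟨nat_mem_omega _, nat_mem_omega _⟩
    have hyo : y ⊆ ZFSet.omega := by
      intro z hz
      obtain ⟨u, hu, rfl⟩ := mem_im.1 hz
      exact (hju u (hxs u hu)).1
    have hdcy : dc y = fnc x := by
      ext u
      rw [hdc, ZFSet.mem_sep, mem_im]
      constructor
      · rintro ⟨h1, v, hv, h2⟩
        have h3 := (hju u h1).2
        have h4 := (hju v (hxs v hv)).2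
        rw [h2] at h3
        rwa [hj.2 _ _ _ h3 h4]
      · intro h1
        exact ⟨hxs u h1, u, h1, rfl⟩
    obtain ⟨ξ₀, h1, h2, h3, h4⟩ := sub_level hL ho isOrdinal_omega (fun _ h => h) (T := ZFSet.omega)
      ho (fun x hx y hy => isOrdinal_omega.mem_trans hy hx) (nat_mem_omega 0) (ct_omega hM)
      hyM hyo
    have h5 : ξ₀ ∈ κ := by
      rcases h2.mem_trichotomous hκ with h | h | h
      · exact h
      · exact absurd (h ▸ h3) hk.2.2.1
      · exact absurd (Ct.sub hM hκM h1 (h2.subset_of_mem h) h3) hk.2.2.1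
    have hsM : ZFSet.sep (fun ξ => Dl (f ξ) (fnc x)) κ ∈ M := by
      refine hM.sep_mem (Q := fun ξ => Dl (f ξ) (fnc x)) ?_ hκM
      refine dfn_Dl hM ?_ (DfnF.const hgM)
      refine hM.chs' hg (Q := fun f w => f ∈ fnX M ZFSet.omega ∧ ∀ g ∈ D (w 0),
        ∃ n₀ ∈ ZFSet.omega, ∀ n ∈ ZFSet.omega, n₀ ⊆ n → ap g n ∈ ap f n) ?_
      (repeat' first
        | assumption
        | exact DfnF.proj _
        | exact DfnF.const (by assumption)
        | apply hB.subset' | apply Dfn.and | apply hB.bex | apply hB.ball | apply Dfn.imp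
        | apply Dfn.mem | apply hM.ap' | apply hDd)
    refine Ct.sub hM hsM h1 (fun ξ hξ => ?_) h3
    obtain ⟨h6, n₀, hn₀, h7⟩ := ZFSet.mem_sep.1 hξ
    by_contra h8
    have hξo := hκ.mem h6
    have h9 : ξ₀ ⊆ ξ := (hξo.notMem_iff_subset h2).1 h8
    have h10 : fnc x ∈ D ξ := by
      refine ZFSet.mem_sep.2 ⟨mem_im.2 ⟨y, Lv_mono h9 h4, hdcy.symm⟩, hg'⟩
    obtain ⟨n₁, hn₁, h11⟩ := (hfs ξ h6).2 _ h10
    obtain ⟨a, rfl⟩ := mem_omega_iff.1 hn₀
    obtain ⟨b, rfl⟩ := mem_omega_iff.1 hn₁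
    have h12 := h7 (nat (max a b)) (nat_mem_omega _) (nat_sub.2 (le_max_left _ _))
    have h13 := h11 (nat (max a b)) (nat_mem_omega _) (nat_sub.2 (le_max_right _ _))
    exact ZFSet.mem_irrefl _ (h12 h13)

end

end Pool.Agent.H635.RF
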