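import Pool.Agent.H635.RF.Lu
import Pool.Agent.H635.RF.Sc

/-!
# The iteration adds no dominating function
-/

set_option autoImplicit false
set_option linter.unreachableTactic false
set_option linter.unusedTactic false
set_option linter.unusedSectionVars false
set_option linter.unusedVariables false

namespace Pool.Agent.H635.RF

open Pool.Agent.W868 Pool.Agent.W868.GM Pool.Agent.Y588
open Pool.Agent.H635.RB (Fi dfn_fi fin_mem nat_mem_iff mem_nat nat_sub ap_unique)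
open ZFSet (pair)

section

variable {M : Set ZFSet.{0}} (hM : IsZF M)

include hM

theorem dfn_Ct {n : ℕ} {F : (Fin n → ZFSet.{0}) → ZFSet.{0}} (hF : DfnF M M F) :
    Dfn M M fun w => Ct M (F w) :=
  Dfn.ex (Q := fun f w => IsInj (F w) ZFSet.omega f)
    (hM.base.isInj' hF.tail (DfnF.const hM.infinity) (DfnF.proj 0))

variable {e : ZFSet.{0} → ZFSet.{0}} (hg : GC M e)

include hg

/-- An uncountable set of indices with unbounded values at some place. -/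
theorem exists_unb {κ : ZFSet.{0}} (hκM : κ ∈ M) {f : ZFSet.{0} → ZFSet.{0}}
    (hf : DfnF M M fun w : Fin 1 → ZFSet.{0} => f (w 0))
    (hfX : ∀ ξ ∈ κ, f ξ ∈ fnX M ZFSet.omega)
    (hsc : ∀ g ∈ fnX M ZFSet.omega, Ct M (ZFSet.sep (fun ξ => Dl (f ξ) g) κ))
    {A : ZFSet.{0}} (hA : A ∈ M) (hAκ : A ⊆ κ) (hunc : ¬ Ct M A) (m₀ : ℕ) :
    ∃ n : ℕ, m₀ ≤ n ∧ ∀ j : ℕ, ¬ Ct M (ZFSet.sep (fun ξ => nat j ⊆ ap (f ξ) (nat n)) A) := by
  classical
  have hB := hM.base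
  have ho := hM.infinity
  by_contra hcon
  push Not at hcon
  have hf' : ∀ {k : ℕ} {H : (Fin k → ZFSet.{0}) → ZFSet.{0}}, DfnF M M H →
      DfnF M M fun w => f (H w) := fun h => DfnF.comp1 hf h
  -- the set of the indices with large values
  set S : ZFSet.{0} → ZFSet.{0} → ZFSet.{0} := fun n j =>
    ZFSet.sep (fun ξ => j ⊆ ap (f ξ) n) A with hS
  have hSd : ∀ {k : ℕ} {X Y : (Fin k → ZFSet.{0}) → ZFSet.{0}}, DfnF M M X → DfnF M M Y →
      DfnF M M fun w => S (X w) (Y w) := by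
    intro k X Y hX hY
    refine hM.sep' (Q := fun ξ w => Y w ⊆ ap (f ξ) (X w)) (DfnF.const hA) ?_
    exact hB.subset' hY.tail (hM.ap' (hf' (DfnF.proj 0)) hX.tail)
  have hcn : ∀ n : ℕ, ∃ j : ℕ, m₀ ≤ n → Ct M (S (nat n) (nat j)) := by
    intro n
    by_cases h : m₀ ≤ n
    · obtain ⟨j, hj⟩ := hcon n h
      exact ⟨j, fun _ => hj⟩
    · exact ⟨0, fun h' => absurd h' h⟩
  set y : ℕ → ℕ := fun n => Nat.find (hcn n) with hy
  have hyM : fnc y ∈ M := by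
    refine fnc_mem_of hM (Q := fun n k => (nat m₀ ⊆ n → Ct M (S n k)) ∧
      ∀ l ∈ k, ¬ (nat m₀ ⊆ n → Ct M (S n l))) ?_ ?_
    · refine Dfn.and ?_ ?_
      · exact Dfn.imp (hB.subset' (DfnF.const (hM.nat_mem _)) (DfnF.proj 0))
          (dfn_Ct hM (hSd (DfnF.proj 0) (DfnF.proj 1)))
      · refine hB.ball (Q := fun l w => ¬ (nat m₀ ⊆ w 0 → Ct M (S (w 0) l))) (DfnF.proj 1) ?_
        exact (Dfn.imp (hB.subset' (DfnF.const (hM.nat_mem _)) (DfnF.proj 1))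
          (dfn_Ct hM (hSd (DfnF.proj 1) (DfnF.proj 0)))).not
    · intro n k
      rw [nat_sub]
      constructor
      · rintro ⟨h1, h2⟩
        symm
        refine (Nat.find_eq_iff (hcn n)).2 ⟨h1, fun l hl h3 => ?_⟩
        exact h2 (nat l) (nat_mem_iff.2 hl) h3
      · rintro rfl
        refine ⟨Nat.find_spec (hcn n), fun l hl h3 => ?_⟩
        obtain ⟨l', hl', rfl⟩ := mem_nat.1 hl
        exact Nat.find_min (hcn n) hl' h3
  -- the indices with a large value somewhere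
  set T : ZFSet.{0} → ZFSet.{0} := fun n => ZFSet.sep (fun ξ => nat m₀ ⊆ n ∧
    ap (fnc y) n ⊆ ap (f ξ) n) A with hT
  have hTd : ∀ {k : ℕ} {X : (Fin k → ZFSet.{0}) → ZFSet.{0}}, DfnF M M X →
      DfnF M M fun w => T (X w) := by
    intro k X hX
    refine hM.sep' (Q := fun ξ w => nat m₀ ⊆ X w ∧ ap (fnc y) (X w) ⊆ ap (f ξ) (X w))
      (DfnF.const hA) ?_
    exact Dfn.and (hB.subset' (DfnF.const (hM.nat_mem _)) hX.tail)
      (hB.subset' (hM.ap' (DfnF.const hyM) hX.tail) (hM.ap' (hf' (DfnF.proj 0)) hX.tail))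
  have hTM : ∀ n ∈ M, T n ∈ M := fun n hn => (hTd (DfnF.proj (0 : Fin 1))).1 (fun _ => n)
    fun _ => hn
  have hSM : ∀ n ∈ M, ∀ j ∈ M, S n j ∈ M := fun n hn j hj =>
    (hSd (DfnF.const hn) (DfnF.const hj)).1 (fun _ : Fin 1 => n) fun _ => hn
  have hTc : ∀ n ∈ ZFSet.omega, Ct M (T n) := by
    intro n hn
    obtain ⟨n, rfl⟩ := mem_omega_iff.1 hn
    by_cases h : m₀ ≤ n
    · refine Ct.sub hM (hTM _ (hM.nat_mem _)) (hSM _ (hM.nat_mem n) _ (hM.nat_mem (y n)))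
        (fun ξ hξ => ?_) (Nat.find_spec (hcn n) h)
      obtain ⟨h1, -, h2⟩ := ZFSet.mem_sep.1 hξ
      rw [ap_fnc] at h2
      exact ZFSet.mem_sep.2 ⟨h1, h2⟩
    · refine Ct.sub hM (hTM _ (hM.nat_mem _)) hM.empty_mem (fun ξ hξ => ?_)
        (ct_nat hM 0)
      exact absurd (nat_sub.1 (ZFSet.mem_sep.1 hξ).2.1) h
  set B : ZFSet.{0} := ZFSet.sep (fun ξ => ∃ n ∈ ZFSet.omega, ξ ∈ T n) A with hBdef
  have hBM : B ∈ M := by
    refine hM.sep_mem (Q := fun ξ => ∃ n ∈ ZFSet.omega, ξ ∈ T n) ?_ hA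
    refine hB.bex (Q := fun n w => w 0 ∈ T n) (DfnF.const ho) ?_
    exact Dfn.mem (DfnF.proj 1) (hTd (DfnF.proj 0))
  have hBc : Ct M B := by
    refine ct_cover hM hg hBM ho (ct_omega hM) (F := T) (hTd (DfnF.proj 0)) hTc
      fun ξ hξ => ?_
    exact (ZFSet.mem_sep.1 hξ).2
  have hgX : fnc y ∈ fnX M ZFSet.omega := fnc_fnX hyM
  set D : ZFSet.{0} := ZFSet.sep (fun ξ => Dl (f ξ) (fnc y)) κ with hD
  have hDM : D ∈ M := hM.sep_mem (Q := fun ξ => Dl (f ξ) (fnc y))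
    (dfn_Dl hM (hf' (DfnF.proj 0)) (DfnF.const hyM)) hκM
  refine hunc (Ct.sub hM hA (hM.union_mem hBM hDM) (fun ξ hξ => ?_)
    (ct_union hM hg hBM hDM hBc (hsc _ hgX)))
  by_cases h1 : ξ ∈ B
  · exact ZFSet.mem_union.2 (Or.inl h1)
  · refine ZFSet.mem_union.2 (Or.inr (ZFSet.mem_sep.2 ⟨hAκ hξ, nat m₀, nat_mem_omega _,
      fun n hn h2 => ?_⟩))
    obtain ⟨x, hx⟩ := fnX_fnc (hfX ξ (hAκ hξ))
    obtain ⟨n, rfl⟩ := mem_omega_iff.1 hn
    have h3 : ¬ ap (fnc y) (nat n) ⊆ ap (f ξ) (nat n) := fun h3 =>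
      h1 (ZFSet.mem_sep.2 ⟨hξ, nat n, nat_mem_omega _, ZFSet.mem_sep.2 ⟨hξ, h2, h3⟩⟩)
    rw [hx, ap_fnc, ap_fnc] at h3 ⊢
    rw [nat_sub] at h3 ⊢
    omega

end

section

variable {M : Set ZFSet.{0}} (hM : IsZF M) {π : Par} (hπ : POk M π) (hcc : π.c)
  {e : ZFSet.{0} → ZFSet.{0}} (hg : GC M e)

include hM hπ hcc hg

/-- A sequence of conditions with disjoint domains outside the root. -/
theorem exists_fam {κ : ZFSet.{0}} {F : ZFSet.{0} → ZFSet.{0}}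
    (hF : DfnF M M fun w : Fin 1 → ZFSet.{0} => F (w 0)) {A R : ZFSet.{0}}
    (hFP : ∀ ξ ∈ A, F ξ ∈ PP M π κ) (hR : Root M π F A R)
    {S : ZFSet.{0} → ZFSet.{0} → Prop}
    (hS : Dfn M M fun w : Fin 2 → ZFSet.{0} => S (w 0) (w 1))
    (hSc : ∀ j : ℕ, ¬ Ct M (ZFSet.sep (fun ξ => S (nat j) ξ) A)) :
    ∃ p, Fam M π κ p R ∧ ∀ j : ℕ, ∃ ξ ∈ A, S (nat j) ξ ∧ ap p (nat j) = F ξ := by
  classical
  have hB := hM.base
  have ho := hM.infinity
  have hF' : ∀ {k : ℕ} {H : (Fin k → ZFSet.{0}) → ZFSet.{0}}, DfnF M M H →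
      DfnF M M fun w => F (H w) := fun h => DfnF.comp1 hF h
  have hRM := hR.mem
  have hAM := hR.memA
  -- the compatibility of an index with the former ones
  set Q : ZFSet.{0} → ZFSet.{0} → ZFSet.{0} → Prop := fun ξ j g => ξ ∈ A ∧ S j ξ ∧
    ∀ u ∈ g, ∀ z ∈ F ξ, ∀ z' ∈ F (sn u), fs z = fs z' → ∃ w ∈ R, fs w = fs z with hQ
  have hQd : Dfn M M fun w : Fin 3 → ZFSet.{0} => Q (w 0) (w 1) (w 2) := by
    refine Dfn.and ?_ (Dfn.and ?_ ?_)
    · exact Dfn.mem (DfnF.proj 0) (DfnF.const hAM)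
    · exact Dfn.comp2 hS (DfnF.proj 1) (DfnF.proj 0)
    · have hFF : ∀ {k : ℕ} {H : (Fin k → ZFSet.{0}) → ZFSet.{0}}, DfnF M M H →
          DfnF M M fun w => F (H w) := fun h => DfnF.comp1 hF h
      (repeat' first
        | assumption
        | exact DfnF.proj _
        | exact DfnF.const (by assumption)
        | apply hB.ball | apply hB.bex | apply Dfn.imp | apply Dfn.eq | apply hM.fs'
        | apply hM.sn' | apply hFF)
  set En : ZFSet.{0} → ZFSet.{0} := wfF (fun z => z) ZFSet.mem_wf fun j g =>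
    chs M e fun ξ => Q ξ j g with hEn
  have hEd : DfnF M M fun w : Fin 1 → ZFSet.{0} => En (w 0) := by
    refine hM.memrec (G := fun j g => chs M e fun ξ => Q ξ j g) ?_ fun z => wfF_eq _ _ _ z
    refine hM.chs' hg (Q := fun ξ w => Q ξ (w 0) (w 1)) ?_
    exact Dfn.comp3 hQd (DfnF.proj 0) (DfnF.proj 1) (DfnF.proj 2)
  have hEeq : ∀ j, En j = chs M e fun ξ => Q ξ j (gr En j) := fun j => wfF_eq _ _ _ j
  have hMA : ∀ ξ ∈ A, ξ ∈ M := fun ξ hξ => hM.trans _ hAM _ hξ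
  have hEs : ∀ j : ℕ, Q (En (nat j)) (nat j) (gr En (nat j)) := by
    intro j
    induction j using Nat.strong_induction_on with
    | _ j ih =>
    rw [hEeq (nat j)]
    refine (chs_spec (C := M) (e := e) (P := fun ξ => Q ξ (nat j) (gr En (nat j))) ?_).2
    by_contra hcon
    push Not at hcon
    -- the coordinates of the former conditions
    set C : Set ZFSet.{0} := {c | ∃ i < j, ∃ z ∈ F (En (nat i)), c = fs z ∧
      ∀ w ∈ R, fs w ≠ fs z} with hC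
    have hCf : C.Finite := by
      have h1 : (⋃ i ∈ {i : ℕ | i < j}, fs '' {z | z ∈ F (En (nat i))}).Finite := by
        refine Set.Finite.biUnion (Set.finite_lt_nat j) fun i hi => ?_
        exact Set.Finite.image _ (mem_PP.1 (hFP _ (ih i hi).1)).fin
      refine h1.subset ?_
      rintro c ⟨i, hi, z, hz, rfl, -⟩
      exact Set.mem_biUnion (show i ∈ {i : ℕ | i < j} from hi) ⟨z, hz, rfl⟩
    have hCM : ∀ c ∈ C, c ∈ M := by
      rintro c ⟨i, hi, z, hz, rfl, -⟩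
      have h1 := (mem_PP.1 (hFP _ (ih i hi).1)).mem
      exact hM.fs_mem (hM.trans _ h1 _ hz)
    obtain ⟨X, hXM, hXf, hX⟩ := exists_set hM hCf hCM
    set V : ZFSet.{0} → ZFSet.{0} := fun c => ZFSet.sep (fun ξ => ∃ m ∈ ZFSet.omega,
      ∃ e' ∈ π.E, pair c (pair ∅ (pair m e')) ∈ F ξ) A with hV
    have hVd : DfnF M M fun w : Fin 1 → ZFSet.{0} => V (w 0) := by
      refine hM.sep' (Q := fun ξ w => ∃ m ∈ ZFSet.omega, ∃ e' ∈ π.E,
        pair (w 0) (pair ∅ (pair m e')) ∈ F ξ) (DfnF.const hAM) ?_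
      have h0 := hM.empty_mem
      have hEM := hπ.E
      (repeat' first
        | assumption
        | exact DfnF.proj _
        | exact DfnF.const (by assumption)
        | apply hB.bex | apply Dfn.mem | apply hB.pair' | apply hF')
    have hVc : ∀ c ∈ X, Ct M (V c) := by
      intro c hc
      obtain ⟨i, hi, z, hz, rfl, hzR⟩ := (hX c).1 hc
      have h2 := mem_PP.1 (hFP _ (ih i hi).1)
      have h3 : ∃ β t, fs z = pair β t ∧ β ∈ M ∧ t ∈ M := by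
        have h4 := hM.fs_mem (hM.trans _ h2.mem _ hz)
        rcases h2.ats.cases hz with ⟨β, t, m, e', -, -, -, -, rfl⟩ | ⟨β, t, s, -, -, -, rfl⟩
        · rw [fs_sa] at h4 ⊢
          exact ⟨β, t, rfl, hM.of_pair_mem h4⟩
        · rw [fs_pa] at h4 ⊢
          exact ⟨β, t, rfl, hM.of_pair_mem h4⟩
      obtain ⟨β, t, h4, h5, h6⟩ := h3
      rw [h4]
      refine hR.cnt β h5 t h6 fun m e' h7 => ?_
      refine hzR _ h7 ?_
      rw [fs_sa, h4]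
    set Y : ZFSet.{0} := ZFSet.sep (fun ξ => S (nat j) ξ) A with hY
    have hYM : Y ∈ M := hM.sep_mem (Q := fun ξ => S (nat j) ξ)
      (Dfn.comp2 hS (DfnF.const (hM.nat_mem j)) (DfnF.proj 0)) hAM
    refine hSc j (ct_cover hM hg hYM hXM (ct_fin hM hXM hXf) (F := V) hVd hVc fun ξ hξ => ?_)
    obtain ⟨h1, h2⟩ := ZFSet.mem_sep.1 hξ
    have h3 := hcon ξ (hMA ξ h1)
    have h4 : ∃ u ∈ gr En (nat j), ∃ z ∈ F ξ, ∃ z' ∈ F (sn u), fs z = fs z' ∧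
        ∀ w ∈ R, fs w ≠ fs z := by
      by_contra h5
      push Not at h5
      refine h3 ⟨h1, h2, fun u hu z hz z' hz' h6 => ?_⟩
      obtain ⟨w, hw, h7⟩ := h5 u hu z hz z' hz' h6
      exact ⟨w, hw, h7⟩
    obtain ⟨u, hu, z, hz, z', hz', h5, h6⟩ := h4
    obtain ⟨i, hi, rfl⟩ := mem_gr.1 hu
    obtain ⟨i, hij, rfl⟩ := mem_nat.1 hi
    rw [sn_pair] at hz'
    refine ⟨fs z, (hX _).2 ⟨i, hij, z', hz', h5, fun w hw h7 => h6 w hw (h7.trans h5.symm)⟩, ?_⟩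
    refine ZFSet.mem_sep.2 ⟨h1, ?_⟩
    have h7 := mem_PP.1 (hFP ξ h1)
    rcases h7.ats.cases hz with ⟨β, t, m, e', -, -, h8, h9, rfl⟩ | ⟨β, t, s, -, -, -, rfl⟩
    · rw [fs_sa]
      exact ⟨m, h8, e', h9, hz⟩
    · rw [fs_pa]
      have h8 := (sz_iff' h7.ats).1 (h7.sz hcc β t)
      have h9 : 0 < nF (F ξ) β t := by
        unfold nF
        exact (Set.ncard_pos (fin_prom h7.fin β t)).2 ⟨s, hz⟩
      have h10 : 0 < Len (F ξ) β t := lt_of_lt_of_le h9 h8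
      unfold Len at h10
      obtain ⟨m, e', h11⟩ := (Set.ncard_pos (fin_stem h7.fin β t)).1 h10
      have h12 := h7.ats.sa h11
      exact ⟨m, h12.2.2.1, e', h12.2.2.2, h11⟩
  set p : ZFSet.{0} := gr (fun j => F (En j)) ZFSet.omega with hp
  have hpa : ∀ j : ℕ, ap p (nat j) = F (En (nat j)) := fun j => by
    rw [hp, ap_gr (nat_mem_omega j)]
  have hdis : ∀ i j : ℕ, i < j → ∀ z ∈ F (En (nat j)), ∀ z' ∈ F (En (nat i)), fs z = fs z' →
      ∃ w ∈ R, fs w = fs z := by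
    intro i j hij z hz z' hz' h
    refine (hEs j).2.2 (pair (nat i) (En (nat i))) (mem_gr.2 ⟨nat i, nat_mem_iff.2 hij, rfl⟩) z hz
      z' ?_ h
    rwa [sn_pair]
  refine ⟨p, ?_, fun j => ⟨En (nat j), (hEs j).1, (hEs j).2.1, hpa j⟩⟩
  refine ⟨?_, fun j => ?_, hR.fin, hRM, hR.sta, fun j => ?_, fun j β t m' e' h1 h2 => ?_,
    fun i j hij z hz z' hz' h => ?_⟩
  · exact hM.im_mem ho (h := fun u => pair u (F (En u)))
      (hB.pair' (DfnF.proj 0) (hF' (DfnF.comp1 (f := En) hEd (DfnF.proj 0))))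
  · rw [hpa]
    exact hFP _ (hEs j).1
  · rw [hpa]
    exact hR.sub _ (hEs j).1
  · rw [hpa] at h2
    obtain ⟨m, e₁, h3⟩ := h1
    exact hR.stem _ (hEs j).1 β t m e₁ m' e' h3 h2
  · rw [hpa] at hz hz'
    rcases lt_or_gt_of_ne hij with h1 | h1
    · obtain ⟨w, hw, h2⟩ := hdis i j h1 z' hz' z hz h.symm
      exact ⟨w, hw, h2.trans h.symm⟩
    · exact hdis j i h1 z hz z' hz' h

end

section

variable {M : Set ZFSet.{0}} (hc : M.Countable) (hL : IsLA ∅ M) {π : Par} (hπ : POk M π)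
  (hE : Ct M π.E) (hx : PAx π) (hl : PLim π) {κ : ZFSet.{0}} (hk : IsAleph1 M κ)
  {G : ZFSet.{0}} (hG : IsGeneric M (PP M π κ) (LL M π κ) G)

include hc hL hπ hE hx hl hk hG

/-- No function in the extension dominates the functions of the ground model. -/
theorem not_dom {H : ZFSet.{0}} (hH : H ∈ Nm M π κ)
    (hdom : ∀ g : ℕ → ℕ, fnc g ∈ M → ∃ n₀, ∀ n ≥ n₀, g n ≤ fv M π G κ H n) : False := by
  classical
  have hM := hL.zf
  have hg := hL.gc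
  have hB := hM.base
  have ho := hM.infinity
  have hκM := hk.1
  have hκ := hk.2.1
  have hHM : H ∈ M := (mem_Nm.1 hH).1
  have hPM := PP_mem hM hπ hκM
  have hLM := LL_mem hM hπ hκM
  have hself := Gb_self hM hπ hκM hκ hG
  obtain ⟨f, hfd, hfX, hfs⟩ := exists_scale hL hk
  have hfd' : ∀ {k : ℕ} {H : (Fin k → ZFSet.{0}) → ZFSet.{0}}, DfnF M M H →
      DfnF M M fun w => f (H w) := fun h => DfnF.comp1 hfd h
  set Fr : ZFSet.{0} → ZFSet.{0} → ZFSet.{0} → Prop := fun ξ m p =>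
    ∀ n ∈ ZFSet.omega, m ⊆ n → ∀ r ∈ PP M π κ, pair r p ∈ LL M π κ → ∀ v ∈ ZFSet.omega,
      Db M π κ H r n v → ap (f ξ) n ⊆ v with hFr
  have hFrd : Dfn M M fun w : Fin 3 → ZFSet.{0} => Fr (w 0) (w 1) (w 2) := by
    refine hB.ball (Q := fun n w => w 1 ⊆ n → ∀ r ∈ PP M π κ, pair r (w 2) ∈ LL M π κ →
      ∀ v ∈ ZFSet.omega, Db M π κ H r n v → ap (f (w 0)) n ⊆ v) (DfnF.const ho) ?_
    refine Dfn.imp (hB.subset' (DfnF.proj 2) (DfnF.proj 0)) ?_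
    refine hB.ball (Q := fun r w => pair r (w 3) ∈ LL M π κ → ∀ v ∈ ZFSet.omega,
      Db M π κ H r (w 0) v → ap (f (w 1)) (w 0) ⊆ v) (DfnF.const hPM) ?_
    refine Dfn.imp (Dfn.mem (hB.pair' (DfnF.proj 0) (DfnF.proj 4)) (DfnF.const hLM)) ?_
    refine hB.ball (Q := fun v w => Db M π κ H (w 0) (w 1) v → ap (f (w 2)) (w 1) ⊆ v)
      (DfnF.const ho) ?_
    exact Dfn.imp (dfn_Db hM hπ hκM hκ hκM (DfnF.const hHM) (DfnF.proj 1) (DfnF.proj 2)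
      (DfnF.proj 0)) (hB.subset' (hM.ap' (hfd' (DfnF.proj 3)) (DfnF.proj 2)) (DfnF.proj 0))
  -- conditions that force the domination
  have hex : ∀ ξ ∈ κ, ∃ p ∈ PP M π κ, ∃ m ∈ ZFSet.omega, Fr ξ m p := by
    intro ξ hξ
    have hξM := hM.trans _ hκM _ hξ
    obtain ⟨x, hx'⟩ := fnX_fnc (hfX ξ hξ)
    have hxM : fnc x ∈ M := hx' ▸ (mem_fnX.1 (hfX ξ hξ)).1
    obtain ⟨n₀, hn₀⟩ := hdom x hxM
    have hQd : Dfn M M fun w : Fin 1 → ZFSet.{0} => Fr ξ (nat n₀) (w 0) ∨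
        ∃ n ∈ ZFSet.omega, nat n₀ ⊆ n ∧ ∃ v ∈ ZFSet.omega, Db M π κ H (w 0) n v ∧
          ¬ ap (f ξ) n ⊆ v := by
      refine Dfn.or ?_ ?_
      · exact Dfn.comp3 hFrd (DfnF.const hξM) (DfnF.const (hM.nat_mem n₀)) (DfnF.proj 0)
      · refine hB.bex (Q := fun n w => nat n₀ ⊆ n ∧ ∃ v ∈ ZFSet.omega, Db M π κ H (w 0) n v ∧
          ¬ ap (f ξ) n ⊆ v) (DfnF.const ho) ?_
        refine Dfn.and (hB.subset' (DfnF.const (hM.nat_mem n₀)) (DfnF.proj 0)) ?_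
        refine hB.bex (Q := fun v w => Db M π κ H (w 1) (w 0) v ∧ ¬ ap (f ξ) (w 0) ⊆ v)
          (DfnF.const ho) ?_
        refine Dfn.and (dfn_Db hM hπ hκM hκ hκM (DfnF.const hHM) (DfnF.proj 2) (DfnF.proj 1)
          (DfnF.proj 0)) ?_
        exact (hB.subset' (hM.ap' (hfd' (DfnF.const hξM)) (DfnF.proj 1)) (DfnF.proj 0)).not
    obtain ⟨p, hp, h1⟩ := dense_gen hM hπ hκM hκ hG (Q := fun p => Fr ξ (nat n₀) p ∨
        ∃ n ∈ ZFSet.omega, nat n₀ ⊆ n ∧ ∃ v ∈ ZFSet.omega, Db M π κ H p n v ∧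
          ¬ ap (f ξ) n ⊆ v) hQd (by
      intro q hq
      by_cases h : Fr ξ (nat n₀) q
      · exact ⟨q, hq, le_refl q, Or.inl h⟩
      · rw [hFr] at h
        push Not at h
        obtain ⟨n, hn, h2, r, hr, h3, v, hv, h4, h5⟩ := h
        exact ⟨r, hr, (mem_LL.1 h3).2.2, Or.inr ⟨n, hn, h2, v, hv, h4, h5⟩⟩)
    rcases h1 with h1 | ⟨n, hn, h2, v, hv, h3, h4⟩
    · exact ⟨p, hG.sub hp, _, nat_mem_omega n₀, h1⟩
    · exfalso
      obtain ⟨n, rfl⟩ := mem_omega_iff.1 hn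
      obtain ⟨v, rfl⟩ := mem_omega_iff.1 hv
      have h5 : fv M π G κ H n = v := fv_eq hM hπ hκM hκ hG hκM hκ (fun _ h => h) hH
        (by rwa [hself]) h3
      rw [nat_sub] at h2
      have h6 := hn₀ n h2
      rw [hx', ap_fnc, nat_sub] at h4
      omega
  -- the choice
  set Q : ZFSet.{0} → ZFSet.{0} → Prop := fun u ξ => fs u ∈ PP M π κ ∧ sn u ∈ ZFSet.omega ∧
    Fr ξ (sn u) (fs u) with hQ
  set c : ZFSet.{0} → ZFSet.{0} := fun ξ => chs M (eo M ∅ hL.zf.trans) fun u => Q u ξ with hcdef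
  have hcd : DfnF M M fun w : Fin 1 → ZFSet.{0} => c (w 0) := by
    refine hM.chs' hg (Q := fun u w => Q u (w 0)) ?_
    refine Dfn.and (Dfn.mem (hM.fs' (DfnF.proj 0)) (DfnF.const hPM)) (Dfn.and (Dfn.mem
      (hM.sn' (DfnF.proj 0)) (DfnF.const ho)) ?_)
    exact Dfn.comp3 hFrd (DfnF.proj 1) (hM.sn' (DfnF.proj 0)) (hM.fs' (DfnF.proj 0))
  have hcs : ∀ ξ ∈ κ, Q (c ξ) ξ := by
    intro ξ hξ
    obtain ⟨p, hp, m, hm, h⟩ := hex ξ hξ
    refine (chs_spec (C := M) (e := eo M ∅ hL.zf.trans) (P := fun u => Q u ξ)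
      ⟨pair p m, hM.pair_mem (hM.trans _ hPM _ hp) (hM.trans _ ho _ hm), ?_⟩).2
    refine ⟨?_, ?_, ?_⟩
    · rwa [fs_pair]
    · rwa [sn_pair]
    · rwa [fs_pair, sn_pair]
  -- uncountably many with the same number
  set Am : ZFSet.{0} → ZFSet.{0} := fun m => ZFSet.sep (fun ξ => sn (c ξ) = m) κ with hAm
  have hAmd : DfnF M M fun w : Fin 1 → ZFSet.{0} => Am (w 0) := by
    refine hM.sep' (Q := fun ξ w => sn (c ξ) = w 0) (DfnF.const hκM) ?_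
    exact Dfn.eq (hM.sn' (DfnF.comp1 (f := c) hcd (DfnF.proj 0))) (DfnF.proj 1)
  obtain ⟨m₀, hm₀⟩ : ∃ m₀ : ℕ, ¬ Ct M (Am (nat m₀)) := by
    by_contra hcon
    push Not at hcon
    refine hk.2.2.1 (ct_cover hM hg hκM ho (ct_omega hM) (F := Am) hAmd (fun m hm => ?_)
      fun ξ hξ => ?_)
    · obtain ⟨m, rfl⟩ := mem_omega_iff.1 hm
      exact hcon m
    · exact ⟨sn (c ξ), (hcs ξ hξ).2.1, ZFSet.mem_sep.2 ⟨hξ, rfl⟩⟩
  have hAmM : Am (nat m₀) ∈ M := hAmd.1 (fun _ => nat m₀) fun _ => hM.nat_mem m₀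
  have hFd : DfnF M M fun w : Fin 1 → ZFSet.{0} => fs (c (w 0)) := hM.fs' hcd
  obtain ⟨A, hAs, R, hR⟩ := exists_root hM hπ hE hg hAmM hm₀ (F := fun ξ => fs (c ξ)) hFd
    (κ := κ) fun ξ hξ => (hcs ξ (ZFSet.mem_sep.1 hξ).1).1
  have hAκ : A ⊆ κ := fun ξ hξ => (ZFSet.mem_sep.1 (hAs hξ)).1
  obtain ⟨n, hn, hunb⟩ := exists_unb hM hg hκM hfd hfX hfs hR.memA hAκ hR.unc m₀
  obtain ⟨p, hfam, hpj⟩ := exists_fam hM hπ hl.c hg (κ := κ) hFd
    (fun ξ hξ => (hcs ξ (hAκ hξ)).1) hR (S := fun j ξ => j ⊆ ap (f ξ) (nat n))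
    (hB.subset' (DfnF.proj 0) (hM.ap' (hfd' (DfnF.proj 1)) (DfnF.const (hM.nat_mem n)))) hunb
  obtain ⟨q, hq, hlim⟩ := exists_lim hc hL hπ hx hl hκM hκ hfam κ hκ fun _ h => h
  obtain ⟨r, hr, hrq, v, hv, hdec⟩ := exists_dec hH hq (nat_mem_omega n)
  obtain ⟨v, rfl⟩ := mem_omega_iff.1 hv
  obtain ⟨j, hj, r', hr', h1, h2⟩ := hlim r hr hrq (v + 1)
  obtain ⟨ξ, hξ, h3, h4⟩ := hpj j
  have h5 : rs (ap p (nat j)) κ = fs (c ξ) := by
    rw [h4]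
    exact (mem_PP.1 (hcs ξ (hAκ hξ)).1).ats.rs_eq
  rw [h5] at h2
  have h6 := (hcs ξ (hAκ hξ))
  have h7 : sn (c ξ) = nat m₀ := (ZFSet.mem_sep.1 (hAs hξ)).2
  have h8 : ap (f ξ) (nat n) ⊆ nat v := by
    refine h6.2.2 (nat n) (nat_mem_omega n) (by rw [h7, nat_sub]; exact hn) r' hr'
      (mem_LL.2 ⟨hr', h6.1, h2⟩) (nat v) (nat_mem_omega v) ?_
    exact Db.mono hM hκ hr hr' h1 hdec
  have h9 : nat j ⊆ nat v := fun z hz => h8 (h3 hz)
  rw [nat_sub] at h9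
  omega

end

end Pool.Agent.H635.RF
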