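import Pool.Agent.H635.RF.Nz

/-!
# Goldstern's principle fails in the extension
-/

set_option autoImplicit false
set_option linter.unreachableTactic false
set_option linter.unusedTactic false
set_option linter.unusedSectionVars false
set_option linter.unusedVariables false

namespace Pool.Agent.H635.RF

open Pool.Agent.W868 Pool.Agent.W868.GM Pool.Agent.Y588
open Pool.Agent.H635.RB (Fi dfn_fi fin_mem nat_mem_iff mem_nat nat_sub ap_unique)
open ZFSet (pair)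

theorem NullIn.mono {N : Set ZFSet.{0}} {Z Z' : Set (Set ℕ)} (h : NullIn N Z')
    (hs : ∀ y ∈ Z, stc y ∈ N → y ∈ Z') : NullIn N Z := by
  intro k
  obtain ⟨S, h1, h2, h3⟩ := h k
  exact ⟨S, h1, h2, fun y hy hyN => h3 y (hs y hy hyN) hyN⟩

theorem Sig.congr {N : Set ZFSet.{0}} {A B : Set ((ℕ → ℕ) × Set ℕ)} (h : Sig N A)
    (hs : ∀ x y, fnc x ∈ N → stc y ∈ N → ((x, y) ∈ A ↔ (x, y) ∈ B)) : Sig N B := by
  obtain ⟨φ, p, hp, h1⟩ := h
  exact ⟨φ, p, hp, fun x y hx hy => (hs x y hx hy).symm.trans (h1 x y hx hy)⟩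

section

variable {M : Set ZFSet.{0}} (hL : IsLA ∅ M) {κ : ZFSet.{0}} (hk : IsAleph1 M κ)
  {G : ZFSet.{0}} (hG : IsGeneric M (PP M hec κ) (LL M hec κ) G)
  {J : ZFSet.{0}} (hJM : J ∈ M) (hJ : IsInj (ZFSet.prod ZFSet.omega ZFSet.omega) ZFSet.omega J)

include hL hk hG hJM hJ

/-- The first level with a null set that contains `y`. -/
theorem exists_lst {y : Set ℕ} (hy : stc y ∈ ext M G) :
    ∃ ξ ∈ M, ξ.IsOrdinal ∧ Inj M ξ ZFSet.omega ∧ Lst J (stc y) ξ := by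
  have hM := hL.zf
  have ho := hM.infinity
  obtain ⟨u, huM, huo, hu⟩ := exists_inf hL hk hG hJM hJ hy
  obtain ⟨ξ₀, h1, h2, h3, h4⟩ := sub_level hL ho isOrdinal_omega (fun _ h => h) (T := ZFSet.omega)
      ho (fun x hx y hy => isOrdinal_omega.mem_trans hy hx) (nat_mem_omega 0) (ct_omega hM)
      huM huo
  have key : ∀ ξ : ZFSet.{0}, ξ ∈ M → ξ.IsOrdinal → Inj M ξ ZFSet.omega →
      (∃ u ∈ Lv ∅ ξ, Infc dbl J (stc y) u) →
      ∃ ξ ∈ M, ξ.IsOrdinal ∧ Inj M ξ ZFSet.omega ∧ Lst J (stc y) ξ := by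
    intro ξ
    induction ξ using ZFSet.inductionOn with
    | _ ξ ih =>
    intro hξ hξo hξc h
    by_cases h5 : ∃ η ∈ ξ, ∃ u ∈ Lv ∅ η, Infc dbl J (stc y) u
    · obtain ⟨η, hη, h6⟩ := h5
      have hηM := hM.trans _ hξ _ hη
      exact ih η hη hηM (hξo.mem hη)
        (inj_mono hM hηM hξ ho (hξo.subset_of_mem hη) hξc) h6
    · push Not at h5
      exact ⟨ξ, hξ, hξo, hξc, h, h5⟩
  exact key ξ₀ h1 h2 h3 ⟨u, h4, hu⟩

theorem not_GP : ¬ StGP (ext M G) := by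
  classical
  intro hGP
  have hM := hL.zf
  have hg := hL.gc
  have ho := hM.infinity
  have hπ := pOk_hec hM
  have hκM := hk.1
  have hκ := hk.2.1
  have hN := zf_G hM hπ hg hκM hκ hG
  have hMN := M_sub_G hM hπ hκM hκ hG
  have hP := isForcing_PP hM hπ hκM hκ
  have hgN := gc_ext hL hP hG hg
  have hord : ∀ z ∈ ext M G, z.IsOrdinal → z ∈ M := fun z hz hzo => ord_of_ext hM hz hzo
  have hct : ∀ y : Set ℕ, stc y ∈ ext M G → ∀ ξ ∈ M, ξ.IsOrdinal → Lst J (stc y) ξ →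
      Inj M ξ ZFSet.omega := by
    intro y hy ξ hξ hξo h
    obtain ⟨ξ', h1, h2, h3, h4⟩ := exists_lst hL hk hG hJM hJ hy
    rwa [h.unique h4 hξo h2]
  have hsig1 := sig_of hL hN hgN hMN hord hJM hJ
    (C := fun D J O X Y L => BdD D J O X Y L) d0_pos hct
  have hsig2 := sig_of hL hN hgN hMN hord hJM hJ
    (C := fun D J O X Y L => ¬ BdD D J O X Y L) d0_neg hct
  have hnull := hGP _ hsig1 (hsig2.congr fun x y hx hy => by
    rw [Set.mem_compl_iff, Set.mem_ofPred_eq, Set.mem_ofPred_eq]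
    constructor
    · rintro ⟨ξ, h1, h2, h3, h4⟩ ⟨ξ', h5, h6, h7, h8⟩
      rw [h7.unique h3 h6 h2] at h8
      exact h4 h8
    · intro h
      obtain ⟨ξ, h1, h2, -, h3⟩ := exists_lst hL hk hG hJM hJ hy
      exact ⟨ξ, h1, h2, h3, fun h4 => h ⟨ξ, h1, h2, h3, h4⟩⟩) ?_ ?_
  · refine not_null_univ hN (hnull.mono fun y _ hy => ?_)
    obtain ⟨ξ, h1, h2, -, h3⟩ := exists_lst hL hk hG hJM hJ hy
    obtain ⟨u, hu, h4⟩ := h3.1
    have huM : u ∈ M := hM.trans _ (Lv_mem_M hM hM.empty_mem h1) _ hu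
    have h5 : ∀ n : ℕ, ∃ m : ℕ, n ≤ m ∧ Cap dbl J (stc y) u (nat m) := by
      intro n
      obtain ⟨m, hm, h6, h7⟩ := h4 (nat n) (nat_mem_omega n)
      obtain ⟨m, rfl⟩ := mem_omega_iff.1 hm
      exact ⟨m, nat_sub.1 h6, h7⟩
    set x : ℕ → ℕ := fun n => Nat.find (h5 n) with hx
    have hxN : fnc x ∈ ext M G := by
      have hB := hN.base
      have hJN := hMN hJM
      have huN := hMN huM
      have hdN := dbl_mem hN
      refine fnc_mem_of hN (Q := fun n k => (n ⊆ k ∧ Cap dbl J (stc y) u k) ∧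
        ∀ l ∈ k, ¬ (n ⊆ l ∧ Cap dbl J (stc y) u l)) ?_ fun n k => ?_
      · unfold Cap
        (repeat' first
          | assumption
          | exact DfnF.proj _
          | exact DfnF.const (by assumption)
          | apply hB.subset' | apply Dfn.and | apply Dfn.not | apply hB.bex | apply hB.ball
          | apply Dfn.iff | apply Dfn.mem | apply hB.pair' | apply hN.ap')
      · rw [nat_sub]
        constructor
        · rintro ⟨h6, h7⟩
          symm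
          refine (Nat.find_eq_iff (h5 n)).2 ⟨h6, fun l hl h8 => ?_⟩
          exact h7 (nat l) (nat_mem_iff.2 hl) ⟨nat_sub.2 h8.1, h8.2⟩
        · rintro rfl
          refine ⟨Nat.find_spec (h5 n), fun l hl h8 => ?_⟩
          obtain ⟨l, hl', rfl⟩ := mem_nat.1 hl
          exact Nat.find_min (h5 n) hl' ⟨nat_sub.1 h8.1, h8.2⟩
    refine ⟨x, hxN, ξ, h1, h2, h3, (bdD_iff hJ).2 ⟨u, hu, fun n hn => ?_⟩⟩
    obtain ⟨n, rfl⟩ := mem_omega_iff.1 hn
    have h6 := Nat.find_spec (h5 n)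
    refine ⟨nat (x n), nat_mem_omega _, nat_sub.2 h6.1, ?_, h6.2⟩
    rw [ap_fnc]
  · intro x hx
    refine (exists_cov hL hk hG hJM hJ hx).mono fun y hy hyN => ?_
    obtain ⟨ξ, h1, h2, h3, h4⟩ := hy
    obtain ⟨u, hu, h5⟩ := (bdD_iff hJ).1 h4
    exact ⟨u, hM.trans _ (Lv_mem_M hM hM.empty_mem h1) _ hu, h5⟩
  · rintro x x' y hx hx' hy hle ⟨ξ, h1, h2, h3, h4⟩
    obtain ⟨u, hu, h5⟩ := (bdD_iff hJ).1 h4
    refine ⟨ξ, h1, h2, h3, (bdD_iff hJ).2 ⟨u, hu, fun n hn => ?_⟩⟩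
    obtain ⟨m, hm, h6, h7, h8⟩ := h5 n hn
    refine ⟨m, hm, h6, ?_, h8⟩
    obtain ⟨n, rfl⟩ := mem_omega_iff.1 hn
    rw [ap_fnc] at h7 ⊢
    exact fun z hz => nat_sub.2 (hle n) (h7 hz)

end

/-- There is a countable transitive model of ZFC in which (D) holds and Goldstern's principle for
`Δ¹₂` sets fails. -/
theorem exists_model_gp : ∃ N : Set ZFSet.{0}, N.Countable ∧ IsZFC N ∧ StD N ∧ ¬ StGP N := by
  obtain ⟨M, hc, hL⟩ := Pool.Agent.R597.exists_ctm_L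
  have hM := hL.zf
  have hg := hL.gc
  have ho := hM.infinity
  obtain ⟨κ, hk⟩ := exists_aleph1 hM
  have hπ := pOk_hec hM
  have hP := isForcing_PP hM hπ hk.1 hk.2.1
  obtain ⟨G, hG, -⟩ := exists_gen hc hP (empty_mem_PP hM κ)
  obtain ⟨J, hJM, hJ⟩ : Ct M (ZFSet.prod ZFSet.omega ZFSet.omega) :=
    ct_prod hM ho ho (ct_omega hM) (ct_omega hM)
  exact ⟨ext M G, hc.image _, zfc_ext hL hP hG, stD hL hk hG, not_GP hL hk hG hJM hJ⟩

end Pool.Agent.H635.RF
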