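import Pool.Agent.H635.RF.Gx
import Pool.Agent.H635.RF.Dfs

/-!
# Names for functions
-/

set_option autoImplicit false
set_option linter.unreachableTactic false
set_option linter.unusedTactic false
set_option linter.unusedSectionVars false
set_option linter.unusedVariables false

namespace Pool.Agent.H635.RF

open Pool.Agent.W868 Pool.Agent.W868.GM Pool.Agent.Y588
open Pool.Agent.H635.RB (Fi dfn_fi fin_mem nat_mem_iff mem_nat)
open ZFSet (pair)

theorem mem_fnc {x : ℕ → ℕ} {z : ZFSet.{0}} : z ∈ fnc x ↔ ∃ i, z = pair (nat i) (nat (x i)) := by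
  unfold fnc
  rw [ZFSet.mem_range]
  constructor
  · rintro ⟨i, rfl⟩
    exact ⟨i, rfl⟩
  · rintro ⟨i, rfl⟩
    exact ⟨i, rfl⟩

theorem pair_mem_fnc {x : ℕ → ℕ} {i j : ℕ} : pair (nat i) (nat j) ∈ fnc x ↔ j = x i := by
  rw [mem_fnc]
  constructor
  · rintro ⟨k, h⟩
    obtain ⟨h1, h2⟩ := ZFSet.pair_inj.1 h
    have h3 := nat_injective h1
    subst h3
    exact nat_injective h2
  · rintro rfl
    exact ⟨i, rfl⟩

theorem fnc_inj {x y : ℕ → ℕ} (h : fnc x = fnc y) : x = y := by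
  funext i
  have h1 : pair (nat i) (nat (x i)) ∈ fnc y := by
    rw [← h]
    exact pair_mem_fnc.2 rfl
  exact pair_mem_fnc.1 h1

section

variable {M : Set ZFSet.{0}} (hM : IsZF M) {P L : ZFSet.{0}} (hP : IsForcing M P L)
  {G : ZFSet.{0}} (hG : IsGeneric M P L G)

/-- The condition `r` forces that the value at `m` is `v`, and no other value. -/
def Gd (P L t x r m v : ZFSet.{0}) : Prop := Qmem P L (chk t (pair m v)) x r ∧
  ∀ v' ∈ ZFSet.omega, v' ≠ v → ∀ r' ∈ P, pair r' r ∈ L → ¬ Qmem P L (chk t (pair m v')) x r'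

/-- No extension of `r` forces a value at `m`. -/
def Bd (P L t x r m : ZFSet.{0}) : Prop :=
  ∀ r' ∈ P, pair r' r ∈ L → ∀ v ∈ ZFSet.omega, ¬ Gd P L t x r' m v

include hM hP hG

/-- Functions in the extension have names. -/
theorem exists_name {x : ℕ → ℕ} (hx : fnc x ∈ ext M G) : ∃ σ ∈ M,
    σ ⊆ ZFSet.prod (ZFSet.prod ZFSet.omega ZFSet.omega) P ∧ Nmp P L σ ∧
    ∀ n, ∃ r ∈ G, Dc P L σ r (nat n) (nat (x n)) := by
  obtain ⟨X, hXM, hX⟩ := hx
  obtain ⟨t, htG, htP, htM, htop⟩ := top_mem hM hP hG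
  have hB := hM.base
  have hPM := hP.mem
  have hLM := hP.le_mem
  have ho := hM.infinity
  -- definability
  have dq : ∀ {n : ℕ} {r m v : (Fin n → ZFSet.{0}) → ZFSet.{0}}, DfnF M M r → DfnF M M m →
      DfnF M M v → Dfn M M fun w => Qmem P L (chk t (pair (m w) (v w))) X (r w) := by
    intro n r m v hr hm hv
    exact dfn_qmem hM hPM hLM (DfnF.comp1 (f := chk t) (dfn_chk hM htM) (hB.pair' hm hv))
      (DfnF.const hXM) hr
  have dg : ∀ {n : ℕ} {r m v : (Fin n → ZFSet.{0}) → ZFSet.{0}}, DfnF M M r → DfnF M M m →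
      DfnF M M v → Dfn M M fun w => Gd P L t X (r w) (m w) (v w) := by
    intro n r m v hr hm hv
    unfold Gd
    refine (dq hr hm hv).and ?_
    refine hB.ball (Q := fun v' w => v' ≠ v w → ∀ r' ∈ P, pair r' (r w) ∈ L →
      ¬ Qmem P L (chk t (pair (m w) v')) X r') (DfnF.const ho) ?_
    refine Dfn.imp (Dfn.eq (DfnF.proj 0) hv.tail).not ?_
    refine hB.ball (Q := fun r' w => pair r' (r (Fin.tail w)) ∈ L →
      ¬ Qmem P L (chk t (pair (m (Fin.tail w)) (w 0))) X r') (DfnF.const hPM) ?_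
    exact Dfn.imp (Dfn.mem (hB.pair' (DfnF.proj 0) hr.tail.tail) (DfnF.const hLM))
      (dq (DfnF.proj 0) hm.tail.tail (DfnF.proj 1)).not
  have db : ∀ {n : ℕ} {r m : (Fin n → ZFSet.{0}) → ZFSet.{0}}, DfnF M M r → DfnF M M m →
      Dfn M M fun w => Bd P L t X (r w) (m w) := by
    intro n r m hr hm
    unfold Bd
    refine hB.ball (Q := fun r' w => pair r' (r w) ∈ L → ∀ v ∈ ZFSet.omega,
      ¬ Gd P L t X r' (m w) v) (DfnF.const hPM) ?_
    refine Dfn.imp (Dfn.mem (hB.pair' (DfnF.proj 0) hr.tail) (DfnF.const hLM)) ?_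
    refine hB.ball (Q := fun v w => ¬ Gd P L t X (w 0) (m (Fin.tail w)) v) (DfnF.const ho) ?_
    exact (dg (DfnF.proj 1) hm.tail.tail (DfnF.proj 0)).not
  set σ : ZFSet.{0} := ZFSet.sep (fun z => Gd P L t X (sn z) (fs (fs z)) (sn (fs z)) ∨
    (Bd P L t X (sn z) (fs (fs z)) ∧ sn (fs z) = ∅))
    (ZFSet.prod (ZFSet.prod ZFSet.omega ZFSet.omega) P) with hσ
  have hσM : σ ∈ M := by
    have h1 : DfnF M M fun w : Fin 1 → ZFSet.{0} => ZFSet.sep (fun z =>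
        Gd P L t X (sn z) (fs (fs z)) (sn (fs z)) ∨
        (Bd P L t X (sn z) (fs (fs z)) ∧ sn (fs z) = ∅)) (w 0) := by
      refine hM.sep' (Q := fun z _ => Gd P L t X (sn z) (fs (fs z)) (sn (fs z)) ∨
        (Bd P L t X (sn z) (fs (fs z)) ∧ sn (fs z) = ∅)) (DfnF.proj 0) ?_
      refine (dg (hM.sn' (DfnF.proj 0)) (hM.fs' (hM.fs' (DfnF.proj 0)))
        (hM.sn' (hM.fs' (DfnF.proj 0)))).or ?_
      refine (db (hM.sn' (DfnF.proj 0)) (hM.fs' (hM.fs' (DfnF.proj 0)))).and ?_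
      exact Dfn.eq (hM.sn' (hM.fs' (DfnF.proj 0))) (DfnF.const hM.empty_mem)
    exact h1.1 (fun _ => ZFSet.prod (ZFSet.prod ZFSet.omega ZFSet.omega) P) fun _ =>
      hM.prod_mem (hM.prod_mem ho ho) hPM
  have memσ : ∀ m v r, pair (pair m v) r ∈ σ ↔ m ∈ ZFSet.omega ∧ v ∈ ZFSet.omega ∧ r ∈ P ∧
      (Gd P L t X r m v ∨ (Bd P L t X r m ∧ v = ∅)) := by
    intro m v r
    rw [hσ, ZFSet.mem_sep, ZFSet.pair_mem_prod, ZFSet.pair_mem_prod, sn_pair, fs_pair, fs_pair,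
      sn_pair]
    tauto
  have gmono : ∀ r ∈ P, ∀ r' ∈ P, pair r' r ∈ L → ∀ m v, Gd P L t X r m v →
      Gd P L t X r' m v := by
    intro r hr r' hr' h m v hg
    exact ⟨Qmem.mono hP hr hg.1 hr' h, fun v' hv' hne r'' hr'' h' =>
      hg.2 v' hv' hne r'' hr'' (hP.trans r hr r' hr' r'' hr'' h' h)⟩
  have bmono : ∀ r ∈ P, ∀ r' ∈ P, pair r' r ∈ L → ∀ m, Bd P L t X r m → Bd P L t X r' m := by
    intro r hr r' hr' h m hb r'' hr'' h' v hv
    exact hb r'' hr'' (hP.trans r hr r' hr' r'' hr'' h' h) v hv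
  have dc : ∀ r ∈ P, ∀ m ∈ ZFSet.omega, ∀ v ∈ ZFSet.omega, (Dc P L σ r m v ↔
      Gd P L t X r m v ∨ (Bd P L t X r m ∧ v = ∅)) := by
    intro r hr m hm v hv
    unfold Dc
    constructor
    · rintro ⟨q, hq, h1, h2⟩
      rcases ((memσ _ _ _).1 h1).2.2.2 with h3 | ⟨h3, h4⟩
      · exact Or.inl (gmono q hq r hr h2 _ _ h3)
      · exact Or.inr ⟨bmono q hq r hr h2 _ h3, h4⟩
    · intro h
      exact ⟨r, hr, (memσ _ _ _).2 ⟨hm, hv, hr, h⟩, hP.refl r hr⟩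
  refine ⟨σ, hσM, fun z hz => (ZFSet.mem_sep.1 hz).1, ⟨?_, ?_⟩, ?_⟩
  · intro m hm r hr
    by_cases h : ∃ r' ∈ P, pair r' r ∈ L ∧ ∃ v ∈ ZFSet.omega, Gd P L t X r' m v
    · obtain ⟨r', h1, h2, v, hv, h3⟩ := h
      exact ⟨r', h1, h2, v, hv, (dc r' h1 m hm v hv).2 (Or.inl h3)⟩
    · refine ⟨r, hr, hP.refl r hr, ∅, nat_mem_omega 0, (dc r hr m hm ∅ (nat_mem_omega 0)).2
        (Or.inr ⟨fun r' hr' h1 v hv h2 => h ⟨r', hr', h1, v, hv, h2⟩, rfl⟩)⟩
  · intro m hm r hr v hv v' hv' h h'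
    rw [dc r hr m hm v hv] at h
    rw [dc r hr m hm v' hv'] at h'
    rcases h with h | ⟨h, h2⟩
    · rcases h' with h' | ⟨h', h3⟩
      · by_contra hne
        exact h.2 v' hv' (Ne.symm hne) r hr (hP.refl r hr) h'.1
      · exact absurd h (h' r hr (hP.refl r hr) v hv)
    · rcases h' with h' | ⟨h', h3⟩
      · exact absurd h' (h r hr (hP.refl r hr) v' hv')
      · rw [h2, h3]
  · intro n
    set v := nat (x n) with hv
    have hvo : v ∈ ZFSet.omega := nat_mem_omega _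
    have hvM : v ∈ M := hM.nat_mem _
    have hno : nat n ∈ ZFSet.omega := nat_mem_omega n
    have hnM : nat n ∈ M := hM.nat_mem n
    have hd : Dfn M M fun w : Fin 1 → ZFSet.{0} => Gd P L t X (w 0) (nat n) v ∨
        (∃ v' ∈ ZFSet.omega, v' ≠ v ∧ Qmem P L (chk t (pair (nat n) v')) X (w 0)) ∨
        (∀ r' ∈ P, pair r' (w 0) ∈ L → ¬ Qmem P L (chk t (pair (nat n) v)) X r') := by
      refine (dg (DfnF.proj 0) (DfnF.const hnM) (DfnF.const hvM)).or (Dfn.or ?_ ?_)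
      · refine hB.bex (Q := fun v' w => v' ≠ v ∧ Qmem P L (chk t (pair (nat n) v')) X (w 0))
          (DfnF.const ho) ?_
        exact (Dfn.eq (DfnF.proj 0) (DfnF.const hvM)).not.and
          (dq (DfnF.proj 1) (DfnF.const hnM) (DfnF.proj 0))
      · refine hB.ball (Q := fun r' w => pair r' (w 0) ∈ L →
          ¬ Qmem P L (chk t (pair (nat n) v)) X r') (DfnF.const hPM) ?_
        exact Dfn.imp (Dfn.mem (hB.pair' (DfnF.proj 0) (DfnF.proj 1)) (DfnF.const hLM))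
          (dq (DfnF.proj 0) (DfnF.const hnM) (DfnF.const hvM)).not
    obtain ⟨r, hrG, hr⟩ := gen_dense hM hP hG (Q := fun r => Gd P L t X r (nat n) v ∨
        (∃ v' ∈ ZFSet.omega, v' ≠ v ∧ Qmem P L (chk t (pair (nat n) v')) X r) ∨
        (∀ r' ∈ P, pair r' r ∈ L → ¬ Qmem P L (chk t (pair (nat n) v)) X r')) hd (by
      intro q hq
      by_cases h1 : ∃ r ∈ P, pair r q ∈ L ∧ ∃ v' ∈ ZFSet.omega, v' ≠ v ∧
          Qmem P L (chk t (pair (nat n) v')) X r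
      · obtain ⟨r, h2, h3, h4⟩ := h1
        exact ⟨r, h2, h3, Or.inr (Or.inl h4)⟩
      · by_cases h2 : ∃ r ∈ P, pair r q ∈ L ∧ Qmem P L (chk t (pair (nat n) v)) X r
        · obtain ⟨r, h3, h4, h5⟩ := h2
          refine ⟨r, h3, h4, Or.inl ⟨h5, fun v' hv' hne r' hr' h6 h7 => h1 ⟨r', hr',
            hP.trans q hq r h3 r' hr' h6 h4, v', hv', hne, h7⟩⟩⟩
        · exact ⟨q, hq, hP.refl q hq, Or.inr (Or.inr fun r' hr' h3 h4 => h2 ⟨r', hr', h3, h4⟩)⟩)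
    have hrP := hG.sub hrG
    refine ⟨r, hrG, (dc r hrP _ hno v hvo).2 ?_⟩
    have hev : ∀ v', ev G (chk t (pair (nat n) v')) = pair (nat n) v' := fun v' => ev_chk htG _
    rcases hr with h | ⟨v', hv', hne, h⟩ | h
    · exact Or.inl h
    · exfalso
      have hcM : chk t (pair (nat n) v') ∈ M := chk_mem hM htM (hM.pair_mem hnM
        (omega_mem_M hM hv'))
      have h1 := (ev_mem_iff hM hP hG hcM hXM).2 ⟨r, hrG, h⟩
      rw [hev, hX] at h1
      obtain ⟨k, rfl⟩ := mem_omega_iff.1 hv'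
      rw [pair_mem_fnc] at h1
      exact hne (by rw [hv, h1])
    · exfalso
      have hcM : chk t (pair (nat n) v) ∈ M := chk_mem hM htM (hM.pair_mem hnM hvM)
      have h1 : ev G (chk t (pair (nat n) v)) ∈ ev G X := by
        rw [hev, hX]
        exact pair_mem_fnc.2 rfl
      obtain ⟨r', h2, h3⟩ := (ev_mem_iff hM hP hG hcM hXM).1 h1
      obtain ⟨q, h4, h5, h6⟩ := hG.dir r hrG r' h2
      exact h q (hG.sub h4) h5 (Qmem.mono hP (hG.sub h2) h3 (hG.sub h4) h6)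

end

section

variable {M : Set ZFSet.{0}} {π : Par} (hM : IsZF M) (hπ : POk M π) {κ G : ZFSet.{0}}
  (hκM : κ ∈ M) (hκ : κ.IsOrdinal) (hG : IsGeneric M (PP M π κ) (LL M π κ) G)

include hM hπ hκM hκ hG

/-- The functions in the intermediate extensions have names. -/
theorem exists_Nm {β : ZFSet.{0}} (hβM : β ∈ M) (hβ : β.IsOrdinal) (hβκ : β ⊆ κ)
    {x : ℕ → ℕ} (hx : fnc x ∈ ext M (Gb M π G β)) :
    ∃ σ ∈ Nm M π β, fv M π G β σ = x := by
  have hg := isGeneric_Gb hM hπ hκM hκ hG hβM hβ hβκ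
  obtain ⟨σ, h1, h2, h3, h4⟩ := exists_name hM (isForcing_PP hM hπ hβM hβ) hg hx
  have h5 : σ ∈ Nm M π β := mem_Nm.2 ⟨h1, h2, h3⟩
  refine ⟨σ, h5, ?_⟩
  funext n
  obtain ⟨r, h6, h7⟩ := h4 n
  exact fv_eq hM hπ hκM hκ hG hβM hβ hβκ h5 h6 h7

theorem Gb_self : Gb M π G κ = G := by
  ext p
  rw [mem_Gb]
  exact ⟨fun h => h.1, fun h => ⟨h, hG.sub h⟩⟩

end

end Pool.Agent.H635.RF
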