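import Pool.Agent.H635.RF.Loc

/-!
# From slaloms to Raisonnier filters
-/

set_option autoImplicit false
set_option linter.unreachableTactic false
set_option linter.unusedTactic false
set_option linter.unusedSectionVars false
set_option linter.unusedVariables false

namespace Pool.Agent.H635.RF

open Pool.Agent.W868 Pool.Agent.W868.GM Pool.Agent.Y588
open Pool.Agent.H635.RB (Fi dfn_fi fin_mem nat_mem_iff mem_nat nat_sub ap_unique)
open ZFSet (pair)

/-- The slalom `S` as a set. -/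
noncomputable def slc (S : ℕ → Finset ℕ) : ZFSet.{0} :=
  ZFSet.range fun p : {p : ℕ × ℕ // p.2 ∈ S p.1} => pair (nat p.1.1) (nat p.1.2)

theorem mem_slc {S : ℕ → Finset ℕ} {z : ZFSet.{0}} :
    z ∈ slc S ↔ ∃ m v, v ∈ S m ∧ z = pair (nat m) (nat v) := by
  unfold slc
  rw [ZFSet.mem_range]
  constructor
  · rintro ⟨⟨⟨m, v⟩, h⟩, rfl⟩
    exact ⟨m, v, h, rfl⟩
  · rintro ⟨m, v, h, rfl⟩
    exact ⟨⟨⟨m, v⟩, h⟩, rfl⟩

theorem pair_mem_slc {S : ℕ → Finset ℕ} {m v : ℕ} : pair (nat m) (nat v) ∈ slc S ↔ v ∈ S m := by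
  rw [mem_slc]
  constructor
  · rintro ⟨m', v', h, h'⟩
    obtain ⟨h1, h2⟩ := ZFSet.pair_inj.1 h'
    rwa [nat_injective h1, nat_injective h2]
  · intro h
    exact ⟨m, v, h, rfl⟩

theorem ap_fnc (x : ℕ → ℕ) (i : ℕ) : ap (fnc x) (nat i) = nat (x i) := by
  refine ap_unique fun q => ?_
  constructor
  · rintro ⟨h1, h2⟩
    obtain ⟨j, rfl⟩ := mem_fnc.1 h1
    rw [fs_pair] at h2
    rw [nat_injective h2]
  · rintro rfl
    exact ⟨pair_mem_fnc.2 rfl, fs_pair _ _⟩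

theorem pair_mem_fnc' {x : ℕ → ℕ} {i : ℕ} {v : ZFSet.{0}} :
    pair (nat i) v ∈ fnc x ↔ v = nat (x i) := by
  rw [mem_fnc]
  constructor
  · rintro ⟨j, h⟩
    obtain ⟨h1, h2⟩ := ZFSet.pair_inj.1 h
    rw [nat_injective h1, h2]
  · rintro rfl
    exact ⟨i, rfl⟩

/-- A function given by a definable relation is in the model. -/
theorem fnc_mem_of {W : Set ZFSet.{0}} (hW : IsZF W) {x : ℕ → ℕ} {Q : ZFSet.{0} → ZFSet.{0} → Prop}
    (hQ : Dfn W W fun w : Fin 2 → ZFSet.{0} => Q (w 0) (w 1))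
    (h : ∀ i j : ℕ, Q (nat i) (nat j) ↔ j = x i) : fnc x ∈ W := by
  have h1 : fnc x = ZFSet.sep (fun z => Q (fs z) (sn z)) (ZFSet.prod ZFSet.omega ZFSet.omega) := by
    ext z
    rw [mem_fnc, ZFSet.mem_sep]
    constructor
    · rintro ⟨i, rfl⟩
      refine ⟨ZFSet.pair_mem_prod.2 ⟨nat_mem_omega _, nat_mem_omega _⟩, ?_⟩
      rw [fs_pair, sn_pair, h]
    · rintro ⟨h2, h3⟩
      obtain ⟨a, ha, b, hb, rfl⟩ := ZFSet.mem_prod.1 h2
      obtain ⟨i, rfl⟩ := mem_omega_iff.1 ha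
      obtain ⟨j, rfl⟩ := mem_omega_iff.1 hb
      rw [fs_pair, sn_pair, h] at h3
      exact ⟨i, by rw [h3]⟩
  rw [h1]
  refine hW.sep_mem (Q := fun z => Q (fs z) (sn z)) ?_ (hW.prod_mem hW.infinity hW.infinity)
  exact Dfn.comp2 (Q := Q) hQ (hW.fs' (DfnF.proj 0)) (hW.sn' (DfnF.proj 0))

/-- The cube of a set. -/
noncomputable def cube (x : ZFSet.{0}) : ZFSet.{0} := ZFSet.prod (ZFSet.prod x x) x

theorem cube_eq {i : ℕ} {c : ZFSet.{0}} (hc : c ∈ ZFSet.omega) :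
    ((Fi (cube (nat i)) ∧ Fi c ∧ Sz (cube (nat i)) c) ∧
      (Fi c ∧ Fi (cube (nat i)) ∧ Sz c (cube (nat i)))) ↔ c = nat (i * i * i) := by
  obtain ⟨k, rfl⟩ := mem_omega_iff.1 hc
  have h1 : Fi (cube (nat i)) := fi_prod (fi_prod (fi_nat i) (fi_nat i)) (fi_nat i)
  have h2 : {x | x ∈ cube (nat i)}.ncard = i * i * i := by
    unfold cube
    rw [ncard_prod, ncard_prod, ncard_nat]
  have h3 := fi_nat k
  constructor
  · rintro ⟨⟨-, -, h4⟩, -, -, h5⟩
    rw [Sz, h2, ncard_nat] at h4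
    rw [Sz, h2, ncard_nat] at h5
    rw [le_antisymm h5 h4]
  · intro h
    have h4 := nat_injective h
    subst h4
    refine ⟨⟨h1, h3, ?_⟩, h3, h1, ?_⟩
    · rw [Sz, h2, ncard_nat]
    · rw [Sz, h2, ncard_nat]

theorem dfn_sc {W : Set ZFSet.{0}} (hW : IsBase W) {n : ℕ}
    {F : (Fin n → ZFSet.{0}) → ZFSet.{0}} (hF : DfnF W W F) : DfnF W W fun w => sc (F w) :=
  hW.insert' hF hF

/-- The part of `x` below `n`. -/
noncomputable def tr (x n : ZFSet.{0}) : ZFSet.{0} := ZFSet.sep (fun i => i ∈ x) n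

theorem mem_tr {x n i : ZFSet.{0}} : i ∈ tr x n ↔ i ∈ n ∧ i ∈ x := ZFSet.mem_sep

theorem tr_sub {x n : ZFSet.{0}} : tr x n ⊆ n := fun _ h => (mem_tr.1 h).1

theorem dfn_tr {W : Set ZFSet.{0}} (hW : IsZF W) {n : ℕ}
    {F G : (Fin n → ZFSet.{0}) → ZFSet.{0}} (hF : DfnF W W F) (hG : DfnF W W G) :
    DfnF W W fun w => tr (F w) (G w) := by
  refine hW.sep' (Q := fun i w => i ∈ F w) hG ?_
  exact Dfn.mem (DfnF.proj 0) hF.tail

section

variable {M N N₀ : Set ZFSet.{0}} (hM : IsZF M) (hN : IsZF N) (hN₀ : IsZF N₀) (h0 : M ⊆ N₀)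
  (h1 : N₀ ⊆ N) {j₀ j₁ : ZFSet.{0}} (hj₀M : j₀ ∈ M) (hj₀ : IsInj (Fw M) ZFSet.omega j₀)
  (hj₁M : j₁ ∈ M) (hj₁ : IsInj (ZFSet.prod ZFSet.omega (Fw M)) ZFSet.omega j₁)

include hM hN hN₀ h0 h1 hj₀M hj₀ hj₁M hj₁

/-- Slaloms give elements of the Raisonnier filter with few elements. -/
theorem rai_of_loc {X : Set (Set ℕ)} (hX : ∀ x ∈ X, stc x ∈ N₀) {XX : ZFSet.{0}} (hXX : XX ∈ N)
    (hXX' : ∀ z, z ∈ XX ↔ ∃ x ∈ X, z = stc x) {f : ℕ → ℕ} (hf : Monotone f)
    (hfN : fnc f ∈ N₀)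
    (hloc : ∀ b : ℕ → ℕ, fnc b ∈ N₀ → ∃ S : ℕ → Finset ℕ, slc S ∈ N ∧ (∀ m, (S m).card ≤ m) ∧
      ∀ y : ℕ → ℕ, fnc y ∈ N₀ → (∀ m, y m < b m) → ∃ m₀, ∀ m ≥ m₀, y m ∈ S m) :
    ∃ A ∈ Rai N X, ∀ n, (A ∩ {i | i < f n}).ncard ≤ n := by
  classical
  have hB₀ := hN₀.base
  have hB := hN.base
  have ho₀ := hN₀.infinity
  have ho := hN.infinity
  have hFwM := Fw_mem hM
  -- the coding
  have hc : ∀ u ∈ Fw M, ∃ k : ℕ, pair u (nat k) ∈ j₀ := by
    intro u hu
    obtain ⟨b, hb, h2⟩ := fun_exists hj₀.1 hu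
    obtain ⟨k, rfl⟩ := mem_omega_iff.1 hb
    exact ⟨k, h2⟩
  choose! c hc using hc
  have hcap : ∀ u ∈ Fw M, ap j₀ u = nat (c u) := fun u hu => ap_func hj₀.1 (hc u hu)
  have hcinj : ∀ u ∈ Fw M, ∀ v ∈ Fw M, c u = c v → u = v := by
    intro u hu v hv h
    have h2 := hc v hv
    rw [← h] at h2
    exact hj₀.2 _ _ _ (hc u hu) h2
  have hFw : ∀ (x : ZFSet.{0}) (n : ℕ), tr x (nat n) ∈ Fw M := fun x n =>
    (mem_Fw hM).2 ⟨n, tr_sub⟩
  -- the partition
  set d : ℕ → ℕ := fun m => max m (f ((m + 1) * (m + 1) * (m + 1))) with hd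
  have hdmono : Monotone d := by
    intro m m' h
    have h2 : (m + 1) * (m + 1) * (m + 1) ≤ (m' + 1) * (m' + 1) * (m' + 1) := by gcongr
    exact max_le_max h (hf h2)
  have hdge : ∀ m, m ≤ d m := fun m => le_max_left _ _
  have hdN₀ : fnc d ∈ N₀ := by
    have hfc := hfN
    refine fnc_mem_of hN₀ (Q := fun m k => ∃ c ∈ ZFSet.omega,
      ((Fi (cube (sc m)) ∧ Fi c ∧ Sz (cube (sc m)) c) ∧
        (Fi c ∧ Fi (cube (sc m)) ∧ Sz c (cube (sc m)))) ∧
      ((m ⊆ ap (fnc f) c ∧ k = ap (fnc f) c) ∨ (ap (fnc f) c ⊆ m ∧ k = m))) ?_ ?_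
    · refine hB₀.bex (Q := fun c w =>
        ((Fi (cube (sc (w 0))) ∧ Fi c ∧ Sz (cube (sc (w 0))) c) ∧
        (Fi c ∧ Fi (cube (sc (w 0))) ∧ Sz c (cube (sc (w 0))))) ∧
        ((w 0 ⊆ ap (fnc f) c ∧ w 1 = ap (fnc f) c) ∨ (ap (fnc f) c ⊆ w 0 ∧ w 1 = w 0)))
        (DfnF.const ho₀) ?_
      have hcu : DfnF N₀ N₀ fun w : Fin 3 → ZFSet.{0} => cube (sc (w 1)) := by
        have h2 : DfnF N₀ N₀ fun w : Fin 3 → ZFSet.{0} => sc (w 1) := dfn_sc hB₀ (DfnF.proj 1)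
        exact hN₀.prod' (hN₀.prod' h2 h2) h2
      have hap : DfnF N₀ N₀ fun w : Fin 3 → ZFSet.{0} => ap (fnc f) (w 0) :=
        hN₀.ap' (DfnF.const hfc) (DfnF.proj 0)
      refine ((dfn_sz hN₀ hcu (DfnF.proj 0)).and (dfn_sz hN₀ (DfnF.proj 0) hcu)).and ?_
      exact ((hB₀.subset' (DfnF.proj 1) hap).and (Dfn.eq (DfnF.proj 2) hap)).or
        ((hB₀.subset' hap (DfnF.proj 1)).and (Dfn.eq (DfnF.proj 2) (DfnF.proj 1)))
    · intro i j
      have hsc : sc (nat i) = nat (i + 1) := rfl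
      constructor
      · rintro ⟨c, hc, h2, h3⟩
        rw [hsc, cube_eq hc] at h2
        subst h2
        rw [ap_fnc] at h3
        simp only [hd]
        rcases h3 with ⟨h3, h4⟩ | ⟨h3, h4⟩
        · rw [nat_sub] at h3
          rw [nat_injective h4, max_eq_right h3]
        · rw [nat_sub] at h3
          rw [nat_injective h4, max_eq_left h3]
      · intro h
        refine ⟨nat ((i + 1) * (i + 1) * (i + 1)), nat_mem_omega _, ?_, ?_⟩
        · rw [hsc]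
          exact (cube_eq (nat_mem_omega _)).2 rfl
        · rw [ap_fnc, nat_sub, nat_sub]
          simp only [hd] at h
          rcases le_total i (f ((i + 1) * (i + 1) * (i + 1))) with h2 | h2
          · rw [max_eq_right h2] at h
            exact Or.inl ⟨h2, by rw [h]⟩
          · rw [max_eq_left h2] at h
            exact Or.inr ⟨h2, by rw [h]⟩
  have hdN := h1 hdN₀
  -- the bounds
  have hbex : ∀ n : ℕ, ∃ k, ∀ u : ZFSet.{0}, u ⊆ nat n → c u < k := by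
    intro n
    obtain ⟨k, hk⟩ := ((fin_subsets n).image c).bddAbove
    exact ⟨k + 1, fun u hu => Nat.lt_succ_of_le (hk ⟨u, hu, rfl⟩)⟩
  set b : ℕ → ℕ := fun m => Nat.find (hbex (d (m + 1))) with hb
  have hbs : ∀ m, ∀ u : ZFSet.{0}, u ⊆ nat (d (m + 1)) → c u < b m :=
    fun m => Nat.find_spec (hbex (d (m + 1)))
  have hbN₀ : fnc b ∈ N₀ := by
    have hj := h0 hj₀M
    refine fnc_mem_of hN₀ (Q := fun m k => (∀ u ∈ pwM N₀ (ap (fnc d) (sc m)), ap j₀ u ∈ k) ∧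
      ∀ l ∈ k, ∃ u ∈ pwM N₀ (ap (fnc d) (sc m)), ap j₀ u ∉ l) ?_ ?_
    · have hp : ∀ {n : ℕ} {F : (Fin n → ZFSet.{0}) → ZFSet.{0}}, DfnF N₀ N₀ F →
          DfnF N₀ N₀ fun w => pwM N₀ (ap (fnc d) (sc (F w))) := fun hF =>
        pwM' hN₀ (hN₀.ap' (DfnF.const hdN₀) (dfn_sc hB₀ hF))
      refine Dfn.and ?_ ?_
      · refine hB₀.ball (Q := fun u w => ap j₀ u ∈ w 1) (hp (DfnF.proj 0)) ?_
        exact Dfn.mem (hN₀.ap' (DfnF.const hj) (DfnF.proj 0)) (DfnF.proj 2)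
      · refine hB₀.ball (Q := fun l w => ∃ u ∈ pwM N₀ (ap (fnc d) (sc (w 0))), ap j₀ u ∉ l)
          (DfnF.proj 1) ?_
        refine hB₀.bex (Q := fun u w => ap j₀ u ∉ w 0) (hp (DfnF.proj 1)) ?_
        exact (Dfn.mem (hN₀.ap' (DfnF.const hj) (DfnF.proj 0)) (DfnF.proj 1)).not
    · intro i j
      have hsc : sc (nat i) = nat (i + 1) := rfl
      rw [hsc, ap_fnc]
      have hpw : ∀ u, u ∈ pwM N₀ (nat (d (i + 1))) ↔ u ⊆ nat (d (i + 1)) := fun u => by
        rw [mem_pwM]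
        exact ⟨fun h => h.2, fun h => ⟨sub_nat_mem hN₀ h, h⟩⟩
      have hcu : ∀ u, u ⊆ nat (d (i + 1)) → ap j₀ u = nat (c u) := fun u hu =>
        hcap u ((mem_Fw hM).2 ⟨_, hu⟩)
      constructor
      · rintro ⟨h2, h3⟩
        symm
        refine (Nat.find_eq_iff (hbex (d (i + 1)))).2 ⟨fun u hu => ?_, fun l hl h4 => ?_⟩
        · have h4 := h2 u ((hpw u).2 hu)
          rwa [hcu u hu, nat_mem_iff] at h4
        · obtain ⟨u, hu, h5⟩ := h3 (nat l) (nat_mem_iff.2 hl)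
          have h6 := (hpw u).1 hu
          rw [hcu u h6, nat_mem_iff] at h5
          exact h5 (h4 u h6)
      · rintro rfl
        refine ⟨fun u hu => ?_, fun l hl => ?_⟩
        · have h6 := (hpw u).1 hu
          rw [hcu u h6, nat_mem_iff]
          exact hbs i u h6
        · obtain ⟨l', hl', rfl⟩ := mem_nat.1 hl
          have h4 := Nat.find_min (hbex (d (i + 1))) hl'
          push Not at h4
          obtain ⟨u, hu, h5⟩ := h4
          refine ⟨u, (hpw u).2 hu, ?_⟩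
          rw [hcu u hu, nat_mem_iff]
          omega
  obtain ⟨S, hSN, hScard, hS⟩ := hloc b hbN₀
  -- the points of `X` are captured
  have hcapt : ∀ x ∈ X, ∃ m₀, ∀ m ≥ m₀, c (tr (stc x) (nat (d (m + 1)))) ∈ S m := by
    intro x hx
    refine hS (fun m => c (tr (stc x) (nat (d (m + 1))))) ?_ fun m => hbs m _ tr_sub
    have hj := h0 hj₀M
    refine fnc_mem_of hN₀ (Q := fun m k => k = ap j₀ (tr (stc x) (ap (fnc d) (sc m)))) ?_ ?_
    · refine Dfn.eq (DfnF.proj 1) (hN₀.ap' (DfnF.const hj) ?_)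
      exact dfn_tr hN₀ (DfnF.const (hX x hx)) (hN₀.ap' (DfnF.const hdN₀)
        (dfn_sc hB₀ (DfnF.proj 0)))
    · intro i j
      have hsc : sc (nat i) = nat (i + 1) := rfl
      rw [hsc, ap_fnc, hcap _ (hFw _ _)]
      exact ⟨fun h => nat_injective h, fun h => by rw [h]⟩
  -- the element of the filter
  set Am : ℕ → ℕ → Prop := fun m n => d m ≤ n ∧ n < d (m + 1) ∧ ∃ u ∈ Fw M, ∃ v ∈ Fw M,
    c u ∈ S m ∧ c v ∈ S m ∧ (∀ i < n, (nat i ∈ u ↔ nat i ∈ v)) ∧ ¬ (nat n ∈ u ↔ nat n ∈ v)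
    with hAm
  set A : Set ℕ := {n | ∃ m, Am m n} with hA
  have hjN := h1 (h0 hj₀M)
  have hFwN := h1 (h0 hFwM)
  have hAN : stc A ∈ N := by
    have h2 : stc A = ZFSet.sep (fun n => ∃ m ∈ ZFSet.omega, ap (fnc d) m ⊆ n ∧
        n ∈ ap (fnc d) (sc m) ∧ ∃ u ∈ Fw M, ∃ v ∈ Fw M, pair m (ap j₀ u) ∈ slc S ∧
        pair m (ap j₀ v) ∈ slc S ∧ (∀ i ∈ n, (i ∈ u ↔ i ∈ v)) ∧ ¬ (n ∈ u ↔ n ∈ v))
        ZFSet.omega := by
      ext z
      rw [mem_stc, ZFSet.mem_sep]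
      constructor
      · rintro ⟨n, ⟨m, h3, h4, u, hu, v, hv, h5, h6, h7, h8⟩, rfl⟩
        have hsc : sc (nat m) = nat (m + 1) := rfl
        refine ⟨nat_mem_omega n, nat m, nat_mem_omega m, ?_, ?_, u, hu, v, hv, ?_, ?_, ?_, h8⟩
        · rw [ap_fnc, nat_sub]
          exact h3
        · rw [hsc, ap_fnc, nat_mem_iff]
          exact h4
        · rw [hcap u hu, pair_mem_slc]
          exact h5
        · rw [hcap v hv, pair_mem_slc]
          exact h6
        · intro i hi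
          obtain ⟨k, hk, rfl⟩ := mem_nat.1 hi
          exact h7 k hk
      · rintro ⟨h2, m, hm, h3, h4, u, hu, v, hv, h5, h6, h7, h8⟩
        obtain ⟨n, rfl⟩ := mem_omega_iff.1 h2
        obtain ⟨m, rfl⟩ := mem_omega_iff.1 hm
        have hsc : sc (nat m) = nat (m + 1) := rfl
        rw [ap_fnc, nat_sub] at h3
        rw [hsc, ap_fnc, nat_mem_iff] at h4
        rw [hcap u hu, pair_mem_slc] at h5
        rw [hcap v hv, pair_mem_slc] at h6
        exact ⟨n, ⟨m, h3, h4, u, hu, v, hv, h5, h6, fun i hi => h7 _ (nat_mem_iff.2 hi), h8⟩, rfl⟩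
    rw [h2]
    refine hN.sep_mem ?_ ho
    (repeat' first
      | assumption
      | exact DfnF.proj _
      | exact DfnF.const (by assumption)
      | apply Dfn.and | apply Dfn.not | apply Dfn.iff | apply hB.ball | apply hB.bex
      | apply hB.subset'
      | apply Dfn.mem | apply Dfn.eq | apply hB.pair' | apply hN.ap' | apply dfn_sc hB)
  set Y : ℕ → Set (Set ℕ) := fun k => {x | x ∈ X ∧ ∃ m₀ : ℕ, ∃ u ∈ Fw M,
    pair (pair (nat m₀) u) (nat k) ∈ j₁ ∧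
    (∀ m ≥ m₀, c (tr (stc x) (nat (d (m + 1)))) ∈ S m) ∧ tr (stc x) (nat (d m₀)) = u} with hY
  have hj₁N := h1 (h0 hj₁M)
  have hYN : sqc Y ∈ N := by
    have h2 : sqc Y = ZFSet.sep (fun z => ∃ m₀ ∈ ZFSet.omega, ∃ u ∈ Fw M,
        pair (pair m₀ u) (fs z) ∈ j₁ ∧ (∀ m ∈ ZFSet.omega, m₀ ⊆ m →
          pair m (ap j₀ (tr (sn z) (ap (fnc d) (sc m)))) ∈ slc S) ∧
        tr (sn z) (ap (fnc d) m₀) = u) (ZFSet.prod ZFSet.omega XX) := by
      ext z
      rw [mem_sqc, ZFSet.mem_sep]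
      constructor
      · rintro ⟨k, x, ⟨hx, m₀, u, hu, h3, h4, h5⟩, rfl⟩
        refine ⟨ZFSet.pair_mem_prod.2 ⟨nat_mem_omega k, (hXX' _).2 ⟨x, hx, rfl⟩⟩, ?_⟩
        rw [fs_pair, sn_pair]
        refine ⟨nat m₀, nat_mem_omega _, u, hu, h3, fun m hm hmm => ?_, ?_⟩
        · obtain ⟨m, rfl⟩ := mem_omega_iff.1 hm
          have hsc : sc (nat m) = nat (m + 1) := rfl
          rw [nat_sub] at hmm
          rw [hsc, ap_fnc, hcap _ (hFw _ _), pair_mem_slc]
          exact h4 m hmm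
        · rw [ap_fnc]
          exact h5
      · rintro ⟨h2, m₀, hm₀, u, hu, h3, h4, h5⟩
        obtain ⟨k, hk, s, hs, rfl⟩ := ZFSet.mem_prod.1 h2
        obtain ⟨k, rfl⟩ := mem_omega_iff.1 hk
        obtain ⟨x, hx, rfl⟩ := (hXX' _).1 hs
        obtain ⟨m₀, rfl⟩ := mem_omega_iff.1 hm₀
        rw [fs_pair] at h3
        rw [sn_pair, ap_fnc] at h5
        refine ⟨k, x, ⟨hx, m₀, u, hu, h3, fun m hm => ?_, h5⟩, rfl⟩
        have h6 := h4 (nat m) (nat_mem_omega m) (nat_sub.2 hm)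
        have hsc : sc (nat m) = nat (m + 1) := rfl
        rwa [hsc, sn_pair, ap_fnc, hcap _ (hFw _ _), pair_mem_slc] at h6
    rw [h2]
    refine hN.sep_mem ?_ (hN.prod_mem ho hXX)
    (repeat' first
      | assumption
      | exact DfnF.proj _
      | exact DfnF.const (by assumption)
      | apply Dfn.and | apply Dfn.not | apply Dfn.iff | apply Dfn.imp | apply hB.ball
      | apply hB.bex | apply hB.subset'
      | apply Dfn.mem | apply Dfn.eq | apply hB.pair' | apply hN.ap' | apply dfn_sc hB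
      | apply dfn_tr hN | apply hN.fs' | apply hN.sn')
  refine ⟨A, ⟨hAN, Y, hYN, ?_, ?_⟩, ?_⟩
  · ext x
    rw [Set.mem_iUnion]
    constructor
    · intro hx
      obtain ⟨m₀, hm₀⟩ := hcapt x hx
      have h2 : pair (nat m₀) (tr (stc x) (nat (d m₀))) ∈ ZFSet.prod ZFSet.omega (Fw M) :=
        ZFSet.pair_mem_prod.2 ⟨nat_mem_omega _, hFw _ _⟩
      obtain ⟨k, hk, h3⟩ := fun_exists hj₁.1 h2
      obtain ⟨k, rfl⟩ := mem_omega_iff.1 hk
      exact ⟨k, hx, m₀, _, hFw _ _, h3, hm₀, rfl⟩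
    · rintro ⟨k, h2⟩
      exact h2.1
  · rintro k n ⟨x, ⟨hx, m₀, u, hu, h3, h4, h5⟩, y, ⟨hy, m₁, v, hv, h6, h7, h8⟩, h9, h10⟩
    obtain ⟨h11, h12⟩ := ZFSet.pair_inj.1 (hj₁.2 _ _ _ h3 h6)
    have h13 := nat_injective h11
    subst h13
    subst h12
    -- `n` is not below `d m₀`
    have h14 : d m₀ ≤ n := by
      by_contra h
      push Not at h
      refine h10 ?_
      have h15 : nat n ∈ tr (stc x) (nat (d m₀)) ↔ nat n ∈ tr (stc y) (nat (d m₀)) := by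
        rw [h5, h8]
      rw [mem_tr, mem_tr, nat_mem_stc, nat_mem_stc, nat_mem_iff] at h15
      tauto
    -- the interval that contains `n`
    have h15 : ∃ m, m₀ ≤ m ∧ n < d (m + 1) := by
      refine ⟨max m₀ n, le_max_left _ _, ?_⟩
      have := hdge (max m₀ n + 1)
      have := le_max_right m₀ n
      omega
    obtain ⟨m, ⟨h16, h17⟩, h18⟩ : ∃ m, (m₀ ≤ m ∧ n < d (m + 1)) ∧ ∀ k < m,
        ¬ (m₀ ≤ k ∧ n < d (k + 1)) :=
      ⟨Nat.find h15, Nat.find_spec h15, fun k hk => Nat.find_min h15 hk⟩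
    have h19 : d m ≤ n := by
      rcases h16.lt_or_eq with h20 | h20
      · have h21 := h18 (m - 1) (by omega)
        have h22 : m - 1 + 1 = m := by omega
        rw [h22] at h21
        by_contra h23
        exact h21 ⟨by omega, by omega⟩
      · rwa [← h20]
    refine ⟨m, h19, h17, _, hFw (stc x) (d (m + 1)), _, hFw (stc y) (d (m + 1)), h4 m h16,
      h7 m h16, fun i hi => ?_, ?_⟩
    · rw [mem_tr, mem_tr, nat_mem_stc, nat_mem_stc, h9 i hi]
    · rw [mem_tr, mem_tr, nat_mem_stc, nat_mem_stc, nat_mem_iff]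
      intro h
      exact h10 (by tauto)
  · -- the number of elements
    have hcount : ∀ m, {n | Am m n}.ncard ≤ m * m := by
      intro m
      have h2 : ∀ n ∈ {n | Am m n}, ∃ p : ℕ × ℕ, p ∈ (S m ×ˢ S m : Finset (ℕ × ℕ)) ∧
          ∃ u ∈ Fw M, ∃ v ∈ Fw M, p = (c u, c v) ∧ (∀ i < n, (nat i ∈ u ↔ nat i ∈ v)) ∧
            ¬ (nat n ∈ u ↔ nat n ∈ v) := by
        rintro n ⟨-, -, u, hu, v, hv, h5, h6, h7, h8⟩
        exact ⟨(c u, c v), Finset.mem_product.2 ⟨h5, h6⟩, u, hu, v, hv, rfl, h7, h8⟩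
      choose! g hg1 hg2 using h2
      have h3 : {n | Am m n}.ncard ≤ ((S m ×ˢ S m : Finset (ℕ × ℕ)) : Set (ℕ × ℕ)).ncard := by
        refine Set.ncard_le_ncard_of_injOn g (fun n hn => hg1 n hn) ?_ (Finset.finite_toSet _)
        intro n hn n' hn' h
        obtain ⟨u, hu, v, hv, h4, h5, h6⟩ := hg2 n hn
        obtain ⟨u', hu', v', hv', h7, h8, h9⟩ := hg2 n' hn'
        rw [h, h7, Prod.mk.injEq] at h4
        have h10 := hcinj _ hu' _ hu h4.1
        have h11 := hcinj _ hv' _ hv h4.2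
        subst h10
        subst h11
        rcases lt_trichotomy n n' with h12 | h12 | h12
        · exact absurd (h8 n h12) h6
        · exact h12
        · exact absurd (h5 n' h12) h9
      rw [Set.ncard_coe_finset, Finset.card_product] at h3
      exact h3.trans (Nat.mul_le_mul (hScard m) (hScard m))
    have hAmd : ∀ m n, Am m n → d m ≤ n := fun m n h => h.1
    have hfin : ∀ D, (A ∩ {i | i < D}).Finite := fun D =>
      Set.Finite.subset (Set.finite_Iio D) fun x hx => hx.2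
    have hbelow : ∀ m, (A ∩ {i | i < d m}).ncard ≤ m * m * m := by
      intro m
      have h2 : A ∩ {i | i < d m} ⊆ ⋃ k ∈ Finset.range m, {n | Am k n} := by
        rintro n ⟨⟨k, hk⟩, h3⟩
        have h3' : n < d m := h3
        rw [Set.mem_iUnion₂]
        refine ⟨k, Finset.mem_range.2 ?_, hk⟩
        by_contra h4
        push Not at h4
        have h5 := hdmono h4
        have h6 := hAmd k n hk
        omega
      have h3 : (⋃ k ∈ Finset.range m, {n | Am k n}).Finite := by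
        refine Set.Finite.biUnion (Finset.finite_toSet _) fun k _ => ?_
        exact Set.Finite.subset (Set.finite_Iio (d (k + 1))) fun x hx => hx.2.1
      refine (Set.ncard_le_ncard h2 h3).trans ?_
      refine (Finset.set_ncard_biUnion_le (Finset.range m) fun k => {n | Am k n}).trans ?_
      refine (Finset.sum_le_sum fun k hk => (hcount k).trans
        (Nat.mul_le_mul (Finset.mem_range.1 hk).le (Finset.mem_range.1 hk).le)).trans ?_
      rw [Finset.sum_const, Finset.card_range, smul_eq_mul]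
      exact le_of_eq (by ring)
    intro n
    by_cases h2 : f n ≤ d 0
    · have h3 : A ∩ {i | i < f n} = ∅ := by
        refine Set.eq_empty_iff_forall_notMem.2 fun i hi => ?_
        obtain ⟨⟨m, hm⟩, h4⟩ := hi
        have h4' : i < f n := h4
        have h5 := hAmd m i hm
        have h6 := hdmono (Nat.zero_le m)
        omega
      rw [h3, Set.ncard_empty]
      exact Nat.zero_le _
    · have h3 : ∃ m, f n ≤ d m := ⟨f n, hdge _⟩
      obtain ⟨m, h4, h5⟩ : ∃ m, f n ≤ d m ∧ ∀ k < m, ¬ f n ≤ d k :=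
        ⟨Nat.find h3, Nat.find_spec h3, fun k hk => Nat.find_min h3 hk⟩
      have h6 : m ≠ 0 := by
        rintro rfl
        exact h2 h4
      have h7 := h5 (m - 1) (by omega)
      push Not at h7
      have h8 : f (m * m * m) ≤ d (m - 1) := by
        have h9 : m - 1 + 1 = m := by omega
        have h10 : f ((m - 1 + 1) * (m - 1 + 1) * (m - 1 + 1)) ≤ d (m - 1) := le_max_right _ _
        rwa [h9] at h10
      have h9 : m * m * m < n := by
        by_contra h10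
        push Not at h10
        have := hf h10
        omega
      refine (Set.ncard_le_ncard ?_ (hfin (d m))).trans ((hbelow m).trans h9.le)
      rintro i ⟨h10, h11⟩
      exact ⟨h10, lt_of_lt_of_le h11 h4⟩

end

end Pool.Agent.H635.RF
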