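import Pool.Agent.H635.RF.Gdf
import Pool.Agent.H635.RF.Ra

/-!
# The Cantor space of a model does not have measure zero
-/

set_option autoImplicit false
set_option linter.unreachableTactic false
set_option linter.unusedTactic false
set_option linter.unusedSectionVars false
set_option linter.unusedVariables false

namespace Pool.Agent.H635.RF

open Pool.Agent.W868 Pool.Agent.W868.GM Pool.Agent.Y588
open Pool.Agent.H635.RB (Fi dfn_fi fin_mem nat_mem_iff mem_nat nat_sub ap_unique)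
open ZFSet (pair)

theorem mem_cyc {S : Set (ℕ × Finset ℕ)} {z : ZFSet.{0}} : z ∈ cyc S ↔
    ∃ c ∈ S, z = pair (nat c.1) (stc {i | i ∈ c.2}) := by
  unfold cyc
  rw [ZFSet.mem_range]
  constructor
  · rintro ⟨⟨c, hc⟩, rfl⟩
    exact ⟨c, hc, rfl⟩
  · rintro ⟨c, hc, rfl⟩
    exact ⟨⟨c, hc⟩, rfl⟩

/-- The number of the subsets of `n` in a basic open set. -/
theorem card_cyl (n : ℕ) (c : ℕ × Finset ℕ) (h : c.1 ≤ n) :
    ((Finset.range n).powerset.filter fun V => ∀ i < c.1, (i ∈ V ↔ i ∈ c.2)).card ≤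
      2 ^ (n - c.1) := by
  classical
  have h1 : ((Finset.Ico c.1 n).powerset).card = 2 ^ (n - c.1) := by
    rw [Finset.card_powerset, Nat.card_Ico]
  rw [← h1]
  refine Finset.card_le_card_of_injOn (fun V => V.filter fun i => c.1 ≤ i) ?_ ?_
  · intro V hV
    have hV' : V ⊆ Finset.range n := Finset.mem_powerset.1 (Finset.mem_filter.1 hV).1
    refine Finset.mem_powerset.2 fun i hi => ?_
    obtain ⟨h2, h3⟩ := Finset.mem_filter.1 hi
    exact Finset.mem_Ico.2 ⟨h3, Finset.mem_range.1 (hV' h2)⟩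
  · intro V hV W hW hVW
    have h2 := (Finset.mem_filter.1 hV).2
    have h3 := (Finset.mem_filter.1 hW).2
    have hVW' : (V.filter fun i => c.1 ≤ i) = W.filter fun i => c.1 ≤ i := hVW
    ext i
    rcases lt_or_ge i c.1 with h4 | h4
    · rw [h2 i h4, h3 i h4]
    · have h5 : i ∈ (V.filter fun i => c.1 ≤ i) ↔ i ∈ W.filter fun i => c.1 ≤ i := by rw [hVW']
      rw [Finset.mem_filter, Finset.mem_filter] at h5
      tauto

/-- Basic open sets of small measure do not cover all finite sets. -/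
theorem exists_uncov {S : Set (ℕ × Finset ℕ)} (hS : ∑' c : S, (2⁻¹ : ENNReal) ^ c.1.1 ≤ 2⁻¹ ^ 1)
    (n : ℕ) : ∃ V ⊆ Finset.range n, ∀ c ∈ S, c.1 ≤ n → ¬ ∀ i < c.1, (i ∈ V ↔ i ∈ c.2) := by
  classical
  by_contra hcon
  push Not at hcon
  choose! f hf using hcon
  set T : Finset (ℕ × Finset ℕ) := (Finset.range n).powerset.image f with hT
  have hTS : ∀ c ∈ T, c ∈ S ∧ c.1 ≤ n := by
    intro c hc
    obtain ⟨V, hV, rfl⟩ := Finset.mem_image.1 hc
    have h1 := hf V (Finset.mem_powerset.1 hV)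
    exact ⟨h1.1, h1.2.1⟩
  have h1 : (2 : ℕ) ^ n ≤ ∑ c ∈ T, 2 ^ (n - c.1) := by
    have h2 : (Finset.range n).powerset ⊆ T.biUnion fun c =>
        (Finset.range n).powerset.filter fun V => ∀ i < c.1, (i ∈ V ↔ i ∈ c.2) := by
      intro V hV
      refine Finset.mem_biUnion.2 ⟨f V, Finset.mem_image.2 ⟨V, hV, rfl⟩, Finset.mem_filter.2
        ⟨hV, ?_⟩⟩
      have h3 := hf V (Finset.mem_powerset.1 hV)
      exact h3.2.2
    calc (2 : ℕ) ^ n = ((Finset.range n).powerset).card := by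
          rw [Finset.card_powerset, Finset.card_range]
      _ ≤ _ := Finset.card_le_card h2
      _ ≤ ∑ c ∈ T, ((Finset.range n).powerset.filter fun V =>
          ∀ i < c.1, (i ∈ V ↔ i ∈ c.2)).card := Finset.card_biUnion_le
      _ ≤ _ := Finset.sum_le_sum fun c hc => card_cyl n c (hTS c hc).2
  have h2 : (1 : ENNReal) ≤ ∑ c ∈ T, (2⁻¹ : ENNReal) ^ c.1 := by
    have h20 : (2 : ENNReal) ≠ 0 := two_ne_zero
    have h21 : (2 : ENNReal) ≠ ⊤ := ENNReal.ofNat_ne_top
    have h3 : ∀ c ∈ T, (2⁻¹ : ENNReal) ^ c.1 = 2 ^ (n - c.1) * (2⁻¹) ^ n := by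
      intro c hc
      have h4 := (hTS c hc).2
      have h5 : (2⁻¹ : ENNReal) ^ n = 2⁻¹ ^ (n - c.1) * 2⁻¹ ^ c.1 := by
        rw [← pow_add, Nat.sub_add_cancel h4]
      rw [h5, ← mul_assoc, ← mul_pow, ENNReal.mul_inv_cancel h20 h21, one_pow, one_mul]
    rw [Finset.sum_congr rfl h3, ← Finset.sum_mul]
    have h4 : (2 : ENNReal) ^ n ≤ ∑ c ∈ T, 2 ^ (n - c.1) := by
      exact_mod_cast h1
    calc (1 : ENNReal) = 2 ^ n * 2⁻¹ ^ n := by
          rw [← mul_pow, ENNReal.mul_inv_cancel h20 h21, one_pow]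
      _ ≤ _ := by gcongr
  have h3 : ∑ c ∈ T, (2⁻¹ : ENNReal) ^ c.1 ≤ ∑' c : S, (2⁻¹ : ENNReal) ^ c.1.1 := by
    rw [tsum_subtype S fun c : ℕ × Finset ℕ => (2⁻¹ : ENNReal) ^ c.1]
    refine le_trans' (ENNReal.sum_le_tsum T) (Finset.sum_le_sum fun c hc => ?_)
    rw [Set.indicator_of_mem (hTS c hc).1]
  have h4 := h2.trans (h3.trans hS)
  rw [pow_one] at h4
  have h5 : (2⁻¹ : ENNReal) < 1 := ENNReal.one_half_lt_one
  exact absurd h4 (not_le.2 h5)

/-- The basic open set of `(l, u)` is covered by finitely many sets in `s`. -/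
def Cv (N : Set ZFSet.{0}) (s l u : ZFSet.{0}) : Prop :=
  ∃ n ∈ ZFSet.omega, l ⊆ n ∧ ∀ v ∈ pwM N n, tr v l = u →
    ∃ c ∈ s, fs c ⊆ n ∧ tr v (fs c) = tr (sn c) (fs c)

theorem tr_tr {v n l : ZFSet.{0}} (h : l ⊆ n) : tr (tr v n) l = tr v l := by
  ext z
  rw [mem_tr, mem_tr, mem_tr]
  constructor
  · rintro ⟨h1, -, h2⟩
    exact ⟨h1, h2⟩
  · rintro ⟨h1, h2⟩
    exact ⟨h1, h h1, h2⟩

section

variable {N : Set ZFSet.{0}} (hN : IsZF N)

include hN

theorem tr_pwM {v n : ZFSet.{0}} (hv : v ∈ N) (hn : n ∈ N) : tr v n ∈ pwM N n := by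
  refine mem_pwM.2 ⟨?_, tr_sub⟩
  exact hN.sep_mem (Q := fun i => i ∈ v) (Dfn.mem (DfnF.proj 0) (DfnF.const hv)) hn

theorem dfn_Cv {s : ZFSet.{0}} (hs : s ∈ N) {k : ℕ} {l u : (Fin k → ZFSet.{0}) → ZFSet.{0}}
    (hl : DfnF N N l) (hu : DfnF N N u) : Dfn N N fun w => Cv N s (l w) (u w) := by
  have hB := hN.base
  have ho := hN.infinity
  refine Dfn.comp2 (Q := Cv N s) ?_ hl hu
  have hp : ∀ {k : ℕ} {F : (Fin k → ZFSet.{0}) → ZFSet.{0}}, DfnF N N F →
      DfnF N N fun w => pwM N (F w) := fun h => pwM' hN h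
  unfold Cv
  (repeat' first
      | assumption
      | exact DfnF.proj _
      | exact DfnF.const (by assumption)
      | apply hB.subset' | apply Dfn.and | apply hB.bex | apply hB.ball | apply Dfn.imp
      | apply Dfn.eq | apply dfn_tr hN | apply hN.fs' | apply hN.sn' | apply hp)

theorem cv_mono {s : ZFSet.{0}} {l n m : ℕ} {u : ZFSet.{0}} (hnm : n ≤ m)
    (h : ∀ v ∈ pwM N (nat n), tr v (nat l) = u →
      ∃ c ∈ s, fs c ⊆ nat n ∧ tr v (fs c) = tr (sn c) (fs c)) (hln : l ≤ n) :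
    ∀ v ∈ pwM N (nat m), tr v (nat l) = u →
      ∃ c ∈ s, fs c ⊆ nat m ∧ tr v (fs c) = tr (sn c) (fs c) := by
  intro v hv hvu
  obtain ⟨c, hc, h1, h2⟩ := h (tr v (nat n)) (tr_pwM hN (mem_pwM.1 hv).1 (hN.nat_mem n)) (by
    rw [tr_tr (nat_sub.2 hln)]
    exact hvu)
  refine ⟨c, hc, fun z hz => nat_sub.2 hnm (h1 hz), ?_⟩
  rwa [tr_tr h1] at h2

theorem cv_step {s : ZFSet.{0}} {l : ℕ} {u : ZFSet.{0}} (hu : u ⊆ nat l)
    (h1 : Cv N s (nat (l + 1)) u) (h2 : Cv N s (nat (l + 1)) (insert (nat l) u)) :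
    Cv N s (nat l) u := by
  obtain ⟨n, hn, h3, h4⟩ := h1
  obtain ⟨m, hm, h5, h6⟩ := h2
  obtain ⟨n, rfl⟩ := mem_omega_iff.1 hn
  obtain ⟨m, rfl⟩ := mem_omega_iff.1 hm
  rw [nat_sub] at h3 h5
  refine ⟨nat (max n m), nat_mem_omega _, nat_sub.2 (by omega), fun v hv hvu => ?_⟩
  have hlu : nat l ∉ u := fun h => ZFSet.mem_irrefl _ (hu h)
  by_cases h7 : nat l ∈ v
  · refine cv_mono hN (le_max_right n m) h6 h5 v hv ?_
    ext z
    rw [mem_tr, ZFSet.mem_insert_iff, ← hvu, mem_tr, mem_nat_succ]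
    constructor
    · rintro ⟨rfl | h8, h9⟩
      · exact Or.inl rfl
      · exact Or.inr ⟨h8, h9⟩
    · rintro (rfl | ⟨h8, h9⟩)
      · exact ⟨Or.inl rfl, h7⟩
      · exact ⟨Or.inr h8, h9⟩
  · refine cv_mono hN (le_max_left n m) h4 h3 v hv ?_
    ext z
    rw [mem_tr, ← hvu, mem_tr, mem_nat_succ]
    constructor
    · rintro ⟨rfl | h8, h9⟩
      · exact absurd h9 h7
      · exact ⟨h8, h9⟩
    · rintro ⟨h8, h9⟩
      exact ⟨Or.inr h8, h9⟩

/-- The Cantor space of the model does not have measure zero in the model. -/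
theorem not_null_univ : ¬ NullIn N Set.univ := by
  classical
  intro hnull
  obtain ⟨S, hSN, hsum, hcov⟩ := hnull 1
  have hB := hN.base
  have ho := hN.infinity
  set s := cyc S with hs
  have hroot : ¬ Cv N s (nat 0) ∅ := by
    rintro ⟨n, hn, -, h⟩
    obtain ⟨n, rfl⟩ := mem_omega_iff.1 hn
    obtain ⟨V, hV, h1⟩ := exists_uncov hsum n
    have h2 : stc {i | i ∈ V} ⊆ nat n := by
      intro z hz
      obtain ⟨i, hi, rfl⟩ := mem_stc.1 hz
      exact nat_mem_iff.2 (Finset.mem_range.1 (hV hi))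
    obtain ⟨c, hc, h3, h4⟩ := h (stc {i | i ∈ V}) (mem_pwM.2 ⟨sub_nat_mem hN h2, h2⟩) (by
      rw [ZFSet.eq_empty]
      intro z hz
      exact ZFSet.notMem_empty _ (mem_tr.1 hz).1)
    obtain ⟨c, hcS, rfl⟩ := mem_cyc.1 hc
    rw [fs_pair] at h3 h4
    rw [sn_pair] at h4
    refine h1 c hcS (nat_sub.1 h3) fun i hi => ?_
    have h5 : nat i ∈ tr (stc {i | i ∈ V}) (nat c.1) ↔ nat i ∈ tr (stc {i | i ∈ c.2}) (nat c.1) := by
      rw [h4]
    rw [mem_tr, mem_tr, nat_mem_stc, nat_mem_stc, nat_mem_iff] at h5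
    exact ⟨fun h => (h5.1 ⟨hi, h⟩).2, fun h => (h5.2 ⟨hi, h⟩).2⟩
  -- the leftmost branch
  let b : ℕ → ZFSet.{0} := fun l => Nat.rec ∅ (fun l u => if Cv N s (nat (l + 1)) u then
    insert (nat l) u else u) l
  have hb0 : b 0 = ∅ := rfl
  have hbs : ∀ l, b (l + 1) = if Cv N s (nat (l + 1)) (b l) then insert (nat l) (b l) else b l :=
    fun l => rfl
  have hbsub : ∀ l, b l ⊆ nat l := by
    intro l
    induction l with
    | zero => rw [hb0]; exact ZFSet.empty_subset _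
    | succ l ih =>
      rw [hbs]
      intro z hz
      rw [mem_nat_succ]
      split_ifs at hz
      · rcases ZFSet.mem_insert_iff.1 hz with h | h
        · exact Or.inl h
        · exact Or.inr (ih h)
      · exact Or.inr (ih hz)
  have hbn : ∀ l, ¬ Cv N s (nat l) (b l) := by
    intro l
    induction l with
    | zero => rw [hb0]; exact hroot
    | succ l ih =>
      rw [hbs]
      split_ifs with h
      · exact fun h' => ih (cv_step hN (hbsub l) h h')
      · exact h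
  set y : Set ℕ := {l | Cv N s (nat (l + 1)) (b l)} with hy
  have hby : ∀ l, tr (stc y) (nat l) = b l := by
    intro l
    induction l with
    | zero =>
      rw [hb0, ZFSet.eq_empty]
      intro z hz
      exact ZFSet.notMem_empty _ (mem_tr.1 hz).1
    | succ l ih =>
      rw [hbs]
      ext z
      rw [mem_tr, mem_nat_succ]
      split_ifs with h
      · rw [ZFSet.mem_insert_iff, ← ih, mem_tr]
        constructor
        · rintro ⟨rfl | h1, h2⟩
          · exact Or.inl rfl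
          · exact Or.inr ⟨h1, h2⟩
        · rintro (rfl | ⟨h1, h2⟩)
          · exact ⟨Or.inl rfl, nat_mem_stc.2 h⟩
          · exact ⟨Or.inr h1, h2⟩
      · rw [← ih, mem_tr]
        constructor
        · rintro ⟨rfl | h1, h2⟩
          · exact absurd (nat_mem_stc.1 h2) h
          · exact ⟨h1, h2⟩
        · rintro ⟨h1, h2⟩
          exact ⟨Or.inr h1, h2⟩
  -- the branch is in the model
  have hcan : ∀ l : ℕ, ∀ t ⊆ nat l, (∀ i ∈ nat l, (i ∈ t ↔ Cv N s (sc i) (tr t i))) ↔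
      t = b l := by
    intro l t ht
    constructor
    · intro h
      have h1 : ∀ i ≤ l, tr t (nat i) = b i := by
        intro i
        induction i with
        | zero =>
          intro _
          rw [hb0, ZFSet.eq_empty]
          intro z hz
          exact ZFSet.notMem_empty _ (mem_tr.1 hz).1
        | succ i ih =>
          intro hi
          have h2 := ih (by omega)
          have h3 := h (nat i) (nat_mem_iff.2 (by omega))
          rw [h2] at h3
          have h3 : nat i ∈ t ↔ Cv N s (nat (i + 1)) (b i) := h3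
          rw [hbs]
          ext z
          rw [mem_tr, mem_nat_succ]
          split_ifs with h4
          · rw [ZFSet.mem_insert_iff, ← h2, mem_tr]
            constructor
            · rintro ⟨rfl | h5, h6⟩
              · exact Or.inl rfl
              · exact Or.inr ⟨h5, h6⟩
            · rintro (rfl | ⟨h5, h6⟩)
              · exact ⟨Or.inl rfl, h3.2 h4⟩
              · exact ⟨Or.inr h5, h6⟩
          · rw [← h2, mem_tr]
            constructor
            · rintro ⟨rfl | h5, h6⟩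
              · exact absurd (h3.1 h6) h4
              · exact ⟨h5, h6⟩
            · rintro ⟨h5, h6⟩
              exact ⟨Or.inr h5, h6⟩
      rw [← h1 l le_rfl]
      ext z
      rw [mem_tr]
      exact ⟨fun h => ⟨ht h, h⟩, fun h => h.2⟩
    · rintro rfl i hi
      obtain ⟨i, hil, rfl⟩ := mem_nat.1 hi
      have h1 : tr (b l) (nat i) = b i := by
        rw [← hby l, tr_tr (nat_sub.2 hil.le), hby]
      rw [h1, ← hby l, mem_tr, nat_mem_stc]
      exact ⟨fun h => h.2, fun h => ⟨hi, h⟩⟩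
  have hyN : stc y ∈ N := by
    have h1 : stc y = ZFSet.sep (fun j => ∃ t ∈ pwM N (sc j), (∀ i ∈ sc j, (i ∈ t ↔
        Cv N s (sc i) (tr t i))) ∧ j ∈ t) ZFSet.omega := by
      ext z
      rw [ZFSet.mem_sep]
      constructor
      · intro hz
        obtain ⟨l, hl, rfl⟩ := mem_stc.1 hz
        refine ⟨nat_mem_omega l, b (l + 1), mem_pwM.2 ⟨sub_nat_mem hN (hbsub (l + 1)),
          hbsub (l + 1)⟩, (hcan (l + 1) _ (hbsub (l + 1))).2 rfl, ?_⟩
        rw [← hby (l + 1), mem_tr]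
        exact ⟨nat_mem_iff.2 (Nat.lt_succ_self l), hz⟩
      · rintro ⟨h1, t, ht, h2, h3⟩
        obtain ⟨l, rfl⟩ := mem_omega_iff.1 h1
        have h4 : t = b (l + 1) := (hcan (l + 1) t (mem_pwM.1 ht).2).1 h2
        rw [h4, ← hby (l + 1), mem_tr] at h3
        exact h3.2
    rw [h1]
    refine hN.sep_mem (Q := fun j => ∃ t ∈ pwM N (sc j), (∀ i ∈ sc j, (i ∈ t ↔
      Cv N s (sc i) (tr t i))) ∧ j ∈ t) ?_ ho
    have hp : ∀ {k : ℕ} {F : (Fin k → ZFSet.{0}) → ZFSet.{0}}, DfnF N N F →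
        DfnF N N fun w => pwM N (F w) := fun h => pwM' hN h
    (repeat' first
      | assumption
      | exact DfnF.proj _
      | exact DfnF.const (by assumption)
      | apply dfn_Cv hN hSN | apply Dfn.and | apply hB.bex | apply hB.ball | apply Dfn.iff
      | apply Dfn.mem | apply dfn_tr hN | apply hp | apply dfn_sc hB)
  obtain ⟨c, hc, h1⟩ := hcov y (Set.mem_univ _) hyN
  refine hbn c.1 ⟨nat c.1, nat_mem_omega _, fun _ h => h, fun v hv h2 => ?_⟩
  refine ⟨_, mem_cyc.2 ⟨c, hc, rfl⟩, ?_, ?_⟩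
  · rw [fs_pair]
  · rw [fs_pair, sn_pair, h2, ← hby]
    ext z
    rw [mem_tr, mem_tr]
    constructor
    · rintro ⟨h3, h4⟩
      refine ⟨h3, ?_⟩
      obtain ⟨i, hi, rfl⟩ := mem_nat.1 h3
      exact nat_mem_stc.2 ((h1 i hi).1 (nat_mem_stc.1 h4))
    · rintro ⟨h3, h4⟩
      refine ⟨h3, ?_⟩
      obtain ⟨i, hi, rfl⟩ := mem_nat.1 h3
      exact nat_mem_stc.2 ((h1 i hi).2 (nat_mem_stc.1 h4))

end

end Pool.Agent.H635.RF
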