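import Pool.Agent.H635.RF.Hs
import Pool.Agent.H635.RF.Nn

/-!
# The iteration of Hechler forcing: no random reals, and the covering of closed sets
-/

set_option autoImplicit false
set_option linter.unreachableTactic false
set_option linter.unusedTactic false
set_option linter.unusedSectionVars false
set_option linter.unusedVariables false

namespace Pool.Agent.H635.RF

open Pool.Agent.W868 Pool.Agent.W868.GM Pool.Agent.Y588
open Pool.Agent.H635.RB (Fi dfn_fi fin_mem nat_mem_iff mem_nat nat_sub ap_unique)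
open ZFSet (pair)

/-- The real `y` is in the set number `m` of the sequence that is coded by `u`: for some `i < m` it
agrees with the real number `i` of `u` below `2 * m`. -/
def Cap (g J y u m : ZFSet.{0}) : Prop :=
  ∃ i ∈ m, ∀ j ∈ ap g m, (j ∈ y ↔ ap J (pair i j) ∈ u)

/-- The real `y` is in infinitely many of the sets. -/
def Infc (g J y u : ZFSet.{0}) : Prop :=
  ∀ n ∈ ZFSet.omega, ∃ m ∈ ZFSet.omega, n ⊆ m ∧ Cap g J y u m

/-- The real `y` is in infinitely many of the sets, with the bound `x`. -/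
def Bdc (g J x y u : ZFSet.{0}) : Prop :=
  ∀ n ∈ ZFSet.omega, ∃ m ∈ ZFSet.omega, n ⊆ m ∧ m ⊆ ap x n ∧ Cap g J y u m

/-- The function `m ↦ 2 * m`. -/
noncomputable def dbl : ZFSet.{0} := fnc fun m => 2 * m

theorem ap_dbl (m : ℕ) : ap dbl (nat m) = nat (2 * m) := ap_fnc _ _

theorem dbl_mem {N : Set ZFSet.{0}} (hN : IsZF N) : dbl ∈ N := by
  classical
  have hB := hN.base
  have ho := hN.infinity
  refine fnc_mem_of hN (Q := fun m k => ∃ f ∈ N, IsInj (ZFSet.prod m (nat 2)) k f ∧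
    ∃ f' ∈ N, IsInj k (ZFSet.prod m (nat 2)) f') ?_ fun m k => ?_
  · have h2 := hN.nat_mem 2
    (repeat' first
      | assumption
      | exact DfnF.proj _
      | exact DfnF.const (by assumption)
      | apply hB.isInj' | apply Dfn.and | apply Dfn.ex | apply hN.prod')
  · have f1 : Fi (ZFSet.prod (nat m) (nat 2)) := fi_prod (fi_nat m) (fi_nat 2)
    have f2 : Fi (nat k) := fi_nat k
    have m1 : ZFSet.prod (nat m) (nat 2) ∈ N := hN.prod_mem (hN.nat_mem m) (hN.nat_mem 2)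
    have m2 := hN.nat_mem k
    have e1 : {x | x ∈ ZFSet.prod (nat m) (nat 2)}.ncard = m * 2 := by
      rw [ncard_prod, ncard_nat, ncard_nat]
    have e2 : {x | x ∈ nat k}.ncard = k := ncard_nat k
    have h1 := sz_iff hN m1 m2 f1 f2
    have h2 := sz_iff hN m2 m1 f2 f1
    unfold Sz at h1 h2
    rw [e1, e2] at h1 h2
    constructor
    · rintro ⟨f, hf, h3, f', hf', h4⟩
      have h5 := h1.2 ⟨f, hf, h3⟩
      have h6 := h2.2 ⟨f', hf', h4⟩
      omega
    · rintro rfl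
      obtain ⟨f, hf, h3⟩ := h1.1 (by omega)
      obtain ⟨f', hf', h4⟩ := h2.1 (by omega)
      exact ⟨f, hf, h3, f', hf', h4⟩

section

variable {M : Set ZFSet.{0}} (hL : IsLA ∅ M) {κ : ZFSet.{0}} (hk : IsAleph1 M κ)
  {G : ZFSet.{0}} (hG : IsGeneric M (PP M hec κ) (LL M hec κ) G)
  {J : ZFSet.{0}} (hJM : J ∈ M) (hJ : IsInj (ZFSet.prod ZFSet.omega ZFSet.omega) ZFSet.omega J)

include hL hk hG hJM hJ

/-- Every real in the extension is in a null set that is coded in the ground model. -/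
theorem exists_inf {y : Set ℕ} (hy : stc y ∈ ext M G) :
    ∃ u ∈ M, u ⊆ ZFSet.omega ∧ Infc dbl J (stc y) u := by
  classical
  have hM := hL.zf
  have hg := hL.gc
  have hB := hM.base
  have ho := hM.infinity
  have hπ := pOk_hec hM
  have hx := pAx_hec
  have hE : Ct M hec.E := ct_hec hM
  have hκM := hk.1
  have hκ := hk.2.1
  have hW := zf_G hM hπ hg hκM hκ hG
  have hMW := M_sub_G hM hπ hκM hκ hG
  set x : ℕ → ℕ := fun i => if i ∈ y then 1 else 0 with hxdef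
  have hxN : fnc x ∈ ext M G := by
    have hB' := hW.base
    refine fnc_mem_of hW (Q := fun i k => (i ∈ stc y ∧ k = nat 1) ∨ (i ∉ stc y ∧ k = nat 0)) ?_
      fun i k => ?_
    · have h1 := hW.nat_mem 1
      have h0 := hW.nat_mem 0
      exact Dfn.or (Dfn.and (Dfn.mem (DfnF.proj 0) (DfnF.const hy)) (Dfn.eq (DfnF.proj 1)
        (DfnF.const h1))) (Dfn.and (Dfn.mem (DfnF.proj 0) (DfnF.const hy)).not
        (Dfn.eq (DfnF.proj 1) (DfnF.const h0)))
    · rw [nat_mem_stc, hxdef]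
      by_cases h : i ∈ y
      · simp only [h, true_and, not_true_eq_false, false_and, or_false, if_true]
        exact ⟨fun h => nat_injective h, fun h => by rw [h]⟩
      · simp only [h, false_and, not_false_eq_true, true_and, false_or, if_false]
        exact ⟨fun h => nat_injective h, fun h => by rw [h]⟩
  obtain ⟨γ, hγ, hxγ⟩ := exists_stage hM hg hk hπ hE hx hG hxN
  have hγM := hM.trans _ hκM _ hγ
  have hγo := hκ.mem hγ
  have hγκ := hκ.subset_of_mem hγ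
  obtain ⟨s, hs, hsx⟩ := exists_Nm hM hπ hκM hκ hG hγM hγo hγκ hxγ
  have hPM := PP_mem hM hπ hγM
  have hLM := LL_mem hM hπ hγM
  obtain ⟨idx, hid, hio, hinj⟩ := exists_idx hM hg hk hγ
  set Q : ZFSet.{0} → ZFSet.{0} → Prop := fun w i => w ⊆ ZFSet.omega ∧ ∀ n ∈ ZFSet.omega,
    ∀ p ∈ PP M hec γ, idx p = i → ∃ q ∈ PP M hec γ, pair q p ∈ LL M hec γ ∧
      Agr M hec γ s q n w with hQ
  have hQd : Dfn M M fun w : Fin 2 → ZFSet.{0} => Q (w 0) (w 1) := by
    refine Dfn.and (hB.subset' (DfnF.proj 0) (DfnF.const ho)) ?_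
    refine hB.ball (Q := fun n w => ∀ p ∈ PP M hec γ, idx p = w 1 → ∃ q ∈ PP M hec γ,
      pair q p ∈ LL M hec γ ∧ Agr M hec γ s q n (w 0)) (DfnF.const ho) ?_
    refine hB.ball (Q := fun p w => idx p = w 2 → ∃ q ∈ PP M hec γ,
      pair q p ∈ LL M hec γ ∧ Agr M hec γ s q (w 0) (w 1)) (DfnF.const hPM) ?_
    refine Dfn.imp (Dfn.eq (DfnF.comp1 (f := idx) hid (DfnF.proj 0)) (DfnF.proj 3)) ?_
    refine hB.bex (Q := fun q w => pair q (w 0) ∈ LL M hec γ ∧ Agr M hec γ s q (w 1) (w 2))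
      (DfnF.const hPM) ?_
    exact Dfn.and (Dfn.mem (hB.pair' (DfnF.proj 0) (DfnF.proj 1)) (DfnF.const hLM))
      (dfn_Agr hM hγM hγo hs (DfnF.proj 0) (DfnF.proj 2) (DfnF.proj 3))
  set Wf : ZFSet.{0} → ZFSet.{0} := fun i => chs M (eo M ∅ hL.zf.trans) fun w => Q w i with hWf
  have hWd : DfnF M M fun w : Fin 1 → ZFSet.{0} => Wf (w 0) :=
    hM.chs' hg (Q := fun t w => Q t (w 0)) (Dfn.comp2 hQd (DfnF.proj 0) (DfnF.proj 1))
  have hWs : ∀ i ∈ ZFSet.omega, Q (Wf i) i := by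
    intro i hi
    obtain ⟨w, hwM, h1, h2⟩ := agr_real hM hg hγM hγo hs hid hinj (hM.trans _ ho _ hi)
    exact (chs_spec (C := M) (e := eo M ∅ hL.zf.trans) (P := fun w => Q w i)
      ⟨w, hwM, h1, h2⟩).2
  set u : ZFSet.{0} := ZFSet.sep (fun a => ∃ i ∈ ZFSet.omega, ∃ j ∈ ZFSet.omega,
    pair (pair i j) a ∈ J ∧ j ∈ Wf i) ZFSet.omega with hu
  have huM : u ∈ M := by
    refine hM.sep_mem (Q := fun a => ∃ i ∈ ZFSet.omega, ∃ j ∈ ZFSet.omega,
      pair (pair i j) a ∈ J ∧ j ∈ Wf i) ?_ ho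
    have hW' : ∀ {k : ℕ} {F : (Fin k → ZFSet.{0}) → ZFSet.{0}}, DfnF M M F →
        DfnF M M fun w => Wf (F w) := fun h => DfnF.comp1 hWd h
    (repeat' first
      | assumption
      | exact DfnF.proj _
      | exact DfnF.const (by assumption)
      | apply Dfn.and | apply hB.bex | apply Dfn.mem | apply hB.pair' | apply hW')
  have hJu : ∀ i ∈ ZFSet.omega, ∀ j ∈ ZFSet.omega, (ap J (pair i j) ∈ u ↔ j ∈ Wf i) := by
    intro i hi j hj
    obtain ⟨b, hb, h1⟩ := fun_exists hJ.1 (ZFSet.pair_mem_prod.2 ⟨hi, hj⟩)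
    rw [ap_func hJ.1 h1, hu, ZFSet.mem_sep]
    constructor
    · rintro ⟨-, i', hi', j', hj', h2, h3⟩
      have h4 := hJ.2 _ _ _ h1 h2
      obtain ⟨rfl, rfl⟩ := ZFSet.pair_inj.1 h4
      exact h3
    · intro h2
      exact ⟨hb, i, hi, j, hj, h1, h2⟩
  refine ⟨u, huM, fun z hz => (ZFSet.mem_sep.1 hz).1, fun n hn => ?_⟩
  have hdM := dbl_mem hM
  have hG' := isGeneric_Gb hM hπ hκM hκ hG hγM hγo hγκ
  obtain ⟨r, hr, m, hm, hnm, i, hi, hag⟩ := dense_gen hM hπ hγM hγo hG' (Q := fun q =>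
      ∃ m ∈ ZFSet.omega, n ⊆ m ∧ ∃ i ∈ m, Agr M hec γ s q (ap dbl m) (Wf i)) (by
    have hnM := hM.trans _ ho _ hn
    refine hB.bex (Q := fun m w => n ⊆ m ∧ ∃ i ∈ m, Agr M hec γ s (w 0) (ap dbl m) (Wf i))
      (DfnF.const ho) ?_
    refine Dfn.and (hB.subset' (DfnF.const hnM) (DfnF.proj 0)) ?_
    refine hB.bex (Q := fun i w => Agr M hec γ s (w 1) (ap dbl (w 0)) (Wf i)) (DfnF.proj 0) ?_
    exact dfn_Agr hM hγM hγo hs (DfnF.proj 2) (hM.ap' (DfnF.const hdM) (DfnF.proj 1))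
      (DfnF.comp1 (f := Wf) hWd (DfnF.proj 0))) (by
    intro p hp
    obtain ⟨n, rfl⟩ := mem_omega_iff.1 hn
    obtain ⟨i, hi⟩ := mem_omega_iff.1 (hio p hp)
    obtain ⟨q, hq, h1, h2⟩ := (hWs (nat i) (nat_mem_omega i)).2 (ap dbl (nat (max n (i + 1))))
      (by rw [ap_dbl]; exact nat_mem_omega _) p hp hi
    exact ⟨q, hq, (mem_LL.1 h1).2.2, nat (max n (i + 1)), nat_mem_omega _,
      nat_sub.2 (by omega), nat i, nat_mem_iff.2 (by omega), h2⟩)
  refine ⟨m, hm, hnm, i, hi, fun j hj => ?_⟩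
  obtain ⟨m, rfl⟩ := mem_omega_iff.1 hm
  rw [ap_dbl] at hj
  obtain ⟨j, hj', rfl⟩ := mem_nat.1 hj
  obtain ⟨i, hi', rfl⟩ := mem_nat.1 hi
  rw [hJu _ (nat_mem_omega i) _ (nat_mem_omega j)]
  obtain ⟨v, hv, h1, h2⟩ := hag (nat j) (by rw [ap_dbl]; exact hj)
  obtain ⟨v, rfl⟩ := mem_omega_iff.1 hv
  have h3 := fv_eq hM hπ hκM hκ hG hγM hγo hγκ hs hr h1
  rw [hsx] at h3
  rw [← h2, ← h3, nat_mem_stc, hxdef]
  by_cases h : j ∈ y
  · simp [h]
  · simp only [h, if_false, false_iff]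
    intro h4
    have := nat_injective h4
    omega

end

end Pool.Agent.H635.RF
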