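import Pool.Agent.H635.RF.Nc
import Pool.Agent.H635.RF.Fin

/-!
# The iteration of Hechler forcing: definability
-/

set_option autoImplicit false
set_option linter.unreachableTactic false
set_option linter.unusedTactic false
set_option linter.unusedSectionVars false
set_option linter.unusedVariables false

namespace Pool.Agent.H635.RF

open Pool.Agent.W868 Pool.Agent.W868.GM Pool.Agent.Y588
open Pool.Agent.R597 (HCm HCm.of HCm.pair HCm.sub HCm.omega HCm.trans)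
open Pool.Agent.H635.RB (Fi dfn_fi fin_mem nat_mem_iff mem_nat nat_sub ap_unique)
open ZFSet (pair)

/-! ### The formulas -/

/-- The relation `Cap`, in a form with bounded quantifiers. -/
def CapD (D J y u m : ZFSet.{0}) : Prop :=
  ∃ i ∈ m, ∃ q ∈ D, ∃ a l, q = pair a l ∧ (a = m ∧ ∀ j ∈ l, (j ∈ y ↔
    ∃ z ∈ J, ∃ c e, z = pair c e ∧ (e ∈ u ∧ c = pair i j)))

/-- The relation `Infc`, in a form with bounded quantifiers. -/
def InD (D J O y u : ZFSet.{0}) : Prop := ∀ n ∈ O, ∃ m ∈ O, n ⊆ m ∧ CapD D J y u m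

/-- The relation `Bdc` for some element of `L`, in a form with bounded quantifiers. -/
def BdD (D J O x y L : ZFSet.{0}) : Prop :=
  ∃ u ∈ L, ∀ n ∈ O, ∃ m ∈ O, n ⊆ m ∧ ((∃ q ∈ x, ∃ a l, q = pair a l ∧ (a = n ∧ m ⊆ l)) ∧
    CapD D J y u m)

/-- The first level with a null set that contains `y` has the property `C`. -/
def Mn (D J O A y f : ZFSet.{0}) (C : ZFSet.{0} → Prop) : Prop :=
  Sq A f ∧ ∃ r ∈ f, ∃ ξ L, r = pair ξ L ∧ ((∃ u ∈ L, InD D J O y u) ∧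
    ((∀ r' ∈ f, ∃ η L', r' = pair η L' ∧ (η ∈ ξ → ∀ u ∈ L', ¬ InD D J O y u)) ∧ C L))

theorem d0_sq' : D0 fun v : Fin 2 → ZFSet.{0} => Sq (v 0) (v 1) := by
  unfold Sq
  (repeat' first
      | assumption
      | exact D0v.proj _
      | apply d0_memStep | apply d0_stepSub
      | apply D0.and | apply D0.expair
      | apply D0.bex | apply D0.ball | apply D0.imp
      | apply D0.eq | apply D0.mem | apply D0.isOrdinal)

theorem d0_sq {n : ℕ} {F G : (Fin n → ZFSet.{0}) → ZFSet.{0}} (hF : D0v F) (hG : D0v G) :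
    D0 fun v => Sq (F v) (G v) := by
  obtain ⟨i, hi⟩ := hF
  obtain ⟨j, hj⟩ := hG
  refine (d0_sq'.comp ![i, j]).congr fun v => ?_
  show Sq (v i) (v j) ↔ _
  rw [hi, hj]

theorem d0_pos : D0 fun v : Fin 3 → ZFSet.{0} => ∃ X Y, v 1 = pair X Y ∧ ∃ P₁ P₂,
    v 2 = pair P₁ P₂ ∧ ∃ D J, P₁ = pair D J ∧ ∃ O A, P₂ = pair O A ∧
      Mn D J O A Y (v 0) fun L => BdD D J O X Y L := by
  unfold Mn BdD InD CapD
  (repeat' first
      | assumption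
      | exact D0v.proj _
      | apply d0_sq
      | apply D0.and | apply D0.expair
      | apply D0.bex | apply D0.ball | apply D0.iff | apply D0.not | apply D0.subset
      | apply D0.isPair | apply D0.mem | apply D0.imp | apply D0.eq)

theorem d0_neg : D0 fun v : Fin 3 → ZFSet.{0} => ∃ X Y, v 1 = pair X Y ∧ ∃ P₁ P₂,
    v 2 = pair P₁ P₂ ∧ ∃ D J, P₁ = pair D J ∧ ∃ O A, P₂ = pair O A ∧
      Mn D J O A Y (v 0) fun L => ¬ BdD D J O X Y L := by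
  unfold Mn BdD InD CapD
  (repeat' first
      | assumption
      | exact D0v.proj _
      | apply d0_sq
      | apply D0.and | apply D0.expair
      | apply D0.bex | apply D0.ball | apply D0.iff | apply D0.not | apply D0.subset
      | apply D0.isPair | apply D0.mem | apply D0.imp | apply D0.eq)

/-! ### The meaning of the formulas -/

section

variable {J : ZFSet.{0}} (hJ : IsInj (ZFSet.prod ZFSet.omega ZFSet.omega) ZFSet.omega J)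

include hJ

theorem capD_iff {y u : ZFSet.{0}} (m : ℕ) : CapD dbl J y u (nat m) ↔ Cap dbl J y u (nat m) := by
  have hz : ∀ i j : ℕ, ((∃ z ∈ J, ∃ c e, z = pair c e ∧ (e ∈ u ∧ c = pair (nat i) (nat j))) ↔
      ap J (pair (nat i) (nat j)) ∈ u) := by
    intro i j
    obtain ⟨b, hb, h1⟩ := fun_exists hJ.1 (ZFSet.pair_mem_prod.2 ⟨nat_mem_omega i, nat_mem_omega j⟩)
    rw [ap_func hJ.1 h1]
    constructor
    · rintro ⟨z, hz, c, e, rfl, h2, rfl⟩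
      rwa [fun_unique hJ.1 h1 hz]
    · intro h2
      exact ⟨_, h1, _, _, rfl, h2, rfl⟩
  unfold CapD Cap
  constructor
  · rintro ⟨i, hi, q, hq, a, l, rfl, rfl, h⟩
    obtain ⟨i, hi', rfl⟩ := mem_nat.1 hi
    have hl : l = nat (2 * m) := pair_mem_fnc'.1 hq
    subst hl
    refine ⟨nat i, hi, fun j hj => ?_⟩
    rw [ap_dbl] at hj
    rw [h j hj]
    obtain ⟨j, hj', rfl⟩ := mem_nat.1 hj
    exact hz i j
  · rintro ⟨i, hi, h⟩
    obtain ⟨i, hi', rfl⟩ := mem_nat.1 hi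
    refine ⟨nat i, hi, pair (nat m) (nat (2 * m)), pair_mem_fnc'.2 rfl, _, _, rfl, rfl,
      fun j hj => ?_⟩
    rw [h j (by rwa [ap_dbl])]
    obtain ⟨j, hj', rfl⟩ := mem_nat.1 hj
    exact (hz i j).symm

theorem inD_iff {y u : ZFSet.{0}} : InD dbl J ZFSet.omega y u ↔ Infc dbl J y u := by
  unfold InD Infc
  constructor
  · intro h n hn
    obtain ⟨m, hm, h1, h2⟩ := h n hn
    obtain ⟨m, rfl⟩ := mem_omega_iff.1 hm
    exact ⟨_, hm, h1, (capD_iff hJ m).1 h2⟩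
  · intro h n hn
    obtain ⟨m, hm, h1, h2⟩ := h n hn
    obtain ⟨m, rfl⟩ := mem_omega_iff.1 hm
    exact ⟨_, hm, h1, (capD_iff hJ m).2 h2⟩

theorem bdD_iff {x : ℕ → ℕ} {y L : ZFSet.{0}} : BdD dbl J ZFSet.omega (fnc x) y L ↔
    ∃ u ∈ L, Bdc dbl J (fnc x) y u := by
  unfold BdD Bdc
  constructor
  · rintro ⟨u, hu, h⟩
    refine ⟨u, hu, fun n hn => ?_⟩
    obtain ⟨m, hm, h1, ⟨q, hq, a, l, rfl, rfl, h2⟩, h3⟩ := h n hn
    obtain ⟨m, rfl⟩ := mem_omega_iff.1 hm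
    obtain ⟨n, rfl⟩ := mem_omega_iff.1 hn
    have h4 := pair_mem_fnc'.1 hq
    refine ⟨_, hm, h1, ?_, (capD_iff hJ m).1 h3⟩
    rwa [ap_fnc, ← h4]
  · rintro ⟨u, hu, h⟩
    refine ⟨u, hu, fun n hn => ?_⟩
    obtain ⟨m, hm, h1, h2, h3⟩ := h n hn
    obtain ⟨m, rfl⟩ := mem_omega_iff.1 hm
    obtain ⟨n, rfl⟩ := mem_omega_iff.1 hn
    rw [ap_fnc] at h2
    exact ⟨_, hm, h1, ⟨_, pair_mem_fnc'.2 rfl, _, _, rfl, rfl, h2⟩, (capD_iff hJ m).2 h3⟩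

end

/-- The level `ξ` is the first one with a null set that contains `y`. -/
def Lst (J y ξ : ZFSet.{0}) : Prop :=
  (∃ u ∈ Lv ∅ ξ, Infc dbl J y u) ∧ ∀ η ∈ ξ, ∀ u ∈ Lv ∅ η, ¬ Infc dbl J y u

theorem Lst.unique {J y ξ ξ' : ZFSet.{0}} (h : Lst J y ξ) (h' : Lst J y ξ') (hξ : ξ.IsOrdinal)
    (hξ' : ξ'.IsOrdinal) : ξ = ξ' := by
  rcases hξ.mem_trichotomous hξ' with h1 | h1 | h1
  · obtain ⟨u, hu, h2⟩ := h.1
    exact absurd h2 (h'.2 ξ h1 u hu)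
  · exact h1
  · obtain ⟨u, hu, h2⟩ := h'.1
    exact absurd h2 (h.2 ξ' h1 u hu)

section

variable {M : Set ZFSet.{0}} (hL : IsLA ∅ M) {N : Set ZFSet.{0}} (hN : IsZF N)
  {e : ZFSet.{0} → ZFSet.{0}} (hg : GC N e) (hMN : M ⊆ N)
  (hord : ∀ z ∈ N, z.IsOrdinal → z ∈ M)
  {J : ZFSet.{0}} (hJM : J ∈ M) (hJ : IsInj (ZFSet.prod ZFSet.omega ZFSet.omega) ZFSet.omega J)

/-- The parameter. -/
noncomputable def prm (J : ZFSet.{0}) : ZFSet.{0} := pair (pair dbl J) (pair ZFSet.omega ∅)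

/-- The relation of the formula. -/
def Rel (C : ZFSet.{0} → ZFSet.{0} → ZFSet.{0} → ZFSet.{0} → ZFSet.{0} → ZFSet.{0} → Prop)
    (f pt p : ZFSet.{0}) : Prop :=
  ∃ X Y, pt = pair X Y ∧ ∃ P₁ P₂, p = pair P₁ P₂ ∧ ∃ D J, P₁ = pair D J ∧ ∃ O A, P₂ = pair O A ∧
    Mn D J O A Y f fun L => C D J O X Y L

theorem rel_iff {C : ZFSet.{0} → ZFSet.{0} → ZFSet.{0} → ZFSet.{0} → ZFSet.{0} → ZFSet.{0} → Prop}
    {f J X Y : ZFSet.{0}} : Rel C f (pair X Y) (prm J) ↔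
      Mn dbl J ZFSet.omega ∅ Y f fun L => C dbl J ZFSet.omega X Y L := by
  unfold Rel prm
  constructor
  · rintro ⟨X', Y', h1, P₁, P₂, h2, D, J', h3, O, A, h4, h5⟩
    obtain ⟨rfl, rfl⟩ := ZFSet.pair_inj.1 h1
    obtain ⟨rfl, rfl⟩ := ZFSet.pair_inj.1 h2
    obtain ⟨rfl, rfl⟩ := ZFSet.pair_inj.1 h3
    obtain ⟨rfl, rfl⟩ := ZFSet.pair_inj.1 h4
    exact h5
  · intro h
    exact ⟨_, _, rfl, _, _, rfl, _, _, rfl, _, _, rfl, h⟩

include hJ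

theorem mn_iff {f y : ZFSet.{0}} {C : ZFSet.{0} → Prop} (h : Mn dbl J ZFSet.omega ∅ y f C) :
    ∃ ξ, ξ.IsOrdinal ∧ (∃ L, pair ξ L ∈ f) ∧ Lst J y ξ ∧ C (Lv ∅ ξ) := by
  obtain ⟨h1, r, hr, ξ, L, rfl, ⟨u, hu, h2⟩, h3, h4⟩ := h
  have hL := h1.eq ξ L hr
  subst hL
  obtain ⟨ξ', X, h5, h6, h7, -⟩ := h1 _ hr
  obtain ⟨rfl, rfl⟩ := ZFSet.pair_inj.1 h5
  refine ⟨ξ, h6, ⟨_, hr⟩, ⟨⟨u, hu, (inD_iff hJ).1 h2⟩, fun η hη u hu h8 => ?_⟩, h4⟩
  obtain ⟨q, hq, η', Y, rfl, rfl⟩ := h7 η hη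
  obtain ⟨η'', L', h9, h10⟩ := h3 _ hq
  obtain ⟨rfl, rfl⟩ := ZFSet.pair_inj.1 h9
  rw [h1.eq _ _ hq] at h10
  exact h10 hη u hu ((inD_iff hJ).2 h8)

theorem mn_of {ξ y : ZFSet.{0}} {C : ZFSet.{0} → Prop} (hξ : ξ.IsOrdinal) (h : Lst J y ξ)
    (hC : C (Lv ∅ ξ)) : Mn dbl J ZFSet.omega ∅ y (gr (Lv ∅) (sc ξ)) C := by
  refine ⟨sq_gr (isOrdinal_sc hξ), _, mem_gr.2 ⟨ξ, ZFSet.mem_insert _ _, rfl⟩, ξ, _, rfl, ?_, ?_, hC⟩
  · obtain ⟨u, hu, h1⟩ := h.1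
    exact ⟨u, hu, (inD_iff hJ).2 h1⟩
  · intro r' hr'
    obtain ⟨η, -, rfl⟩ := mem_gr.1 hr'
    exact ⟨η, _, rfl, fun hη u hu h1 => h.2 η hη u hu ((inD_iff hJ).1 h1)⟩

include hL hN hg hMN hord hJM

/-- The sets of the points whose first level has a property are `Σ¹₂`. -/
theorem sig_of {C : ZFSet.{0} → ZFSet.{0} → ZFSet.{0} → ZFSet.{0} → ZFSet.{0} → ZFSet.{0} → Prop}
    (hC : D0 fun v : Fin 3 → ZFSet.{0} => Rel C (v 0) (v 1) (v 2))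
    (hct : ∀ y : Set ℕ, stc y ∈ N → ∀ ξ ∈ M, ξ.IsOrdinal → Lst J (stc y) ξ →
      Inj M ξ ZFSet.omega) :
    Sig N {p | ∃ ξ ∈ M, ξ.IsOrdinal ∧ Lst J (stc p.2) ξ ∧
      C dbl J ZFSet.omega (fnc p.1) (stc p.2) (Lv ∅ ξ)} := by
  have hM := hL.zf
  obtain ⟨ψ, hψ⟩ := hC
  have hdM := dbl_mem hM
  have hpM : prm J ∈ M := hM.pair_mem (hM.pair_mem hdM hJM) (hM.pair_mem hM.infinity hM.empty_mem)
  refine ⟨.ex ψ, prm J, hMN hpM, fun x y hx hy => ?_⟩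
  have hpt : ptc x y ∈ N := hN.pair_mem hx hy
  have hsat : ∀ t : ZFSet.{0}, (∀ z ∈ t, z ⊆ t) → ptc x y ∈ t → prm J ∈ t →
      (Sat {z | z ∈ t} Empty.elim (.ex ψ) ![ptc x y, prm J] ↔
        ∃ f ∈ t, Rel C f (ptc x y) (prm J)) := by
    intro t ht h1 h2
    have h3 : ∀ f ∈ t, (Sat {z | z ∈ t} Empty.elim ψ (Fin.cons f ![ptc x y, prm J]) ↔
        Rel C f (ptc x y) (prm J)) := by
      intro f hf
      refine hψ {z | z ∈ t} (fun z hz w hw => ht z hz hw) _ fun i => ?_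
      fin_cases i
      exacts [hf, h1, h2]
    constructor
    · rintro ⟨f, hf, h4⟩
      exact ⟨f, hf, (h3 f hf).1 h4⟩
    · rintro ⟨f, hf, h4⟩
      exact ⟨f, hf, (h3 f hf).2 h4⟩
  rw [Set.mem_ofPred_eq]
  constructor
  · rintro ⟨ξ, hξ, hξo, h1, h2⟩
    have hc := hct y hy ξ hξ hξo h1
    -- the witness
    have hR : Rel C (gr (Lv ∅) (sc ξ)) (ptc x y) (prm J) :=
      rel_iff.2 (mn_of (C := fun L => C dbl J ZFSet.omega (fnc x) (stc y) L) hJ hξo h1 h2)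
    have hgM := hL.gc
    have ho := hM.infinity
    have hscM : sc ξ ∈ M := hM.sc_mem hξ
    have hfM : gr (Lv ∅) (sc ξ) ∈ M := by
      refine hM.im_mem hscM (h := fun u => pair u (Lv ∅ u)) ?_
      exact hM.base.pair' (DfnF.proj 0) (DfnF.comp1 (f := Lv ∅) (dfn_Lv hM hL.mem) (DfnF.proj 0))
    have hcs : Inj M (sc ξ) ZFSet.omega :=
      Inj.insert hM hgM ho isOrdinal_omega (fun _ h => h) hξ hξ hc
    have hcf : Inj M (gr (Lv ∅) (sc ξ)) ZFSet.omega := by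
      refine Inj.image hM hscM ho isOrdinal_omega hcs (h := fun u => pair u (Lv ∅ u)) ?_
      exact hM.base.pair' (DfnF.proj 0) (DfnF.comp1 (f := Lv ∅) (dfn_Lv hM hL.mem) (DfnF.proj 0))
    have hHf : HCm M (gr (Lv ∅) (sc ξ)) := by
      refine HCm.of hM hgM hfM (fun w hw => ?_) hcf
      obtain ⟨η, hη, rfl⟩ := mem_gr.1 hw
      have hηM : η ∈ M := hM.trans _ hscM _ hη
      have hηo : η.IsOrdinal := (isOrdinal_sc hξo).mem hη
      have hηs : η ⊆ ξ := by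
        rcases ZFSet.mem_insert_iff.1 hη with rfl | h
        · exact fun _ h => h
        · exact hξo.subset_of_mem h
      have hcη : Inj M η ZFSet.omega := inj_mono hM hηM hξ ho hηs hc
      have h3 : HCm M η := ⟨hηM, η, hηM, ⟨fun a ha b hb => hηo.mem_trans hb ha, fun _ h => h⟩, hcη⟩
      have hLM : Lv ∅ η ∈ M := Lv_mem_M hM hM.empty_mem hηM
      have h4 : HCm M (Lv ∅ η) := by
        refine ⟨hLM, Lv ∅ η, hLM, ⟨fun a ha b hb => ?_, fun _ h => h⟩,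
          Lv_small hL ho isOrdinal_omega (fun _ h => h) hηM hηo hcη⟩
        exact Lv_trans _ a ha b hb
      exact HCm.pair hM hgM h3 h4
    have hup : ∀ {z : ZFSet.{0}}, HCm M z → HCm N z := by
      rintro z ⟨h1, T, h2, h3, j, h4, h5⟩
      exact ⟨hMN h1, T, hMN h2, h3, j, hMN h4, h5⟩
    have hωω : HCm N (ZFSet.prod ZFSet.omega ZFSet.omega) := by
      have hoN := hN.infinity
      refine HCm.of hN hg (hN.prod_mem hoN hoN) (fun w hw => ?_) (ct_prod hN hoN hoN (ct_omega hN)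
        (ct_omega hN))
      obtain ⟨a, ha, b, hb, rfl⟩ := ZFSet.mem_prod.1 hw
      exact HCm.pair hN hg (HCm.trans hN (HCm.omega hN) ha) (HCm.trans hN (HCm.omega hN) hb)
    have hfnc : ∀ g : ℕ → ℕ, fnc g ∈ N → HCm N (fnc g) := by
      intro g hg'
      refine HCm.sub hN hωω hg' fun z hz => ?_
      obtain ⟨i, rfl⟩ := mem_fnc.1 hz
      exact ZFSet.pair_mem_prod.2 ⟨nat_mem_omega _, nat_mem_omega _⟩
    have hHy : HCm N (stc y) := HCm.sub hN (HCm.omega hN) hy stc_sub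
    have hHJ : HCm N J := by
      refine HCm.of hN hg (hMN hJM) (fun w hw => ?_) ?_
      · obtain ⟨a, ha, b, hb, rfl⟩ := ZFSet.mem_prod.1 (hJ.1.1 hw)
        exact HCm.pair hN hg (HCm.trans hN hωω ha) (HCm.trans hN (HCm.omega hN) hb)
      · have hoN := hN.infinity
        have h5 := ct_prod hN (hN.prod_mem hoN hoN) hoN (ct_prod hN hoN hoN (ct_omega hN)
          (ct_omega hN)) (ct_omega hN)
        exact Ct.sub hN (hMN hJM) (hN.prod_mem (hN.prod_mem hoN hoN) hoN) hJ.1.1 h5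
    have hH0 : HCm N ∅ := HCm.trans hN (HCm.omega hN) (nat_mem_omega 0)
    have hHp : HCm N (prm J) := HCm.pair hN hg (HCm.pair hN hg (hfnc _ (hMN hdM)) hHJ)
      (HCm.pair hN hg (HCm.omega hN) hH0)
    have hHpt : HCm N (ptc x y) := HCm.pair hN hg (hfnc x hx) hHy
    obtain ⟨-, T, hT, ⟨hTt, hTs⟩, hTc⟩ := HCm.pair hN hg (hup hHf) (HCm.pair hN hg hHp hHpt)
    have hpr : ∀ a b : ZFSet.{0}, pair a b ⊆ T → a ∈ T ∧ b ∈ T := by
      intro a b h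
      have h6 : ({a, b} : ZFSet.{0}) ∈ T := h (by simp [pair])
      exact ⟨hTt _ h6 _ (by simp), hTt _ h6 _ (by simp)⟩
    obtain ⟨h7, h8⟩ := hpr _ _ hTs
    obtain ⟨h9, h10⟩ := hpr _ _ fun z hz => hTt _ h8 z hz
    exact ⟨T, hT, fun z hz w hw => hTt z hz w hw, hTc, h10, h9,
      (hsat T (fun z hz w hw => hTt z hz w hw) h10 h9).2 ⟨_, h7, hR⟩⟩
  · rintro ⟨t, ht, htt, -, h1, h2, h3⟩
    obtain ⟨f, hf, h4⟩ := (hsat t htt h1 h2).1 h3
    obtain ⟨ξ, h5, ⟨Lx, h6⟩, h7, h8⟩ := mn_iff (C := fun L => C dbl J ZFSet.omega (fnc x)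
      (stc y) L) hJ (rel_iff.1 h4)
    have hξN : ξ ∈ N := (hN.of_pair_mem (hN.trans _ (hN.trans _ ht _ hf) _ h6)).1
    exact ⟨ξ, hord ξ hξN h5, h5, h7, h8⟩

end

end Pool.Agent.H635.RF
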