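import Pool.Agent.H635.RF.Base

/-!
# The iteration: conditions and order
-/

set_option autoImplicit false
set_option linter.unreachableTactic false
set_option linter.unusedTactic false
set_option linter.unusedSectionVars false

namespace Pool.Agent.H635.RF

open Pool.Agent.W868 Pool.Agent.W868.GM Pool.Agent.Y588
open Pool.Agent.H635.RB (Fi dfn_fi fin_mem)
open ZFSet (pair)

/-! ### Atoms -/

theorem single_ne : ({∅} : ZFSet.{0}) ≠ ∅ := by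
  intro h
  have : (∅ : ZFSet.{0}) ∈ ({∅} : ZFSet.{0}) := ZFSet.mem_singleton.2 rfl
  rw [h] at this
  exact ZFSet.notMem_empty _ this

theorem sa_inj {b t m e b' t' m' e' : ZFSet.{0}} :
    sa b t m e = sa b' t' m' e' ↔ b = b' ∧ t = t' ∧ m = m' ∧ e = e' := by
  unfold sa
  rw [ZFSet.pair_inj, ZFSet.pair_inj, ZFSet.pair_inj, ZFSet.pair_inj]
  tauto

theorem pa_inj {b t s b' t' s' : ZFSet.{0}} :
    pa b t s = pa b' t' s' ↔ b = b' ∧ t = t' ∧ s = s' := by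
  unfold pa
  rw [ZFSet.pair_inj, ZFSet.pair_inj, ZFSet.pair_inj]
  tauto

theorem sa_ne_pa {b t m e b' t' s' : ZFSet.{0}} : sa b t m e ≠ pa b' t' s' := by
  intro h
  have h1 := (ZFSet.pair_inj.1 (ZFSet.pair_inj.1 h).2).1
  exact single_ne h1.symm

@[simp] theorem fs_sa (b t m e : ZFSet.{0}) : fs (sa b t m e) = pair b t := fs_pair _ _
@[simp] theorem fs_pa (b t s : ZFSet.{0}) : fs (pa b t s) = pair b t := fs_pair _ _
@[simp] theorem blk_sa (b t m e : ZFSet.{0}) : blk (sa b t m e) = b := by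
  rw [blk, fs_sa, fs_pair]
@[simp] theorem blk_pa (b t s : ZFSet.{0}) : blk (pa b t s) = b := by
  rw [blk, fs_pa, fs_pair]
@[simp] theorem fsn_sa (b t m e : ZFSet.{0}) : fs (sn (sa b t m e)) = ∅ := by
  rw [sa, sn_pair, fs_pair]
@[simp] theorem fsn_pa (b t s : ZFSet.{0}) : fs (sn (pa b t s)) = {∅} := by
  rw [pa, sn_pair, fs_pair]
@[simp] theorem snn_sa (b t m e : ZFSet.{0}) : sn (sn (sa b t m e)) = pair m e := by
  rw [sa, sn_pair, sn_pair]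
@[simp] theorem snn_pa (b t s : ZFSet.{0}) : sn (sn (pa b t s)) = s := by
  rw [pa, sn_pair, sn_pair]

theorem mem_rs {p β z : ZFSet.{0}} : z ∈ rs p β ↔ z ∈ p ∧ blk z ∈ β := ZFSet.mem_sep

theorem sa_mem_rs {p β b t m e : ZFSet.{0}} : sa b t m e ∈ rs p β ↔ sa b t m e ∈ p ∧ b ∈ β := by
  rw [mem_rs, blk_sa]

theorem pa_mem_rs {p β b t s : ZFSet.{0}} : pa b t s ∈ rs p β ↔ pa b t s ∈ p ∧ b ∈ β := by
  rw [mem_rs, blk_pa]

theorem rs_sub {p β : ZFSet.{0}} : rs p β ⊆ p := fun _ h => (mem_rs.1 h).1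

theorem rs_rs {p β γ : ZFSet.{0}} (h : γ ⊆ β) : rs (rs p β) γ = rs p γ := by
  ext z
  rw [mem_rs, mem_rs, mem_rs]
  exact ⟨fun h1 => ⟨h1.1.1, h1.2⟩, fun h1 => ⟨⟨h1.1, h h1.2⟩, h1.2⟩⟩

theorem rs_union {p q β : ZFSet.{0}} : rs (p ∪ q) β = rs p β ∪ rs q β := by
  ext z
  rw [mem_rs, ZFSet.mem_union, ZFSet.mem_union, mem_rs, mem_rs]
  tauto

theorem Fi.mono {p q : ZFSet.{0}} (h : Fi q) (hpq : p ⊆ q) : Fi p :=
  Set.Finite.subset h fun _ hx => hpq hx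

theorem Fi.union {p q : ZFSet.{0}} (h : Fi p) (h' : Fi q) : Fi (p ∪ q) := by
  refine Set.Finite.subset (Set.Finite.union h h') fun x hx => ?_
  rcases ZFSet.mem_union.1 hx with h1 | h1
  · exact Or.inl h1
  · exact Or.inr h1

theorem Fi.insert {x p : ZFSet.{0}} (h : Fi p) : Fi (insert x p) := by
  refine Set.Finite.subset (Set.Finite.insert x h) fun y hy => ?_
  rcases ZFSet.mem_insert_iff.1 hy with h1 | h1
  · exact Or.inl h1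
  · exact Or.inr h1

theorem fi_empty : Fi ∅ := Set.Finite.subset Set.finite_empty fun x hx =>
  absurd hx (ZFSet.notMem_empty x)

section

variable (M : Set ZFSet.{0}) (π : Par)

/-- The names of the block `β`. -/
noncomputable def Nm (β : ZFSet.{0}) : ZFSet.{0} := Nms M (PP M π β) (LL M π β)

/-- The labels of the block `β`. -/
noncomputable def Tb (β : ZFSet.{0}) : ZFSet.{0} := Lb π (Nm M π β)

/-- The forcing relation of the block `β`. -/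
def Fb (β C r s m e : ZFSet.{0}) : Prop := Fo (PP M π β) (LL M π β) C r s m e

/-- The deciding relation of the block `β`. -/
def Db (β s r m v : ZFSet.{0}) : Prop := Dc (PP M π β) (LL M π β) s r m v

/-- The order of the conditions. -/
def Le (q p : ZFSet.{0}) : Prop := p ⊆ q ∧ ∀ β t s m e, pa β t s ∈ p → sa β t m e ∈ q →
  sa β t m e ∉ p → Fb M π β π.Al (rs q β) s m e

/-- An atom. -/
def IsAt (β z : ZFSet.{0}) : Prop :=
  (∃ t ∈ Tb M π β, ∃ m ∈ ZFSet.omega, ∃ e ∈ π.E, z = sa β t m e) ∨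
  ∃ t ∈ Tb M π β, ∃ s ∈ Nm M π β, z = pa β t s

/-- The conditions of the iteration of length `α`. -/
structure IsCond (α p : ZFSet.{0}) : Prop where
  mem : p ∈ M
  fin : Fi p
  atom : ∀ z ∈ p, ∃ β ∈ α, IsAt M π β z
  fn : ∀ β t m e e', sa β t m e ∈ p → sa β t m e' ∈ p → e = e'
  seg : ∀ β t m e m', sa β t m e ∈ p → m' ∈ m → ∃ e', sa β t m' e' ∈ p
  vl : ∀ β t m e, sa β t m e ∈ p → pair m e ∈ π.Vl
  cn : π.c → ∀ β t m e, sa β t m e ∈ p → Fb M π β π.Cn (rs p β) t m e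
  sz : π.c → ∀ β t, Sz (Fs p (pair β t)) (Ls p (pair β t))

end

section

variable {M : Set ZFSet.{0}} {π : Par}

theorem mem_ats {β P L z : ZFSet.{0}} : z ∈ ats M π β P L ↔
    (∃ t ∈ Lb π (Nms M P L), ∃ m ∈ ZFSet.omega, ∃ e ∈ π.E, z = sa β t m e) ∨
    ∃ t ∈ Lb π (Nms M P L), ∃ s ∈ Nms M P L, z = pa β t s := by
  unfold ats
  rw [ZFSet.mem_prod]
  constructor
  · rintro ⟨i, hi, w, hw, rfl⟩
    obtain ⟨b, hb, t, ht, rfl⟩ := ZFSet.mem_prod.1 hi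
    rw [ZFSet.mem_singleton] at hb
    subst hb
    rcases ZFSet.mem_union.1 hw with h | h
    · obtain ⟨a, ha, u, hu, rfl⟩ := ZFSet.mem_prod.1 h
      rw [ZFSet.mem_singleton] at ha
      subst ha
      obtain ⟨m, hm, e, he, rfl⟩ := ZFSet.mem_prod.1 hu
      exact Or.inl ⟨t, ht, m, hm, e, he, rfl⟩
    · obtain ⟨a, ha, s, hs, rfl⟩ := ZFSet.mem_prod.1 h
      rw [ZFSet.mem_singleton] at ha
      subst ha
      exact Or.inr ⟨t, ht, s, hs, rfl⟩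
  · rintro (⟨t, ht, m, hm, e, he, rfl⟩ | ⟨t, ht, s, hs, rfl⟩)
    · exact ⟨_, ZFSet.pair_mem_prod.2 ⟨ZFSet.mem_singleton.2 rfl, ht⟩, _, ZFSet.mem_union.2
        (Or.inl (ZFSet.pair_mem_prod.2 ⟨ZFSet.mem_singleton.2 rfl,
          ZFSet.pair_mem_prod.2 ⟨hm, he⟩⟩)), rfl⟩
    · exact ⟨_, ZFSet.pair_mem_prod.2 ⟨ZFSet.mem_singleton.2 rfl, ht⟩, _, ZFSet.mem_union.2
        (Or.inr (ZFSet.pair_mem_prod.2 ⟨ZFSet.mem_singleton.2 rfl, hs⟩)), rfl⟩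

theorem Ph_eq (α : ZFSet.{0}) : Ph M π α = Gop M π α (gr (Ph M π) α) := wfF_eq _ _ _ α

theorem PP_eq (α : ZFSet.{0}) : PP M π α = Pg M π α (gr (Ph M π) α) := by
  rw [PP, Ph_eq, Gop, fs_pair]

theorem LL_eq (α : ZFSet.{0}) : LL M π α = ZFSet.sep (fun z => Od π (gr (Ph M π) α) (fs z) (sn z))
    (ZFSet.prod (PP M π α) (PP M π α)) := by
  rw [LL, Ph_eq, Gop, sn_pair, ← PP_eq]

theorem mem_Fs {p i s : ZFSet.{0}} : s ∈ Fs p i ↔ ∃ z ∈ p, fs z = i ∧ fs (sn z) = {∅} ∧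
    s = sn (sn z) := by
  unfold Fs
  rw [mem_im]
  constructor
  · rintro ⟨z, hz, h⟩
    obtain ⟨h1, h2, h3⟩ := ZFSet.mem_sep.1 hz
    exact ⟨z, h1, h2, h3, h⟩
  · rintro ⟨z, h1, h2, h3, h⟩
    exact ⟨z, ZFSet.mem_sep.2 ⟨h1, h2, h3⟩, h⟩

theorem mem_Ls {p i m : ZFSet.{0}} : m ∈ Ls p i ↔ ∃ z ∈ p, fs z = i ∧ fs (sn z) = ∅ ∧
    m = fs (sn (sn z)) := by
  unfold Ls
  rw [mem_im]
  constructor
  · rintro ⟨z, hz, h⟩
    obtain ⟨h1, h2, h3⟩ := ZFSet.mem_sep.1 hz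
    exact ⟨z, h1, h2, h3, h⟩
  · rintro ⟨z, h1, h2, h3, h⟩
    exact ⟨z, ZFSet.mem_sep.2 ⟨h1, h2, h3⟩, h⟩

/-- All elements of the set are atoms. -/
def Ats (M : Set ZFSet.{0}) (π : Par) (α p : ZFSet.{0}) : Prop := ∀ z ∈ p, ∃ β ∈ α, IsAt M π β z

theorem Ats.cases {α p z : ZFSet.{0}} (h : Ats M π α p) (hz : z ∈ p) :
    (∃ β t m e, β ∈ α ∧ t ∈ Tb M π β ∧ m ∈ ZFSet.omega ∧ e ∈ π.E ∧ z = sa β t m e) ∨
    ∃ β t s, β ∈ α ∧ t ∈ Tb M π β ∧ s ∈ Nm M π β ∧ z = pa β t s := by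
  obtain ⟨β, hβ, ⟨t, ht, m, hm, e, he, rfl⟩ | ⟨t, ht, s, hs, rfl⟩⟩ := h z hz
  · exact Or.inl ⟨β, t, m, e, hβ, ht, hm, he, rfl⟩
  · exact Or.inr ⟨β, t, s, hβ, ht, hs, rfl⟩

theorem Ats.sa {α p β t m e : ZFSet.{0}} (h : Ats M π α p) (hz : sa β t m e ∈ p) :
    β ∈ α ∧ t ∈ Tb M π β ∧ m ∈ ZFSet.omega ∧ e ∈ π.E := by
  rcases h.cases hz with ⟨β', t', m', e', h1, h2, h3, h4, h5⟩ | ⟨β', t', s', h1, h2, h3, h5⟩
  · obtain ⟨rfl, rfl, rfl, rfl⟩ := sa_inj.1 h5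
    exact ⟨h1, h2, h3, h4⟩
  · exact absurd h5 sa_ne_pa

theorem Ats.pa {α p β t s : ZFSet.{0}} (h : Ats M π α p) (hz : pa β t s ∈ p) :
    β ∈ α ∧ t ∈ Tb M π β ∧ s ∈ Nm M π β := by
  rcases h.cases hz with ⟨β', t', m', e', h1, h2, h3, h4, h5⟩ | ⟨β', t', s', h1, h2, h3, h5⟩
  · exact absurd h5.symm sa_ne_pa
  · obtain ⟨rfl, rfl, rfl⟩ := pa_inj.1 h5
    exact ⟨h1, h2, h3⟩

/-- Atoms with the mark `∅` are parts of stems. -/
theorem Ats.eq_sa {α p z : ZFSet.{0}} (h : Ats M π α p) (hz : z ∈ p) (hz' : fs (sn z) = ∅) :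
    ∃ β t m e, z = Pool.Agent.H635.RF.sa β t m e := by
  rcases h.cases hz with ⟨β', t', m', e', h1, h2, h3, h4, h5⟩ | ⟨β', t', s', h1, h2, h3, h5⟩
  · exact ⟨_, _, _, _, h5⟩
  · rw [h5, fsn_pa] at hz'
    exact absurd hz' single_ne

theorem Ats.eq_pa {α p z : ZFSet.{0}} (h : Ats M π α p) (hz : z ∈ p) (hz' : fs (sn z) = {∅}) :
    ∃ β t s, z = Pool.Agent.H635.RF.pa β t s := by
  rcases h.cases hz with ⟨β', t', m', e', h1, h2, h3, h4, h5⟩ | ⟨β', t', s', h1, h2, h3, h5⟩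
  · rw [h5, fsn_sa] at hz'
    exact absurd hz'.symm single_ne
  · exact ⟨_, _, _, h5⟩

theorem Ats.mem_Fs {α p β t s : ZFSet.{0}} (h : Ats M π α p) :
    s ∈ Fs p (pair β t) ↔ Pool.Agent.H635.RF.pa β t s ∈ p := by
  rw [Pool.Agent.H635.RF.mem_Fs]
  constructor
  · rintro ⟨z, hz, h1, h2, h3⟩
    obtain ⟨β', t', s', rfl⟩ := h.eq_pa hz h2
    rw [fs_pa] at h1
    obtain ⟨rfl, rfl⟩ := ZFSet.pair_inj.1 h1
    rw [snn_pa] at h3
    rwa [h3]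
  · intro hz
    exact ⟨_, hz, fs_pa _ _ _, fsn_pa _ _ _, (snn_pa _ _ _).symm⟩

theorem Ats.mem_Ls {α p β t m : ZFSet.{0}} (h : Ats M π α p) :
    m ∈ Ls p (pair β t) ↔ ∃ e, Pool.Agent.H635.RF.sa β t m e ∈ p := by
  rw [Pool.Agent.H635.RF.mem_Ls]
  constructor
  · rintro ⟨z, hz, h1, h2, h3⟩
    obtain ⟨β', t', m', e', rfl⟩ := h.eq_sa hz h2
    rw [fs_sa] at h1
    obtain ⟨rfl, rfl⟩ := ZFSet.pair_inj.1 h1
    rw [snn_sa, fs_pair] at h3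
    exact ⟨e', by rwa [h3]⟩
  · rintro ⟨e, hz⟩
    exact ⟨_, hz, fs_sa _ _ _ _, fsn_sa _ _ _ _, by rw [snn_sa, fs_pair]⟩

theorem IsCond.ats {α p : ZFSet.{0}} (h : IsCond M π α p) : Ats M π α p := h.atom

theorem mem_PP {α p : ZFSet.{0}} : p ∈ PP M π α ↔ IsCond M π α p := by
  have hat : ∀ β ∈ α, ats M π β (fs (ap (gr (Ph M π) α) β)) (sn (ap (gr (Ph M π) α) β)) =
      ats M π β (PP M π β) (LL M π β) := by
    intro β hβ
    rw [ap_gr hβ]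
    rfl
  have hsub : (p ∈ pwM M (ZFSet.sUnion (im (fun β => ats M π β (fs (ap (gr (Ph M π) α) β))
      (sn (ap (gr (Ph M π) α) β))) α))) ↔ p ∈ M ∧ Ats M π α p := by
    rw [mem_pwM]
    refine and_congr_right fun _ => ?_
    constructor
    · intro h z hz
      obtain ⟨y, hy, hzy⟩ := ZFSet.mem_sUnion.1 (h hz)
      obtain ⟨β, hβ, rfl⟩ := mem_im.1 hy
      rw [hat β hβ, mem_ats] at hzy
      exact ⟨β, hβ, hzy⟩
    · intro h z hz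
      obtain ⟨β, hβ, h1⟩ := h z hz
      refine ZFSet.mem_sUnion.2 ⟨_, mem_im.2 ⟨β, hβ, rfl⟩, ?_⟩
      rw [hat β hβ, mem_ats]
      exact h1
  rw [PP_eq, Pg, ZFSet.mem_sep, hsub]
  constructor
  · rintro ⟨⟨h1, h2⟩, h3, h4, h5, h6, h7, h8⟩
    refine ⟨h1, h3, h2, ?_, ?_, ?_, ?_, ?_⟩
    · intro β t m e e' ha hb
      have := h4 _ ha _ hb (by rw [fs_sa, fs_sa]) (fsn_sa _ _ _ _) (fsn_sa _ _ _ _)
        (by rw [snn_sa, snn_sa, fs_pair, fs_pair])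
      exact (sa_inj.1 this).2.2.2
    · intro β t m e m' ha hm
      obtain ⟨z', hz', h9, h10, h11⟩ := h5 _ ha (fsn_sa _ _ _ _) m' (by rwa [snn_sa, fs_pair])
      obtain ⟨β', t', m'', e', rfl⟩ := h2.eq_sa hz' h10
      rw [fs_sa, fs_sa] at h9
      obtain ⟨rfl, rfl⟩ := ZFSet.pair_inj.1 h9
      rw [snn_sa, fs_pair] at h11
      subst h11
      exact ⟨e', hz'⟩
    · intro β t m e ha
      have := h6 _ ha (fsn_sa _ _ _ _)
      rwa [snn_sa] at this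
    · intro hc β t m e ha
      have := h7 hc _ ha (fsn_sa _ _ _ _)
      rw [blk_sa, ap_gr (h2.sa ha).1, snn_sa, fs_pair, sn_pair, fs_sa, sn_pair] at this
      exact this
    · intro hc β t
      by_cases hz : ∃ z ∈ p, fs z = pair β t
      · obtain ⟨z, hz, h9⟩ := hz
        have := h8 hc z hz
        rwa [h9] at this
      · have h9 : {x | x ∈ Fs p (pair β t)} = ∅ := by
          refine Set.eq_empty_iff_forall_notMem.2 fun x hx => ?_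
          obtain ⟨z, hz', h10, -⟩ := Pool.Agent.H635.RF.mem_Fs.1 hx
          exact hz ⟨z, hz', h10⟩
        rw [Sz, h9, Set.ncard_empty]
        exact Nat.zero_le _
  · intro h
    have h2 := h.ats
    refine ⟨⟨h.mem, h2⟩, h.fin, ?_, ?_, ?_, ?_, ?_⟩
    · intro z hz z' hz' h9 h10 h11 h12
      obtain ⟨β, t, m, e, rfl⟩ := h2.eq_sa hz h10
      obtain ⟨β', t', m', e', rfl⟩ := h2.eq_sa hz' h11
      rw [fs_sa, fs_sa] at h9
      obtain ⟨rfl, rfl⟩ := ZFSet.pair_inj.1 h9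
      rw [snn_sa, snn_sa, fs_pair, fs_pair] at h12
      subst h12
      rw [h.fn _ _ _ _ _ hz hz']
    · intro z hz h10 m' hm'
      obtain ⟨β, t, m, e, rfl⟩ := h2.eq_sa hz h10
      rw [snn_sa, fs_pair] at hm'
      obtain ⟨e', he'⟩ := h.seg _ _ _ _ _ hz hm'
      exact ⟨_, he', by rw [fs_sa, fs_sa], fsn_sa _ _ _ _, by rw [snn_sa, fs_pair]⟩
    · intro z hz h10
      obtain ⟨β, t, m, e, rfl⟩ := h2.eq_sa hz h10
      rw [snn_sa]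
      exact h.vl _ _ _ _ hz
    · intro hc z hz h10
      obtain ⟨β, t, m, e, rfl⟩ := h2.eq_sa hz h10
      rw [blk_sa, ap_gr (h2.sa hz).1, snn_sa, fs_pair, sn_pair, fs_sa, sn_pair]
      exact h.cn hc _ _ _ _ hz
    · intro hc z hz
      rcases h2.cases hz with ⟨β', t', m', e', h1, h2, h3, h4, rfl⟩ | ⟨β', t', s', h1, h2, h3, rfl⟩
      · rw [fs_sa]
        exact h.sz hc _ _
      · rw [fs_pa]
        exact h.sz hc _ _

theorem mem_LL {α p q : ZFSet.{0}} : pair q p ∈ LL M π α ↔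
    q ∈ PP M π α ∧ p ∈ PP M π α ∧ Le M π q p := by
  rw [LL_eq, ZFSet.mem_sep, ZFSet.pair_mem_prod, fs_pair, sn_pair, and_assoc]
  refine and_congr_right fun hq => and_congr_right fun hp => ?_
  have hq' := (mem_PP.1 hq).ats
  have hp' := (mem_PP.1 hp).ats
  unfold Od Le
  refine and_congr_right fun _ => ?_
  constructor
  · intro h β t s m e h1 h2 h3
    have := h _ h1 (fsn_pa _ _ _) _ h2 h3 (by rw [fs_pa, fs_sa]) (fsn_sa _ _ _ _)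
    rw [blk_pa, ap_gr (hp'.pa h1).1, snn_pa, snn_sa, fs_pair, sn_pair] at this
    exact this
  · intro h z hz h1 z' hz' h2 h3 h4
    obtain ⟨β, t, s, rfl⟩ := hp'.eq_pa hz h1
    obtain ⟨β', t', m', e', rfl⟩ := hq'.eq_sa hz' h4
    rw [fs_sa, fs_pa] at h3
    obtain ⟨rfl, rfl⟩ := ZFSet.pair_inj.1 h3
    rw [blk_pa, ap_gr (hp'.pa hz).1, snn_pa, snn_sa, fs_pair, sn_pair]
    exact h _ _ _ _ _ hz hz' h2

theorem Db_iff {β s r m v : ZFSet.{0}} : Db M π β s r m v ↔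
    ∃ q ∈ PP M π β, pair (pair m v) q ∈ s ∧ r ∈ PP M π β ∧ Le M π r q := by
  unfold Db Dc
  constructor
  · rintro ⟨q, hq, h1, h2⟩
    obtain ⟨h3, h4, h5⟩ := mem_LL.1 h2
    exact ⟨q, hq, h1, h3, h5⟩
  · rintro ⟨q, hq, h1, h2, h3⟩
    exact ⟨q, hq, h1, mem_LL.2 ⟨h2, hq, h3⟩⟩

theorem Fb_iff {β C r s m e : ZFSet.{0}} (hr : r ∈ PP M π β) : Fb M π β C r s m e ↔
    ∀ r₁ ∈ PP M π β, Le M π r₁ r → ∃ r₂ ∈ PP M π β, Le M π r₂ r₁ ∧
      ∃ v ∈ ZFSet.omega, pair e v ∈ C ∧ Db M π β s r₂ m v := by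
  unfold Fb Fo
  constructor
  · intro h r₁ hr₁ h1
    obtain ⟨r₂, hr₂, h2, h3⟩ := h r₁ hr₁ (mem_LL.2 ⟨hr₁, hr, h1⟩)
    exact ⟨r₂, hr₂, (mem_LL.1 h2).2.2, h3⟩
  · intro h r₁ hr₁ h1
    obtain ⟨r₂, hr₂, h2, h3⟩ := h r₁ hr₁ (mem_LL.1 h1).2.2
    exact ⟨r₂, hr₂, mem_LL.2 ⟨hr₂, hr₁, h2⟩, h3⟩

end

end Pool.Agent.H635.RF
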