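import Pool.Agent.H635.RF.Ord

/-!
# The iteration: restrictions, the order, and the construction of conditions
-/

set_option autoImplicit false
set_option linter.unreachableTactic false
set_option linter.unusedTactic false
set_option linter.unusedSectionVars false
set_option linter.unusedVariables false

namespace Pool.Agent.H635.RF

open Pool.Agent.W868 Pool.Agent.W868.GM Pool.Agent.Y588
open Pool.Agent.H635.RB (Fi dfn_fi fin_mem)
open ZFSet (pair)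

variable {M : Set ZFSet.{0}} {π : Par}

theorem le_refl (p : ZFSet.{0}) : Le M π p p :=
  ⟨fun _ h => h, fun _ _ _ _ _ _ h h' => absurd h h'⟩

theorem le_empty (p : ZFSet.{0}) : Le M π p ∅ :=
  ⟨fun z h => absurd h (ZFSet.notMem_empty z), fun _ _ _ _ _ h => absurd h (ZFSet.notMem_empty _)⟩

theorem le_rs {q p β : ZFSet.{0}} (hβ : β.IsOrdinal) (h : Le M π q p) :
    Le M π (rs q β) (rs p β) := by
  refine ⟨fun z hz => ?_, fun γ t s m e h1 h2 h3 => ?_⟩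
  · obtain ⟨h1, h2⟩ := mem_rs.1 hz
    exact mem_rs.2 ⟨h.1 h1, h2⟩
  · obtain ⟨h4, h5⟩ := pa_mem_rs.1 h1
    obtain ⟨h6, -⟩ := sa_mem_rs.1 h2
    rw [rs_rs (hβ.subset_of_mem h5)]
    exact h.2 _ _ _ _ _ h4 h6 fun h7 => h3 (sa_mem_rs.2 ⟨h7, h5⟩)

theorem isAt_blk {β z : ZFSet.{0}} (h : IsAt M π β z) : blk z = β := by
  rcases h with ⟨t, -, m, -, e, -, rfl⟩ | ⟨t, -, s, -, rfl⟩
  · exact blk_sa _ _ _ _
  · exact blk_pa _ _ _

theorem Ats.blk {α p z : ZFSet.{0}} (h : Ats M π α p) (hz : z ∈ p) :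
    Pool.Agent.H635.RF.blk z ∈ α := by
  obtain ⟨β, hβ, h1⟩ := h z hz
  rwa [isAt_blk h1]

theorem Ats.rs {α p : ZFSet.{0}} (h : Ats M π α p) (β : ZFSet.{0}) :
    Ats M π β (Pool.Agent.H635.RF.rs p β) := by
  intro z hz
  obtain ⟨h1, h2⟩ := mem_rs.1 hz
  obtain ⟨γ, -, h3⟩ := h z h1
  rw [isAt_blk h3] at h2
  exact ⟨γ, h2, h3⟩

theorem Ats.rs_eq {α p : ZFSet.{0}} (h : Ats M π α p) : Pool.Agent.H635.RF.rs p α = p := by
  ext z
  rw [mem_rs]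
  exact ⟨fun h1 => h1.1, fun h1 => ⟨h1, h.blk h1⟩⟩

theorem Ats.mono {α β p : ZFSet.{0}} (h : Ats M π α p) (hs : α ⊆ β) : Ats M π β p := by
  intro z hz
  obtain ⟨γ, h1, h2⟩ := h z hz
  exact ⟨γ, hs h1, h2⟩

theorem Ats.sub {α p q : ZFSet.{0}} (h : Ats M π α p) (hs : q ⊆ p) : Ats M π α q :=
  fun z hz => h z (hs hz)

theorem Ats.union {α p q : ZFSet.{0}} (h : Ats M π α p) (h' : Ats M π α q) :
    Ats M π α (p ∪ q) := by
  intro z hz
  rcases ZFSet.mem_union.1 hz with h1 | h1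
  · exact h z h1
  · exact h' z h1

theorem Fs_rs {p β γ t : ZFSet.{0}} (h : Ats M π β p) {δ : ZFSet.{0}} (hγ : γ ∈ δ) :
    Fs (rs p δ) (pair γ t) = Fs p (pair γ t) := by
  ext s
  rw [(h.rs δ).mem_Fs, h.mem_Fs, pa_mem_rs]
  exact ⟨fun h => h.1, fun h => ⟨h, hγ⟩⟩

theorem Ls_rs {p β γ t : ZFSet.{0}} (h : Ats M π β p) {δ : ZFSet.{0}} (hγ : γ ∈ δ) :
    Ls (rs p δ) (pair γ t) = Ls p (pair γ t) := by
  ext s
  rw [(h.rs δ).mem_Ls, h.mem_Ls]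
  refine exists_congr fun e => ?_
  rw [sa_mem_rs]
  exact ⟨fun h => h.1, fun h => ⟨h, hγ⟩⟩

theorem Fs_rs' {p β γ t : ZFSet.{0}} (h : Ats M π β p) {δ : ZFSet.{0}} (hγ : γ ∉ δ) :
    Fs (rs p δ) (pair γ t) = ∅ := by
  refine (ZFSet.eq_empty _).2 fun s hs => ?_
  rw [(h.rs δ).mem_Fs, pa_mem_rs] at hs
  exact hγ hs.2

theorem sz_empty {Y : ZFSet.{0}} : Sz ∅ Y := by
  have h9 : {x : ZFSet.{0} | x ∈ (∅ : ZFSet.{0})} = ∅ :=
    Set.eq_empty_iff_forall_notMem.2 fun x hx => ZFSet.notMem_empty x hx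
  rw [Sz, h9, Set.ncard_empty]
  exact Nat.zero_le _

theorem PP_mono {α β p : ZFSet.{0}} (h : β ⊆ α) (hp : p ∈ PP M π β) : p ∈ PP M π α := by
  rw [mem_PP] at hp ⊢
  exact ⟨hp.mem, hp.fin, hp.ats.mono h, hp.fn, hp.seg, hp.vl, hp.cn, hp.sz⟩

section

variable (hM : IsZF M)

include hM

theorem rs_in {p β : ZFSet.{0}} (hp : p ∈ M) (fp : Fi p) : rs p β ∈ M :=
  fin_mem hM (Fi.mono fp rs_sub) fun x hx => hM.trans _ hp _ (rs_sub hx)

theorem rs_mem {α β p : ZFSet.{0}} (hβ : β.IsOrdinal) (hp : p ∈ PP M π α) :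
    rs p β ∈ PP M π β := by
  rw [mem_PP] at hp ⊢
  refine ⟨rs_in hM hp.mem hp.fin, Fi.mono hp.fin rs_sub, hp.ats.rs β, ?_, ?_, ?_, ?_, ?_⟩
  · intro γ t m e e' h h'
    exact hp.fn _ _ _ _ _ (rs_sub h) (rs_sub h')
  · intro γ t m e m' h h'
    obtain ⟨h1, h2⟩ := sa_mem_rs.1 h
    obtain ⟨e', he'⟩ := hp.seg _ _ _ _ _ h1 h'
    exact ⟨e', sa_mem_rs.2 ⟨he', h2⟩⟩
  · intro γ t m e h
    exact hp.vl _ _ _ _ (rs_sub h)
  · intro hc γ t m e h
    obtain ⟨h1, h2⟩ := sa_mem_rs.1 h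
    rw [rs_rs (hβ.subset_of_mem h2)]
    exact hp.cn hc _ _ _ _ h1
  · intro hc γ t
    by_cases hγ : γ ∈ β
    · rw [Fs_rs hp.ats hγ, Ls_rs hp.ats hγ]
      exact hp.sz hc γ t
    · rw [Fs_rs' hp.ats hγ]
      exact sz_empty

theorem le_trans {α : ZFSet.{0}} (hα : α.IsOrdinal) : ∀ p ∈ PP M π α, ∀ q ∈ PP M π α,
    ∀ r ∈ PP M π α, Le M π r q → Le M π q p → Le M π r p := by
  induction α using ZFSet.inductionOn with
  | _ α ih =>
    intro p hp q hq r hr h1 h2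
    refine ⟨fun z hz => h1.1 (h2.1 hz), fun β t s m e h3 h4 h5 => ?_⟩
    have hβ : β ∈ α := ((mem_PP.1 hp).ats.pa h3).1
    have hβo := hα.mem hβ
    by_cases h6 : sa β t m e ∈ q
    · have h7 := h2.2 _ _ _ _ _ h3 h6 h5
      have hqβ := rs_mem (π := π) hM hβo hq
      have hrβ := rs_mem (π := π) hM hβo hr
      rw [Fb_iff hqβ] at h7
      rw [Fb_iff hrβ]
      intro r₁ hr₁ h8
      exact h7 r₁ hr₁ (ih β hβ hβo _ hqβ _ hrβ _ hr₁ h8 (le_rs hβo h1))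
    · exact h1.2 _ _ _ _ _ (h2.1 h3) h4 h6

theorem Fb.mono {β C r r' s m e : ZFSet.{0}} (hβ : β.IsOrdinal) (hr : r ∈ PP M π β)
    (hr' : r' ∈ PP M π β) (hle : Le M π r' r) (h : Fb M π β C r s m e) :
    Fb M π β C r' s m e := by
  rw [Fb_iff hr] at h
  rw [Fb_iff hr']
  intro r₁ hr₁ h8
  exact h r₁ hr₁ (le_trans hM hβ _ hr _ hr' _ hr₁ h8 hle)

theorem Db.mono {β s r r' m v : ZFSet.{0}} (hβ : β.IsOrdinal) (hr : r ∈ PP M π β)
    (hr' : r' ∈ PP M π β) (hle : Le M π r' r) (h : Db M π β s r m v) :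
    Db M π β s r' m v := by
  rw [Db_iff] at h ⊢
  obtain ⟨q, hq, h1, -, h2⟩ := h
  exact ⟨q, hq, h1, hr', le_trans hM hβ _ hq _ hr _ hr' hle h2⟩

theorem Fb_of_Db {β C s r m v e : ZFSet.{0}} (hβ : β.IsOrdinal) (hr : r ∈ PP M π β)
    (h : Db M π β s r m v) (hv : v ∈ ZFSet.omega) (hC : pair e v ∈ C) :
    Fb M π β C r s m e := by
  rw [Fb_iff hr]
  intro r₁ hr₁ h1
  exact ⟨r₁, hr₁, le_refl _, v, hv, hC, Db.mono hM hβ hr hr₁ h1 h⟩

theorem empty_mem_PP (α : ZFSet.{0}) : (∅ : ZFSet.{0}) ∈ PP M π α := by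
  rw [mem_PP]
  refine ⟨hM.empty_mem, fi_empty, ?_, ?_, ?_, ?_, ?_, ?_⟩
  · intro z hz
    exact absurd hz (ZFSet.notMem_empty _)
  · intro β t m e e' h
    exact absurd h (ZFSet.notMem_empty _)
  · intro β t m e m' h
    exact absurd h (ZFSet.notMem_empty _)
  · intro β t m e h
    exact absurd h (ZFSet.notMem_empty _)
  · intro hc β t m e h
    exact absurd h (ZFSet.notMem_empty _)
  · intro hc β t
    have : Fs ∅ (pair β t) = ∅ := by
      refine (ZFSet.eq_empty _).2 fun s hs => ?_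
      obtain ⟨z, hz, -⟩ := mem_Fs.1 hs
      exact ZFSet.notMem_empty _ hz
    rw [this]
    exact sz_empty

theorem isForcing_PP (hπ : POk M π) {α : ZFSet.{0}} (hα : α ∈ M) (hαo : α.IsOrdinal) :
    IsForcing M (PP M π α) (LL M π α) where
  mem := PP_mem hM hπ hα
  le_mem := LL_mem hM hπ hα
  refl p hp := mem_LL.2 ⟨hp, hp, le_refl p⟩
  trans p hp q hq r hr h1 h2 := mem_LL.2 ⟨hr, hp,
    le_trans hM hαo _ hp _ hq _ hr (mem_LL.1 h1).2.2 (mem_LL.1 h2).2.2⟩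
  top := ⟨∅, empty_mem_PP hM α, fun p hp => mem_LL.2 ⟨hp, empty_mem_PP hM α, le_empty p⟩⟩

/-- The construction of conditions. -/
theorem mk_PP {α p : ZFSet.{0}} (hα : α.IsOrdinal) (hp : p ∈ M) (fp : Fi p)
    (hat : Ats M π α p) (hfn : ∀ β t m e e', sa β t m e ∈ p → sa β t m e' ∈ p → e = e')
    (hseg : ∀ β t m e m', sa β t m e ∈ p → m' ∈ m → ∃ e', sa β t m' e' ∈ p)
    (hvl : ∀ β t m e, sa β t m e ∈ p → pair m e ∈ π.Vl)
    (hcn : π.c → ∀ β t m e, sa β t m e ∈ p → rs p β ∈ PP M π β →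
      Fb M π β π.Cn (rs p β) t m e)
    (hsz : π.c → ∀ β t, Sz (Fs p (pair β t)) (Ls p (pair β t))) : p ∈ PP M π α := by
  have key : ∀ β : ZFSet.{0}, β.IsOrdinal → rs p β ∈ PP M π β := by
    intro β
    induction β using ZFSet.inductionOn with
    | _ β ih =>
      intro hβ
      rw [mem_PP]
      refine ⟨rs_in hM hp fp, Fi.mono fp rs_sub, hat.rs β, ?_, ?_, ?_, ?_, ?_⟩
      · intro γ t m e e' h h'
        exact hfn _ _ _ _ _ (rs_sub h) (rs_sub h')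
      · intro γ t m e m' h h'
        obtain ⟨h1, h2⟩ := sa_mem_rs.1 h
        obtain ⟨e', he'⟩ := hseg _ _ _ _ _ h1 h'
        exact ⟨e', sa_mem_rs.2 ⟨he', h2⟩⟩
      · intro γ t m e h
        exact hvl _ _ _ _ (rs_sub h)
      · intro hc γ t m e h
        obtain ⟨h1, h2⟩ := sa_mem_rs.1 h
        rw [rs_rs (hβ.subset_of_mem h2)]
        exact hcn hc _ _ _ _ h1 (ih γ h2 (hβ.mem h2))
      · intro hc γ t
        by_cases hγ : γ ∈ β
        · rw [Fs_rs hat hγ, Ls_rs hat hγ]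
          exact hsz hc γ t
        · rw [Fs_rs' hat hγ]
          exact sz_empty
  have := key α hα
  rwa [hat.rs_eq] at this

end

end Pool.Agent.H635.RF
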