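import Pool.Graph.R_seed8.Y588.Pf

/-!
# Small facts on finite sets and on natural numbers

These facts are taken from the library module `H158_HM.Cnd`.
-/

set_option autoImplicit false
set_option linter.unreachableTactic false
set_option linter.unusedTactic false
set_option linter.unusedSectionVars false

namespace Pool.Agent.H635.RB

open Pool.Agent.W868 Pool.Agent.W868.GM Pool.Agent.Y588
open ZFSet (pair)

theorem mem_succ {n : ℕ} {z : ZFSet.{0}} : z ∈ nat (n + 1) ↔ z = nat n ∨ z ∈ nat n :=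
  ZFSet.mem_insert_iff

/-- The value of a set of pairs. -/
theorem ap_unique {g a b : ZFSet.{0}} (h : ∀ q, (q ∈ g ∧ fs q = a) ↔ q = pair a b) :
    ap g a = b := by
  have h1 : ZFSet.sep (fun q => fs q = a) g = {pair a b} := by
    ext q
    rw [ZFSet.mem_sep, ZFSet.mem_singleton, h]
  have h2 : im sn ({pair a b} : ZFSet.{0}) = {b} := by
    ext z
    rw [mem_im, ZFSet.mem_singleton]
    constructor
    · rintro ⟨q, hq, rfl⟩
      rw [ZFSet.mem_singleton] at hq
      rw [hq, sn_pair]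
    · rintro rfl
      exact ⟨pair a z, by simp, by rw [sn_pair]⟩
  rw [ap, h1, h2, ZFSet.sUnion_singleton]

/-- Change of one value. -/
theorem exists_mod {M : Set ZFSet.{0}} (hM : IsZF M) {f a b : ZFSet.{0}} (hf : f ∈ M) (ha : a ∈ M)
    (hb : b ∈ M) : ∃ f' ∈ M, ap f' a = b ∧ ∀ c, c ≠ a → ap f' c = ap f c := by
  have hs : ZFSet.sep (fun u => ¬ fs u = a) f ∈ M := by
    refine hM.sep_mem ?_ hf
    exact (Dfn.eq (hM.fs' (DfnF.proj 0)) (DfnF.const ha)).not
  refine ⟨insert (pair a b) (ZFSet.sep (fun u => ¬ fs u = a) f),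
    hM.insert_mem (hM.pair_mem ha hb) hs, ?_, ?_⟩
  · refine ap_unique fun q => ?_
    rw [ZFSet.mem_insert_iff, ZFSet.mem_sep]
    constructor
    · rintro ⟨h1 | h1, h2⟩
      · exact h1
      · exact absurd h2 h1.2
    · rintro rfl
      exact ⟨Or.inl rfl, fs_pair _ _⟩
  · intro c hc
    unfold ap
    congr 2
    ext q
    rw [ZFSet.mem_sep, ZFSet.mem_sep, ZFSet.mem_insert_iff, ZFSet.mem_sep]
    constructor
    · rintro ⟨rfl | h1, h2⟩
      · rw [fs_pair] at h2
        exact absurd h2.symm hc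
      · exact ⟨h1.1, h2⟩
    · rintro ⟨h1, rfl⟩
      exact ⟨Or.inr ⟨h1, hc⟩, rfl⟩

/-- The set is finite. -/
def Fi (p : ZFSet.{0}) : Prop := {x | x ∈ p}.Finite

theorem nat_mem_iff {i n : ℕ} : nat i ∈ nat n ↔ i < n := by
  induction n with
  | zero => exact ⟨fun h => absurd h (ZFSet.notMem_empty _), fun h => absurd h (Nat.not_lt_zero _)⟩
  | succ n ih =>
    rw [mem_succ, ih]
    constructor
    · rintro (h | h)
      · rw [nat_injective h]
        exact Nat.lt_succ_self n
      · omega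
    · intro h
      rcases Nat.lt_succ_iff_lt_or_eq.1 h with h | h
      · exact Or.inr h
      · exact Or.inl (by rw [h])

theorem mem_nat {z : ZFSet.{0}} {n : ℕ} : z ∈ nat n ↔ ∃ i < n, z = nat i := by
  constructor
  · intro h
    obtain ⟨i, rfl⟩ := mem_omega_iff.1 (nat_subset_omega h)
    exact ⟨i, nat_mem_iff.1 h, rfl⟩
  · rintro ⟨i, hi, rfl⟩
    exact nat_mem_iff.2 hi

section fin

variable {M : Set ZFSet.{0}} (hM : IsZF M)

include hM

theorem exists_enum (s : Finset ZFSet.{0}) (hs : ∀ x ∈ s, x ∈ M) :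
    ∃ n : ℕ, ∃ f ∈ M, ∀ x ∈ s, ∃ i < n, x = ap f (nat i) := by
  classical
  induction s using Finset.induction_on with
  | empty => exact ⟨0, ∅, hM.empty_mem, fun x hx => absurd hx (Finset.notMem_empty x)⟩
  | insert x s _ ih =>
    obtain ⟨n, f, hf, h1⟩ := ih fun y hy => hs y (Finset.mem_insert_of_mem hy)
    obtain ⟨f', hf', h2, h3⟩ := exists_mod hM hf (hM.nat_mem n) (hs x (Finset.mem_insert_self x s))
    refine ⟨n + 1, f', hf', fun y hy => ?_⟩
    rcases Finset.mem_insert.1 hy with rfl | hy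
    · exact ⟨n, Nat.lt_succ_self n, h2.symm⟩
    · obtain ⟨i, hi, rfl⟩ := h1 y hy
      refine ⟨i, by omega, (h3 _ fun h => ?_).symm⟩
      have := nat_injective h
      omega

theorem dfn_fi {n : ℕ} {F : (Fin n → ZFSet.{0}) → ZFSet.{0}} (hF : DfnF M M F) :
    Dfn M M fun v => Fi (F v) := by
  have hB := hM.base
  refine Dfn.comp1 (Q := Fi) ?_ hF
  have h1 : Dfn M M fun w : Fin 1 → ZFSet.{0} => ∃ n ∈ ZFSet.omega, ∃ f ∈ M, ∀ x ∈ w 0,
      ∃ i ∈ n, x = ap f i := by
    refine hB.bex (Q := fun n w => ∃ f ∈ M, ∀ x ∈ w 0, ∃ i ∈ n, x = ap f i)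
      (DfnF.const hM.infinity) ?_
    refine Dfn.ex (Q := fun f w => ∀ x ∈ w 1, ∃ i ∈ w 0, x = ap f i) ?_
    refine hB.ball (Q := fun x w => ∃ i ∈ w 1, x = ap (w 0) i) (DfnF.proj 2) ?_
    refine hB.bex (Q := fun i w => w 0 = ap (w 1) i) (DfnF.proj 2) ?_
    exact Dfn.eq (DfnF.proj 1) (hM.ap' (DfnF.proj 2) (DfnF.proj 0))
  refine h1.congr fun v hv => ?_
  constructor
  · rintro ⟨n, hn, f, -, h2⟩
    obtain ⟨n, rfl⟩ := mem_omega_iff.1 hn
    refine Set.Finite.subset (Set.Finite.image (fun i : ℕ => ap f (nat i))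
      (Set.finite_lt_nat n)) ?_
    intro x hx
    obtain ⟨i, hi, rfl⟩ := h2 x hx
    obtain ⟨k, hk, rfl⟩ := mem_nat.1 hi
    exact ⟨k, hk, rfl⟩
  · intro h
    obtain ⟨n, f, hf, h2⟩ := exists_enum hM (Set.Finite.toFinset h) fun x hx =>
      hM.trans _ (hv 0) _ ((Set.Finite.mem_toFinset h).1 hx)
    refine ⟨nat n, nat_mem_omega n, f, hf, fun x hx => ?_⟩
    obtain ⟨i, hi, h3⟩ := h2 x ((Set.Finite.mem_toFinset h).2 hx)
    exact ⟨nat i, nat_mem_iff.2 hi, h3⟩

/-- Finite subsets of the model are in the model. -/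
theorem fin_mem {p : ZFSet.{0}} (hp : Fi p) (h : ∀ x ∈ p, x ∈ M) : p ∈ M := by
  classical
  have h1 : ∀ s : Finset ZFSet.{0}, (∀ x ∈ s, x ∈ M) → ∀ q : ZFSet.{0},
      (∀ x, x ∈ q ↔ x ∈ s) → q ∈ M := by
    intro s
    induction s using Finset.induction_on with
    | empty =>
      intro _ q hq
      have : q = ∅ := (ZFSet.eq_empty q).2 fun y hy => absurd ((hq y).1 hy) (Finset.notMem_empty y)
      rw [this]
      exact hM.empty_mem
    | insert x s hx ih =>
      intro hs q hq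
      have h2 := ih (fun y hy => hs y (Finset.mem_insert_of_mem hy))
        (ZFSet.sep (fun y => y ∈ s) q) (by
          intro y
          rw [ZFSet.mem_sep, hq, Finset.mem_insert]
          tauto)
      have h3 : q = insert x (ZFSet.sep (fun y => y ∈ s) q) := by
        ext y
        rw [ZFSet.mem_insert_iff, ZFSet.mem_sep, hq, Finset.mem_insert]
        tauto
      rw [h3]
      exact hM.insert_mem (hs x (Finset.mem_insert_self x s)) h2
  exact h1 hp.toFinset (fun x hx => h x (hp.mem_toFinset.1 hx)) p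
    fun x => (hp.mem_toFinset).symm

end fin

theorem nat_sub {k n : ℕ} : nat k ⊆ nat n ↔ k ≤ n := by
  constructor
  · intro h
    by_contra hcon
    exact ZFSet.mem_irrefl _ (h (nat_mem_iff.2 (not_le.1 hcon)))
  · exact nat_subset

end Pool.Agent.H635.RB
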