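import Pool.Agent.H635.RF.Xt

/-!
# The iteration: extension of stems, and conditions with room
-/

set_option autoImplicit false
set_option linter.unreachableTactic false
set_option linter.unusedTactic false
set_option linter.unusedSectionVars false
set_option linter.unusedVariables false

namespace Pool.Agent.H635.RF

open Pool.Agent.W868 Pool.Agent.W868.GM Pool.Agent.Y588
open Pool.Agent.H635.RB (Fi dfn_fi fin_mem nat_mem_iff mem_nat)
open ZFSet (pair)

variable {M : Set ZFSet.{0}} {π : Par}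

/-- The property of the parameters that is used for the extension of stems. -/
structure PAx (π : Par) : Prop where
  ent : ∀ (n b : ℕ) (V : Finset ℕ), (π.c → V.card ≤ n) → ∃ e ∈ π.E, pair (nat n) e ∈ π.Vl ∧
    pair e (nat b) ∈ π.Cn ∧ ∀ v ∈ V, pair e (nat v) ∈ π.Al

theorem mem_nat_self (n : ℕ) : nat n ∉ nat n := by
  rw [nat_mem_iff]
  exact lt_irrefl n

theorem mem_nat_succ {n : ℕ} {x : ZFSet.{0}} : x ∈ nat (n + 1) ↔ x = nat n ∨ x ∈ nat n := by
  rw [mem_nat, mem_nat]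
  constructor
  · rintro ⟨i, h, rfl⟩
    rcases (Nat.lt_succ_iff.1 h).lt_or_eq with h | h
    · exact Or.inr ⟨i, h, rfl⟩
    · exact Or.inl (by rw [h])
  · rintro (rfl | ⟨i, h, rfl⟩)
    · exact ⟨n, by omega, rfl⟩
    · exact ⟨i, by omega, rfl⟩

theorem len_mono {α p q : ZFSet.{0}} (hq : IsCond M π α q) (h : p ⊆ q) (β t : ZFSet.{0}) :
    Len p β t ≤ Len q β t := by
  refine Set.ncard_le_ncard ?_ (fin_stem hq.fin β t)
  rintro m ⟨e, he⟩
  exact ⟨e, h he⟩

/-- The extension `q` of `p` adds only atoms below `β` and parts of the stems with labels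
in `T`. -/
def Ad (β : ZFSet.{0}) (T : Set ZFSet.{0}) (p q : ZFSet.{0}) : Prop :=
  ∀ z ∈ q, z ∉ p → blk z ∈ β ∨ ∃ t ∈ T, ∃ m e, z = sa β t m e

theorem Ad.trans {β p q r : ZFSet.{0}} {T : Set ZFSet.{0}} (h1 : Ad β T p q) (h2 : Ad β T q r) :
    Ad β T p r := by
  intro z hz hz'
  by_cases h : z ∈ q
  · exact h1 z h hz'
  · exact h2 z hz h

theorem Ad.mono {β p q : ZFSet.{0}} {T T' : Set ZFSet.{0}} (h1 : Ad β T p q) (h : T ⊆ T') :
    Ad β T' p q := by
  intro z hz hz'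
  rcases h1 z hz hz' with h2 | ⟨t, ht, h3⟩
  · exact Or.inl h2
  · exact Or.inr ⟨t, h ht, h3⟩

theorem Ad.pa {β p q : ZFSet.{0}} {T : Set ZFSet.{0}} (h1 : Ad β T p q) {γ t s : ZFSet.{0}}
    (h : Pool.Agent.H635.RF.pa γ t s ∈ q) (hγ : γ ∉ β) : Pool.Agent.H635.RF.pa γ t s ∈ p := by
  by_contra h2
  rcases h1 _ h h2 with h3 | ⟨t, ht, m, e, h3⟩
  · rw [blk_pa] at h3
    exact hγ h3
  · exact sa_ne_pa h3.symm

section

variable (hM : IsZF M)

include hM

theorem omega_mem_M {m : ZFSet.{0}} (hm : m ∈ ZFSet.omega) : m ∈ M :=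
  hM.trans _ hM.infinity _ hm

theorem sa_mem_M {β t m e : ZFSet.{0}} (hβ : β ∈ M) (ht : t ∈ M) (hm : m ∈ M) (he : e ∈ M) :
    sa β t m e ∈ M :=
  hM.pair_mem (hM.pair_mem hβ ht) (hM.pair_mem hM.empty_mem (hM.pair_mem hm he))

theorem pa_mem_M {β t s : ZFSet.{0}} (hβ : β ∈ M) (ht : t ∈ M) (hs : s ∈ M) :
    pa β t s ∈ M :=
  hM.pair_mem (hM.pair_mem hβ ht) (hM.pair_mem (hM.single_mem hM.empty_mem) hs)

theorem Tb_mem {β t : ZFSet.{0}} (h : t ∈ Tb M π β) : t ∈ M ∧ (π.c → t ∈ Nm M π β) := by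
  unfold Tb Lb at h
  rcases ZFSet.mem_union.1 h with h | h
  · have h1 := (ZFSet.mem_sep.1 h).1
    exact ⟨(mem_Nm.1 h1).1, fun _ => h1⟩
  · obtain ⟨h1, h2⟩ := ZFSet.mem_sep.1 h
    rw [ZFSet.mem_singleton] at h1
    subst h1
    exact ⟨hM.empty_mem, fun hc => absurd hc h2⟩

variable (hπ : POk M π)

include hπ

/-- Extension of a stem by one entry. -/
theorem stem_ext {α β p r t e : ZFSet.{0}} (hαM : α ∈ M) (hα : α.IsOrdinal) (hβα : β ∈ α)
    (hp : p ∈ PP M π α) (ht : t ∈ Tb M π β) (hr : r ∈ PP M π β) (hle : Le M π r (rs p β))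
    (he : e ∈ π.E) (hVl : pair (nat (Len p β t)) e ∈ π.Vl)
    (hCn : π.c → Fb M π β π.Cn r t (nat (Len p β t)) e)
    (hAl : ∀ s, pa β t s ∈ p → Fb M π β π.Al r s (nat (Len p β t)) e) :
    insert (sa β t (nat (Len p β t)) e) (p ∪ r) ∈ PP M π α ∧
    Le M π (insert (sa β t (nat (Len p β t)) e) (p ∪ r)) p ∧
    rs (insert (sa β t (nat (Len p β t)) e) (p ∪ r)) β = r := by
  have hβ : β.IsOrdinal := hα.mem hβα
  obtain ⟨h1, h2, h3⟩ := glue hM hα hβ (hα.subset_of_mem hβα) hp hr hle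
  set n := Len p β t with hn
  set a := sa β t (nat n) e with ha
  have hp' := mem_PP.1 hp
  have hr' := mem_PP.1 hr
  have h1' := mem_PP.1 h1
  have hβM : β ∈ M := hM.trans _ hαM _ hβα
  have hββ : β ∉ β := ZFSet.mem_irrefl β
  have hup : ∀ m e, sa β t m e ∈ p ∪ r → sa β t m e ∈ p := by
    intro m e h
    rcases ZFSet.mem_union.1 h with h | h
    · exact h
    · exact absurd (hr'.ats.sa h).1 hββ
  have hup' : ∀ t s, pa β t s ∈ p ∪ r → pa β t s ∈ p := by
    intro t s h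
    rcases ZFSet.mem_union.1 h with h | h
    · exact h
    · exact absurd (hr'.ats.pa h).1 hββ
  have hrs : rs (insert a (p ∪ r)) β = r := by
    refine Eq.trans ?_ h3
    ext z
    rw [mem_rs, mem_rs, ZFSet.mem_insert_iff]
    constructor
    · rintro ⟨rfl | h, h'⟩
      · rw [ha, blk_sa] at h'
        exact absurd h' hββ
      · exact ⟨h, h'⟩
    · rintro ⟨h, h'⟩
      exact ⟨Or.inr h, h'⟩
  have hL : Le M π (insert a (p ∪ r)) (p ∪ r) := by
    refine ⟨fun z hz => ZFSet.mem_insert_iff.2 (Or.inr hz), fun γ u s m e' h4 h5 h6 => ?_⟩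
    rcases ZFSet.mem_insert_iff.1 h5 with h7 | h7
    · obtain ⟨rfl, rfl, rfl, rfl⟩ := sa_inj.1 h7
      rw [hrs]
      exact hAl s (hup' _ _ h4)
    · exact absurd h7 h6
  have hat : Ats M π α (insert a (p ∪ r)) := by
    intro z hz
    rcases ZFSet.mem_insert_iff.1 hz with rfl | hz
    · exact ⟨β, hβα, Or.inl ⟨t, ht, nat n, nat_mem_omega n, e, he, rfl⟩⟩
    · exact h1'.ats z hz
  have hlen : ∀ m, (∃ e, sa β t m e ∈ p ∪ r) ↔ m ∈ nat n := by
    intro m
    rw [hn, ← len_iff hp']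
    exact exists_congr fun e => ⟨hup _ _, fun h => ZFSet.mem_union.2 (Or.inl h)⟩
  have hmem : insert a (p ∪ r) ∈ PP M π α := by
    refine mk_PP hM hα ?_ (Fi.insert h1'.fin) hat ?_ ?_ ?_ ?_ ?_
    · refine fin_mem hM (Fi.insert h1'.fin) fun x hx => ?_
      rcases ZFSet.mem_insert_iff.1 hx with rfl | hx
      · exact sa_mem_M hM hβM (Tb_mem hM ht).1 (hM.nat_mem n) (hM.trans _ hπ.E _ he)
      · exact hM.trans _ h1'.mem _ hx
    · intro γ u m e₁ e₂ h4 h5
      rcases ZFSet.mem_insert_iff.1 h4 with h6 | h6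
      · obtain ⟨rfl, rfl, rfl, rfl⟩ := sa_inj.1 h6
        rcases ZFSet.mem_insert_iff.1 h5 with h7 | h7
        · exact (sa_inj.1 h7).2.2.2.symm
        · exact absurd ((hlen _).1 ⟨_, h7⟩) (mem_nat_self n)
      · rcases ZFSet.mem_insert_iff.1 h5 with h7 | h7
        · obtain ⟨rfl, rfl, rfl, rfl⟩ := sa_inj.1 h7
          exact absurd ((hlen _).1 ⟨_, h6⟩) (mem_nat_self n)
        · exact h1'.fn _ _ _ _ _ h6 h7
    · intro γ u m e₁ m' h4 h5
      rcases ZFSet.mem_insert_iff.1 h4 with h6 | h6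
      · obtain ⟨rfl, rfl, rfl, rfl⟩ := sa_inj.1 h6
        obtain ⟨e', he'⟩ := (hlen m').2 h5
        exact ⟨e', ZFSet.mem_insert_iff.2 (Or.inr he')⟩
      · obtain ⟨e', he'⟩ := h1'.seg _ _ _ _ _ h6 h5
        exact ⟨e', ZFSet.mem_insert_iff.2 (Or.inr he')⟩
    · intro γ u m e₁ h4
      rcases ZFSet.mem_insert_iff.1 h4 with h6 | h6
      · obtain ⟨rfl, rfl, rfl, rfl⟩ := sa_inj.1 h6
        exact hVl
      · exact h1'.vl _ _ _ _ h6
    · intro hc γ u m e₁ h4 h5
      rcases ZFSet.mem_insert_iff.1 h4 with h6 | h6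
      · obtain ⟨rfl, rfl, rfl, rfl⟩ := sa_inj.1 h6
        rw [hrs]
        exact hCn hc
      · have hγo : γ.IsOrdinal := hα.mem (h1'.ats.sa h6).1
        exact Fb.mono hM hγo (rs_mem hM hγo h1) h5 (le_rs hγo hL) (h1'.cn hc _ _ _ _ h6)
    · intro hc γ u
      rw [sz_iff' hat]
      have h6 := h1'.sz hc γ u
      rw [sz_iff' h1'.ats] at h6
      have h7 : nF (insert a (p ∪ r)) γ u = nF (p ∪ r) γ u := by
        have : {s | pa γ u s ∈ insert a (p ∪ r)} = {s | pa γ u s ∈ p ∪ r} := Set.ext fun s =>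
          ⟨fun h => (ZFSet.mem_insert_iff.1 h).resolve_left fun h => sa_ne_pa h.symm,
            fun h => ZFSet.mem_insert_iff.2 (Or.inr h)⟩
        rw [nF, this, nF]
      rw [h7]
      refine h6.trans (Set.ncard_le_ncard ?_ (fin_stem (Fi.insert h1'.fin) γ u))
      rintro m ⟨e, he⟩
      exact ⟨e, ZFSet.mem_insert_iff.2 (Or.inr he)⟩
  exact ⟨hmem, le_trans hM hα _ hp _ h1 _ hmem hL h2, hrs⟩

/-- Adding a promise. -/
theorem add_pa {α β p t s : ZFSet.{0}} (hαM : α ∈ M) (hα : α.IsOrdinal) (hβα : β ∈ α)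
    (hp : p ∈ PP M π α) (ht : t ∈ Tb M π β) (hs : s ∈ Nm M π β)
    (hn : π.c → nF p β t + 1 ≤ Len p β t) :
    insert (pa β t s) p ∈ PP M π α ∧ Le M π (insert (pa β t s) p) p := by
  have hβ : β.IsOrdinal := hα.mem hβα
  have hp' := mem_PP.1 hp
  have hβM : β ∈ M := hM.trans _ hαM _ hβα
  have hsa : ∀ γ u m e, sa γ u m e ∈ insert (pa β t s) p → sa γ u m e ∈ p := by
    intro γ u m e h
    exact (ZFSet.mem_insert_iff.1 h).resolve_left fun h => sa_ne_pa h
  have hL : Le M π (insert (pa β t s) p) p := by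
    refine ⟨fun z hz => ZFSet.mem_insert_iff.2 (Or.inr hz), fun γ u s m e' h4 h5 h6 => ?_⟩
    exact absurd (hsa _ _ _ _ h5) h6
  refine ⟨?_, hL⟩
  have hat : Ats M π α (insert (pa β t s) p) := by
    intro z hz
    rcases ZFSet.mem_insert_iff.1 hz with rfl | hz
    · exact ⟨β, hβα, Or.inr ⟨t, ht, s, hs, rfl⟩⟩
    · exact hp'.ats z hz
  refine mk_PP hM hα ?_ (Fi.insert hp'.fin) hat ?_ ?_ ?_ ?_ ?_
  · refine fin_mem hM (Fi.insert hp'.fin) fun x hx => ?_
    rcases ZFSet.mem_insert_iff.1 hx with rfl | hx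
    · exact pa_mem_M hM hβM (Tb_mem hM ht).1 (mem_Nm.1 hs).1
    · exact hM.trans _ hp'.mem _ hx
  · intro γ u m e₁ e₂ h4 h5
    exact hp'.fn _ _ _ _ _ (hsa _ _ _ _ h4) (hsa _ _ _ _ h5)
  · intro γ u m e₁ m' h4 h5
    obtain ⟨e', he'⟩ := hp'.seg _ _ _ _ _ (hsa _ _ _ _ h4) h5
    exact ⟨e', ZFSet.mem_insert_iff.2 (Or.inr he')⟩
  · intro γ u m e₁ h4
    exact hp'.vl _ _ _ _ (hsa _ _ _ _ h4)
  · intro hc γ u m e₁ h4 h5
    have h6 := hsa _ _ _ _ h4
    have hγo : γ.IsOrdinal := hα.mem (hp'.ats.sa h6).1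
    exact Fb.mono hM hγo (rs_mem hM hγo hp) h5 (le_rs hγo hL) (hp'.cn hc _ _ _ _ h6)
  · intro hc γ u
    rw [sz_iff' hat]
    have h6 := hp'.sz hc γ u
    rw [sz_iff' hp'.ats] at h6
    have h8 : Len (insert (pa β t s) p) γ u = Len p γ u := by
      have : {m | ∃ e, sa γ u m e ∈ insert (pa β t s) p} = {m | ∃ e, sa γ u m e ∈ p} :=
        Set.ext fun m => exists_congr fun e =>
          ⟨hsa _ _ _ _, fun h => ZFSet.mem_insert_iff.2 (Or.inr h)⟩
      rw [Len, this, Len]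
    rw [h8]
    by_cases h9 : γ = β ∧ u = t
    · obtain ⟨rfl, rfl⟩ := h9
      refine le_trans' (hn hc) ?_
      have : {s' | pa γ u s' ∈ insert (pa γ u s) p} ⊆ insert s {s' | pa γ u s' ∈ p} := by
        intro s' h
        rcases ZFSet.mem_insert_iff.1 h with h | h
        · exact Or.inl (pa_inj.1 h).2.2
        · exact Or.inr h
      refine (Set.ncard_le_ncard this (Set.Finite.insert _ (fin_prom hp'.fin _ _))).trans ?_
      exact Set.ncard_insert_le _ _
    · have h7 : nF (insert (pa β t s) p) γ u = nF p γ u := by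
        have : {s' | pa γ u s' ∈ insert (pa β t s) p} = {s | pa γ u s ∈ p} := Set.ext fun s' =>
          ⟨fun h => (ZFSet.mem_insert_iff.1 h).resolve_left fun h => h9
            ⟨(pa_inj.1 h).1, (pa_inj.1 h).2.1⟩,
            fun h => ZFSet.mem_insert_iff.2 (Or.inr h)⟩
        rw [nF, this, nF]
      rw [h7]
      exact h6

variable (hx : PAx π)

include hx

theorem ext_one {α β p t : ZFSet.{0}} (hαM : α ∈ M) (hα : α.IsOrdinal) (hβα : β ∈ α)
    (hp : p ∈ PP M π α) (ht : t ∈ Tb M π β) :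
    ∃ q ∈ PP M π α, Le M π q p ∧ Len p β t + 1 ≤ Len q β t ∧ Ad β {t} p q := by
  classical
  have hβ : β.IsOrdinal := hα.mem hβα
  have hp' := mem_PP.1 hp
  set n := Len p β t with hn
  have hSf := fin_prom hp'.fin β t
  obtain ⟨r₀, h1, h2, h3⟩ := exists_decs (π := π) hM hβ (nat_mem_omega n) hSf
    (fun s hs => (hp'.ats.pa hs).2.2) _ (rs_mem hM hβ hp)
  obtain ⟨r, h4, h5, h6⟩ : ∃ r ∈ PP M π β, Le M π r r₀ ∧ (π.c → ∃ b : ℕ,
      Db M π β t r (nat n) (nat b)) := by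
    by_cases hc : π.c
    · obtain ⟨r, h4, h5, v, hv, h6⟩ := exists_dec ((Tb_mem hM ht).2 hc) h1 (nat_mem_omega n)
      obtain ⟨b, rfl⟩ := mem_omega_iff.1 hv
      exact ⟨r, h4, h5, fun _ => ⟨b, h6⟩⟩
    · exact ⟨r₀, h1, le_refl _, fun h => absurd h hc⟩
  have h7 : Le M π r (rs p β) := le_trans hM hβ _ (rs_mem hM hβ hp) _ h1 _ h4 h5 h2
  have h8 : ∀ s ∈ {s | pa β t s ∈ p}, ∃ v : ℕ, Db M π β s r (nat n) (nat v) := by
    intro s hs
    obtain ⟨v, hv, h9⟩ := h3 s hs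
    obtain ⟨b, rfl⟩ := mem_omega_iff.1 hv
    exact ⟨b, Db.mono hM hβ h1 h4 h5 h9⟩
  choose! v hv using h8
  obtain ⟨b, hb⟩ : ∃ b : ℕ, π.c → Db M π β t r (nat n) (nat b) := by
    by_cases hc : π.c
    · obtain ⟨b, hb⟩ := h6 hc
      exact ⟨b, fun _ => hb⟩
    · exact ⟨0, fun h => absurd h hc⟩
  have hcard : π.c → (hSf.toFinset.image v).card ≤ n := by
    intro hc
    refine Finset.card_image_le.trans ?_
    have h9 := hp'.sz hc β t
    rw [sz_iff' hp'.ats] at h9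
    rwa [← Set.ncard_eq_toFinset_card _ hSf]
  obtain ⟨e, he, h9, h10, h11⟩ := hx.ent n b _ hcard
  obtain ⟨h12, h13, h14⟩ := stem_ext hM hπ hαM hα hβα hp ht h4 h7 he (by rw [← hn]; exact h9)
    (fun hc => Fb_of_Db hM hβ h4 (hb hc) (nat_mem_omega b) h10)
    (fun s hs => Fb_of_Db hM hβ h4 (hv s hs) (nat_mem_omega _) (h11 _
      (Finset.mem_image.2 ⟨s, hSf.mem_toFinset.2 hs, rfl⟩)))
  rw [← hn] at h12 h13 h14
  refine ⟨_, h12, h13, ?_, ?_⟩
  · have h15 := len_iff (mem_PP.1 h12) (β := β) (t := t) (m := nat n)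
    have h16 := h15.1 ⟨e, ZFSet.mem_insert_iff.2 (Or.inl rfl)⟩
    rw [nat_mem_iff] at h16
    exact h16
  · intro z hz hz'
    rcases ZFSet.mem_insert_iff.1 hz with rfl | hz
    · exact Or.inr ⟨t, rfl, _, _, rfl⟩
    · rcases ZFSet.mem_union.1 hz with h | h
      · exact absurd h hz'
      · exact Or.inl ((mem_PP.1 h4).ats.blk h)

theorem ext_room {α β t : ZFSet.{0}} (hαM : α ∈ M) (hα : α.IsOrdinal) (hβα : β ∈ α)
    (ht : t ∈ Tb M π β) (N : ℕ) : ∀ p ∈ PP M π α,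
    ∃ q ∈ PP M π α, Le M π q p ∧ N ≤ Len q β t ∧ Ad β {t} p q := by
  induction N with
  | zero => exact fun p hp => ⟨p, hp, le_refl p, Nat.zero_le _, fun z h h' => absurd h h'⟩
  | succ N ih =>
    intro p hp
    obtain ⟨q, h1, h2, h3, h4⟩ := ih p hp
    obtain ⟨r, h5, h6, h7, h8⟩ := ext_one hM hπ hx hαM hα hβα h1 ht
    exact ⟨r, h5, le_trans hM hα _ hp _ h1 _ h5 h6 h2, by omega, h4.trans h8⟩

theorem ext_rooms {α β : ZFSet.{0}} (hαM : α ∈ M) (hα : α.IsOrdinal) (hβα : β ∈ α)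
    {T : Set ZFSet.{0}} (hT : T.Finite) (hTb : ∀ t ∈ T, t ∈ Tb M π β) (N : ℕ) :
    ∀ p ∈ PP M π α, ∃ q ∈ PP M π α, Le M π q p ∧ (∀ t ∈ T, N ≤ Len q β t) ∧ Ad β T p q := by
  induction T, hT using Set.Finite.induction_on with
  | empty => exact fun p hp => ⟨p, hp, le_refl p, fun t ht => absurd ht (Set.notMem_empty _),
      fun z h h' => absurd h h'⟩
  | @insert a S' ha hS' ih =>
    intro p hp
    obtain ⟨q, h1, h2, h3, h4⟩ := ih (fun t ht => hTb t (Set.mem_insert_of_mem _ ht)) p hp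
    obtain ⟨r, h5, h6, h7, h8⟩ := ext_room hM hπ hx hαM hα hβα (hTb a (Set.mem_insert _ _)) N
      q h1
    refine ⟨r, h5, le_trans hM hα _ hp _ h1 _ h5 h6 h2, fun t ht => ?_,
      (h4.mono (Set.subset_insert _ _)).trans (h8.mono ?_)⟩
    · rcases ht with rfl | ht
      · exact h7
      · exact (h3 t ht).trans (len_mono (mem_PP.1 h5) h6.1 β t)
    · intro t ht
      rw [Set.mem_singleton_iff] at ht
      exact Or.inl ht

omit hM hπ hx in
theorem exists_max {S : Set ZFSet.{0}} (hS : S.Finite) (ho : ∀ x ∈ S, x.IsOrdinal)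
    (hne : S.Nonempty) : ∃ β ∈ S, ∀ γ ∈ S, γ ∈ β ∨ γ = β := by
  induction S, hS using Set.Finite.induction_on with
  | empty => exact absurd hne Set.not_nonempty_empty
  | @insert a S' ha hS' ih =>
    rcases S'.eq_empty_or_nonempty with rfl | h
    · refine ⟨a, Set.mem_insert _ _, fun γ hγ => ?_⟩
      rcases hγ with rfl | hγ
      · exact Or.inr rfl
      · exact absurd hγ (Set.notMem_empty _)
    · obtain ⟨β, hβ, h1⟩ := ih (fun x hx => ho x (Set.mem_insert_of_mem _ hx)) h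
      have ha := ho a (Set.mem_insert _ _)
      have hb := ho β (Set.mem_insert_of_mem _ hβ)
      rcases ha.mem_trichotomous hb with h2 | h2 | h2
      · refine ⟨β, Set.mem_insert_of_mem _ hβ, fun γ hγ => ?_⟩
        rcases hγ with rfl | hγ
        · exact Or.inl h2
        · exact h1 γ hγ
      · refine ⟨β, Set.mem_insert_of_mem _ hβ, fun γ hγ => ?_⟩
        rcases hγ with rfl | hγ
        · exact Or.inr h2
        · exact h1 γ hγ
      · refine ⟨a, Set.mem_insert _ _, fun γ hγ => ?_⟩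
        rcases hγ with rfl | hγ
        · exact Or.inr rfl
        · rcases h1 γ hγ with h3 | rfl
          · exact Or.inl (ha.mem_trans h3 h2)
          · exact Or.inl h2

/-- The largest block of a condition. -/
theorem max_blk {α p : ZFSet.{0}} (hα : α.IsOrdinal) (hp : Ats M π α p) (fp : Fi p)
    (hne : ∃ z, z ∈ p) : ∃ β ∈ α, ∀ z ∈ p, blk z ∈ β ∨ blk z = β := by
  have h1 : (blk '' {z | z ∈ p}).Finite := Set.Finite.image _ fp
  obtain ⟨β, hβ, h2⟩ := exists_max h1 (by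
    rintro _ ⟨z, hz, rfl⟩
    exact hα.mem (hp.blk hz)) (by
    obtain ⟨z, hz⟩ := hne
    exact ⟨_, z, hz, rfl⟩)
  obtain ⟨z, hz, rfl⟩ := hβ
  exact ⟨_, hp.blk hz, fun w hw => h2 _ ⟨w, hw, rfl⟩⟩

/-- Conditions with room. -/
def Rm (p : ZFSet.{0}) : Prop := ∀ β t, 2 * nF p β t ≤ Len p β t

theorem exists_rm {α : ZFSet.{0}} (hαM : α ∈ M) (hα : α.IsOrdinal) : ∀ p ∈ PP M π α,
    ∃ q ∈ PP M π α, Le M π q p ∧ Rm q := by
  induction α using ZFSet.inductionOn with
  | _ α ih =>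
    intro p hp
    have hp' := mem_PP.1 hp
    by_cases hne : ∃ z, z ∈ p
    · obtain ⟨β, hβα, h1⟩ := max_blk hM hπ hx hα hp'.ats hp'.fin hne
      have hβ : β.IsOrdinal := hα.mem hβα
      have hβM : β ∈ M := hM.trans _ hαM _ hβα
      -- the labels
      set T : Set ZFSet.{0} := (fun z => sn (fs z)) '' {z | z ∈ p ∧ blk z = β} with hT
      have hTf : T.Finite := Set.Finite.image _ (Set.Finite.subset hp'.fin fun z hz => hz.1)
      have hTb : ∀ t ∈ T, t ∈ Tb M π β := by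
        rintro t ⟨z, ⟨hz, hz'⟩, rfl⟩
        rcases hp'.ats.cases hz with ⟨γ, t, m, e, h2, h3, h4, h5, rfl⟩ | ⟨γ, t, s, h2, h3, h4, rfl⟩
        · simp only [fs_sa, sn_pair]
          rw [blk_sa] at hz'
          rwa [← hz']
        · simp only [fs_pa, sn_pair]
          rw [blk_pa] at hz'
          rwa [← hz']
      obtain ⟨q, h2, h3, h4, h5⟩ := ext_rooms hM hπ hx hαM hα hβα hTf hTb
        (2 * {z | z ∈ p}.ncard) p hp
      have h2' := mem_PP.1 h2
      obtain ⟨r, h6, h7, h8⟩ := ih β hβα hβM hβ _ (rs_mem hM hβ h2)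
      have h6' := mem_PP.1 h6
      obtain ⟨h9, h10, h11⟩ := glue hM hα hβ (hα.subset_of_mem hβα) h2 h6 h7
      refine ⟨_, h9, le_trans hM hα _ hp _ h2 _ h9 h10 h3, fun γ t => ?_⟩
      by_cases hγ : γ ∈ β
      · have h12 : nF (q ∪ r) γ t = nF r γ t := by
          have : {s | pa γ t s ∈ q ∪ r} = {s | pa γ t s ∈ r} := Set.ext fun s => by
            constructor
            · intro h
              have : pa γ t s ∈ rs (q ∪ r) β := pa_mem_rs.2 ⟨h, hγ⟩
              rwa [h11] at this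
            · exact fun h => ZFSet.mem_union.2 (Or.inr h)
          rw [nF, this, nF]
        rw [h12]
        exact (h8 γ t).trans (len_mono (mem_PP.1 h9) (fun z hz => ZFSet.mem_union.2
          (Or.inr hz)) γ t)
      · have h13 : ∀ s, pa γ t s ∈ q ∪ r → pa γ t s ∈ p := by
          intro s h
          rcases ZFSet.mem_union.1 h with h | h
          · exact h5.pa h hγ
          · exact absurd (h6'.ats.pa h).1 hγ
        by_cases h14 : ∃ s, pa γ t s ∈ q ∪ r
        · obtain ⟨s, hs⟩ := h14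
          have h15 := h13 s hs
          have h16 : γ = β := by
            have := h1 _ h15
            rw [blk_pa] at this
            exact this.resolve_left hγ
          subst h16
          have h17 : t ∈ T := ⟨_, ⟨h15, blk_pa _ _ _⟩, by simp only [fs_pa, sn_pair]⟩
          have h18 : nF (q ∪ r) γ t ≤ {z | z ∈ p}.ncard := by
            have h19 : {s | pa γ t s ∈ q ∪ r} ⊆ (fun z => sn (sn z)) '' {z | z ∈ p} := by
              intro s hs
              exact ⟨_, h13 s hs, snn_pa _ _ _⟩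
            exact (Set.ncard_le_ncard h19 (Set.Finite.image _ hp'.fin)).trans
              (Set.ncard_image_le hp'.fin)
          have h20 := h4 t h17
          have h21 := len_mono (mem_PP.1 h9) (fun z hz => ZFSet.mem_union.2 (Or.inl hz)) γ t
          omega
        · have : {s | pa γ t s ∈ q ∪ r} = ∅ := Set.eq_empty_iff_forall_notMem.2 fun s hs =>
            h14 ⟨s, hs⟩
          rw [nF, this, Set.ncard_empty]
          omega
    · refine ⟨p, hp, le_refl p, fun β t => ?_⟩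
      have : {s | pa β t s ∈ p} = ∅ := Set.eq_empty_iff_forall_notMem.2 fun s hs =>
        hne ⟨_, hs⟩
      rw [nF, this, Set.ncard_empty]
      omega

end

end Pool.Agent.H635.RF
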